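import Pool.Agent.P.MP_b91a16_ag.Ln.Ind

/-! Polynomials of degree at most one in all but two variables: the first blow-up. -/

set_option linter.unusedSectionVars false

open MvPolynomial

namespace Pool.Agent.P.MP_b91a16_ag.Id.Ln

noncomputable section

variable {k ι ρ σ : Type} [Field k] [CharZero k] [IsAlgClosed k] [Fintype ι] [Fintype ρ]
  [DecidableEq ρ] [Fintype σ] {loc : Prop} {J : Set ρ} {β : ι → ρ} {Ξ : σ → Pred k (ι ⊕ ρ)}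
  {W : σ → MvPowerSeries ρ (Mot k)} {A : Set (ℕ × (ρ → ℕ))} {g f : ι ⊕ ρ → P2 k}
  {π : Fin 2 → P2 k} {n p q p' q' : ℕ} {a m : ρ → ℕ}
  {Al : (ι ⊕ ρ → P2 k) → Set (ℕ × (ρ → ℕ))}

/-- Generating series for the plain volume. -/
def GA (β : ι → ρ) (Ξ : σ → Pred k (ι ⊕ ρ)) (Ψ : AP k (Fin 2)) (g : ι ⊕ ρ → P2 k)
    (Z : σ → MvPowerSeries ρ (Mot k)) : Prop :=
  ∀ s e, AV (An Ψ (Th (Ξ s) g (bp β) e)) (MvPowerSeries.coeff e (Z s))

theorem Gen2.ga {Ψ : AP k (Fin 2)} {Z : σ → MvPowerSeries ρ (Mot k)} (h : Gen2 Ξ Ψ g (bp β) 0 Z) :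
    GA β Ξ Ψ g Z := fun s e => (h s e).av

theorem Gen2.sw {Z : σ → MvPowerSeries ρ (Mot k)}
    (h : Gen2 Ξ (Cone k q' p' q p) (pb (sw k) g) (bp β) 0 Z) : GA β Ξ (Cone k p q p' q') g Z :=
  fun s e => av_sw (fun K _ _ γ => by rw [Th_pb]) (h s e)

theorem vt_sw : vt (pb (sw k) g) (bp β) m a = pb (sw k) (vt g (bp β) a m) := by
  funext l
  rw [vt, pb, coeff_sw, pb, vt]
  simp [monomial_ex, sw, mul_right_comm]

theorem ga_lin {B : Matrix (Fin 2) (Fin 2) k} (hB : B.det ≠ 0) {Z : σ → MvPowerSeries ρ (Mot k)}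
    (h : GA β Ξ (Cone k 1 0 0 1) (pb (lin B) f) Z) : GA β Ξ (Cone k 1 0 0 1) f Z := by
  intro s e
  have h1 : ∀ j, aeval (lin B) (lin B⁻¹ j) = X j := fun j => by
    rw [lin_lin, Matrix.nonsing_inv_mul _ (Ne.isUnit hB), lin_one]
  have h2 : ∀ (B : Matrix (Fin 2) (Fin 2) k) (K : Type) [Field K] [Algebra k K]
      (γ : Fin 2 → PowerSeries K), (∀ j, PowerSeries.X ∣ γ j) → ∀ j,
      PowerSeries.X ∣ aeval γ (lin B j) := fun B K _ _ γ h j => by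
    simpa [lin] using dvd_aeval_sub_const h (lin B j)
  refine AV.aut (ψ := lin B) h1 (fun j => by
    rw [lin_lin, Matrix.mul_nonsing_inv _ (Ne.isUnit hB), lin_one]) ((h s e).congr fun K _ _ γ => ?_)
  rw [Th_pb]
  refine and_congr_left' (cen_iff.trans (Iff.trans ⟨h2 B K γ, fun h j => ?_⟩ cen_iff.symm))
  simpa only [← aeval_aeval, h1, aeval_X] using h2 B⁻¹ K _ h j

theorem ga_tri (h1 : q < p) (h2 : p' < q') (hL : Lo 1 1 g (bp β) a m) (hN : nv 1 1 a m ≠ 0)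
    {Z₁ Z₂ Z₃ : σ → MvPowerSeries ρ (Mot k)} (h₁ : GA β Ξ (Cone k p q 1 1) g Z₁)
    (h₂ : GA β Ξ (Ray k 1 1) g Z₂) (h₃ : GA β Ξ (Cone k 1 1 p' q') g Z₃) :
    GA β Ξ (Cone k p q p' q') g (Z₁ + (Z₂ + Z₃)) := fun s e =>
  (hyp k ι ρ).tri h1 h2 (fun K _ _ γ h => fin_ok 1 1 g _ a m e hL hN K γ h.1)
    (h₁ s e) (h₂ s e) (h₃ s e)

theorem reg_id {K : Type} [Field K] [Algebra k K] {γ : Fin 2 → PowerSeries K} :
    Reg k id K γ ↔ Ray k 1 1 K γ ∨ Cone k 1 1 0 1 K γ := by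
  simp only [Reg, Ray, Cone, id, one_mul, Nat.cast_one, Nat.cast_zero, zero_mul]
  constructor
  · rintro ⟨i, h1, h2, h3⟩
    rcases h3.eq_or_lt with h | h
    · exact Or.inl ⟨i, h1, h2, h.symm⟩
    · exact Or.inr ⟨h2 ▸ h, by rw [h2]; exact_mod_cast h1⟩
  · rintro (⟨i, h1, h2, h3⟩ | ⟨h1, h2⟩)
    · exact ⟨i, h1, h2, h3.ge⟩
    · obtain ⟨i, hi⟩ := ENat.ne_top_iff_exists.1 h1.ne_top
      exact ⟨i, by rw [← hi] at h2; exact_mod_cast h2, hi.symm, hi ▸ h1.le⟩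

theorem ga_two (h1 : q < p) (hL : Lo 1 1 g (bp β) a m) (hN : nv 1 1 a m ≠ 0)
    {Z₁ Z₂ : σ → MvPowerSeries ρ (Mot k)} (h₁ : GA β Ξ (Cone k p q 1 1) g Z₁)
    (h₂ : GA β Ξ (Reg k id) g Z₂) : GA β Ξ (Cone k p q 0 1) g (Z₁ + Z₂) := fun s e => by
  have hs := split_ok (k := k) p q 1 1 0 1 one_pos one_pos (by simp) (by simpa using h1) (by simp)
  refine ((h₁ s e).union (h₂ s e) fun K _ _ γ h h' => (reg_id.1 h'.1).elim
    (fun h' => (hs K γ).2.1 ⟨h.1, h'⟩) fun h' => (hs K γ).2.2.1 ⟨h.1, h'⟩).congr fun K _ _ γ => ?_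
  have h2 := fun h : Th (Ξ s) g (bp β) e K γ => (hs K γ).1 (fin_ok 1 1 g _ a m e hL hN K γ h.1)
  simp only [An, reg_id]
  tauto

theorem GA.unique {Ψ : AP k (Fin 2)} {Z Z' : σ → MvPowerSeries ρ (Mot k)} (h : GA β Ξ Ψ g Z)
    (h' : GA β Ξ Ψ g Z') : Z = Z' := by
  funext s
  ext e
  exact (h s e).unique (h' s e)

theorem Hyp3.real (H : Hyp3 k ι ρ loc J β Ξ W Al) (hC : Ctx loc J f β) (hD : Nd 1 1 f (bp β) a m)
    (hN : nv 1 1 a m ≠ 0) (hA : (1 * (0 + 1) + 1, nv 1 1 a m) ∈ Al f) :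
    ∃ Z, Ok W (Al f) Z ∧ GA β Ξ (Cone k 1 0 0 1) f Z := by
  have e0 : pb (lin 1) f = f := by
    funext i
    rw [pb, _root_.funext lin_one, aeval_X_left_apply]
  have hπ : Ch (lin (1 : Matrix (Fin 2) (Fin 2) k)) 0 := chLin_ok.1 1 (by simp)
  obtain ⟨a₁, b, h1, h2, -⟩ := bottom_ok 1 1 f (bp β) a m one_pos hD.1 hD.2.1
  obtain ⟨Z₃, h3, h4⟩ := (H.claim hC _ _ 0 1 1 a₁ b (Nat.lt_succ_self _) hπ one_pos (e0.symm ▸ h1)
    (h2.symm ▸ hN) (Or.inr ⟨rfl, le_rfl⟩)).in2 H (e0.symm ▸ h1.1) (h2.symm ▸ hN) (h2.symm ▸ hA)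
  have hS : St 1 1 (pb (pb (sw k) (lin 1)) f) (bp β) m a := by rw [← pb_pb, e0]; exact hD.sw
  obtain ⟨Z₁, h5, h6⟩ := (H.claim hC _ _ 0 1 1 m a (Nat.lt_succ_self _) (chLin_ok.2 _ hπ) one_pos
    hS (nv_comm 1 1 a m ▸ hN) (Or.inr ⟨rfl, le_rfl⟩)).in2 H hS.1
    (nv_comm 1 1 a m ▸ hN) (nv_comm 1 1 a m ▸ hA)
  obtain ⟨Z₂, h7, h8⟩ := H.ray_in one_pos one_pos (by simp) hπ (e0.symm ▸ hD) hN hA (Or.inr rfl)
    fun π' n' mc _ h' => H.claim hC _ π' n' 1 0 _ mc (Nat.lt_succ_self _) h' one_pos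
  rw [← pb_pb, e0] at h6
  rw [e0] at h4 h8
  exact ⟨Z₁ + (Z₂ + Z₃), h5.add (h7.add h3), ga_tri one_pos one_pos hD.2.1 hN h6.sw h8.ga h4.ga⟩

theorem Hyp3.big (H : Hyp3 k ι ρ loc J β Ξ W Al) (hH : Has g (bp β) a m) (hN : nv 1 1 a m ≠ 0)
    (hlt : q * p' < p * q') (h : Alt A 0 p' q' a m) (h' : Alt A 0 q p m a) :
    ∃ Z, Ok W A Z ∧ GA β Ξ (Cone k p q p' q') (vt g (bp β) a m) Z := by
  rcases h' with h' | ⟨h1, h2⟩
  · rcases h with h | ⟨h1, h2⟩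
    · exact (hN (by ext; simp [nv, h.1, h'.1])).elim
    obtain ⟨Z, h3, h4⟩ := H.cone_in (g := pb (sw k) g) (n := 0) (p := q') (q := p')
      (fun j => (hH j).imp fun i hi => ⟨hi.1, by rw [pb, coeff_sw]; exact hi.2⟩)
      (nv_comm q' p' a m ▸ h1) (by rw [nv_comm]; convert h2 using 2; omega)
      (by rwa [mul_comm p', mul_comm q']) (Or.inl h')
    rw [vt_sw] at h4
    exact ⟨Z, H.ok h3, h4.sw⟩
  · obtain ⟨Z, h3, h4⟩ := H.cone_in hH (nv_comm p q m a ▸ h1)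
      (by rw [nv_comm]; convert h2 using 2; omega) hlt h
    exact ⟨Z, H.ok h3, h4.ga⟩

/-- The half below the diagonal. -/
theorem Hyp3.low (H : Hyp3 k ι ρ loc J β Ξ W Al) (hC : Ctx loc J f β) (hπ : Ch π 0)
    (hD : Nd 1 1 (pb π f) (bp β) a m) (hN : nv 1 1 a m ≠ 0) :
    ∃ p q Y Z, q < p ∧ Alt (Al f) 0 q p m a ∧ Ok W (Al f) Z ∧
      GA β Ξ (Cone k p q 1 1) (vt (pb π f) (bp β) a m) Y ∧
      GA β Ξ (Cone k 1 0 1 1) (pb π f) (Y + Z) := by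
  have hS : St 1 1 (pb (pb (sw k) π) f) (bp β) m a := by rw [← pb_pb]; exact hD.sw
  obtain ⟨q, p, g1, g2, g3⟩ := H.claim hC _ _ 0 1 1 m a (Nat.lt_succ_self _) (chLin_ok.2 _ hπ)
    one_pos hS (nv_comm 1 1 a m ▸ hN) (Or.inr ⟨rfl, le_rfl⟩)
  obtain ⟨Y, -, g4⟩ := H.cone_in (A := Set.univ) hS.1 (nv_comm 1 1 a m ▸ hN) trivial g1
    (g2.imp id fun h => ⟨h.1, trivial⟩)
  obtain ⟨Z, g5, g6⟩ := g3 Y g4
  rw [← pb_pb] at g4 g6
  rw [vt_sw] at g4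
  exact ⟨p, q, Y, Z, by simpa using g1, g2, g5, g4.sw, g6.sw⟩

theorem Hyp3.mono (H : Hyp3 k ι ρ loc J β Ξ W Al) (hC : Ctx loc J f β) (hπ : Ch π 0)
    (hH : Has (pb π f) (bp β) a m)
    (h : ∀ i, ∀ v ∈ (pb π f i).support, v ≠ ex (a (bp β i)) (m (bp β i)) →
      a (bp β i) + m (bp β i) < v 0 + v 1) :
    ∃ Z, Ok W (Al f) Z ∧ GA β Ξ (Cone k 1 0 0 1) (pb π f) Z := by
  have h0 : ∀ i, ∀ v ∈ (pb π f i).support, v 0 = a (bp β i) ∧ v 1 = m (bp β i) ∨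
      a (bp β i) + m (bp β i) < v 0 + v 1 := fun i v hv =>
    (em _).imp (fun e => by rw [e]; simp) (h i v hv)
  have hL : Lo 1 1 (pb π f) (bp β) a m := fun i v hv => by
    have := h0 i v hv; simp only [wt]; omega
  by_cases hN : nv 1 1 a m = 0
  · obtain ⟨v, hv⟩ := (hasVol_true (k := k) (ι := Fin 2 × ℕ)).and_forall_eq Finset.univ
      fun j : Fin 2 => X (j, 0)
    have hv' : AV (Cone k 1 0 0 1) v := hv.congr fun K _ _ x => by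
      simp [cen_iff, PowerSeries.X_dvd_iff, ser]
    choose w hw using fun s => H.exTh (Ξ s) (pb π f) (bp β) 0 _ v (H.con s) hv'
    have ha : ∀ j, a j = 0 ∧ m j = 0 := fun j => by simpa [nv] using congrFun hN j
    have key : ∀ e (K : Type) [Field K] [Algebra k K] γ, Cone k 1 0 0 1 K γ →
        (Ord (pb π f) (bp β) e K γ ↔ e = 0) := fun e K _ _ γ hγ => by
      refine (ordGen_ok _ (bp β) a m e hH K γ fun i v hv hne => Or.inl ?_).trans (by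
        simp [Mon, ha, Finsupp.ext_iff, eq_comm (a := (0 : ℕ∞))])
      have h1 := h i v hv hne
      simp only [Cone, Nat.cast_zero, zero_mul, Nat.cast_one, one_mul] at hγ
      simp only [ha, Nat.cast_zero, zero_mul, add_zero, add_pos_iff] at h1 ⊢
      exact h1.imp (fun h => CanonicallyOrderedAdd.mul_pos.2 ⟨by exact_mod_cast h, hγ.2⟩)
        fun h => CanonicallyOrderedAdd.mul_pos.2 ⟨by exact_mod_cast h, hγ.1⟩
    refine ⟨fun s => algebraMap _ _ (w s), H.ok fun s => Subalgebra.algebraMap_mem _ _,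
      fun s e => ?_⟩
    change AV _ (MvPowerSeries.coeff e (MvPowerSeries.C (w s)))
    rw [MvPowerSeries.coeff_C]
    split_ifs with he
    · exact he ▸ hw s
    · exact av_false fun K _ _ γ h => he ((key e K γ h.1).1 h.2.1)
  have hD : Nd 1 1 (pb π f) (bp β) a m :=
    ⟨hH, hL, fun i v hv => by have := h0 i v hv; simp only [wt]; omega⟩
  obtain ⟨p', q', h1, h2, h3⟩ := H.claim hC _ π 0 1 1 a m (Nat.lt_succ_self _) hπ one_pos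
    ⟨hH, hL, fun i v hv => by have := h0 i v hv; simp only [wt]; omega⟩ hN (Or.inr ⟨rfl, le_rfl⟩)
  obtain ⟨p, q, Y₁, Z₁, g1, g2, g5, g4, g6⟩ := H.low hC hπ hD hN
  obtain ⟨Y₃, -, h4⟩ := H.cone_in (A := Set.univ) hH hN trivial h1
    (h2.imp id fun h => ⟨h.1, trivial⟩)
  obtain ⟨Z₃, h5, h6⟩ := h3 Y₃ h4
  rw [one_mul, one_mul] at h1
  obtain ⟨Z, h7, h8⟩ := H.big hH hN (Nat.mul_lt_mul'' g1 h1) h2 g2
  have hr : ∀ s e, ∃ v, AV (An (Ray k 1 1) (Th (Ξ s) (vt (pb π f) (bp β) a m) (bp β) e)) v :=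
    fun s e => by
      obtain ⟨v, hv⟩ := av_ray (k := k) hN e
      obtain ⟨w, hw⟩ := H.exTh (Ξ s) (vt (pb π f) (bp β) a m) (bp β) e _ v (H.con s) hv
      refine ⟨w, hw.congr fun K _ _ γ => ⟨fun h => ⟨h.1.1, h.2⟩, fun h => ⟨⟨h.1, ?_⟩, h.2⟩⟩⟩
      exact (ordGen_ok _ (bp β) a m e (has_vt hH) K γ fun i v hv hne =>
        (hne (supp_vt hv)).elim).1 h.2.1
  choose Y₂ hY using hr
  have hY' : GA β Ξ (Ray k 1 1) (vt (pb π f) (bp β) a m) Y₂ := hY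
  have e1 := h8.unique (ga_tri g1 h1 lo_vt hN g4 hY' h4.ga)
  have hv' : GA β Ξ (Ray k 1 1) (pb π f) Y₂ := fun s e => (hY s e).congr fun K _ _ γ =>
    and_congr_right fun ⟨i, h1, h3, h4⟩ => (H.thGen _ _ (bp β) a m e hH K γ fun i' w hw hne =>
      Or.inl (by
        rw [h3, h4, one_mul, ← add_mul, ← add_mul]
        exact_mod_cast Nat.mul_lt_mul_of_pos_right (h i' w hw hne) h1)).symm
  refine ⟨Z + (Z₁ + Z₃), h7.add (g5.add h5), ?_⟩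
  convert ga_tri one_pos one_pos hL hN g6 hv' h6.ga using 1
  rw [e1]
  abel

theorem Hyp3.elim0 (H : Hyp3 k ι ρ loc J β Ξ W Al) (hC : Ctx loc J f β) (hπ : Ch π 0) {j : ρ}
    (hj : j ∈ J) (h : El0 loc (pb π f) β a j) :
    ∃ Z, Ok W (Al f) Z ∧ GA β Ξ (Cone k 1 0 0 1) (pb π f) Z := by
  obtain ⟨hE, hD⟩ := H.el0 loc _ β a j h
  have hN : nv 1 1 a (Pi.single j 1) ≠ 0 := fun h => by simpa [nv] using congrFun h j
  have e1 : nv 0 1 a (Pi.single j 1) = Pi.single j 1 := by ext; simp [nv]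
  obtain ⟨p, q, Y₁, Z₁, g1, g2, g5, g4, g6⟩ := H.low hC hπ hD hN
  choose Y₂ hY using fun s => H.exReg (Ξ s) loc _ β a j id 0 (H.con s) (H.elVt loc _ β a j id hE)
  obtain ⟨Z₂, h5, h6⟩ := H.elim (A := Al f) hj hE hY
  obtain ⟨Z, h7, h8⟩ := H.big (p' := 0) (q' := 1) hD.1 hN (by omega) (Or.inr
    ⟨fun h => by simpa [e1] using congrFun h j, by
      rw [e1, zero_mul, zero_add]; exact H.neg f _ hj _ one_pos⟩) g2
  have e2 := h8.unique (ga_two g1 lo_vt hN g4 (Gen2.ga hY))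
  refine ⟨Z + (Z₁ + Z₂), h7.add (g5.add h5), ?_⟩
  convert ga_two one_pos hD.2.1 hN g6 h6.ga using 1
  rw [e2]
  abel

theorem deg_ini (N : ℕ) (G : P2 k) : (ini 1 1 N 0 1 G).natDegree ≤ N := by
  refine Polynomial.natDegree_le_iff_coeff_eq_zero.2 fun t ht => by_contra fun h1 => ?_
  obtain ⟨v, -, v2, v3⟩ := PF.ex_of_coeff h1
  simp only [wt] at v2
  omega

theorem Hyp3.core (H : Hyp3 k ι ρ loc J β Ξ W Al) (hC : Ctx loc J f β)
    (hf : ∀ j, ∃ l, bp β l = j ∧ f l ≠ 0) :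
    ∃ Z, Ok W (Al f) Z ∧ GA β Ξ (Cone k 1 0 0 1) f Z := by
  rcases H.r3 loc J f β hC hf with ⟨B, a, m, h1, h2, h3⟩ | ⟨B, a, j, hj, h1, h2⟩ | ⟨a, m, h1, h2, h3⟩
  · exact (H.mono hC (chLin_ok.1 B h1) h2 h3).imp fun Z h => ⟨h.1, ga_lin h1 h.2⟩
  · exact (H.elim0 hC (chLin_ok.1 B h1) hj h2).imp fun Z h => ⟨h.1, ga_lin h1 h.2⟩
  refine H.real hC h1 h2 ?_
  rcases h3 with ⟨j, hj, e⟩ | ⟨B, h3, h4, h5 | ⟨j, h5⟩⟩
  · rw [e]
    exact H.neg f _ hj _ two_pos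
  · exact H.rA f _ 0 1 1 3 _ (nv 1 1 a m) (chLin_ok.1 B h3) one_pos one_pos h4 h2
      (fun l => deg_ini _ _) h5 fun w _ e => Or.inr ⟨e.le.trans (by norm_num), le_rfl⟩
  refine H.rB f _ 0 1 1 _ j hC (chLin_ok.1 B h3) one_pos one_pos h4 h2
    (h5.imp_left fun ⟨h6, h7⟩ => ⟨h6, fun w hw e => ?_⟩)
  obtain ⟨-, lam, -, -, h8, -⟩ := h6
  have h9 := deg_ini (nv 1 1 a m j) (lc (pb (lin B) f) lam)
  generalize nv 1 1 a m = N at h7 h8 h9 e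
  rw [h8] at h9
  replace e : ∑ j, w j * N j = 2 := e.trans (by norm_num)
  rw [← Finset.add_sum_erase _ _ (Finset.mem_univ j)] at e
  have h10 : ∀ j' ∈ Finset.univ.erase j, 0 ≤ w j' * N j' := fun j' _ => by
    have := hw j'
    positivity
  have h11 := hw j
  rcases h9.eq_or_lt with h | h
  · obtain ⟨j', h12⟩ := Function.ne_iff.1 h7
    have h13 : j' ≠ j := by
      rintro rfl
      simp [← h] at h12
    have := Finset.sum_pos' h10 ⟨j', by simp [h13], mul_pos (hw j') (by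
      exact_mod_cast Nat.pos_of_ne_zero (by simpa [h13] using h12))⟩
    rw [← h] at e
    push_cast at e
    linarith
  · have h12 : (2 : ℚ) ≤ N j := by exact_mod_cast h
    nlinarith [Finset.sum_nonneg h10]

end

end Pool.Agent.P.MP_b91a16_ag.Id.Ln
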