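import Pool.Agent.P.MP_b91a16_ag.Id.Main

/-! Polynomials of degree at most one in all but two variables: objects (interface file). -/

open MvPolynomial

namespace Pool.Agent.P.MP_b91a16_ag.Id.Ln

noncomputable section

variable {k ι ρ Λ σ : Type} [Field k] [Fintype ι] [Fintype ρ] [DecidableEq ρ] [Fintype Λ]
  [Fintype σ]

/-! ### Arcs with a condition on the leading coefficients -/

/-- The ideals have order `e` and the vector of the coefficients at that order satisfies `Ξ`. -/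
def Th (Ξ : Pred k ι) (g : ι → P2 k) (β : ι → ρ) (e : ρ →₀ ℕ) : AP k (Fin 2) := fun K _ _ γ =>
  Ord g β e K γ ∧ Ξ K fun i => PowerSeries.coeff (e (β i)) (aeval γ (g i))

/-- `Ξ` is constructible. -/
def Con (Ξ : Pred k ι) : Prop := ∀ (κ : Type) (P : Pred k κ) (v : Mot k)
  (E : ι → MvPolynomial κ k), HasVol P v →
    ∃ v', HasVol (k := k) (fun K _ _ x => P K x ∧ Ξ K fun i => aeval x (E i)) v'

/-- The vertex terms. -/
def vt (g : ι → P2 k) (β : ι → ρ) (a m : ρ → ℕ) : ι → P2 k := fun i =>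
  monomial (ex (a (β i)) (m (β i))) (coeff (ex (a (β i)) (m (β i))) (g i))

def Gen2 (Ξ : σ → Pred k ι) (Ψ : AP k (Fin 2)) (g : ι → P2 k) (β : ι → ρ) (n : ℕ)
    (Z : σ → MvPowerSeries ρ (Mot k)) : Prop :=
  ∀ s, Gen (fun e => An Ψ (Th (Ξ s) g β e)) n (Z s)

variable (k) in
/-- `0 < ord X = i` and `Jf i ≤ ord Y`. -/
def Reg (Jf : ℕ → ℕ) : AP k (Fin 2) := fun _ _ _ γ =>
  ∃ i : ℕ, 0 < i ∧ (γ 0).order = i ∧ (Jf i : ℕ∞) ≤ (γ 1).order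

/-! ### Blocks.  `g (inr j)` is the term without `y` of the `j`-th polynomial and `g (inl i)` the
coefficient of `y_i` in the polynomial number `β i`. -/

abbrev bp (β : ι → ρ) : ι ⊕ ρ → ρ := Sum.elim β id

/-- The `j`-th polynomial at the point `y`. -/
def bm (g : ι ⊕ ρ → P2 k) (β : ι → ρ) (y : ι → k) (j : ρ) : P2 k :=
  g (.inr j) + ∑ i with β i = j, C (y i) * g (.inl i)

def lc (g : ι ⊕ ρ → P2 k) (lam : ι → k) : P2 k := ∑ i, C (lam i) * g (.inl i)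

def Ctx (loc : Prop) (J : Set ρ) (g : ι ⊕ ρ → P2 k) (β : ι → ρ) : Prop :=
  (loc → Subsingleton ρ ∧ ∀ j, j ∈ J) ∧ ∀ i, g (.inl i) ≠ 0 → β i ∈ J

/-- The generator used for the Tschirnhaus shear. -/
def Pref (loc : Prop) (g : ι ⊕ ρ → P2 k) (β : ι → ρ) (a m : ρ → ℕ) (i₀ : ι ⊕ ρ) : Prop :=
  0 < m (bp β i₀) ∧ coeff (ex (a (bp β i₀)) (m (bp β i₀))) (g i₀) ≠ 0 ∧
    (∀ j, i₀ = .inr j → ¬loc → ∀ i, β i = j → coeff (ex (a j) (m j)) (g (.inl i)) = 0) ∧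
    ∀ i, i₀ = .inl i → loc → coeff (ex (a (β i)) (m (β i))) (g (.inr (β i))) = 0

/-- The state in which `Y` can be eliminated. -/
def Fk (loc : Prop) (J : Set ρ) (g : ι ⊕ ρ → P2 k) (β : ι → ρ) (a m : ρ → ℕ) : Prop :=
  ∃ j ∈ J, m = Pi.single j 1 ∧ coeff (ex (a j) 1) (g (.inr j)) ≠ 0 ∧
    (¬loc → ∀ i, β i = j → coeff (ex (a j) 1) (g (.inl i)) = 0)

def El (loc : Prop) (g : ι ⊕ ρ → P2 k) (β : ι → ρ) (a : ρ → ℕ) (j : ρ) (Jf : ℕ → ℕ) : Prop :=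
  coeff (ex (a j) 1) (g (.inr j)) ≠ 0 ∧ Has g (bp β) a (Pi.single j 1) ∧
  (∀ M, ∃ B, ∀ i, B ≤ i → M < ∑ j', a j' * i + Jf i) ∧ ∀ i, 0 < i → 0 < Jf i ∧
    (∀ l, bp β l = j → ∀ v ∈ (g l).support, a j * i + Jf i ≤ v 0 * i + v 1 * Jf i ∧
      (0 < v 1 → (l = .inr j ∧ v ≠ ex (a j) 1 ∨ l ≠ .inr j ∧ ¬loc) →
        a j * i + Jf i < v 0 * i + v 1 * Jf i)) ∧
    ∀ l, bp β l ≠ j → ∀ v ∈ (g l).support, v ≠ ex (a (bp β l)) 0 →
      a (bp β l) * i < v 0 * i + v 1 * Jf i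

def El0 (loc : Prop) (g : ι ⊕ ρ → P2 k) (β : ι → ρ) (a : ρ → ℕ) (j : ρ) : Prop :=
  coeff (ex (a j) 1) (g (.inr j)) ≠ 0 ∧ Has g (bp β) a (Pi.single j 1) ∧
  (¬loc → ∀ i, β i = j → coeff (ex (a j) 1) (g (.inl i)) = 0) ∧
  ∀ l, ∀ v ∈ (g l).support, v ≠ ex (a (bp β l)) ((Pi.single j 1 : ρ → ℕ) (bp β l)) →
    a (bp β l) + (Pi.single j 1 : ρ → ℕ) (bp β l) < v 0 + v 1 ∨
      ∃ i, l = .inl i ∧ β i = j ∧ v = ex (a j + 1) 0

def LoN (p q : ℕ) (g : ι → P2 k) (β : ι → ρ) (N : ρ → ℕ) : Prop :=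
  ∀ i, ∀ v ∈ (g i).support, N (β i) ≤ wt p q v

def CertA (p q : ℕ) (N : ρ → ℕ) (g : ι ⊕ ρ → P2 k) (β : ι → ρ) (z : ℕ) : Prop :=
  ∃ (y : ι → k) (Z : Finset k), (∀ j, ini p q (N j) 0 1 (bm g β y j) ≠ 0) ∧ z ≤ Z.card ∧
    ∀ c ∈ Z, ∃ j, (ini p q (N j) 0 1 (bm g β y j)).IsRoot c

def CertB (loc : Prop) (p q : ℕ) (N : ρ → ℕ) (g : ι ⊕ ρ → P2 k) (β : ι → ρ) (j : ρ) : Prop :=
  ∃ y lam : ι → k, (loc → y = 0) ∧ (∀ i, lam i ≠ 0 → β i = j) ∧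
    (ini p q (N j) 0 1 (lc g lam)).natDegree = 1 ∧
    ∀ j', ∃ c ≠ 0, ini p q (N j') 0 1 (bm g β y j') = Polynomial.C c

def CertC (loc : Prop) (p q : ℕ) (N : ρ → ℕ) (g : ι ⊕ ρ → P2 k) (β : ι → ρ) (j : ρ) : Prop :=
  ∃ y lam lam' : ι → k, (loc → y = 0 ∧ ini p q (N j) 0 1 (bm g β y j) = 0) ∧
    (∀ i, lam i ≠ 0 → β i = j) ∧ (∀ i, lam' i ≠ 0 → β i = j) ∧
    (ini p q (N j) 0 1 (lc g lam)).natDegree = 1 ∧
    (∃ c ≠ 0, ini p q (N j) 0 1 (lc g lam') = Polynomial.C c) ∧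
    ∀ j' ≠ j, ∃ c ≠ 0, ini p q (N j') 0 1 (bm g β y j') = Polynomial.C c

/-! ### Bernstein-Sato equations in twisted form -/

/-- `c h u^s` lies in every `D`-module that contains the balanced sections `g^γ u^(s - α)` (only
asked for when `Q` holds) and the sections `w^|α| u^(s - α)`, `α ∈ T`. -/
def TwAt (g : ι → P2 k) (β : ι → ρ) (u : Λ → P2 k) (blk : Λ → ρ) (s : Λ → ℚ) (w : ρ → P2 k)
    (T : Set (Λ → ℕ)) (Q : Prop) (h : P2 k) (c : k) : Prop :=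
  ∀ (K : Type) [Field K] [Algebra k K] (π : P2 k →ₐ[k] K) (D : Fin 2 → Derivation k K K)
    (V : Submodule k K), (∀ i j, D i (π (X j)) = if i = j then 1 else 0) → (∀ l, π (u l) ≠ 0) →
    (Q → ∀ (α : Λ → ℕ) (γ : ι → ℕ),
      (∀ j, ∑ i with β i = j, γ i = ∑ l with blk l = j, α l + 1) →
      (∏ i, π (g i) ^ γ i) / ∏ l, π (u l) ^ α l ∈ V) →
    (∀ α ∈ T, (∏ j, π (w j) ^ ∑ l with blk l = j, α l) / ∏ l, π (u l) ^ α l ∈ V) →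
    (∀ z ∈ V, ∀ j, π (X j) * z ∈ V) →
    (∀ z ∈ V, ∀ i, D i z + (∑ l, (s l : K) * (D i (π (u l)) / π (u l))) * z ∈ V) →
    c • π h ∈ V

/-- The twisted equations at the base point `y`: directions `Λ₀`, active base members `Λ₁`. -/
def Tw3 (loc : Prop) (g : ι ⊕ ρ → P2 k) (β : ι → ρ) (y : ι → k) (h : P2 k)
    (b : MvPolynomial ρ k) : Prop :=
  ∀ (Λ₀ Λ₁ : Type) [Fintype Λ₀] [Fintype Λ₁] (blk : Λ₀ → ρ) (lam : Λ₀ → ι → k) (act : Λ₁ → ρ)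
    (s : Λ₀ ⊕ Λ₁ → ℚ), Function.Injective act → (∀ l i, lam l i ≠ 0 → β i = blk l) →
    (∀ l l₁, blk l = act l₁ → ∀ n : ℕ, s (.inr l₁) ≠ -(n + 1)) →
    TwAt g (bp β) (Sum.elim (fun l => lc g (lam l)) fun l₁ => bm g β y (act l₁))
      (Sum.elim blk act) s (bm g β y) {α | loc ∧ α ≠ 0 ∧ ∀ l₁, α (.inr l₁) = 0}
      (∀ j, (∀ l₁, act l₁ ≠ j) → (bs (Sum.elim blk act) s : ρ → k) j ≠ -1) h
      (eval (bs (Sum.elim blk act) s) b)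

def GdOK (loc : Prop) (Gd : Set (ι → k)) : Prop :=
  0 ∈ Gd ∧ (∀ v : ι → k, {t : k | t • v ∉ Gd}.Finite) ∧ (¬loc → ∀ y, y ∈ Gd)

/-- The admissible pairs `(ν, N)`. -/
def Alw3 (loc : Prop) (J : Set ρ) (g : ι ⊕ ρ → P2 k) (β : ι → ρ) : Set (ℕ × (ρ → ℕ)) :=
  {p | 0 < p.1 ∧ p.2 ≠ 0 ∧ ∀ (b : MvPolynomial ρ k) (Gd : Set (ι → k)), GdOK loc Gd →
    (∀ y ∈ Gd, ∃ h, constantCoeff h ≠ 0 ∧ Tw3 loc g β y h b) →
    (∀ j ∈ J, ∀ s : ρ → ℚ, (∀ j', s j' < 0) → s j = -1 → eval (fun j => (s j : k)) b = 0) →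
    ∀ s : ρ → ℚ, (∀ j, s j < 0) → ∑ j, (p.2 j : ℚ) * s j + p.1 = 0 →
      eval (fun j => (s j : k)) b = 0}

open Classical in
/-- The form `(A/B) ∏ φ_l^(s_l) dW` is exact. -/
def ExR (φ : Λ → Polynomial k) (s : Λ → ℚ) (A B : Polynomial k) : Prop :=
  ∃ P Q : Polynomial k, Q ≠ 0 ∧
    B * ((∏ l, φ l) * (P.derivative * Q - P * Q.derivative) +
      (∑ l, Polynomial.C (s l : k) * (φ l).derivative * ∏ l' ∈ Finset.univ.erase l, φ l') * P * Q) =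
      A * (∏ l, φ l) * Q ^ 2

/-- The polynomials `f_(j,0)(x) + ∑ y_i f_i(x)`. -/
def gL {r : ℕ} (f : Fin r ⊕ ρ → P2 k) (β : Fin r → ρ) (j : ρ) : MvPolynomial (Fin (2 + r)) k :=
  rename (Fin.castAdd r) (f (.inr j)) +
    ∑ i with β i = j, X (Fin.natAdd 2 i) * rename (Fin.castAdd r) (f (.inl i))

/-- The restriction to the fibre over `y`. -/
def rs {r : ℕ} (y : Fin r → k) (H : MvPolynomial (Fin (2 + r)) k) : P2 k :=
  aeval (Fin.append X fun i => C (y i)) H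

def BEq {n : ℕ} (G : ρ → MvPolynomial (Fin n) k) (H : MvPolynomial (Fin n) k)
    (b : MvPolynomial ρ k) : Prop :=
  ∃ (d : ℕ) (c : Fin d → MvPolynomial ρ k) (P : Fin d → Module.End k (MvPolynomial (Fin n) k)),
    (∀ i, P i ∈ weyl k n) ∧ ∀ m : ρ → ℕ,
      ∑ i, eval (fun j => (m j : k)) (c i) • P i (∏ j, G j ^ (m j + 1)) =
        eval (fun j => (m j : k)) b • (H * ∏ j, G j ^ m j)

/-! ### One polynomial, arcs centred at the origin -/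

variable (k ι) in
def ΞL (s : Bool) : Pred k (ι ⊕ Unit) := fun _ _ _ x => x (.inr ()) = if s then 1 else 0

variable (k) in
def WL (s : Bool) : MvPowerSeries Unit (Mot k) :=
  if s then 1 - MvPowerSeries.C (Linv k) * MvPowerSeries.X ()
  else MvPowerSeries.C (Linv k) * MvPowerSeries.X ()

/-- Arcs `(γ, y)`, `y_i = t γ_i`, along which the polynomial is `t^e` modulo `t^(e+1)`. -/
def Tot (Ψ : AP k (Fin 2)) (g : ι ⊕ Unit → P2 k) (e : ℕ) : AP k (Fin 2 ⊕ ι) := fun K _ _ γ =>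
  Ψ K (fun j => γ (.inl j)) ∧ PowerSeries.X ^ (e + 1) ∣
    aeval (fun j => γ (.inl j)) (g (.inr ())) + ∑ i, PowerSeries.X * γ (.inr i) *
      aeval (fun j => γ (.inl j)) (g (.inl i)) - PowerSeries.X ^ e

end

end Pool.Agent.P.MP_b91a16_ag.Id.Ln
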