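import Pool.Agent.P.MP_b91a16_ag.Ln.Core

/-! Polynomials of degree at most one in all but two variables: from volumes to the statement. -/

set_option linter.unusedSectionVars false

open MvPolynomial

namespace Pool.Agent.P.MP_b91a16_ag.Id.Ln

noncomputable section

variable {k ι : Type} [Field k] [Fintype ι] {r : ℕ}

theorem con_ΞL (s : Bool) : Con (ΞL k ι s) := fun κ P v E h => by
  obtain ⟨v₁, -, h1, -⟩ := h.split (E (.inr ()) - if s then 1 else 0)
  exact ⟨v₁, h1.congr fun K _ _ x => by cases s <;> simp [ΞL, sub_eq_zero]⟩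

theorem wm_WL (A : Set (ℕ × (Unit → ℕ))) (s : Bool) : WL k s ∈ PR k A := by
  have h : MvPowerSeries.C (Linv k) * MvPowerSeries.X () ∈ PR k A :=
    mul_mem (Subalgebra.algebraMap_mem _ _) (Algebra.subset_adjoin (Or.inl ⟨(), rfl⟩))
  cases s
  · exact h
  · exact sub_mem (one_mem _) h

theorem cc_rs (y : Fin r → k) (H : MvPolynomial (Fin (2 + r)) k) :
    constantCoeff (rs y H) = aeval (Fin.append (0 : Fin 2 → k) y) H := by
  have : constantCoeff (rs y H) = aeval (0 : Fin 2 → k) (rs y H) := by simp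
  rw [this, rs]
  refine algHom_aeval _ _ _ (fun j => ?_) H
  refine Fin.addCases (fun j => ?_) (fun j => ?_) j <;> simp

theorem gd_ok {H : MvPolynomial (Fin (2 + r)) k} (h0 : constantCoeff H ≠ 0) :
    GdOK True {y | constantCoeff (rs y H) ≠ 0} := by
  have h1 : constantCoeff (rs 0 H) ≠ 0 := by
    rw [cc_rs, show Fin.append (0 : Fin 2 → k) (0 : Fin r → k) = 0 from _root_.funext fun j =>
      Fin.addCases (fun j => by simp) (fun j => by simp) j]
    simpa using h0
  refine ⟨h1, fun v => ?_, fun h => (h trivial).elim⟩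
  let P : Polynomial k := aeval (Fin.append (0 : Fin 2 → Polynomial k)
    fun i => Polynomial.C (v i) * Polynomial.X) H
  have h2 : ∀ t : k, P.eval t = constantCoeff (rs (t • v) H) := fun t => by
    rw [cc_rs, ← Polynomial.coe_aeval_eq_eval]
    refine algHom_aeval _ _ _ (fun j => ?_) H
    refine Fin.addCases (fun j => ?_) (fun j => ?_) j
    · simp
    · simp [mul_comm (v j)]
  refine (Polynomial.finite_setOfPred_isRoot (p := P) fun h => h1 ?_).subset fun t ht => ?_
  · rw [← zero_smul k v, ← h2, h, Polynomial.eval_zero]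
  · simpa [h2] using ht

theorem eval_up (B : Polynomial k) (x : Unit → k) :
    eval x (Polynomial.aeval (X () : MvPolynomial Unit k) B) = B.eval (x ()) := by
  rw [← coe_aeval_eq_eval, RingHom.coe_coe, ← Polynomial.aeval_algHom_apply]
  simp

theorem main_of [CharZero k] [IsAlgClosed k]
    (H : Hyp3 k (Fin r) Unit True Set.univ (fun _ => ()) (ΞL k (Fin r)) (WL k)
      fun f => Alw3 True Set.univ f fun _ => ())
    (htw : S_tw3 k Unit) (hfin : S_finL k) (f : Fin r ⊕ Unit → P2 k)
    (hf : gL f (fun _ => ()) () ≠ 0) (h0 : constantCoeff (f (.inr ())) = 0) :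
    ∃ S : Finset (ℕ × ℕ), zeta (gL f (fun _ => ()) ()) ∈ poleRing k S ∧ ∀ p ∈ S, 0 < p.1 ∧
      0 < p.2 ∧ ∀ b, LocalBernsteinEq (gL f (fun _ => ()) ()) b →
        b.eval (-(p.1 : k) / p.2) = 0 := by
  obtain ⟨Z, h1, h2⟩ := H.core (f := f) ⟨fun _ => ⟨inferInstance, fun _ => trivial⟩,
    fun _ _ => trivial⟩ fun j => by
      by_contra h
      push Not at h
      exact hf (by simp [gL, h _ rfl])
  obtain ⟨S, h3, h4⟩ := PR_fin h1
  have h5 := hfin r f Z h0 h2
  let D : PowerSeries (Mot k) := 1 - PowerSeries.C (Linv k ^ 1) * PowerSeries.X ^ 1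
  have h6 : PowerSeries.invOfUnit D 1 * D = 1 :=
    (mul_comm _ _).trans (PowerSeries.mul_invOfUnit D 1 (by simp [D]))
  have h11 : ∀ b, LocalBernsteinEq (gL f (fun _ => ()) ()) b → b.eval (-1) = 0 := fun b hb =>
    root_neg_one_loc hf (by simp [gL, h0]) hb
  refine ⟨insert (1, 1) S, ?_, fun p hp => ?_⟩
  · rw [← mul_one (zeta _), ← h6, mul_left_comm, h5]
    exact mul_mem (Algebra.subset_adjoin (Or.inr ⟨(1, 1), Finset.mem_insert_self _ _, h6⟩))
      (mul_mem (Subalgebra.algebraMap_mem _ _) (poleRing_mono (Finset.subset_insert _ _) h4))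
  rcases Finset.mem_insert.1 hp with rfl | hp
  · exact ⟨one_pos, one_pos, fun b hb => by simpa using h11 b hb⟩
  obtain ⟨h7, h8, h9⟩ := h3 p hp
  have h10 : 0 < p.2 := Nat.pos_of_ne_zero fun h => h8 (by ext; exact h)
  refine ⟨h7, h10, fun b hb => ?_⟩
  have h13 : (0 : ℚ) < p.2 := by exact_mod_cast h10
  have h14 := h11 b hb
  obtain ⟨h, d, P, h15, h16, h17⟩ := hb
  have := h9 (Polynomial.aeval (X ()) b) _ (gd_ok (H := h) h15)
    (fun y hy => ⟨_, hy, htw True r f _ h _ ⟨d, fun i => X () ^ i.1, P, h16, fun m => by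
      simpa [eval_up] using h17 (m ())⟩ (fun h => (h trivial).elim) y⟩)
    (fun j _ s _ hs => by rw [eval_up, hs]; simpa using h14)
    (fun _ => -(p.1 : ℚ) / p.2)
    (fun _ => div_neg_of_neg_of_pos (by simpa using h7) h13) (by simp; field_simp; ring)
  simpa [eval_up] using this

end

end Pool.Agent.P.MP_b91a16_ag.Id.Ln
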