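import Pool.Agent.P.MP_b91a16_ag.Ln.Stmt

/-! Polynomials of degree at most one in all but two variables: the induction. -/

set_option linter.unusedSectionVars false

open MvPolynomial

namespace Pool.Agent.P.MP_b91a16_ag.Id.Ln

noncomputable section

section

variable {k ι ρ : Type} [Field k] [Fintype ι] [Fintype ρ] [DecidableEq ρ]

def R_rBr (β : ι → ρ) (Al : (ι ⊕ ρ → P2 k) → Set (ℕ × (ρ → ℕ))) : Prop :=
  ∀ (f : ι ⊕ ρ → P2 k) (π : Fin 2 → P2 k)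
  (n : ℕ) (m : ρ → ℕ) (φ : PowerSeries k), Ch π n → PowerSeries.constantCoeff φ = 0 → m ≠ 0 →
  (∀ l, Polynomial.X ^ m (bp β l) ∣ Φs φ (pb π f l)) →
  (∀ j, ∃ l, bp β l = j ∧ (Φs φ (pb π f l)).coeff (m j) ≠ 0) → (1, m) ∈ Al f

def R_rA (β : ι → ρ) (Al : (ι ⊕ ρ → P2 k) → Set (ℕ × (ρ → ℕ))) : Prop :=
  ∀ (f : ι ⊕ ρ → P2 k) (π : Fin 2 → P2 k)
  (n p q z : ℕ) (N m : ρ → ℕ), Ch π n → 0 < p → 0 < q → LoN p q (pb π f) (bp β) N → N ≠ 0 →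
  (∀ l, (ini p q (N (bp β l)) 0 1 (pb π f l)).natDegree ≤ m (bp β l)) →
  CertA p q N (pb π f) β z →
  (∀ w : ρ → ℚ, (∀ j, 0 < w j) → ∑ j, w j * N j = p * (n + 1) + q →
    ∑ j, w j * m j < 2 ∧ 2 ≤ z ∨ ∑ j, w j * m j ≤ 2 ∧ 3 ≤ z) →
  (p * (n + 1) + q, N) ∈ Al f

def R_rB (loc : Prop) (J : Set ρ) (β : ι → ρ) (Al : (ι ⊕ ρ → P2 k) → Set (ℕ × (ρ → ℕ))) : Prop :=
  ∀ (f : ι ⊕ ρ → P2 k) (π : Fin 2 → P2 k)
  (n p q : ℕ) (N : ρ → ℕ) (j : ρ), Ctx loc J f β → Ch π n → 0 < p → 0 < q →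
  LoN p q (pb π f) (bp β) N → N ≠ 0 →
  (CertB loc p q N (pb π f) β j ∧ (∀ w : ρ → ℚ, (∀ j, 0 < w j) →
      ∑ j, w j * N j = p * (n + 1) + q → w j < 2) ∨ CertC loc p q N (pb π f) β j) →
  (p * (n + 1) + q, N) ∈ Al f

end

structure Hyp3 (k ι ρ : Type) [Field k] [Fintype ι] [Fintype ρ] [DecidableEq ρ] {σ : Type}
    [Fintype σ] (loc : Prop) (J : Set ρ) (β : ι → ρ) (Ξ : σ → Pred k (ι ⊕ ρ))
    (W : σ → MvPowerSeries ρ (Mot k)) (Al : (ι ⊕ ρ → P2 k) → Set (ℕ × (ρ → ℕ))) : Prop where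
  con : ∀ s, Con (Ξ s)
  wm : ∀ A s, W s ∈ PR k A
  thCone : S_thCone k (ι ⊕ ρ) ρ
  thTerm : S_thTerm k (ι ⊕ ρ) ρ
  thGen : S_thGen k (ι ⊕ ρ) ρ
  exTh : S_exTh k (ι ⊕ ρ) ρ
  cone3 : S_cone3 k (ι ⊕ ρ) ρ
  strip3 : S_strip3 k (ι ⊕ ρ) ρ
  gr3 : S_gr3 k (ι ⊕ ρ) ρ
  el : S_el k ι ρ
  el0 : S_el0 k ι ρ
  elVt : S_elVt k ι ρ
  reg : S_reg k (ι ⊕ ρ) ρ
  exReg : S_exReg k ι ρ
  two3 : S_two3 k ι ρ
  one3 : S_one3 k ι ρ
  r3 : S_r3 k ι ρ
  rBr : R_rBr β Al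
  rA : R_rA β Al
  rB : R_rB loc J β Al
  neg : ∀ f, ∀ j ∈ J, ∀ t : ℕ, 0 < t → (t, (Pi.single j t : ρ → ℕ)) ∈ Al f
  fake : S_fake k ι ρ loc J β Ξ W

section Basic

variable {k ι ρ : Type} [Field k] [Fintype ι] [Fintype ρ] [DecidableEq ρ]
  {g : ι → P2 k} {β : ι → ρ} {n p q p' q' : ℕ} {a m : ρ → ℕ}

theorem Th_pb (Ξ : Pred k ι) (ψ : Fin 2 → P2 k) (g : ι → P2 k) (β : ι → ρ) (e : ρ →₀ ℕ) :
    Th Ξ (pb ψ g) β e = Pb ψ (Th Ξ g β e) := by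
  funext K _ _ γ
  simp only [Th, Ord, Pb, pb, aeval_aeval]

theorem lev_Th (Ξ : Pred k ι) (g : ι → P2 k) (β : ι → ρ) (e : ρ →₀ ℕ) :
    Lev (Th Ξ g β e) (∑ j, e j + 1) := by
  intro K _ _ γ γ' h hγ
  refine ⟨lev_Ord g β e K γ γ' h hγ.1, ?_⟩
  convert hγ.2 using 2 with i
  have h2 : e (β i) ≤ ∑ j, e j :=
    Finset.single_le_sum (fun _ _ => Nat.zero_le _) (Finset.mem_univ _)
  have := PowerSeries.X_pow_dvd_iff.1 (aeval_congr_dvd h (g i)) (e (β i)) (by omega)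
  rwa [map_sub, sub_eq_zero] at this

theorem coeff_vt (i : ι) : coeff (ex (a (β i)) (m (β i))) (vt g β a m i) =
    coeff (ex (a (β i)) (m (β i))) (g i) := by
  classical
  simp [vt]

theorem vt_vt : vt (vt g β a m) β a m = vt g β a m := by
  funext i
  rw [vt, coeff_vt, vt]

theorem has_vt (h : Has g β a m) : Has (vt g β a m) β a m := fun j => by
  obtain ⟨i, rfl, hi⟩ := h j
  exact ⟨i, rfl, by rwa [coeff_vt]⟩

theorem supp_vt {i : ι} {v : Fin 2 →₀ ℕ} (h : v ∈ (vt g β a m i).support) :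
    v = ex (a (β i)) (m (β i)) := by
  simpa using support_monomial_subset h

theorem lo_vt : Lo p q (vt g β a m) β a m := fun i v hv => by
  simp [supp_vt hv, wt]

theorem coeff_sh_vt {φ : Polynomial k} (hL : Lo p q g β a m) (hφ : ∀ n ∈ φ.support, q < p * n)
    (i : ι) : coeff (ex (a (β i)) (m (β i))) (pb (sh φ) g i) =
      coeff (ex (a (β i)) (m (β i))) (g i) :=
  PA.coeff_sh hφ (hL i) (by simp [wt])

theorem vt_sh {φ : Polynomial k} (hL : Lo p q g β a m) (hφ : ∀ n ∈ φ.support, q < p * n) :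
    vt (pb (sh φ) g) β a m = vt g β a m := by
  funext i
  rw [vt, coeff_sh_vt hL hφ, vt]

theorem back3 {Ξ : Pred k ι} {φ : Polynomial k} (hφ : ∀ n ∈ φ.support, q < p * n) {e : ρ →₀ ℕ}
    {v : Mot k} (h : WV (An (Cone k p q 0 1) (Th Ξ (pb (sh φ) g) β e)) n v) :
    WV (An (Cone k p q 0 1) (Th Ξ g β e)) n v :=
  WV.aut (ψ := sh φ) rfl (sh_neg φ) (by simpa using sh_neg (-φ)) (h.congr fun K _ _ γ => by
    rw [Th_pb]
    exact and_congr_left' (shCone_ok p q φ hφ K γ).symm)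

theorem point3 {Ξ : Pred k ι} {c : k} {e : ρ →₀ ℕ} {v : Mot k}
    (h : WV (An (Cone k 1 0 0 1) (Th Ξ (pb (tr c) g) β e)) n v) :
    WV (An (fun K _ _ γ => 0 < (γ 0).order ∧
      PowerSeries.constantCoeff (γ 1) = algebraMap k K c) (Th Ξ g β e)) n v := by
  refine WV.aut (ψ := tr c) (ψ' := tr (-c)) rfl (PQ.tr_tr _ _ (by ring))
    (PQ.tr_tr _ _ (by ring)) (h.congr fun K _ _ γ => ?_)
  refine and_congr ?_ (by rw [Th_pb]; rfl)
  simp [Cone, tr, PQ.pos_iff, alg_ps, and_comm]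

end Basic

variable {k ι ρ σ : Type} [Field k] [CharZero k] [IsAlgClosed k] [Fintype ι] [Fintype ρ]
  [DecidableEq ρ] [Fintype σ] {loc : Prop} {J : Set ρ} {β : ι → ρ} {Ξ : σ → Pred k (ι ⊕ ρ)}
  {W : σ → MvPowerSeries ρ (Mot k)} {A : Set (ℕ × (ρ → ℕ))} {g f : ι ⊕ ρ → P2 k}
  {π : Fin 2 → P2 k} {n p q p' q' : ℕ} {a m : ρ → ℕ}
  {Al : (ι ⊕ ρ → P2 k) → Set (ℕ × (ρ → ℕ))}

def Ok (W : σ → MvPowerSeries ρ (Mot k)) (A : Set (ℕ × (ρ → ℕ)))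
    (Z : σ → MvPowerSeries ρ (Mot k)) : Prop := ∑ s, W s * Z s ∈ PR k A

theorem Ok.add {Z Z' : σ → MvPowerSeries ρ (Mot k)} (h : Ok W A Z) (h' : Ok W A Z') :
    Ok W A (Z + Z') := by
  simpa only [Ok, Pi.add_apply, mul_add, Finset.sum_add_distrib] using add_mem h h'

theorem ok_zero : Ok W A 0 := by simp [Ok]

theorem ok_sub {Z Z' : σ → MvPowerSeries ρ (Mot k)} (h : ∑ s, W s * Z s = ∑ s, W s * Z' s) :
    Ok W A (Z - Z') := by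
  simp [Ok, mul_sub, h]

theorem Hyp3.ok (H : Hyp3 k ι ρ loc J β Ξ W Al) {Z : σ → MvPowerSeries ρ (Mot k)}
    (h : ∀ s, Z s ∈ PR k A) : Ok W A Z :=
  sum_mem fun s _ => mul_mem (H.wm A s) (h s)

def Clm3 (β : ι → ρ) (Ξ : σ → Pred k (ι ⊕ ρ)) (W : σ → MvPowerSeries ρ (Mot k))
    (A : Set (ℕ × (ρ → ℕ))) (g : ι ⊕ ρ → P2 k) (n p q : ℕ) (a m : ρ → ℕ) : Prop :=
  ∃ p' q', q * p' < p * q' ∧ Alt A n p' q' a m ∧
    ∀ Z₁, Gen2 Ξ (Cone k p q p' q') (vt g (bp β) a m) (bp β) n Z₁ →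
      ∃ Z₂, Ok W A Z₂ ∧ Gen2 Ξ (Cone k p q 0 1) g (bp β) n (Z₁ + Z₂)

theorem Hyp3.cone_in (H : Hyp3 k ι ρ loc J β Ξ W Al) (hH : Has g (bp β) a m) (hN : nv p q a m ≠ 0)
    (hA : (p * (n + 1) + q, nv p q a m) ∈ A) (hlt : q * p' < p * q') (h : Alt A n p' q' a m) :
    ∃ Z, (∀ s, Z s ∈ PR k A) ∧ Gen2 Ξ (Cone k p q p' q') (vt g (bp β) a m) (bp β) n Z := by
  have key : ∀ s, InR A (fun e => An (Cone k p q p' q') (Th (Ξ s) (vt g (bp β) a m) (bp β) e)) n :=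
    fun s => by
      rcases h with ⟨rfl, rfl, rfl⟩ | ⟨h1, h2⟩
      · exact H.strip3 _ A n p q g _ a (H.con s) hH (by simpa using hlt)
          (by rintro rfl; exact hN (by ext; simp [nv])) hA
      · exact H.cone3 _ A n p q p' q' g _ a m (H.con s) hH hlt hN h1 hA h2
  choose Z h1 h2 using key
  exact ⟨Z, h1, h2⟩

theorem Clm3.in2 (H : Hyp3 k ι ρ loc J β Ξ W Al) (h : Clm3 β Ξ W A g n p q a m)
    (hH : Has g (bp β) a m) (hN : nv p q a m ≠ 0) (hA : (p * (n + 1) + q, nv p q a m) ∈ A) :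
    ∃ Z, Ok W A Z ∧ Gen2 Ξ (Cone k p q 0 1) g (bp β) n Z := by
  obtain ⟨p', q', h1, h2, h3⟩ := h
  obtain ⟨Z₁, h4, h5⟩ := H.cone_in hH hN hA h1 h2
  obtain ⟨Z₂, h6, h7⟩ := h3 Z₁ h5
  exact ⟨_, (H.ok h4).add h6, h7⟩

theorem Hyp3.term (H : Hyp3 k ι ρ loc J β Ξ W Al) (hp : 0 < p) (hS : St p q g (bp β) a m)
    {e : ρ →₀ ℕ} (h : ∀ i, ∀ v ∈ (g i).support, v 1 < m (bp β i) → ∑ j, e j + 1 ≤ v 0) {s : σ}
    {v : Mot k} (hv : WV (An (Cone k p q 0 1) (Th (Ξ s) (vt g (bp β) a m) (bp β) e)) n v) :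
    WV (An (Cone k p q 0 1) (Th (Ξ s) g (bp β) e)) n v :=
  hv.congr fun K _ _ γ => and_congr_right fun hγ => (H.thTerm _ p q _ g _ a m e hS.1 hS.2.1 hp h
    (fun j => Nat.lt_succ_of_le
      (Finset.single_le_sum (f := e) (fun _ _ => Nat.zero_le _) (Finset.mem_univ j))) K γ hγ).symm

theorem Hyp3.glue (H : Hyp3 k ι ρ loc J β Ξ W Al) (hH : Has g (bp β) a m) (hL : Lo p q g (bp β) a m)
    (hL' : Lo p' q' g (bp β) a m) (hN : nv p q a m ≠ 0) (hp' : 0 < p') (hq' : 0 < q')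
    (hc : p'.Coprime q') (hlt : q * p' < p * q') {e : ρ →₀ ℕ} {s : σ} {v₁ v₂ v₃ : Mot k}
    (h₁ : WV (An (Cone k p q p' q') (Th (Ξ s) (vt g (bp β) a m) (bp β) e)) n v₁)
    (h₂ : WV (An (Ray k p' q') (Th (Ξ s) g (bp β) e)) n v₂)
    (h₃ : WV (An (Cone k p' q' 0 1) (Th (Ξ s) g (bp β) e)) n v₃) :
    WV (An (Cone k p q 0 1) (Th (Ξ s) g (bp β) e)) n (v₁ + (v₂ + v₃)) := by
  have hs := split_ok (k := k) p q p' q' 0 1 hp' hq' hc hlt (by simpa using hp')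
  refine (h₁.union (h₂.union h₃ fun K _ _ γ h h' => (hs K γ).2.2.2 ⟨h.1, h'.1⟩)
    fun K _ _ γ h h' => h'.elim (fun h' => (hs K γ).2.1 ⟨h.1, h'.1⟩)
      fun h' => (hs K γ).2.2.1 ⟨h.1, h'.1⟩).congr fun K _ _ γ => ?_
  have h1 := H.thCone (Ξ s) p q p' q' g _ a m e hH hL hL' hp' hlt K γ
  have h2 := fun h : Th (Ξ s) g (bp β) e K γ => (hs K γ).1 (fin_ok p q g _ a m e hL hN K γ h.1)
  simp only [An]
  tauto

theorem Hyp3.ray (H : Hyp3 k ι ρ loc J β Ξ W Al) {u w : ℕ} (hp : 0 < p) (hq : 0 < q)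
    (hd : p * w = q * u + 1) (hH : Has g (bp β) a m) (hL : Lo p q g (bp β) a m)
    (hN : nv p q a m ≠ 0) (hA : (p * (n + 1) + q, nv p q a m) ∈ A)
    (hc : ∀ c ≠ 0, ∃ Z, Ok W A Z ∧ Gen2 Ξ (Cone k 1 0 0 1) (pb (tr c) (pb (tor k p q u w) g)) (bp β)
      (p * (n + 1) + q - 1) Z) : ∃ Z, Ok W A Z ∧ Gen2 Ξ (Ray k p q) g (bp β) n Z := by
  classical
  obtain ⟨C, hC⟩ := gen ini_ok p q u w g (bp β) a m hd hH hL hN
  choose Z₀ z1 z2 using fun s => H.gr3 (Ξ s) A (p * (n + 1) + q - 1) _ (pb (tor k p q u w) g) (bp β)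
    _ (insert 0 C) (H.con s) hN (by rwa [Nat.sub_add_cancel (by omega)])
    (fun i => ini_ok (g i) p q _ u w (hL i))
    fun e K _ _ γ h1 h2 => hC e K γ h1 fun c h => h2 c (Finset.mem_insert_of_mem h)
  choose! Zc c1 c2 using hc
  refine ⟨Z₀ + ∑ c ∈ C.erase 0, Zc c, (H.ok z1).add ?_, fun s e => ?_⟩
  · refine Finset.sum_induction _ _ (fun _ _ => Ok.add) ok_zero fun c h => ?_
    exact c1 c (Finset.ne_of_mem_erase h)
  have h2 := wv_sum (C.erase 0) _ _ (fun c h => point3 (c2 c (Finset.ne_of_mem_erase h) s e))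
    fun K _ _ γ a _ b _ h h' => (algebraMap k K).injective (h.1.2.symm.trans h'.1.2)
  have h3 := (z2 s e).union h2 fun K _ _ γ h ⟨c, h4, h5⟩ =>
    h.1.2 c (Finset.mem_insert_of_mem (Finset.mem_of_mem_erase h4)) h5.1.2
  rw [Pi.add_apply, Finset.sum_apply, map_add, map_sum]
  refine ch_ok n p q u w _ _ _ hp hq hd (lev_Th (Ξ s) g (bp β) e) (h3.congr fun K _ _ γ => ?_)
  rw [← Th_pb]
  constructor
  · rintro (⟨⟨a1, a2⟩, a3⟩ | ⟨c, a1, ⟨a2, a3⟩, a4⟩)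
    · exact ⟨⟨a1, (PQ.zero_iff _).2 (by simpa using a2 0 (Finset.mem_insert_self _ _))⟩, a3⟩
    · exact ⟨⟨a2, (PQ.zero_iff _).2 (a3 ▸ (map_ne_zero _).2 (Finset.ne_of_mem_erase a1))⟩, a4⟩
  · rintro ⟨⟨a1, a2⟩, a3⟩
    have a4 := (PQ.zero_iff _).1 a2
    by_cases h : ∃ c ∈ C, PowerSeries.constantCoeff (γ 1) = algebraMap k K c
    · obtain ⟨c, b1, b2⟩ := h
      refine Or.inr ⟨c, Finset.mem_erase.2 ⟨?_, b1⟩, ⟨a1, b2⟩, a3⟩
      rintro rfl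
      exact a4 (by simpa using b2)
    · refine Or.inl ⟨⟨a1, fun c hc => ?_⟩, a3⟩
      rcases Finset.mem_insert.1 hc with rfl | hc
      · simpa using a4
      · exact fun e => h ⟨c, hc, e⟩

theorem Hyp3.ray_in (H : Hyp3 k ι ρ loc J β Ξ W Al) (hp : 0 < p) (hq : 0 < q)
    (hc : p.Coprime q) (hπ : Ch π n) (hD : Nd p q (pb π f) (bp β) a m) (hN : nv p q a m ≠ 0)
    (hA : (p * (n + 1) + q, nv p q a m) ∈ A) (hI : (∀ j, (n + 1) * m j ≤ 2 * a j) ∨ n = 0)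
    (ih : ∀ π' n' mc, (NF p q (pb π f) (bp β) a m → ∑ j, mc j < ∑ j, m j) → Ch π' n' →
      St 1 0 (pb π' f) (bp β) (nv p q a m) mc → nv 1 0 (nv p q a m) mc ≠ 0 →
      Inv n' 1 0 (nv p q a m) mc → Clm3 β Ξ W A (pb π' f) n' 1 0 (nv p q a m) mc) :
    ∃ Z, Ok W A Z ∧ Gen2 Ξ (Ray k p q) (pb π f) (bp β) n Z := by
  obtain ⟨u, w, h1, h2⟩ := exists_bezout hc hp hq
  refine H.ray hp hq h1 hD.1 hD.2.1 hN hA fun c hc => ?_
  obtain ⟨mc, h3, h4, h5⟩ := child ini_ok p q u w _ (bp β) a m c hp h1 h2 hD hc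
  have e1 : nv 1 0 (nv p q a m) mc = nv p q a m := by ext; simp [nv]
  have e2 : p * (n + 1) + q - 1 + 1 = p * (n + 1) + q := by omega
  rw [pb_pb, pb_pb, ← pb_pb (tr c)] at h3 ⊢
  refine (ih _ _ mc h5 (chCh_ok π n p q u w c hπ hp hq h1 hc) h3 (e1.symm ▸ hN)
    (Or.inl fun j => ?_)).in2 H h3.1 (e1.symm ▸ hN) (by rwa [e1, e2, one_mul, add_zero])
  have h6 := h4 j
  have h7 : mc j ≤ m j := (Nat.le_mul_of_pos_left _ hp).trans h6
  rw [e2, nv]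
  rcases hI with hI | rfl
  · nlinarith [hI j, Nat.mul_le_mul_left (n + 1) h6, Nat.mul_le_mul_left q h7,
      Nat.le_mul_of_pos_left (a j) hp]
  · nlinarith [Nat.mul_le_mul_left q h7, Nat.le_mul_of_pos_left (m j) hq]

theorem Ctx.pb (h : Ctx loc J f β) (π : Fin 2 → P2 k) : Ctx loc J (pb π f) β :=
  ⟨h.1, fun i hi => h.2 i fun e => hi (by rw [Id.pb, e, map_zero])⟩

theorem neg_mem {j : ρ} (hj : j ∈ J) {t : ℕ} (ht : 0 < t) :
    (t, Pi.single j t) ∈ Alw3 loc J f β := by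
  refine ⟨ht, fun h => ht.ne' (by simpa using congrFun h j), fun b Gd _ _ h s hs e => h j hj s hs ?_⟩
  have h1 : (t : ℚ) * (s j + 1) = 0 := by
    rw [← e, Finset.sum_eq_single j (fun j' _ h => by simp [h]) (by simp)]
    simp [mul_add]
  have h2 : (t : ℚ) ≠ 0 := by exact_mod_cast ht.ne'
  linarith [(mul_eq_zero.1 h1).resolve_left h2]

theorem exists_pref (hH : Has g (bp β) a m) (hm : m ≠ 0) : ∃ l, Pref loc g β a m l := by
  obtain ⟨j, hj⟩ := Function.ne_iff.1 hm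
  have hj' : 0 < m j := Nat.pos_of_ne_zero hj
  obtain ⟨l, h1, h2⟩ := hH j
  by_cases hl : loc
  · by_cases h : coeff (ex (a j) (m j)) (g (.inr j)) = 0
    · rcases l with i | j'
      · obtain rfl : β i = j := h1
        exact ⟨.inl i, hj', h2, by simp, fun i' e _ => by rwa [← Sum.inl.inj e]⟩
      · obtain rfl : j' = j := h1
        exact (h2 h).elim
    · exact ⟨.inr j, hj', h, fun _ _ h => (h hl).elim, by simp⟩
  · by_cases h : ∃ i, β i = j ∧ coeff (ex (a j) (m j)) (g (.inl i)) ≠ 0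
    · obtain ⟨i, rfl, h⟩ := h
      exact ⟨.inl i, hj', h, by simp, fun _ _ h => (hl h).elim⟩
    · rcases l with i | j'
      · exact (h ⟨i, h1, h2⟩).elim
      · obtain rfl : j' = j := h1
        refine ⟨.inr j', hj', h2, fun j e _ i hi => ?_, by simp⟩
        obtain rfl := Sum.inr.inj e
        by_contra h3
        exact h ⟨i, hi, h3⟩

theorem Hyp3.node (H : Hyp3 k ι ρ loc J β Ξ W Al) (hC : Ctx loc J f β) (hπ : Ch π n) (hp : 0 < p)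
    (hq : 0 < q) (hc : p.Coprime q) (hD : Nd p q (pb π f) (bp β) a m) {l₀ : ι ⊕ ρ}
    (hP : Pref loc (pb π f) β a m l₀)
    (hT : p = 1 → coeff (ex (a (bp β l₀) + q) (m (bp β l₀) - 1)) (pb π f l₀) = 0)
    (hl : ∃ l, ∃ v ∈ (pb π f l).support, wt p q v = nv p q a m (bp β l) ∧ v 1 < m (bp β l))
    (hF : ¬Fk loc J (pb π f) β a m) (hN : nv p q a m ≠ 0)
    (hw : ∀ w : ρ → ℚ, (∀ j, 0 < w j) → ∑ j, w j * nv p q a m j = p * (n + 1) + q →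
      ∑ j, w j * m j < 2) : (p * (n + 1) + q, nv p q a m) ∈ Al f := by
  have h1 : m (bp β l₀) ≤ ∑ j, m j :=
    Finset.single_le_sum (f := m) (fun _ _ => Nat.zero_le _) (Finset.mem_univ _)
  have h2 := hP.1
  by_cases hM : ∑ j, m j = 1
  · refine H.rB f π n p q _ (bp β l₀) hC hπ hp hq hD.2.1 hN
      ((H.one3 loc J p q _ β a m l₀ (hC.pb π) hp hc hD hP hT hl hM hF).imp_left
        fun h => ⟨h, fun w h3 h4 => lt_of_le_of_lt ?_ (hw w h3 h4)⟩)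
    refine le_trans ?_ (Finset.single_le_sum (f := fun j => w j * m j)
      (fun j _ => by have := h3 j; positivity) (Finset.mem_univ (bp β l₀)))
    exact le_mul_of_one_le_right (h3 _).le (by exact_mod_cast h2)
  · exact H.rA f π n p q 2 _ m hπ hp hq hD.2.1 hN (PF.deg_g hD)
      (H.two3 p q _ β a m hp hc hD ⟨l₀, hP.1, hP.2.1, hT⟩ hl (by omega))
      fun w h3 h4 => Or.inl ⟨hw w h3 h4, le_rfl⟩

theorem Hyp3.elim (H : Hyp3 k ι ρ loc J β Ξ W Al) {j : ρ} (hj : j ∈ J) {Jf : ℕ → ℕ}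
    (h : El loc g β a j Jf) {Z₁ : σ → MvPowerSeries ρ (Mot k)}
    (h1 : Gen2 Ξ (Reg k Jf) (vt g (bp β) a (Pi.single j 1)) (bp β) n Z₁) :
    ∃ Z₂, Ok W A Z₂ ∧ Gen2 Ξ (Reg k Jf) g (bp β) n (Z₁ + Z₂) := by
  choose Z hZ using fun s => H.exReg (Ξ s) loc g β a j Jf n (H.con s) h
  exact ⟨Z - Z₁, ok_sub (H.fake g _ a j Jf n Z Z₁ hj h (H.elVt loc g β a j Jf h) vt_vt.symm hZ h1),
    by rwa [add_sub_cancel]⟩

theorem Hyp3.claim (H : Hyp3 k ι ρ loc J β Ξ W Al) (hC : Ctx loc J f β) (μ : ℕ) :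
    ∀ (π : Fin 2 → P2 k) (n p q : ℕ) (a m : ρ → ℕ), ∑ j, m j < μ → Ch π n → 0 < p →
      St p q (pb π f) (bp β) a m → nv p q a m ≠ 0 → Inv n p q a m →
      Clm3 β Ξ W (Al f) (pb π f) n p q a m := by
  induction μ with
  | zero => exact fun _ _ _ _ _ _ h => by omega
  | succ μ ih =>
  intro π n p q a m hμ hπ hp hS hN hI
  by_cases hm : m = 0
  · exact ⟨0, 1, by simpa using hp, Or.inl ⟨hm, rfl, rfl⟩, fun Z₁ h => ⟨0, ok_zero, fun s e => by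
      rw [add_zero]
      exact H.term hp hS (by simp [hm]) (h s e)⟩⟩
  have e1 : nv 0 1 a m = m := by ext; simp [nv]
  by_cases hFk : Fk loc J (pb π f) β a m
  · obtain ⟨j, hj, rfl, hE⟩ := H.el loc J p q _ β a m hp hS hN hFk
    refine ⟨0, 1, by simpa using hp, Or.inr ⟨e1.symm ▸ hm, by
      rw [e1, zero_mul, zero_add]; exact H.neg f _ hj _ one_pos⟩, fun Z₁ h => ?_⟩
    obtain ⟨Z₂, h1, h2⟩ := H.elim (A := Al f) (n := n) (Z₁ := Z₁) hj hE fun s e =>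
      (h s e).congr fun K _ _ γ => and_congr_left fun h3 =>
        H.reg p q _ _ a _ e hp lo_vt hN K γ h3.1
    exact ⟨Z₂, h1, fun s e => (h2 s e).congr fun K _ _ γ => and_congr_left fun h3 =>
      (H.reg p q _ _ a _ e hp hS.2.1 hN K γ h3.1).symm⟩
  obtain ⟨i₀, hP⟩ := exists_pref (loc := loc) hS.1 hm
  have hj' := hP.1
  have hi := hP.2.1
  obtain ⟨φ, hφ, hT⟩ := tsch p q _ _ _ hp hj' hi (hS.2.1 i₀) (hS.2.2 i₀)
  have hφD : ∀ D, ∀ n ∈ (φ.trunc D).support, q < p * n := fun D n hn => hφ n fun h => by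
    simp [PowerSeries.coeff_trunc, h] at hn
  have hSD := fun D => shSt_ok p q _ (bp β) a m _ hS (hφD D)
  have hV := fun D => vt_sh hS.2.1 (hφD D)
  have h0 : PowerSeries.coeff 0 φ = 0 := by
    by_contra h
    simpa using hφ 0 h
  by_cases hd : ∀ i, Polynomial.X ^ m (bp β i) ∣ Φs φ (pb π f i)
  · refine ⟨0, 1, by simpa using hp, Or.inr ⟨e1.symm ▸ hm, ?_⟩,
      fun Z₁ h => ⟨0, ok_zero, fun s e => ?_⟩⟩
    · rw [e1, zero_mul, zero_add]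
      refine H.rBr f π n m φ hπ (by simpa using h0) hm hd fun j => ?_
      obtain ⟨i, h1, h2⟩ := (hSD (a j + 1)).1 j
      refine ⟨i, h1, fun h => h2 ?_⟩
      rw [pb, trunc _ _ _ _ _ (Nat.lt_succ_self _), h, map_zero]
    · rw [add_zero]
      refine back3 (hφD _) (H.term hp (hSD (∑ j, e j + 1)) (fun i v hv h1 => ?_)
        (by rw [hV]; exact h s e))
      by_contra! h2
      rw [mem_support_iff, ← ex_eta v, pb, trunc _ _ _ _ _ h2,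
        Polynomial.X_pow_dvd_iff.1 (hd i) _ h1, map_zero] at hv
      exact hv rfl
  simp only [Polynomial.X_pow_dvd_iff, not_forall] at hd
  obtain ⟨i, m', h1, h2⟩ := hd
  obtain ⟨a', h3⟩ : ∃ a', PowerSeries.coeff a' ((Φs φ (pb π f i)).coeff m') ≠ 0 := by
    by_contra! h
    exact h2 (PowerSeries.ext h)
  obtain ⟨D, hD⟩ : ∃ D, D = a' + a (bp β i₀) + 1 := ⟨_, rfl⟩
  obtain ⟨p', q', hp', hc, hlt, hle, hNd, i', v', hv', hw', hm'⟩ := next_ok p q _ (bp β) a m i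
    (ex a' m') hp (hSD D) (by rwa [mem_support_iff, pb, trunc _ _ _ _ _ (by omega)])
    (by simpa using h1)
  have hq' : 0 < q' := Nat.pos_of_mul_pos_left (Nat.zero_lt_of_lt hlt)
  have hcv := coeff_sh_vt hS.2.1 (hφD D)
  have hP' : Pref loc (pb (sh (φ.trunc D)) (pb π f)) β a m i₀ :=
    ⟨hj', by rwa [hcv], fun j e hl i hi => by
      subst hi
      exact (hcv (.inl i)).trans (hP.2.2.1 _ e hl i rfl),
      fun i e hl => (hcv (.inr (β i))).trans (hP.2.2.2 i e hl)⟩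
  have hT' : p' = 1 → coeff (ex (a (bp β i₀) + q') (m (bp β i₀) - 1))
      (pb (sh (φ.trunc D)) (pb π f) i₀) = 0 := by
    rintro rfl
    rw [pb, trunc _ _ _ _ _ (by simp at hle; omega), hT, map_zero]
  have hFk' : ¬Fk loc J (pb (sh (φ.trunc D)) (pb π f)) β a m := fun ⟨j, hj, e, h4, h5⟩ => by
    have e2 : m j = 1 := by simp [e]
    refine hFk ⟨j, hj, e, fun h => h4 ?_, fun hl i hi => ?_⟩
    · rw [← e2] at h ⊢
      exact (hcv (.inr j)).trans h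
    · subst hi
      have := h5 hl i rfl
      rw [← e2] at this ⊢
      exact (hcv (.inl i)).symm.trans this
  have hN' : nv p' q' a m ≠ 0 := fun h => by
    have := congrFun h (bp β i₀)
    simp only [nv, Pi.zero_apply, add_eq_zero, mul_eq_zero] at this
    omega
  have hπ' := chSh_ok π n (φ.trunc D) hπ (by simp [PowerSeries.coeff_trunc, h0])
  have hG := fun s e v₁ v₂ v₃ => H.glue (n := n) (e := e) (s := s) (v₁ := v₁) (v₂ := v₂) (v₃ := v₃)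
    hNd.1 (hSD D).2.1 hNd.2.1 hN hp' hq' hc hlt
  have hB := fun s e v => back3 (Ξ := Ξ s) (n := n) (g := pb π f) (β := bp β) (e := e) (v := v)
    (hφD D)
  rw [hV] at hG
  rw [pb_pb] at hNd hP' hT' hFk' hv' hG hB
  have hA := H.node hC hπ' hp' hq' hc hNd hP' hT' ⟨i', v', hv', hw', hm'⟩ hFk' hN'
    (hI.lt_two hp' hlt)
  obtain ⟨a₁, b, h4, h5, h6⟩ := bottom_ok p' q' _ (bp β) a m hp' hNd.1 hNd.2.1
  have h7 : ∑ j, b j < ∑ j, m j := Finset.sum_lt_sum (fun j _ => (h6 j).1) ⟨bp β i', by simp, by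
    by_contra! h
    have := h4.2.2 i' v' hv' (hm'.trans_le h)
    rw [hw', ← h5] at this
    exact lt_irrefl _ this⟩
  obtain ⟨Za, h8, h9⟩ := (ih _ n p' q' a₁ b (by omega) hπ' hp' h4 (h5.symm ▸ hN') (hI.imp
    (fun h j => ((Nat.mul_le_mul_left _ (h6 j).1).trans (h j)).trans (Nat.mul_le_mul_left _ (h6 j).2))
    fun h => ⟨h.1, (lt_of_mul_lt_mul_left ((Nat.mul_le_mul_right p' h.2).trans_lt hlt)
      (Nat.zero_le p)).le⟩)).in2 H h4.1 (h5.symm ▸ hN') (h5.symm ▸ hA)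
  obtain ⟨Zr, h10, h11⟩ := H.ray_in hp' hq' hc hπ' hNd hN' hA (hI.imp id And.left)
    fun π' n' mc h h' => ih π' n' 1 0 _ mc (by
      have := h ⟨i₀, hP'.1, hP'.2.1, hT'⟩
      omega) h' one_pos
  exact ⟨p', q', hlt, Or.inr ⟨hN', hA⟩, fun Z₁ h => ⟨Zr + Za, h10.add h8, fun s e =>
    hB s e _ (hG s e _ _ _ (h s e) (h11 s e) (h9 s e))⟩⟩

end

end Pool.Agent.P.MP_b91a16_ag.Id.Ln
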