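import Pool.Agent.P.MP_b91a16_ag.Id.Fin1

/-! Formal changes of coordinates and units (after the files in `St/` and `Qo/AsmC`). -/

set_option linter.unusedSectionVars false

open MvPolynomial

namespace Pool.Agent.P.MP_b91a16_ag.Id.Pl

noncomputable section

section

variable {k σ τ α K : Type} [Field k] [Fintype τ] [DecidableEq τ] [CommRing K] [Algebra k K]

/-- The coefficient of the `j`-th variable. -/
def lin (g : MvPolynomial τ k) (j : τ) : k := constantCoeff (pderiv j g)

theorem lin_eq (g : MvPolynomial τ k) (j : τ) : lin g j = g.coeff (Finsupp.single j 1) := by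
  simp [lin, constantCoeff_eq, coeff_pderiv]

theorem lin_add (g g' : MvPolynomial τ k) (j : τ) : lin (g + g') j = lin g j + lin g' j := by
  simp [lin]

theorem lin_mul (g g' : MvPolynomial τ k) (j : τ) :
    lin (g * g') j = constantCoeff g * lin g' j + constantCoeff g' * lin g j := by
  simp [lin]

theorem lin_X (i j : τ) : lin (X i : MvPolynomial τ k) j = if i = j then 1 else 0 := by
  simp [lin, pderiv_X, Pi.single_apply, apply_ite, eq_comm]

theorem lin_sum (s : Finset α) (g : α → MvPolynomial τ k) (j : τ) :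
    lin (∑ a ∈ s, g a) j = ∑ a ∈ s, lin (g a) j := by
  simp [lin]

theorem dvd_aeval_of_mem {S : Type} [CommRing S] [Algebra k S] {t : S} {γ : σ → S}
    (h : ∀ j, t ∣ γ j) {M : ℕ} {g : MvPolynomial σ k} (hg : g ∈ idealOfVars σ k ^ M) :
    t ^ M ∣ aeval γ g := by
  have h1 : (idealOfVars σ k).map (aeval γ : MvPolynomial σ k →ₐ[k] S) ≤ Ideal.span {t} := by
    rw [Ideal.map_span, Ideal.span_le]
    rintro _ ⟨_, ⟨j, rfl⟩, rfl⟩
    simpa [Ideal.mem_span_singleton] using h j
  have h2 := Ideal.mem_map_of_mem (aeval γ : MvPolynomial σ k →ₐ[k] S) hg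
  rw [Ideal.map_pow] at h2
  have h3 := Ideal.pow_right_mono h1 M h2
  rwa [Ideal.span_singleton_pow, Ideal.mem_span_singleton] at h3

theorem const_of_mem {M : ℕ} {g : MvPolynomial σ k} (hg : g ∈ idealOfVars σ k ^ (M + 1)) :
    constantCoeff g = 0 :=
  (mem_pow_idealOfVars_iff' _ _).1 hg 0 (by simp)

/-- First order expansion. -/
theorem taylor {S : Type} [CommRing S] [Algebra k S] {t s : S} {γ γ' : τ → S}
    (h : ∀ j, t ∣ γ j) (h' : ∀ j, t ∣ γ' j) (e : ∀ j, s ∣ γ' j - γ j) (g : MvPolynomial τ k) :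
    s * t ∣ aeval γ' g - aeval γ g - ∑ j, algebraMap k S (lin g j) * (γ' j - γ j) := by
  induction g using MvPolynomial.induction_on with
  | C c => simp [lin]
  | add p q hp hq =>
    convert dvd_add hp hq using 1
    simp only [map_add, lin_add, add_mul, Finset.sum_add_distrib]
    ring
  | mul_X p i _ =>
    have h1 : ∑ j, algebraMap k S (lin (p * X i) j) * (γ' j - γ j) =
        algebraMap k S (constantCoeff p) * (γ' i - γ i) := by
      simp [lin_mul, lin_X, apply_ite, ite_mul]
    rw [h1, map_mul, map_mul, aeval_X, aeval_X, show aeval γ' p * γ' i - aeval γ p * γ i -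
        algebraMap k S (constantCoeff p) * (γ' i - γ i) = (aeval γ' p - aeval γ p) * γ' i +
        (γ' i - γ i) * (aeval γ p - algebraMap k S (constantCoeff p)) by ring]
    exact dvd_add (mul_dvd_mul (aeval_congr_dvd e p) (h' i))
      (mul_dvd_mul (e i) (dvd_aeval_sub_const h p))

/-- Lifting of jets. -/
theorem jet_surj {φ : α → MvPolynomial τ k} (h0 : ∀ a, constantCoeff (φ a) = 0)
    (hs : ∀ c : α → K, ∃ v : τ → K, ∀ a, ∑ j, algebraMap k K (lin (φ a) j) * v j = c a)
    {c : α → PowerSeries K} (hc : ∀ a, PowerSeries.X ∣ c a) (m : ℕ) :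
    ∃ γ : τ → PowerSeries K, Cen γ ∧ ∀ a, PowerSeries.X ^ (m + 1) ∣ aeval γ (φ a) - c a := by
  induction m with
  | zero => exact ⟨0, fun _ => dvd_zero _, fun a => by simpa [h0] using hc a⟩
  | succ m ih =>
    obtain ⟨γ, h1, h2⟩ := ih
    obtain ⟨v, hv⟩ := hs fun a => PowerSeries.coeff (m + 1) (c a - aeval γ (φ a))
    have h3 : Cen fun j => γ j + PowerSeries.C (v j) * PowerSeries.X ^ (m + 1) := fun j =>
      dvd_add (h1 j) ((dvd_pow_self _ m.succ_ne_zero).mul_left _)
    refine ⟨_, h3, fun a => ?_⟩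
    have h4 := taylor (s := PowerSeries.X ^ (m + 1)) h1 h3 (fun j => by simp) (φ a)
    have h5 : PowerSeries.X ^ (m + 1 + 1) ∣ aeval γ (φ a) - c a + PowerSeries.C
        (PowerSeries.coeff (m + 1) (c a - aeval γ (φ a))) * PowerSeries.X ^ (m + 1) :=
      dvd_succ_iff.2 ⟨dvd_add (h2 a) (Dvd.intro_left _ rfl), by
        rw [map_add, PowerSeries.coeff_C_mul, PowerSeries.coeff_X_pow_self, mul_one, map_sub,
          map_sub]
        ring⟩
    rw [← pow_succ] at h4
    convert dvd_add h4 h5 using 1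
    simp only [add_sub_cancel_left, alg_ps, ← hv a, map_sum, map_mul, Finset.sum_mul, mul_assoc]
    ring

/-- Uniqueness of lifts of jets. -/
theorem jet_inj {φ : α → MvPolynomial τ k}
    (hi : ∀ v : τ → K, (∀ a, ∑ j, algebraMap k K (lin (φ a) j) * v j = 0) → v = 0)
    {γ γ' : τ → PowerSeries K} (h : Cen γ) (h' : Cen γ') (m : ℕ)
    (e : ∀ a, PowerSeries.X ^ m ∣ aeval γ' (φ a) - aeval γ (φ a)) (j : τ) :
    PowerSeries.X ^ m ∣ γ' j - γ j := by
  induction m generalizing j with
  | zero => simp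
  | succ m ih =>
    replace ih := ih fun a => (dvd_succ_iff.1 (e a)).1
    refine dvd_succ_iff.2 ⟨ih j, congrFun (hi (fun j => PowerSeries.coeff m (γ' j - γ j))
      fun a => ?_) j⟩
    have h1 := taylor h h' ih (φ a)
    rw [← pow_succ] at h1
    have h2 := (dvd_succ_iff.1 (dvd_sub (e a) h1)).2
    simpa only [sub_sub_cancel, map_sum, alg_ps, PowerSeries.coeff_C_mul] using h2

/-- The chain rule. -/
theorem chain {S : Type} [CommRing S] [Algebra k S] [Fintype σ] [DecidableEq σ]
    (D : Derivation k S S) (φ : σ → S) (g : MvPolynomial σ k) :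
    D (aeval φ g) = ∑ a, aeval φ (pderiv a g) * D (φ a) := by
  induction g using MvPolynomial.induction_on with
  | C c => simp
  | add p q hp hq => simp [hp, hq, add_mul, Finset.sum_add_distrib]
  | mul_X p i hp =>
    simp only [map_mul, aeval_X, Derivation.leibniz, hp, smul_eq_mul, map_add, add_mul,
      Finset.sum_add_distrib, Finset.mul_sum, pderiv_X, Pi.single_apply, apply_ite,
      map_zero, mul_one, mul_zero, ite_mul, zero_mul, mul_assoc]
    simp

end

section

variable {k σ τ α : Type} [Field k] [Fintype σ] [DecidableEq σ] [Fintype τ] [DecidableEq τ]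

theorem CP_congr {g : MvPolynomial τ k} {m M : ℕ} {d : k} (hM : m ≤ M) {K : Type} [Field K]
    [Algebra k K] {γ γ' : τ → PowerSeries K} (h : ∀ j, PowerSeries.X ^ (M + 1) ∣ γ' j - γ j) :
    PowerSeries.X ^ (m + 1) ∣ aeval γ g - PowerSeries.C (algebraMap k K d) * PowerSeries.X ^ m ↔
    PowerSeries.X ^ (m + 1) ∣
      aeval γ' g - PowerSeries.C (algebraMap k K d) * PowerSeries.X ^ m := by
  have h1 := (pow_dvd_pow _ (Nat.succ_le_succ hM)).trans (aeval_congr_dvd h g)
  rw [← dvd_add_right h1]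
  exact iff_of_eq (by congr 1; ring)

/-- A polynomial map that fixes the origin and has invertible linear part. -/
def Et (φ : σ → MvPolynomial τ k) : Prop :=
  (∀ a, constantCoeff (φ a) = 0) ∧ ∃ B : Matrix τ σ k,
    (Matrix.of fun a j => lin (φ a) j) * B = 1 ∧ B * (Matrix.of fun a j => lin (φ a) j) = 1

variable {φ : σ → MvPolynomial τ k}

theorem Et.surj (h : Et φ) {K : Type} [CommRing K] [Algebra k K] (c : σ → K) :
    ∃ v : τ → K, ∀ a, ∑ j, algebraMap k K (lin (φ a) j) * v j = c a := by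
  obtain ⟨-, B, h1, -⟩ := h
  refine ⟨(B.map (algebraMap k K)).mulVec c, fun a => ?_⟩
  have := congrFun (Matrix.mulVec_mulVec c
    ((Matrix.of fun a j => lin (φ a) j).map (algebraMap k K)) (B.map (algebraMap k K))) a
  rw [← Matrix.map_mul, h1, Matrix.map_one _ (map_zero _) (map_one _), Matrix.one_mulVec] at this
  exact this

theorem Et.inj (h : Et φ) {K : Type} [CommRing K] [Algebra k K] (v : τ → K)
    (hv : ∀ a, ∑ j, algebraMap k K (lin (φ a) j) * v j = 0) : v = 0 := by
  obtain ⟨-, B, -, h1⟩ := h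
  have := Matrix.mulVec_mulVec v (B.map (algebraMap k K))
    ((Matrix.of fun a j => lin (φ a) j).map (algebraMap k K))
  rw [← Matrix.map_mul, h1, Matrix.map_one _ (map_zero _) (map_one _), Matrix.one_mulVec] at this
  rw [← this]
  exact (congrArg _ (funext hv)).trans (Matrix.mulVec_zero _)

theorem Et.card (h : Et φ) : Fintype.card σ = Fintype.card τ :=
  h.2.elim fun _ h => Matrix.square_of_invertible _ _ h.1 h.2

theorem Et.cen (h : Et φ) {K : Type} [CommRing K] [Algebra k K] {γ : τ → PowerSeries K}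
    (hγ : Cen γ) : Cen fun a => aeval γ (φ a) := fun a => by
  simpa [h.1 a] using dvd_aeval_sub_const hγ (φ a)

theorem aeval_aeval {S : Type} [CommRing S] [Algebra k S] (γ : τ → S) (H : MvPolynomial σ k) :
    aeval γ (aeval φ H) = aeval (fun a => aeval γ (φ a)) H :=
  algHom_aeval _ _ _ (fun _ => rfl) H

theorem Et.vol (h : Et φ) (H : MvPolynomial σ k) (m : ℕ) (d : k) :
    vol H m d = vol (aeval φ H) m d := by
  refine (hasVol_vol H m d).unique ?_
  obtain ⟨F, c, hd, hc, e⟩ := hasVol_vol (aeval φ H) m d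
  obtain ⟨M, hM, hF⟩ : ∃ M, m ≤ M ∧ F ⊆ Finset.univ ×ˢ Finset.range M :=
    ⟨m + F.sup (·.2) + 1, by omega, fun p hp => by
      have := Finset.le_sup (f := (·.2)) hp
      simp only [Finset.mem_product, Finset.mem_univ, Finset.mem_range, true_and] at this ⊢
      omega⟩
  obtain ⟨c', hc', e'⟩ := hasClass_cut_mono hd hc hF
  refine ⟨Finset.univ ×ˢ Finset.range M, c', fun K _ _ x y hxy hx => ?_,
    hc'.map (fun p => if p.2 < M then cf (φ p.1) (p.2 + 1) else 0) fun K _ _ => ?_, ?_⟩
  · refine (CP_congr hM fun j => (dvd_arc_sub (cen_arc x j)).2 fun l hl => ?_).1 hx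
    rw [coeff_arc, hxy _ (by simpa using hl)]
  · have key : ∀ (x : τ × ℕ → K) (a : σ), PowerSeries.X ^ (M + 1) ∣ arc (fun p : σ × ℕ =>
        aeval x (if p.2 < M then cf (φ p.1) (p.2 + 1) else 0)) a - aeval (arc x) (φ a) :=
      fun x a => (dvd_arc_sub (h.cen (cen_arc x) a)).2 fun l hl => by simp [hl, aeval_cf]
    refine ⟨fun x hx => ⟨(CP_congr hM (key x)).1 (by simpa only [CP, aeval_aeval] using hx.1),
      fun p hp => by simp [show ¬p.2 < M by simpa using hp]⟩, fun x hx x' hx' e => ?_,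
      fun y hy => ?_⟩
    · have h1 := jet_inj h.inj (cen_arc x) (cen_arc x') (M + 1) fun a => by
        have := dvd_sub (key x a) (key x' a)
        beta_reduce at e
        rwa [e, sub_sub_sub_cancel_left] at this
      funext p
      by_cases hp : p.2 < M
      · rw [(dvd_arc_sub (cen_arc x p.1)).1 (h1 p.1) p.2 hp, coeff_arc]
      · rw [hx.2 p (by simpa using hp), hx'.2 p (by simpa using hp)]
    · obtain ⟨γ, h1, h2⟩ := jet_surj h.1 h.surj (cen_arc y) M
      let x : τ × ℕ → K := fun p => if p.2 < M then PowerSeries.coeff (p.2 + 1) (γ p.1) else 0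
      have h3 : ∀ a, PowerSeries.X ^ (M + 1) ∣ aeval (arc x) (φ a) - arc y a := fun a => by
        simpa using dvd_add (aeval_congr_dvd (fun j => (dvd_arc_sub (x := x) (h1 j)).2
          fun l hl => if_pos hl) (φ a)) (h2 a)
      refine ⟨x, ⟨by simpa only [CP, aeval_aeval] using (CP_congr hM h3).1 hy.1,
        fun p hp => if_neg (by simpa using hp)⟩, funext fun p => ?_⟩
      by_cases hp : p.2 < M
      · have := dvd_add (key x p.1) (h3 p.1)
        rw [sub_add_sub_cancel] at this
        exact ((dvd_arc_sub (cen_arc y p.1)).1 this p.2 hp).trans (coeff_arc _ _ _)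
      · rw [hy.2 p (by simpa using hp)]
        simp [hp]
  · rw [e, e', Finset.card_product, Finset.card_product, Finset.card_univ, Finset.card_univ, h.card]

/-- `H` is equivalent to `G` up to a unit with constant term `c`, to every finite order. -/
def Eqv (H : MvPolynomial σ k) (G : MvPolynomial τ k) (c : k) : Prop :=
  ∀ M, ∃ (φ : σ → MvPolynomial τ k) (e : MvPolynomial τ k), Et φ ∧ constantCoeff e = c ∧
    aeval φ H - e * G ∈ idealOfVars τ k ^ M

theorem isUnit_aeval {K : Type} [Field K] [Algebra k K] {γ : τ → PowerSeries K} (hγ : Cen γ)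
    {e : MvPolynomial τ k} (he : constantCoeff e ≠ 0) : IsUnit (aeval γ e) := by
  have := PowerSeries.X_dvd_iff.1 (dvd_aeval_sub_const hγ e)
  rw [map_sub, alg_ps, PowerSeries.constantCoeff_C, sub_eq_zero] at this
  rw [PowerSeries.isUnit_iff_constantCoeff, this]
  exact IsUnit.mk0 _ ((map_ne_zero _).2 he)

theorem Eqv.vol {H : MvPolynomial σ k} {G : MvPolynomial τ k} {c : k} (h : Eqv H G c) (hc : c ≠ 0)
    (m : ℕ) (d : k) : vol H m d = vol G m (d / c) := by
  obtain ⟨φ, e, h1, rfl, h2⟩ := h (m + 1)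
  rw [h1.vol]
  refine ((hasVol_vol _ m d).congr fun K _ _ x => ?_).unique (hasVol_vol G m _)
  have h3 := dvd_aeval_of_mem (cen_arc x) h2
  have h4 := mul_dvd_mul (dvd_aeval_sub_const (cen_arc x) e) (Dvd.intro_left
    (PowerSeries.C (algebraMap k K (d / constantCoeff e))) (rfl : _ = _ * PowerSeries.X ^ m))
  rw [← pow_succ'] at h4
  refine Iff.trans ?_ ((dvd_add_right (dvd_add h3 h4)).trans
    (isUnit_aeval (cen_arc x) hc).dvd_mul_left)
  have h5 : algebraMap k (PowerSeries K) (constantCoeff e) *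
      PowerSeries.C (algebraMap k K (d / constantCoeff e)) = PowerSeries.C (algebraMap k K d) := by
    rw [alg_ps, ← map_mul, ← map_mul, mul_div_cancel₀ _ hc]
  rw [CP, map_sub, map_mul, ← h5]
  exact iff_of_eq (by congr 1; ring)

end

section

variable {k σ τ ι : Type} [Field k] [Fintype σ] [DecidableEq σ] [Fintype τ] [DecidableEq τ]

variable (k σ) in
/-- The Weyl algebra. -/
def Wl : Subalgebra k (Module.End k (MvPolynomial σ k)) :=
  Algebra.adjoin k
    (Set.range (fun j : σ => LinearMap.mulLeft k (X j)) ∪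
      Set.range (fun j : σ => (pderiv j).toLinearMap))

/-- The families `P(m) g^(m+1)`. -/
def Fm (g : MvPolynomial σ k) : Submodule k (ℕ → MvPolynomial σ k) :=
  Submodule.span k {F | ∃ i : ℕ, ∃ P ∈ Wl k σ, F = fun m : ℕ => (m : k) ^ i • P (g ^ (m + 1))}

def LB (g : MvPolynomial σ k) (b : Polynomial k) : Prop :=
  ∃ h, constantCoeff h ≠ 0 ∧ (fun m : ℕ => b.eval (m : k) • (h * g ^ m)) ∈ Fm g

theorem mo {S M : Type} [Semiring S] [AddCommMonoid M] [Module S M] {T : Submodule S (ℕ → M)}
    {F F' : ℕ → M} (h : F ∈ T) (e : ∀ m, F m = F' m) : F' ∈ T := funext e ▸ h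

variable {g : MvPolynomial σ k} {F : ℕ → MvPolynomial σ k}

theorem Fm_base : (fun m => g ^ (m + 1)) ∈ Fm g :=
  Submodule.subset_span ⟨0, 1, one_mem _, by simp⟩

theorem Fm_op (h : F ∈ Fm g) {P : Module.End k (MvPolynomial σ k)} (hP : P ∈ Wl k σ) :
    (fun m => P (F m)) ∈ Fm g := by
  induction h using Submodule.span_induction with
  | mem F h =>
    obtain ⟨i, Q, hQ, rfl⟩ := h
    exact Submodule.subset_span ⟨i, P * Q, mul_mem hP hQ, by simp⟩
  | zero => exact mo (zero_mem _) (by simp)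
  | add F F' _ _ h h' => exact mo (add_mem h h') (by simp)
  | smul c F _ h => exact mo (Submodule.smul_mem _ c h) (by simp)

theorem Fm_nat (h : F ∈ Fm g) : (fun m : ℕ => (m : k) • F m) ∈ Fm g := by
  induction h using Submodule.span_induction with
  | mem F h =>
    obtain ⟨i, Q, hQ, rfl⟩ := h
    exact Submodule.subset_span ⟨i + 1, Q, hQ, by simp [pow_succ', mul_smul]⟩
  | zero => exact mo (zero_mem _) (by simp)
  | add F F' _ _ h h' => exact mo (add_mem h h') (by simp)
  | smul c F _ h => exact mo (Submodule.smul_mem _ c h) (by simp [smul_comm c])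

theorem Fm_poly (h : F ∈ Fm g) (p : Polynomial k) :
    (fun m : ℕ => p.eval (m : k) • F m) ∈ Fm g := by
  induction p using Polynomial.induction_on with
  | C c => exact mo (Submodule.smul_mem _ c h) (by simp)
  | add p q hp hq => exact mo (add_mem hp hq) (by simp [add_smul])
  | monomial n c ih => simpa [pow_succ', smul_smul, mul_left_comm] using Fm_nat ih

theorem Fm_pderiv (h : F ∈ Fm g) (j : σ) : (fun m => pderiv j (F m)) ∈ Fm g :=
  Fm_op h (Algebra.subset_adjoin (Or.inr ⟨j, rfl⟩))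

theorem Fm_mul (h : F ∈ Fm g) (p : MvPolynomial σ k) : (fun m => p * F m) ∈ Fm g := by
  induction p using MvPolynomial.induction_on generalizing F with
  | C c => exact mo (Submodule.smul_mem _ c h) (by simp [smul_eq_C_mul])
  | add p q hp hq => exact mo (add_mem (hp h) (hq h)) (by simp [add_mul])
  | mul_X p j ih =>
    simpa [mul_assoc] using ih (Fm_op h (Algebra.subset_adjoin (Or.inl ⟨j, rfl⟩)))

theorem Fm_le {T : Submodule k (ℕ → MvPolynomial σ k)} (h0 : (fun m => g ^ (m + 1)) ∈ T)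
    (h1 : ∀ F ∈ T, ∀ j, (fun m => X j * F m) ∈ T) (h2 : ∀ F ∈ T, ∀ j, (fun m => pderiv j (F m)) ∈ T)
    (h3 : ∀ F ∈ T, (fun m : ℕ => (m : k) • F m) ∈ T) : Fm g ≤ T := by
  have key : ∀ P ∈ Wl k σ, ∀ F ∈ T, (fun m => P (F m)) ∈ T := fun P hP => by
    induction hP using Algebra.adjoin_induction with
    | mem P hP =>
      rcases hP with ⟨j, rfl⟩ | ⟨j, rfl⟩
      exacts [fun F hF => h1 F hF j, fun F hF => h2 F hF j]
    | algebraMap c => exact fun F hF => T.smul_mem c hF
    | add P Q _ _ hP hQ => exact fun F hF => add_mem (hP F hF) (hQ F hF)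
    | mul P Q _ _ hP hQ => exact fun F hF => hP _ (hQ F hF)
  rw [Fm, Submodule.span_le]
  rintro _ ⟨i, P, hP, rfl⟩
  induction i with
  | zero => simpa using key P hP _ h0
  | succ i ih => simpa [pow_succ', mul_smul] using h3 _ ih

theorem LB_iff {n : ℕ} {g : MvPolynomial (Fin n) k} {b : Polynomial k} :
    LB g b ↔ LocalBernsteinEq g b := by
  constructor
  · rintro ⟨h, h0, h1⟩
    have key : ∀ F ∈ Fm g, ∃ Q : ℕ →₀ Module.End k (MvPolynomial (Fin n) k),
        (∀ i, Q i ∈ weyl k n) ∧ ∀ m : ℕ, (Q.sum fun i P => (m : k) ^ i • P (g ^ (m + 1))) = F m := by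
      intro F hF
      induction hF using Submodule.span_induction with
      | mem F h =>
        obtain ⟨i, P, hP, rfl⟩ := h
        refine ⟨.single i P, fun j => ?_, by simp⟩
        rw [Finsupp.single_apply]
        split_ifs
        exacts [hP, zero_mem _]
      | zero => exact ⟨0, fun _ => zero_mem _, by simp⟩
      | add F F' _ _ h h' =>
        obtain ⟨Q, h1, h2⟩ := h
        obtain ⟨Q', h1', h2'⟩ := h'
        exact ⟨Q + Q', fun i => add_mem (h1 i) (h1' i), fun m => by
          rw [Finsupp.sum_add_index' (by simp) (by simp), h2, h2', Pi.add_apply]⟩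
      | smul c F _ h =>
        obtain ⟨Q, h1, h2⟩ := h
        exact ⟨c • Q, fun i => Subalgebra.smul_mem _ (h1 i) c, fun m => by
          rw [Finsupp.sum_smul_index' (by simp), Pi.smul_apply, ← h2, Finsupp.smul_sum]
          simp [smul_comm c]⟩
    obtain ⟨Q, h2, h3⟩ := key _ h1
    refine ⟨h, Q.support.sup id + 1, fun i => Q i, h0, fun i => h2 i, fun m => ?_⟩
    rw [← h3, Finsupp.sum_of_support_subset _ (s := Finset.range (Q.support.sup id + 1))
      (fun i hi => Finset.mem_range.2 (Nat.lt_succ_of_le (Finset.le_sup (f := id) hi))) _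
      (by simp), Finset.sum_range]
  · rintro ⟨h, d, P, h0, h1, h2⟩
    refine ⟨h, h0, ?_⟩
    rw [← funext h2, ← Finset.sum_fn]
    exact sum_mem fun i _ => Submodule.subset_span ⟨i, P i, h1 i, rfl⟩

theorem tq_coe (N : ℕ) (p : MvPolynomial τ k) :
    MvPowerSeries.truncTotalAlgHom τ k N p = Ideal.Quotient.mk _ p :=
  (MvPowerSeries.truncTotalAlgHom τ k N).commutes p

/-- Truncation as a homomorphism of algebras. -/
def tq (N : ℕ) : MvPowerSeries τ k →ₐ[k] MvPolynomial τ k ⧸ idealOfVars τ k ^ N where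
  toRingHom := MvPowerSeries.truncTotalAlgHom τ k N
  commutes' c := by simp

theorem tq_apply (N : ℕ) (p : MvPowerSeries τ k) :
    tq N p = Ideal.Quotient.mk _ (p.truncTotal N) := rfl

theorem descent [Fintype ι] (s : Set (Option ι → MvPolynomial τ k)) (c : ι → MvPowerSeries τ k)
    (h : ∀ y ∈ s, (y none : MvPowerSeries τ k) = ∑ i, c i * y (some i)) :
    ∃ (h : MvPolynomial τ k) (a : ι → MvPolynomial τ k), constantCoeff h ≠ 0 ∧
      ∀ y ∈ s, h * y none = ∑ i, a i * y (some i) := by
  classical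
  obtain ⟨t, h1, h2⟩ := (Submodule.fg_span_iff_fg_span_finset_subset s).1
    (IsNoetherian.noetherian (Submodule.span (MvPolynomial τ k) s))
  let I : Submodule (MvPolynomial τ k) (t → MvPolynomial τ k) :=
    Submodule.span _ (Set.range fun i (y : t) => y.1 (some i))
  obtain ⟨r, hr⟩ := ((idealOfVars τ k).mem_iInf_smul_pow_eq_bot_iff
    (I.mkQ fun y : t => y.1 none)).1 ((Submodule.mem_iInf _).2 fun N => by
      have h3 : ∀ y : t, y.1 none - ∑ i, (c i).truncTotal N * y.1 (some i) ∈ idealOfVars τ k ^ N :=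
        fun y => Ideal.Quotient.eq.1 (by
          have := congrArg (MvPowerSeries.truncTotalAlgHom τ k N) (h y (h1 y.2))
          simp only [map_sum, map_mul, tq_coe] at this ⊢
          exact this)
      have h4 : (fun y : t => y.1 none) = ∑ i, (c i).truncTotal N • (fun y : t => y.1 (some i)) +
          ∑ y : t, (y.1 none - ∑ i, (c i).truncTotal N * y.1 (some i)) •
            (Pi.single y 1 : t → MvPolynomial τ k) := by
        funext y
        simp [Pi.single_apply]
      rw [h4, map_add, (Submodule.Quotient.mk_eq_zero I).2 (sum_mem fun i _ =>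
        I.smul_mem _ (Submodule.subset_span ⟨i, rfl⟩)) |> (I.mkQ_apply _).trans, zero_add, map_sum]
      exact sum_mem fun y _ => by
        rw [map_smul]
        exact Submodule.smul_mem_smul (h3 y) Submodule.mem_top)
  rw [← map_smul, I.mkQ_apply, I.mkQ_apply, eq_comm, Submodule.Quotient.eq] at hr
  obtain ⟨a, ha⟩ := (Submodule.mem_span_range_iff_exists_fun _).1 hr
  refine ⟨1 - r, a, by simp [const_of_mem (M := 0) (g := r.1) (by simp)], fun y hy => ?_⟩
  have h3 := Submodule.subset_span (R := MvPolynomial τ k) hy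
  rw [h2] at h3
  clear hy
  induction h3 using Submodule.span_induction with
  | mem y hy => simpa [sub_mul] using (congrFun ha ⟨y, hy⟩).symm
  | zero => simp
  | add y y' _ _ h h' => simp [mul_add, h, h', Finset.sum_add_distrib]
  | smul c y _ h => simp [mul_left_comm _ c, h, Finset.mul_sum]

theorem LB.pull {H : MvPolynomial σ k} {G : MvPolynomial τ k} {φ : σ → MvPowerSeries τ k}
    {e : MvPowerSeries τ k} {B : Matrix τ σ (MvPowerSeries τ k)} {b : Polynomial k}
    (h0 : ∀ a, MvPowerSeries.constantCoeff (φ a) = 0)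
    (hB : (Matrix.of fun a j => MvPowerSeries.pderiv k j (φ a)) * B = 1) (he : IsUnit e)
    (hφ : aeval φ H = e * G) (hb : LB H b) : LB G b := by
  obtain ⟨v, hv⟩ := he.exists_left_inv
  have hm : ∀ m, v ^ m * (e * G) ^ m = (G : MvPowerSeries τ k) ^ m := fun m => by
    rw [← mul_pow, ← mul_assoc, hv, one_mul]
  let T : Submodule (MvPowerSeries τ k) (ℕ → MvPowerSeries τ k) :=
    Submodule.span _ {Φ | ∃ F ∈ Fm G, Φ = fun m => (F m : MvPowerSeries τ k)}
  have t0 : ∀ F ∈ Fm G, (fun m => (F m : MvPowerSeries τ k)) ∈ T := fun F hF =>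
    Submodule.subset_span ⟨F, hF, rfl⟩
  have t1 : ∀ Φ ∈ T, (fun m : ℕ => (m : MvPowerSeries τ k) * Φ m) ∈ T := fun Φ h => by
    induction h using Submodule.span_induction with
    | mem Φ h =>
      obtain ⟨F, hF, rfl⟩ := h
      exact mo (t0 _ (Fm_nat hF)) fun m => by rw [coe_smul, Nat.cast_smul_eq_nsmul, nsmul_eq_mul]
    | zero => exact mo (zero_mem _) (by simp)
    | add F F' _ _ h h' => exact mo (add_mem h h') (by simp [mul_add])
    | smul c F _ h => exact mo (T.smul_mem c h) (by simp [mul_left_comm c])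
  have t2 : ∀ j, ∀ Φ ∈ T, (fun m => MvPowerSeries.pderiv k j (Φ m)) ∈ T := fun j Φ h => by
    induction h using Submodule.span_induction with
    | mem Φ h =>
      obtain ⟨F, hF, rfl⟩ := h
      exact mo (t0 _ (Fm_pderiv hF j)) (by simp [MvPowerSeries.pderiv_coe])
    | zero => exact mo (zero_mem _) (by simp)
    | add F F' _ _ h h' => exact mo (add_mem h h') (by simp)
    | smul c F h' h =>
      exact mo (add_mem (T.smul_mem c h) (T.smul_mem (MvPowerSeries.pderiv k j c) h'))
        (by simp [mul_comm])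
  let L : (ℕ → MvPolynomial σ k) →ₗ[k] ℕ → MvPowerSeries τ k :=
    { toFun := fun F m => v ^ m * aeval φ (F m)
      map_add' := fun F F' => by ext1 m; simp [mul_add]
      map_smul' := fun c F => by ext1 m; simp }
  have h1 : Fm H ≤ (T.restrictScalars k).comap L := by
    refine Fm_le (mo (T := T) (T.smul_mem e (t0 _ Fm_base)) fun m => ?_)
      (fun F hF a => mo (T := T) (T.smul_mem (φ a) hF) fun m => by simp [L, mul_left_comm])
      (fun F hF a => mo (T := T) (sum_mem fun j (_ : j ∈ Finset.univ) => T.smul_mem (B j a)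
        (sub_mem (t2 j _ hF) (T.smul_mem (e * MvPowerSeries.pderiv k j v) (t1 _ hF)))) fun m => ?_)
      fun F hF => mo (T := T) (t1 _ hF) fun m => by simp [L, Nat.cast_smul_eq_nsmul, mul_left_comm]
    · simp only [L, LinearMap.coe_mk, AddHom.coe_mk, map_pow, hφ, Pi.smul_apply, smul_eq_mul,
        coe_pow]
      rw [pow_succ (e * G), ← mul_assoc, hm]
      ring
    · have h2 : ∀ j, MvPowerSeries.pderiv k j (v ^ m * aeval φ (F m)) -
          e * MvPowerSeries.pderiv k j v * (m * (v ^ m * aeval φ (F m))) =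
          v ^ m * MvPowerSeries.pderiv k j (aeval φ (F m)) := fun j => by
        rw [Derivation.leibniz, Derivation.leibniz_pow]
        rcases m with _ | m
        · simp
        · simp only [smul_eq_mul, nsmul_eq_mul, Nat.add_sub_cancel]
          linear_combination (-(MvPowerSeries.pderiv k j v * (m + 1 : ℕ) * v ^ m *
            aeval φ (F (m + 1)))) * hv
      have h3 := fun a' => congrFun (congrFun hB a') a
      simp only [Matrix.mul_apply, Matrix.of_apply, Matrix.one_apply] at h3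
      simp only [L, LinearMap.coe_mk, AddHom.coe_mk, Finset.sum_apply, Pi.smul_apply, Pi.sub_apply,
        smul_eq_mul, h2, chain, Finset.mul_sum]
      rw [Finset.sum_comm]
      simp only [mul_left_comm (B _ _), mul_comm (B _ _), ← Finset.mul_sum, h3]
      simp
  obtain ⟨h, h2, h3⟩ := hb
  obtain ⟨w, hw⟩ : ∃ w, w * aeval φ h = 1 := by
    refine (MvPowerSeries.isUnit_iff_constantCoeff.2 (IsUnit.mk0 _ ?_)).exists_left_inv
    have := MvPolynomial.map_aeval φ MvPowerSeries.constantCoeff h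
    simp only [h0] at this
    rw [this]
    simpa [MvPowerSeries.algebraMap_apply] using h2
  have h4 : (fun m : ℕ => ((b.eval (m : k) • G ^ m : MvPolynomial τ k) : MvPowerSeries τ k)) ∈ T :=
    mo (T.smul_mem w (h1 h3)) fun m => by
      simp only [L, LinearMap.coe_mk, AddHom.coe_mk, map_pow, hφ, Pi.smul_apply, smul_eq_mul,
        coe_pow, map_smul, map_mul, coe_smul, mul_smul_comm]
      rw [mul_left_comm (v ^ m), ← mul_assoc, hw, hm, one_mul]
  obtain ⟨d, c, Φ, h5⟩ := Submodule.mem_span_set'.1 h4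
  choose F h6 h7 using fun i => (Φ i).2
  obtain ⟨h', a, h8, h9⟩ := descent (ι := Fin d) (Set.range fun (m : ℕ) o =>
    o.elim (b.eval (m : k) • G ^ m) fun i => F i m) c (by
      rintro _ ⟨m, rfl⟩
      simpa [h7] using (congrFun h5 m).symm)
  refine ⟨h', h8, mo (sum_mem fun i (_ : i ∈ Finset.univ) => Fm_mul (h6 i) (a i)) fun m => ?_⟩
  simpa using (h9 _ ⟨m, rfl⟩).symm

theorem eqv_of {H : MvPolynomial σ k} {G : MvPolynomial τ k} {φ : σ → MvPowerSeries τ k}
    {e : MvPowerSeries τ k} {B : Matrix τ σ k} (h0 : ∀ a, MvPowerSeries.constantCoeff (φ a) = 0)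
    (h1 : (Matrix.of fun a j => MvPowerSeries.coeff (Finsupp.single j 1) (φ a)) * B = 1)
    (h2 : B * (Matrix.of fun a j => MvPowerSeries.coeff (Finsupp.single j 1) (φ a)) = 1)
    (hφ : aeval φ H = e * G) : Eqv H G (MvPowerSeries.constantCoeff e) := fun M => by
  have h3 : (Matrix.of fun a j => lin ((φ a).truncTotal (M + 2)) j) =
      Matrix.of fun a j => MvPowerSeries.coeff (Finsupp.single j 1) (φ a) := by
    ext a j
    simp [lin_eq, MvPowerSeries.coeff_truncTotal]
  refine ⟨fun a => (φ a).truncTotal (M + 2), e.truncTotal (M + 2), ⟨fun a => ?_, B, h3 ▸ h1,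
    h3 ▸ h2⟩, ?_, Ideal.pow_le_pow_right (Nat.le_add_right M 2) (Ideal.Quotient.eq.1 ?_)⟩
  · simp [MvPowerSeries.constantCoeff_truncTotal_eq_ite, h0]
  · simp [MvPowerSeries.constantCoeff_truncTotal_eq_ite]
  · have h4 := congrArg (tq (M + 2)) hφ
    rw [algHom_aeval _ _ _ fun a => tq_apply _ _, map_mul, tq_apply] at h4
    rw [map_mul, ← tq_coe _ G]
    exact (algHom_aeval (Ideal.Quotient.mkₐ k _) _ _ (fun a => rfl) H).trans h4

theorem exists_inv {S : Type} [CommRing S] {A : Matrix τ τ S} (h : IsUnit A.det) (ε : σ ≃ τ) :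
    ∃ B : Matrix τ σ S, A.submatrix ε id * B = 1 ∧ B * A.submatrix ε id = 1 :=
  ⟨A⁻¹.submatrix id ε, (Matrix.submatrix_mul_equiv _ _ _ (.refl τ) _).trans (by
    rw [Matrix.mul_nonsing_inv _ h, Matrix.submatrix_one_equiv]), by
    rw [Matrix.submatrix_mul_equiv, Matrix.nonsing_inv_mul _ h, Matrix.submatrix_id_id]⟩

theorem pull {n : ℕ} {f G : MvPolynomial (Fin n) k} {φ : Fin n → MvPowerSeries (Fin n) k}
    {e : MvPowerSeries (Fin n) k} (h0 : ∀ a, MvPowerSeries.constantCoeff (φ a) = 0)
    (h1 : (Matrix.of fun a j => MvPowerSeries.coeff (Finsupp.single j 1) (φ a)).det ≠ 0)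
    (h2 : MvPowerSeries.constantCoeff e ≠ 0) (h : aeval φ f = e * G)
    (H : ∀ c ≠ 0, ∃ S : Finset (ℕ × ℕ), zeta (C c * G) ∈ poleRing k S ∧ ∀ p ∈ S, 0 < p.1 ∧
      0 < p.2 ∧ ∀ b, LocalBernsteinEq (C c * G) b → b.eval (-(p.1 : k) / p.2) = 0) :
    ∃ S : Finset (ℕ × ℕ), zeta f ∈ poleRing k S ∧ ∀ p ∈ S, 0 < p.1 ∧ 0 < p.2 ∧
      ∀ b, LocalBernsteinEq f b → b.eval (-(p.1 : k) / p.2) = 0 := by
  set c := MvPowerSeries.constantCoeff e with hc
  have h3 : aeval φ f = (MvPowerSeries.C c⁻¹ * e) *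
      ((C c * G : MvPolynomial (Fin n) k) : MvPowerSeries (Fin n) k) := by
    rw [h, MvPolynomial.coe_mul, MvPolynomial.coe_C, mul_mul_mul_comm, ← map_mul,
      inv_mul_cancel₀ h2, map_one, one_mul]
  have h4 : MvPowerSeries.constantCoeff (MvPowerSeries.C c⁻¹ * e) = 1 := by
    simp [← hc, h2]
  obtain ⟨S, h5, h6⟩ := H _ h2
  obtain ⟨B, h8, h9⟩ := exists_inv (IsUnit.mk0 _ h1) (Equiv.refl _)
  have h10 := eqv_of h0 h8 h9 h3
  obtain ⟨B', h11, -⟩ := exists_inv
    (A := Matrix.of fun a j => MvPowerSeries.pderiv k j (φ a))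
    (MvPowerSeries.isUnit_iff_constantCoeff.2 (IsUnit.mk0 _ (by
      rw [RingHom.map_det]
      convert h1 using 2
      ext a j
      simp [← MvPowerSeries.coeff_zero_eq_constantCoeff_apply, MvPowerSeries.coeff_pderiv])))
    (Equiv.refl _)
  refine ⟨S, ?_, fun p hp => ⟨(h6 p hp).1, (h6 p hp).2.1, fun b hb => (h6 p hp).2.2 b
    (LB_iff.1 (LB.pull h0 h11
      (MvPowerSeries.isUnit_iff_constantCoeff.2 (h4 ▸ isUnit_one)) h3 (LB_iff.2 hb)))⟩⟩
  convert h5 using 1
  ext m
  rcases m with _ | m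
  · simp [zeta, series]
  · rw [coeff_zeta_vol, coeff_zeta_vol, h10.vol (h4 ▸ one_ne_zero), h4, div_one]

end

end

end Pool.Agent.P.MP_b91a16_ag.Id.Pl
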