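import Pool.Agent.P.MP_b91a16_ag.Ln.Stmt

/-! Orders and leading coefficients along an arc only depend on the vertex terms. -/

set_option linter.unusedSectionVars false

open MvPolynomial

namespace Pool.Agent.P.MP_b91a16_ag.Id.Ln

variable {k ι ρ : Type} [Field k] [Fintype ι] [Fintype ρ] [DecidableEq ρ]

namespace QA

theorem has_vt {g : ι → P2 k} {β : ι → ρ} {a m : ρ → ℕ} (h : Has g β a m) :
    Has (vt g β a m) β a m := by
  intro j
  obtain ⟨i, rfl, hi⟩ := h j
  exact ⟨i, rfl, by simpa [vt] using hi⟩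

theorem supp_vt {g : ι → P2 k} {β : ι → ρ} {a m : ρ → ℕ} {i : ι} {v : Fin 2 →₀ ℕ}
    (hv : v ∈ (vt g β a m i).support) : v = ex (a (β i)) (m (β i)) := by
  classical
  simpa using support_monomial_subset hv

theorem coeff_eq {K : Type} [Field K] [Algebra k K] (γ : Fin 2 → PowerSeries K) (G : P2 k)
    (w : Fin 2 →₀ ℕ) {n : ℕ}
    (h : ∀ v ∈ G.support, v ≠ w →
      (n : ℕ∞) < (v 0 : ℕ∞) * (γ 0).order + (v 1 : ℕ∞) * (γ 1).order) :
    PowerSeries.coeff n (aeval γ G) =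
      PowerSeries.coeff n (aeval γ (monomial w (coeff w G) : P2 k)) := by
  classical
  have h1 := PB.dvd_part γ G (G.support.erase w) (Finset.erase_subset _ _) (n := n + 1)
    fun v hv => by
      have := h v (Finset.mem_of_mem_erase hv) (Finset.ne_of_mem_erase hv)
      exact_mod_cast Order.add_one_le_of_lt this
  have h2 := (dvd_succ_iff.1 h1).2
  by_cases hw : w ∈ G.support
  · rw [PB.aeval_sum γ G, ← Finset.add_sum_erase _ _ hw, map_add, h2, add_zero]
  · rw [Finset.erase_eq_of_notMem hw, ← PB.aeval_sum] at h2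
    rw [h2, notMem_support_iff.1 hw]
    simp

theorem ord_vol (g : ι → P2 k) (β : ι → ρ) (e : ρ →₀ ℕ) (s : Finset ρ)
    {P : Pred k (Fin 2 × ℕ)} {v : Mot k} (h : HasVol P v) :
    ∃ v', HasVol (k := k) (fun K _ _ x => P K x ∧ ∀ j ∈ s, ∃ i, β i = j ∧
      PowerSeries.coeff (e j) (aeval (ser x) (g i)) ≠ 0) v' := by
  classical
  induction s using Finset.induction_on with
  | empty => exact ⟨v, h.congr fun K _ _ x => by simp⟩
  | insert j s _ ih =>
    obtain ⟨v₁, h₁⟩ := ih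
    obtain ⟨v₂, h₂⟩ := PkR.and_exists_ne (Finset.univ.filter fun i => β i = j)
      (fun i => PowerSeries.coeff (e j)
        (aeval (ser (X : Fin 2 × ℕ → MvPolynomial (Fin 2 × ℕ) k)) (g i))) h₁
    refine ⟨v₂, h₂.congr fun K _ _ x => ?_⟩
    simp only [aeval_coeff, Finset.mem_filter, Finset.mem_univ, true_and,
      Finset.forall_mem_insert]
    tauto

end QA

open QA

theorem thGen_ok : S_thGen k ι ρ := by
  intro Ξ g β a m e hH K _ _ γ h
  have h1 := ordGen_ok g β a m e hH K γ h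
  have h2 := ordGen_ok (vt g β a m) β a m e (has_vt hH) K γ fun i v hv hw =>
    absurd (supp_vt hv) hw
  unfold Th
  rw [h1, h2]
  refine and_congr_right fun hM => ?_
  have h3 : (fun i => PowerSeries.coeff (e (β i)) (aeval γ (g i))) =
      fun i => PowerSeries.coeff (e (β i)) (aeval γ (vt g β a m i)) := by
    funext i
    refine coeff_eq γ (g i) _ fun v hv hw => ?_
    have := h i v hv hw
    rw [hM (β i)] at this
    exact this.elim id id
  rw [h3]

theorem thCone_ok : S_thCone k ι ρ := by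
  intro Ξ p q p' q' g β a m e hH h1 h2 hp hd K _ _ γ hC
  exact thGen_ok Ξ g β a m e hH K γ fun i v hv hw =>
    PB.cone_key _ (h1 i v hv) (h2 i v hv) hp hd (PB.ne_ex hw) hC.1 hC.2

theorem thTerm_ok : S_thTerm k ι ρ := by
  intro Ξ p q D g β a m e hH h1 hp hD he K _ _ γ hC
  refine thGen_ok Ξ g β a m e hH K γ fun i v hv hw =>
    PB.term_key (h1 i v hv) hp (hD i v hv) (he _) (PB.ne_ex hw) hC.1 ?_
  simpa using hC.2

theorem exTh_ok : S_exTh k ι ρ := by
  classical
  intro Ξ g β e Ψ v hΞ hv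
  obtain ⟨v₁, h₁⟩ := HasVol.and_forall_eq hv
    (Finset.univ.sigma fun i : ι => Finset.range (e (β i)))
    (fun p : (_ : ι) × ℕ => PowerSeries.coeff p.2
      (aeval (ser (X : Fin 2 × ℕ → MvPolynomial (Fin 2 × ℕ) k)) (g p.1)))
  obtain ⟨v₂, h₂⟩ := ord_vol g β e Finset.univ h₁
  obtain ⟨v₃, h₃⟩ := hΞ _ _ _ (fun i => PowerSeries.coeff (e (β i))
    (aeval (ser (X : Fin 2 × ℕ → MvPolynomial (Fin 2 × ℕ) k)) (g i))) h₂
  refine ⟨v₃, h₃.congr fun K _ _ x => ?_⟩
  simp only [aeval_coeff, An, Th, Ord, Finset.mem_sigma, Finset.mem_univ, true_and,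
    Finset.mem_range, Sigma.forall, forall_true_left, dvd_succ_iff, and_assoc]
  refine and_congr_right fun _ => ?_
  rw [← and_assoc]
  refine and_congr_left fun _ => ⟨fun ⟨H1, H2⟩ j => ⟨fun i hi => ?_, ?_⟩, fun H => ⟨fun i => ?_, fun j => ?_⟩⟩
  · subst hi
    exact PowerSeries.X_pow_dvd_iff.2 (H1 i)
  · obtain ⟨i, hi, h⟩ := H2 j
    exact ⟨i, hi, fun h' => h h'.2⟩
  · exact PowerSeries.X_pow_dvd_iff.1 ((H (β i)).1 i rfl)
  · obtain ⟨h1, i, hi, h⟩ := H j
    exact ⟨i, hi, fun h' => h ⟨h1 i hi, h'⟩⟩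

end Pool.Agent.P.MP_b91a16_ag.Id.Ln
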