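import Pool.Agent.P.MP_b91a16_ag.Ln.Stmt

/-! Package B: the series of an open cone with a condition on the leading coefficients. -/

set_option linter.unusedSectionVars false

open MvPolynomial

namespace Pool.Agent.P.MP_b91a16_ag.Id.Ln

noncomputable section

variable {k ι ρ : Type} [Field k] [Fintype ι] [Fintype ρ] [DecidableEq ρ]

namespace QB

/-- Orders `z`, and `Ξ` holds for the leading coefficients of the monomials. -/
def Pz (Ξ : Pred k ι) (c : ι → k) (a m : ι → ℕ) (z : ℕ × ℕ) : AP k (Fin 2) := fun K _ _ γ =>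
  ((γ 0).order = z.1 ∧ (γ 1).order = z.2) ∧ Ξ K fun i => algebraMap k K (c i) *
    PowerSeries.coeff z.1 (γ 0) ^ a i * PowerSeries.coeff z.2 (γ 1) ^ m i

theorem ord_shift {K : Type} [Field K] (i : ℕ) (s : PowerSeries K) :
    (PowerSeries.X ^ i * s : PowerSeries K).order = (i : ℕ∞) ↔ s.order = ((0 : ℕ) : ℕ∞) := by
  rw [PowerSeries.order_mul, PowerSeries.order_X_pow]
  exact ⟨fun h => by
    have : (i : ℕ∞) + s.order = i + 0 := by simpa using h
    exact_mod_cast WithTop.add_left_cancel (ENat.natCast_ne_top i) this, fun h => by simp [h]⟩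

theorem co_shift {K : Type} [Field K] (i : ℕ) (s : PowerSeries K) :
    PowerSeries.coeff i (PowerSeries.X ^ i * s) = PowerSeries.coeff 0 s := by
  simpa using PowerSeries.coeff_X_pow_mul s i 0

theorem vol_Pz {Ξ : Pred k ι} (h : Con Ξ) (c : ι → k) (a m : ι → ℕ) :
    ∃ v, ∀ z : ℕ × ℕ, AV (Pz Ξ c a m z) (Linv k ^ (z.1 + z.2) * v) := by
  obtain ⟨v, hv⟩ := h _ _ _ (fun i => C (c i) * X (0, 0) ^ a i * X (1, 0) ^ m i)
    (av_ord (k := k) 0 0)
  have h0 : AV (Pz Ξ c a m (0, 0)) v := hv.congr fun K _ _ x => by simp [Pz, ser]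
  refine ⟨v, fun z => PP.up (c := ![z.1, z.2]) (h0.congr fun K _ _ γ => ?_) fun K _ _ γ h j => ?_⟩
  · simp only [Pz, PP.sc, Matrix.cons_val_zero, Matrix.cons_val_one, ord_shift, co_shift]
  · fin_cases j
    · exact dvd_iff_le_order.2 h.1.1.ge
    · exact dvd_iff_le_order.2 h.1.2.ge

theorem coeff_mono {K : Type} [Field K] [Algebra k K] {γ : Fin 2 → PowerSeries K} {i j : ℕ}
    (h0 : (γ 0).order = i) (h1 : (γ 1).order = j) (a m : ℕ) (c : k) :
    PowerSeries.coeff (i * a + j * m) (aeval γ (monomial (ex a m) c : P2 k)) =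
      algebraMap k K c * PowerSeries.coeff i (γ 0) ^ a * PowerSeries.coeff j (γ 1) ^ m := by
  obtain ⟨u, hu⟩ := dvd_iff_le_order.2 h0.ge
  obtain ⟨w, hw⟩ := dvd_iff_le_order.2 h1.ge
  have e : aeval γ (monomial (ex a m) c : P2 k) = PowerSeries.X ^ (i * a + j * m) *
      (PowerSeries.C (algebraMap k K c) * u ^ a * w ^ m) := by
    simp only [monomial_ex, map_mul, map_pow, aeval_C, aeval_X, alg_ps, hu, hw]
    ring
  rw [e, hu, hw, co_shift, co_shift, co_shift]
  simp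

theorem ord_vt {g : ι → P2 k} {β : ι → ρ} {a m : ρ → ℕ} (h : Has g β a m) (e : ρ →₀ ℕ)
    (K : Type) [Field K] [Algebra k K] (γ : Fin 2 → PowerSeries K) :
    Ord (vt g β a m) β e K γ ↔ Mon k a m e K γ := by
  classical
  refine ordGen_ok _ β a m e (fun j => ?_) K γ fun i v hv hne => ?_
  · obtain ⟨i, rfl, hi⟩ := h j
    exact ⟨i, rfl, by simpa [vt] using hi⟩
  · exact (hne (Finset.mem_singleton.1 (support_monomial_subset hv))).elim

end QB

open PN QB in
theorem cone3_ok : S_cone3 k ι ρ := by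
  intro Ξ A n p q p' q' g β a m hΞ hH0 hD hN hN' hA hA'
  obtain ⟨v, hv⟩ := vol_Pz hΞ (fun i => coeff (ex (a (β i)) (m (β i))) (g i)) (fun i => a (β i))
    fun i => m (β i)
  obtain ⟨w, hw⟩ : ∃ w : ℕ × ℕ → Mot k,
      w = fun z => Linv k ^ (n * z.1) * (Linv k ^ (z.1 + z.2) * v) := ⟨_, rfl⟩
  have wadd : ∀ (z : ℕ × ℕ) (p q : ℕ), w (z + (p, q)) = w z * Linv k ^ (p * (n + 1) + q) := by
    intro z p q
    simp only [hw, Prod.fst_add, Prod.snd_add]
    ring
  obtain ⟨d, hd⟩ := Nat.exists_eq_add_of_le hD.le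
  have h0 : 0 < d := by omega
  have hf : ∀ e, {z | z ∈ Cn p q p' q' ∧ ph a m z = e}.Finite := fun e => by
    simpa only [ph_eq] using fib_fin hd h0 hN hN' e
  obtain ⟨H, hH, eH⟩ := mem_PR_inv (k := k) hN hA
  obtain ⟨H', hH', eH'⟩ := mem_PR_inv (k := k) hN' hA'
  rw [mono_eq] at eH eH'
  have s1 := step (ph a m) w (T := {z | z ∈ Cn p q p' q' ∧ p * z.2 ≤ q * z.1 + d})
    (add_left_injective (p', q')) (fun x => ph_add a m x _) (fun x => wadd x p' q') hf
    (cut1 hd h0) (by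
      rintro ⟨i, j⟩ ⟨h1, -⟩ ⟨-, h2⟩
      simp only [Prod.fst_add, Prod.snd_add] at h1 h2
      linarith)
  have s2 := step (ph a m) w (S := {z | z ∈ Cn p q p' q' ∧ p * z.2 ≤ q * z.1 + d})
    (T := {z | (z ∈ Cn p q p' q' ∧ p * z.2 ≤ q * z.1 + d) ∧ q' * z.1 ≤ p' * z.2 + d})
    (add_left_injective (p, q)) (fun x => ph_add a m x _) (fun x => wadd x p q)
    (fun e => (hf e).subset fun z hz => ⟨hz.1.1, hz.2⟩) (cut2 hd h0) (by
      rintro ⟨i, j⟩ ⟨⟨-, h1⟩, -⟩ ⟨-, h2⟩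
      simp only [Prod.fst_add, Prod.snd_add] at h1 h2
      linarith)
  rw [G_fin _ _ (box_fin hd h0 d), ← s1] at s2
  refine ⟨G (ph a m) w (Cn p q p' q'), ?_, fun e => ?_⟩
  · have e1 : G (ph a m) w (Cn p q p' q') = (∑ x ∈ (box_fin hd h0 d).toFinset,
        MvPowerSeries.monomial (ph a m x) (w x)) * H * H' := by
      rw [← s2]
      simp only [ph] at eH eH' ⊢
      linear_combination (-(G _ w (Cn p q p' q'))) * eH' -
        G _ w (Cn p q p' q') * (H' * (1 - MvPowerSeries.monomial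
          (Finsupp.equivFunOnFinite.symm (nv p' q' a m)) (Linv k ^ (p' * (n + 1) + q')))) * eH
    rw [e1]
    refine mul_mem (mul_mem (sum_mem fun x _ => ?_) hH) hH'
    rw [ph, ← mono_eq]
    exact mono_mem _ _
  · rw [coeff_G, finsum_mem_eq_finite_toFinset_sum _ (hf e), hw]
    refine (wv_of_fin (hf e).toFinset _ (fun z => z.1) _ (fun z _ => hv z)
      (fun _ _ _ _ _ _ h => h.1.1) fun K _ _ γ x _ y _ h h' =>
        Prod.ext (by exact_mod_cast h.1.1.symm.trans h'.1.1)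
          (by exact_mod_cast h.1.2.symm.trans h'.1.2)).congr fun K _ _ γ => ?_
    simp only [Set.Finite.mem_toFinset, Set.mem_ofPred_eq, An, Th, ord_vt hH0]
    have key : ∀ z : ℕ × ℕ, ph a m z = e → (γ 0).order = z.1 → (γ 1).order = z.2 →
        (fun i => PowerSeries.coeff (e (β i)) (aeval γ (vt g β a m i))) = fun i =>
          algebraMap k K (coeff (ex (a (β i)) (m (β i))) (g i)) *
            PowerSeries.coeff z.1 (γ 0) ^ a (β i) * PowerSeries.coeff z.2 (γ 1) ^ m (β i) :=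
      fun z h h0 h1 => _root_.funext fun i => by
        rw [← congrFun (ph_eq.1 h) (β i)]
        exact coeff_mono h0 h1 _ _ _
    constructor
    · rintro ⟨z, hz, h1, h2⟩
      have := (arc_iff hN hN' e _ _).1 ⟨z, hz, h1⟩
      exact ⟨this.1, this.2, (key z hz.2 h1.1 h1.2).symm ▸ h2⟩
    · rintro ⟨h1, h2, h3⟩
      obtain ⟨z, hz, h4⟩ := (arc_iff hN hN' e _ _).2 ⟨h1, h2⟩
      exact ⟨z, hz, h4, key z hz.2 h4.1 h4.2 ▸ h3⟩

end

end Pool.Agent.P.MP_b91a16_ag.Id.Ln
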