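import Pool.Agent.P.MP_b91a16_ag.Ln.Stmt

/-! Package C: the series of a strip and of the generic part of a ray, with a condition on the
leading coefficients. -/

set_option linter.unusedSectionVars false

open MvPolynomial

namespace Pool.Agent.P.MP_b91a16_ag.Id.Ln

noncomputable section

variable {k ι ρ : Type} [Field k] [Fintype ι] [Fintype ρ] [DecidableEq ρ]

namespace QC

theorem coeff_pow_mul {K : Type} [Field K] {s : PowerSeries K} {i : ℕ} (h : s.order = i) (N : ℕ)
    (T : PowerSeries K) : PowerSeries.coeff (N * i) (s ^ N * T) =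
      PowerSeries.coeff i s ^ N * PowerSeries.constantCoeff T := by
  obtain ⟨u, rfl⟩ := dvd_iff_le_order.2 h.ge
  have e1 := PowerSeries.coeff_X_pow_mul u i 0
  have e2 := PowerSeries.coeff_X_pow_mul (u ^ N * T) (N * i) 0
  rw [zero_add] at e1 e2
  rw [e1, mul_pow, ← pow_mul, mul_comm i N, mul_assoc, e2]
  simp

theorem inR_th {A : Set (ℕ × (ρ → ℕ))} {a : ρ → ℕ} (ha : a ≠ 0) {p ν n : ℕ} (hp : 0 < p)
    (hA : (ν, fun j => p * a j) ∈ A) (Ψ : AP k (Fin 2)) (Ξ : Pred k ι) (g : ι → P2 k) (β : ι → ρ)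
    (hO : ∀ (e : ρ →₀ ℕ) (K : Type) [Field K] [Algebra k K] γ, Ψ K γ →
      (Ord g β e K γ ↔ Mon k a 0 e K γ)) (w : ℕ → Mot k)
    (hw : ∀ i : ℕ, AV (k := k) (fun K _ _ γ => Ψ K γ ∧ (γ 0).order = i ∧
      Ξ K fun l => PowerSeries.coeff (a (β l) * i) (aeval γ (g l))) (w i))
    (hc : ∀ i, 0 < i → Linv k ^ (n * (i + p)) * w (i + p) =
      Linv k ^ ν * (Linv k ^ (n * i) * w i)) :
    InR A (fun e => An Ψ (Th Ξ g β e)) n := by
  refine (PO.inR_of ha hp hA (fun K _ _ γ => Ψ K γ ∧ ∃ i : ℕ, (γ 0).order = i ∧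
    Ξ K fun l => PowerSeries.coeff (a (β l) * i) (aeval γ (g l))) w
    (fun i => HasVol.congr (hw i) fun K _ _ x => ?_) hc).congr fun e K _ _ γ => ?_
  · constructor
    · rintro ⟨h1, h2, h3⟩
      exact ⟨⟨h1, i, h2, h3⟩, h2⟩
    · rintro ⟨⟨h1, i', h2, h3⟩, h4⟩
      obtain rfl : i' = i := by exact_mod_cast h2.symm.trans h4
      exact ⟨h1, h2, h3⟩
  · have key : ∀ i : ℕ, (γ 0).order = i → Mon k a 0 e K γ → ∀ j, e j = a j * i := by
      intro i hi h j
      have := h j
      simp only [hi, Pi.zero_apply, Nat.cast_zero, zero_mul, add_zero] at this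
      exact_mod_cast this.symm
    constructor
    · rintro ⟨⟨h1, i, h2, h3⟩, h4⟩
      refine ⟨h1, (hO e K γ h1).2 h4, ?_⟩
      simpa only [key i h2 h4] using h3
    · rintro ⟨h1, h2, h3⟩
      have h4 := (hO e K γ h1).1 h2
      obtain ⟨j, hj⟩ := Function.ne_iff.1 ha
      have h5 : (γ 0).order ≠ ⊤ := fun h5 => by
        have := h4 j
        rw [h5, ENat.mul_top (by exact_mod_cast hj)] at this
        simp at this
      obtain ⟨i, hi⟩ := ENat.ne_top_iff_exists.1 h5
      refine ⟨⟨h1, i, hi.symm, ?_⟩, h4⟩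
      simpa only [key i hi.symm h4] using h3

/-- Moving a condition on the first coefficients to the orders `(i, t)`. -/
theorem shift {R : ∀ (K : Type) [Field K] [Algebra k K], K → K → Prop} {v : Mot k}
    (h : HasVol (k := k) (ι := Fin 2 × ℕ)
      (fun K _ _ x => x (0, 0) ≠ 0 ∧ R K (x (0, 0)) (x (1, 0))) v) (i t : ℕ) :
    AV (k := k) (τ := Fin 2) (fun K _ _ γ => ((γ 0).order = i ∧ (t : ℕ∞) ≤ (γ 1).order) ∧
      R K (PowerSeries.coeff i (γ 0)) (PowerSeries.coeff t (γ 1))) (Linv k ^ (i + t) * v) := by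
  have h1 := (h.comap (shiftEmb ![i, t])).and_forall_zero (lowSet ![i, t])
    fun p hp K _ _ x c hx => by
      have : Function.update x p c ∘ shiftEmb ![i, t] = x ∘ shiftEmb ![i, t] :=
        funext fun q => Function.update_of_ne (by
          rintro rfl
          simp [mem_lowSet] at hp) _ _
      rwa [this]
  rw [card_lowSet, Fin.sum_univ_two] at h1
  refine h1.congr fun K _ _ x => ?_
  beta_reduce
  rw [PowerSeries.order_eq_nat, ← dvd_iff_le_order, PowerSeries.X_pow_dvd_iff]
  simp only [ser, PowerSeries.coeff_mk, mem_lowSet, Prod.forall, Fin.forall_fin_two,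
    Function.comp_apply, shiftEmb_apply, zero_add]
  simp only [Matrix.cons_val_zero, Matrix.cons_val_one]
  tauto

theorem cone_iff {K : Type} [Field K] [Algebra k K] {p q i : ℕ} (hp : 0 < p) (hi : i ≠ 0)
    {γ : Fin 2 → PowerSeries K} (h : (γ 0).order = i) :
    ((q * i / p + 1 : ℕ) : ℕ∞) ≤ (γ 1).order ↔ Cone k p q 0 1 K γ := by
  simp only [Cone, h, Nat.cast_zero, zero_mul, Nat.cast_one, one_mul, Nat.cast_pos,
    Nat.pos_of_ne_zero hi, and_true]
  induction (γ 1).order using ENat.recTopCoe with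
  | top =>
    rw [ENat.mul_top (by exact_mod_cast hp.ne'), ← Nat.cast_mul]
    exact iff_of_true le_top (ENat.natCast_lt_top _)
  | coe j =>
    norm_cast
    rw [Nat.succ_le_iff, Nat.div_lt_iff_lt_mul hp, mul_comm j]

theorem aeval_ex {K : Type} [CommRing K] [Algebra k K] (γ : Fin 2 → K) (a : ℕ) (c : k) :
    aeval γ (monomial (ex a 0) c) = γ 0 ^ a * algebraMap k K c := by
  rw [ex, Finsupp.single_zero, add_zero, aeval_monomial,
    Finsupp.prod_single_index (h := fun i n => γ i ^ n) (pow_zero _), mul_comm]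

theorem cc_aeval {K : Type} [Field K] [Algebra k K] (s : PowerSeries K) (ψ : Polynomial k) :
    PowerSeries.constantCoeff (Polynomial.aeval s ψ) =
      Polynomial.aeval (PowerSeries.constantCoeff s) ψ := by
  induction ψ using Polynomial.induction_on' with
  | add p q hp hq => simp only [map_add, hp, hq]
  | monomial n c =>
    simp only [Polynomial.aeval_monomial, map_mul, map_pow]
    rfl

end QC

open QC

theorem strip3_ok : S_strip3 k ι ρ := by
  intro Ξ A n p q g β a hΞ hH hp ha hA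
  obtain ⟨v, hv⟩ := hΞ _ _ _ (fun l => X (0, 0) ^ a (β l) * C (coeff (ex (a (β l)) 0) (g l)))
    ((hasVol_true (k := k) (ι := Fin 2 × ℕ)).and_ne (0, 0) fun _ _ _ _ _ h => h)
  have hv' := shift (k := k) (v := v) (R := fun K _ _ u _ =>
    Ξ K fun l => u ^ a (β l) * algebraMap k K (coeff (ex (a (β l)) 0) (g l)))
    (hv.congr fun K _ _ x => by simp)
  refine inR_th (ν := p * (n + 1) + q) ha hp hA _ Ξ _ β (fun e K _ _ γ _ => ?_)
    (fun i => if i = 0 then 0 else Linv k ^ (i + (q * i / p + 1)) * v) (fun i => ?_)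
    fun i hi => ?_
  · refine ordGen_ok _ β a 0 e (fun j => (hH j).imp fun i hi => ⟨hi.1, ?_⟩) K γ
      fun i w hw hne => absurd (Finset.mem_singleton.1 (support_monomial_subset hw)) hne
    obtain ⟨rfl, hi⟩ := hi
    rwa [vt, coeff_monomial, if_pos rfl]
  · split_ifs with hi
    · exact av_false fun K _ _ γ h => by simpa [h.2.1, hi] using h.1.2
    · refine HasVol.congr (hv' i _) fun K _ _ x => ?_
      generalize ser x = γ
      have e : (γ 0).order = i → ∀ l, PowerSeries.coeff (a (β l) * i) (aeval γ (vt g β a 0 l)) =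
          PowerSeries.coeff i (γ 0) ^ a (β l) * algebraMap k K (coeff (ex (a (β l)) 0) (g l)) :=
        fun h l => by
          rw [vt, Pi.zero_apply, aeval_ex, coeff_pow_mul h]
          rfl
      constructor
      · rintro ⟨⟨h1, h2⟩, h3⟩
        exact ⟨(cone_iff hp hi h1).1 h2, h1, by simpa only [e h1] using h3⟩
      · rintro ⟨h2, h1, h3⟩
        exact ⟨⟨h1, (cone_iff hp hi h1).2 h2⟩, by simpa only [e h1] using h3⟩
  · rw [if_neg (by omega), if_neg hi.ne', mul_add q, mul_comm q p, Nat.add_mul_div_left _ _ hp]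
    ring

theorem gr3_ok : S_gr3 k ι ρ := by
  intro Ξ A n N G β ψ C hΞ hN hA hI hO
  obtain ⟨v0, hv0⟩ := PO.vol_gen C
  obtain ⟨-, v1, -, hv1, -⟩ := hv0.split (X (0, 0))
  obtain ⟨v, hv⟩ := hΞ _ _ _
    (fun l => X (0, 0) ^ N (β l) * Polynomial.aeval (X (1, 0)) (ψ l)) hv1
  have hv' := shift (k := k) (v := v) (R := fun K _ _ u w => (∀ c ∈ C, w ≠ algebraMap k K c) ∧
    Ξ K fun l => u ^ N (β l) * Polynomial.aeval w (ψ l))
    (hv.congr fun K _ _ x => by
      simp only [aeval_X, map_mul, map_pow, ← Polynomial.aeval_algHom_apply]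
      tauto)
  refine inR_th (ν := n + 1) hN one_pos (by simpa using hA) _ Ξ G β
    (fun e K _ _ γ h => hO e K γ h.1 h.2)
    (fun i => if i = 0 then 0 else Linv k ^ (i + 0) * v) (fun i => ?_) fun i hi => ?_
  · split_ifs with hi
    · exact av_false fun K _ _ γ h => by simpa [h.2.1, hi] using h.1.1
    · refine HasVol.congr (hv' i 0) fun K _ _ x => ?_
      generalize ser x = γ
      have pos : (γ 0).order = i → 0 < (γ 0).order := fun h => by
        simpa [h] using Nat.pos_of_ne_zero hi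
      have e : (γ 0).order = i → ∀ l, PowerSeries.coeff (N (β l) * i) (aeval γ (G l)) =
          PowerSeries.coeff i (γ 0) ^ N (β l) *
            Polynomial.aeval (PowerSeries.constantCoeff (γ 1)) (ψ l) := fun h l => by
        obtain ⟨r, hr⟩ := hI l
        have z : PowerSeries.constantCoeff (γ 0) = 0 := by
          simpa using PowerSeries.coeff_of_lt_order 0 (by simpa using pos h)
        rw [hr]
        simp only [map_mul, map_pow, map_add, aeval_X, ← Polynomial.aeval_algHom_apply]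
        rw [coeff_pow_mul h, map_add, map_mul, z, zero_mul, add_zero, cc_aeval]
      beta_reduce
      rw [PowerSeries.coeff_zero_eq_constantCoeff_apply]
      constructor
      · rintro ⟨⟨h1, -⟩, h2, h3⟩
        exact ⟨⟨pos h1, h2⟩, h1, by simpa only [e h1] using h3⟩
      · rintro ⟨h2, h1, h3⟩
        exact ⟨⟨h1, by simp⟩, h2.2, by simpa only [e h1] using h3⟩
  · rw [if_neg (by omega), if_neg hi.ne']
    ring

end

end Pool.Agent.P.MP_b91a16_ag.Id.Ln
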