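import Pool.Agent.P.MP_b91a16_ag.Ln.Stmt

/-! Polynomials of degree at most one in all but two variables: the states in which `Y` can be
eliminated. -/

set_option linter.unusedSectionVars false

open MvPolynomial

namespace Pool.Agent.P.MP_b91a16_ag.Id.Ln

variable {k ι ρ : Type} [Field k] [Fintype ι] [Fintype ρ] [DecidableEq ρ]

namespace QD

theorem ex0 (a m : ℕ) : ex a m 0 = a := by simp [ex]

theorem ex1 (a m : ℕ) : ex a m 1 = m := by simp [ex]

theorem lt_J {p : ℕ} (hp : 0 < p) (x : ℕ) : x < p * (x / p + 1) := Nat.lt_mul_div_succ x hp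

theorem key {p q a m i J : ℕ} {v : Fin 2 →₀ ℕ} (hp : 0 < p) (hi : 0 < i) (hJ : q * i < p * J)
    (h : p * a + q * m ≤ wt p q v) (hm : m ≤ v 1) (hv : v ≠ ex a m) :
    a * i + m * J < v 0 * i + v 1 * J :=
  PB.cone_nat (p' := 0) (q' := 1) h (by omega) (by omega) (PB.ne_ex hv) hJ (by omega)

theorem low {p q a i v0 : ℕ} (hp : 0 < p) (hi : 0 < i) (h : p * a + q < p * v0) :
    a * i + (q * i / p + 1) ≤ v0 * i := by
  have h1 : a ≤ v0 := Nat.le_of_mul_le_mul_left (by omega) hp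
  obtain ⟨d, rfl⟩ := Nat.exists_eq_add_of_le h1
  have h2 : q < p * d := by
    rw [mul_add] at h
    omega
  have h3 : q * i / p < d * i := by
    rw [Nat.div_lt_iff_lt_mul hp]
    calc q * i < p * d * i := Nat.mul_lt_mul_of_pos_right h2 hi
      _ = d * i * p := by ring
  rw [add_mul]
  omega

/-- the exceptional generators do not contain the vertex -/
theorem ne_vertex {loc : Prop} {g : ι ⊕ ρ → P2 k} {β : ι → ρ} {a : ρ → ℕ} {j : ρ}
    (h0 : ¬loc → ∀ i, β i = j → coeff (ex (a j) 1) (g (.inl i)) = 0) {l : ι ⊕ ρ}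
    (hl : bp β l = j) {v : Fin 2 →₀ ℕ} (hv : v ∈ (g l).support)
    (h : l = .inr j ∧ v ≠ ex (a j) 1 ∨ l ≠ .inr j ∧ ¬loc) : v ≠ ex (a j) 1 := by
  rcases h with h | h
  · exact h.2
  · rintro rfl
    rcases l with i | j'
    · exact mem_support_iff.1 hv (h0 h.2 i hl)
    · exact h.1 (congrArg Sum.inr hl)

theorem vt_sub {τ : Type} [Fintype τ] (g : τ → P2 k) (β : τ → ρ) (a m : ρ → ℕ) (l : τ)
    {v : Fin 2 →₀ ℕ} (hv : v ∈ (vt g β a m l).support) : v ∈ (g l).support := by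
  classical
  rw [mem_support_iff, vt, coeff_monomial] at hv
  split_ifs at hv with e
  · exact mem_support_iff.2 (e ▸ hv)
  · exact (hv rfl).elim

theorem vt_coeff {τ : Type} [Fintype τ] (g : τ → P2 k) (β : τ → ρ) (a m : ρ → ℕ) (l : τ) :
    coeff (ex (a (β l)) (m (β l))) (vt g β a m l) = coeff (ex (a (β l)) (m (β l))) (g l) := by
  classical
  rw [vt, coeff_monomial, if_pos rfl]

theorem bound {loc : Prop} {g : ι ⊕ ρ → P2 k} {β : ι → ρ} {a : ρ → ℕ} {j : ρ} {Jf : ℕ → ℕ}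
    (h : El loc g β a j Jf) {e : ρ →₀ ℕ} {K : Type} [Field K] [Algebra k K]
    {γ : Fin 2 → PowerSeries K} (hO : Ord g (bp β) e K γ) {i : ℕ} (hi : 0 < i)
    (hx : (γ 0).order = i) (hy : (Jf i : ℕ∞) ≤ (γ 1).order) :
    ∑ j', a j' * i + Jf i ≤ ∑ j', e j' := by
  obtain ⟨-, h1, h2⟩ := h.2.2.2 i hi
  have h3 : ∀ j', a j' * i + (Pi.single j (Jf i) : ρ → ℕ) j' ≤ e j' := fun j' => by
    obtain ⟨l, hl, hn⟩ := (hO j').2
    by_contra hc
    refine hn (PB.dvd_of_le γ (g l) fun v hv => ?_)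
    have h4 : a j' * i + (Pi.single j (Jf i) : ρ → ℕ) j' ≤ v 0 * i + v 1 * Jf i := by
      by_cases e1 : j' = j
      · subst e1
        rw [Pi.single_eq_same]
        exact (h1 l hl v hv).1
      · rw [Pi.single_eq_of_ne e1, add_zero]
        by_cases e2 : v = ex (a (bp β l)) 0
        · rw [e2, ex0, hl]
          omega
        · have := h2 l (hl ▸ e1) v hv e2
          rw [hl] at this
          exact this.le
    have h5 : ((e j' + 1 : ℕ) : ℕ∞) ≤ ((v 0 * i + v 1 * Jf i : ℕ) : ℕ∞) := by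
      exact_mod_cast (by omega : e j' + 1 ≤ v 0 * i + v 1 * Jf i)
    refine h5.trans ?_
    rw [hx]
    push_cast
    gcongr
  have h4 := Finset.sum_le_sum fun j' (_ : j' ∈ Finset.univ) => h3 j'
  rwa [Finset.sum_add_distrib, Finset.sum_pi_single', if_pos (Finset.mem_univ j)] at h4

end QD

open QD

theorem el_ok : S_el k ι ρ := by
  rintro loc J p q g β a m hp ⟨h1, h2, h3⟩ hN ⟨j, hj, rfl, h4, h5⟩
  refine ⟨j, hj, rfl, h4, h1, fun M => ⟨p * M + M + 1, fun i hi => ?_⟩, fun i hi =>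
    ⟨Nat.succ_pos _, fun l hl v hv => ?_, fun l hl v hv hne => ?_⟩⟩
  · obtain ⟨j', hj'⟩ := Function.ne_iff.1 hN
    have h6 : a j' * i ≤ ∑ j', a j' * i :=
      Finset.single_le_sum (f := fun j' => a j' * i) (fun _ _ => Nat.zero_le _) (Finset.mem_univ j')
    by_cases ha : a j' = 0
    · have hq : q ≠ 0 := by
        rintro rfl
        exact hj' (by simp [nv, ha])
      have h7 : M ≤ q * i / p := by
        rw [Nat.le_div_iff_mul_le hp]
        calc M * p ≤ i := by rw [mul_comm]; omega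
          _ ≤ q * i := Nat.le_mul_of_pos_left i (Nat.pos_of_ne_zero hq)
      beta_reduce
      omega
    · have h7 : i ≤ a j' * i := Nat.le_mul_of_pos_left i (Nat.pos_of_ne_zero ha)
      omega
  · have h6 := h2 l v hv
    have h7 := h3 l v hv
    rw [hl, Pi.single_eq_same] at h6 h7
    have h8 : 0 < v 1 → v ≠ ex (a j) 1 →
        a j * i + (q * i / p + 1) < v 0 * i + v 1 * (q * i / p + 1) := fun h0 hne => by
      simpa only [one_mul] using key hp hi (lt_J hp (q * i)) h6 h0 hne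
    refine ⟨?_, fun h0 h => h8 h0 (ne_vertex h5 hl hv h)⟩
    by_cases h0 : v 1 = 0
    · have h9 := h7 (by omega)
      rw [wt, h0, mul_one, mul_zero, add_zero] at h9
      exact (low hp hi h9).trans (Nat.le_add_right _ _)
    · by_cases hne : v = ex (a j) 1
      · rw [hne, ex0, ex1, one_mul]
      · exact (h8 (Nat.pos_of_ne_zero h0) hne).le
  · have h6 := h2 l v hv
    rw [Pi.single_eq_of_ne hl] at h6
    simpa only [zero_mul, add_zero] using key hp hi (lt_J hp (q * i)) h6 (Nat.zero_le _) hne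

theorem el0_ok : S_el0 k ι ρ := by
  rintro loc g β a j ⟨h1, h2, h3, h4⟩
  have h5 : ∀ l, ∀ v ∈ (g l).support,
      a (bp β l) + (Pi.single j 1 : ρ → ℕ) (bp β l) < v 0 + v 1 ∨
        a (bp β l) + (Pi.single j 1 : ρ → ℕ) (bp β l) = v 0 + v 1 ∧
          v 1 ≤ (Pi.single j 1 : ρ → ℕ) (bp β l) := fun l v hv => by
    by_cases e : v = ex (a (bp β l)) ((Pi.single j 1 : ρ → ℕ) (bp β l))
    · rw [e, ex0, ex1]
      exact Or.inr ⟨rfl, le_rfl⟩
    · rcases h4 l v hv e with h | ⟨i, rfl, rfl, rfl⟩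
      · exact Or.inl h
      · rw [ex0, ex1]
        exact Or.inr ⟨by simp, Nat.zero_le _⟩
  refine ⟨⟨h1, h2, fun M => ⟨M + 1, fun i hi => ?_⟩, fun i hi =>
    ⟨hi, fun l hl v hv => ⟨?_, fun h0 h => ?_⟩, fun l hl v hv hne => ?_⟩⟩,
    h2, fun l v hv => ?_, fun l v hv e => ?_⟩
  · change M < _ + i
    omega
  · have h6 := h5 l v hv
    rw [hl, Pi.single_eq_same] at h6
    change a j * i + i ≤ v 0 * i + v 1 * i
    have := Nat.mul_le_mul_right i (by omega : a j + 1 ≤ v 0 + v 1)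
    rwa [add_mul, add_mul, one_mul] at this
  · have h6 := h4 l v hv
    rw [hl, Pi.single_eq_same] at h6
    change a j * i + i < v 0 * i + v 1 * i
    rcases h6 (ne_vertex h3 hl hv h) with h7 | ⟨i', -, -, rfl⟩
    · have := Nat.mul_lt_mul_of_pos_right h7 hi
      rwa [add_mul, add_mul, one_mul] at this
    · rw [ex1] at h0
      exact absurd h0 (lt_irrefl 0)
  · have h6 := h4 l v hv
    rw [Pi.single_eq_of_ne hl, add_zero] at h6
    change a (bp β l) * i < v 0 * i + v 1 * i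
    rcases h6 hne with h7 | ⟨i', rfl, h7, -⟩
    · have := Nat.mul_lt_mul_of_pos_right h7 hi
      rwa [add_mul] at this
    · exact (hl h7).elim
  · have h6 := h5 l v hv
    rw [wt]
    omega
  · have h6 := h5 l v hv
    rw [wt] at e
    omega

theorem elVt_ok : S_elVt k ι ρ := by
  rintro loc g β a j Jf ⟨h1, h2, h3, h4⟩
  refine ⟨?_, fun j' => ?_, h3, fun i hi => ⟨(h4 i hi).1,
    fun l hl v hv => (h4 i hi).2.1 l hl v (vt_sub _ _ _ _ l hv),
    fun l hl v hv => (h4 i hi).2.2 l hl v (vt_sub _ _ _ _ l hv)⟩⟩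
  · have := vt_coeff g (bp β) a (Pi.single j 1) (.inr j)
    change coeff (ex (a j) ((Pi.single j 1 : ρ → ℕ) j)) _ =
      coeff (ex (a j) ((Pi.single j 1 : ρ → ℕ) j)) _ at this
    rw [Pi.single_eq_same] at this
    rwa [this]
  · obtain ⟨l, rfl, h5⟩ := h2 j'
    exact ⟨l, rfl, by rwa [vt_coeff]⟩

theorem reg_ok : S_reg k ι ρ := by
  intro p q g β a m e hp hL hN K _ _ γ hO
  have hp' : (p : ℕ∞) ≠ 0 := by exact_mod_cast hp.ne'
  constructor
  · rintro ⟨h1, h2⟩
    rw [Nat.cast_zero, zero_mul, Nat.cast_one, one_mul] at h2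
    by_cases hx : (γ 0).order = ⊤
    · exfalso
      have hq : q = 0 := by
        by_contra hq
        rw [hx, ENat.mul_top (by exact_mod_cast hq)] at h1
        exact absurd h1 not_top_lt
      subst hq
      obtain ⟨j, hj⟩ := Function.ne_iff.1 hN
      obtain ⟨l, hl, hn⟩ := (hO j).2
      refine hn (PB.dvd_of_le γ (g l) fun v hv => ?_)
      have h3 := hL l v hv
      have h4 : v 0 ≠ 0 := fun h0 => hj (by
        rw [wt, h0, hl] at h3
        change p * a j + 0 * m j = 0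
        omega)
      rw [hx, PB.top_l h4]
      exact le_top
    · obtain ⟨i, hi⟩ := ENat.ne_top_iff_exists.1 hx
      rw [← hi] at h1 h2
      refine ⟨i, by exact_mod_cast h2, hi.symm, ?_⟩
      by_cases hy : (γ 1).order = ⊤
      · rw [hy]
        exact le_top
      · obtain ⟨y, hy⟩ := ENat.ne_top_iff_exists.1 hy
        rw [← hy] at h1 ⊢
        have h3 : q * i < p * y := by exact_mod_cast h1
        have h4 : q * i / p < y := (Nat.div_lt_iff_lt_mul hp).2 (by rwa [mul_comm y])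
        exact_mod_cast h4
  · rintro ⟨i, hi, hx, hy⟩
    refine ⟨?_, ?_⟩
    · have h1 : ((q * i : ℕ) : ℕ∞) < ((p * (q * i / p + 1) : ℕ) : ℕ∞) := by
        exact_mod_cast lt_J hp (q * i)
      rw [hx, ← Nat.cast_mul]
      refine h1.trans_le ?_
      rw [Nat.cast_mul]
      gcongr
    · rw [Nat.cast_zero, zero_mul, Nat.cast_one, one_mul, hx]
      exact_mod_cast hi

theorem exReg_ok (h : S_exTh k (ι ⊕ ρ) ρ) : S_exReg k ι ρ := by
  intro Ξ loc g β a j Jf n hC hE
  have key : ∀ e : ρ →₀ ℕ, ∃ v, WV (An (Reg k Jf) (Th Ξ g (bp β) e)) n v := fun e => by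
    obtain ⟨B, hB⟩ := hE.2.2.1 (∑ j', e j')
    have h1 : ∀ i : ℕ, ∃ w, AV (k := k) (fun K _ _ γ =>
        An (Reg k Jf) (Th Ξ g (bp β) e) K γ ∧ (γ 0).order = (i : ℕ)) w := fun i => by
      by_cases hi : i = 0
      · refine ⟨0, av_false ?_⟩
        rintro K _ _ γ ⟨⟨⟨i', h2, h3, -⟩, -⟩, h4⟩
        have : i' = i := by exact_mod_cast h3.symm.trans h4
        omega
      · obtain ⟨w, hw⟩ := h Ξ g (bp β) e _ _ hC (av_ord_le (k := k) i (Jf i))
        refine ⟨w, hw.congr fun K _ _ γ => ⟨?_, ?_⟩⟩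
        · rintro ⟨⟨h2, h3⟩, h4⟩
          exact ⟨⟨⟨i, Nat.pos_of_ne_zero hi, h2, h3⟩, h4⟩, h2⟩
        · rintro ⟨⟨⟨i', -, h3, h4⟩, h5⟩, h6⟩
          obtain rfl : i' = i := by exact_mod_cast h3.symm.trans h6
          exact ⟨⟨h3, h4⟩, h5⟩
    choose w hw using h1
    refine ⟨_, B, w, ?_, fun i _ => hw i, rfl⟩
    rintro K _ _ γ ⟨⟨i, hi, hx, hy⟩, hO, -⟩
    have h2 := bound hE hO hi hx hy
    have h3 : i < B := by
      by_contra hc
      have := hB i (by omega)
      omega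
    rw [hx]
    exact_mod_cast h3
  choose Z hZ using key
  exact ⟨Z, hZ⟩

end Pool.Agent.P.MP_b91a16_ag.Id.Ln
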