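import Pool.Agent.P.MP_b91a16_ag.Ln.Stmt

/-! Two distinct roots for a member of the family on a face that is not a pure power. -/

set_option linter.unusedSectionVars false

namespace Pool.Agent.P.MP_b91a16_ag.Id.Ln

variable {k ι ρ : Type} [Field k] [Fintype ι] [Fintype ρ] [DecidableEq ρ]

namespace QE

open Polynomial

theorem three [CharZero k] {n : ℕ} {a b c c0 c1 c2 : k} (ha : a ≠ 0)
    (h : C a * (X + C (-c0)) ^ (n + 2) + C b * (X + C (-c1)) ^ (n + 2) +
      C c * (X + C (-c2)) ^ (n + 2) = 0) : c0 = c1 ∨ c0 = c2 := by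
  have h0 := congrArg (coeff · (n + 2)) h
  have h1 := congrArg (coeff · (n + 1)) h
  have h2 := congrArg (coeff · n) h
  simp only [coeff_add, coeff_C_mul, coeff_X_add_C_pow, coeff_zero] at h0 h1 h2
  rw [Nat.sub_self, Nat.choose_self] at h0
  rw [show n + 2 - (n + 1) = 1 by omega] at h1
  rw [show n + 2 - n = 2 by omega] at h2
  have a1 : ((n + 2).choose (n + 1) : k) ≠ 0 := Nat.cast_ne_zero.2 (Nat.choose_pos (by omega)).ne'
  have a2 : ((n + 2).choose n : k) ≠ 0 := Nat.cast_ne_zero.2 (Nat.choose_pos (by omega)).ne'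
  have e0 : a + b + c = 0 := by
    rw [Nat.cast_one] at h0
    linear_combination h0
  have e1 : a * c0 + b * c1 + c * c2 = 0 := mul_left_cancel₀ a1 (by linear_combination -h1)
  have e2 : a * c0 ^ 2 + b * c1 ^ 2 + c * c2 ^ 2 = 0 :=
    mul_left_cancel₀ a2 (by linear_combination h2)
  have e3 : a * ((c0 - c1) * (c0 - c2)) = 0 := by
    linear_combination e2 - (c1 + c2) * e1 + c1 * c2 * e0
  exact (mul_eq_zero.1 ((mul_eq_zero.1 e3).resolve_left ha)).imp sub_eq_zero.1 sub_eq_zero.1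

/-- The member of the family at `y`. -/
noncomputable def F (φ : ι ⊕ ρ → k[X]) (β : ι → ρ) (y : ι → k) (j : ρ) : k[X] :=
  φ (.inr j) + ∑ i with β i = j, C (y i) * φ (.inl i)

variable {φ : ι ⊕ ρ → k[X]} {β : ι → ρ} {m : ρ → ℕ}

theorem F_add [DecidableEq ι] (y : ι → k) (i : ι) (t : k) (j : ρ) :
    F φ β (y + Pi.single i t) j = F φ β y j + if β i = j then C t * φ (.inl i) else 0 := by
  have e : ∑ i' with β i' = j, C ((Pi.single i t : ι → k) i') * φ (.inl i') =
      if β i = j then C t * φ (.inl i) else 0 := by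
    rw [Finset.sum_filter, Finset.sum_eq_single i (fun i' _ h => by simp [h]) (by simp)]
    simp
  simp only [F, Pi.add_apply, map_add, add_mul, Finset.sum_add_distrib, e, add_assoc]

theorem F_deg (hd : ∀ l, (φ l).natDegree ≤ m (bp β l)) (y : ι → k) (j : ρ) :
    (F φ β y j).natDegree ≤ m j := by
  refine natDegree_add_le_of_degree_le (hd (.inr j)) (natDegree_sum_le_of_forall_le _ _ ?_)
  intro i hi
  rw [← (Finset.mem_filter.1 hi).2]
  exact (natDegree_C_mul_le _ _).trans (hd (.inl i))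

theorem ex_top (hs : ∀ j, ∃ l, bp β l = j ∧ (φ l).coeff (m j) ≠ 0) :
    ∃ y, ∀ j, (F φ β y j).coeff (m j) ≠ 0 := by
  classical
  choose s s1 s2 using hs
  refine ⟨fun i => if (φ (.inr (β i))).coeff (m (β i)) = 0 ∧ s (β i) = .inl i then 1 else 0,
    fun j => ?_⟩
  rw [F, coeff_add, finsetSum_coeff]
  by_cases h : (φ (.inr j)).coeff (m j) = 0
  · rcases e : s j with i | j'
    · have e1 : β i = j := by simpa [e] using s1 j
      rw [h, zero_add, Finset.sum_eq_single i]
      · rw [e1, if_pos ⟨h, e⟩, map_one, one_mul, ← e]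
        exact s2 j
      · intro i' hi hne
        rw [(Finset.mem_filter.1 hi).2, if_neg, map_zero, zero_mul, coeff_zero]
        rintro ⟨-, h2⟩
        exact hne (Sum.inl_injective (h2.symm.trans e))
      · intro hi
        exact absurd (Finset.mem_filter.2 ⟨Finset.mem_univ i, e1⟩) hi
    · have e1 : j' = j := by simpa [e] using s1 j
      have := s2 j
      rw [e, e1] at this
      exact absurd h this
  · rw [Finset.sum_eq_zero, add_zero]
    · exact h
    · intro i hi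
      rw [(Finset.mem_filter.1 hi).2, if_neg fun h2 => h h2.1, map_zero, zero_mul, coeff_zero]

variable (φ β) in
/-- No member of the family has two roots. -/
def One : Prop := ∀ y, (∀ j, F φ β y j ≠ 0) → ∀ c c', (∃ j, (F φ β y j).IsRoot c) →
  (∃ j, (F φ β y j).IsRoot c') → c = c'

theorem pw [IsAlgClosed k] (hd : ∀ l, (φ l).natDegree ≤ m (bp β l)) (H : One φ β) {y : ι → k}
    (hy : ∀ j, (F φ β y j).coeff (m j) ≠ 0) :
    ∃ c, ∀ j, F φ β y j = C ((F φ β y j).coeff (m j)) * (X + C (-c)) ^ m j := by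
  have h0 : ∀ j, F φ β y j ≠ 0 := fun j h => hy j (by rw [h, coeff_zero])
  have h1 : ∃ c, ∀ j r, (F φ β y j).IsRoot r → r = c := by
    by_cases h : ∃ c j, (F φ β y j).IsRoot c
    · obtain ⟨c, hc⟩ := h
      exact ⟨c, fun j r hr => H y h0 r c ⟨j, hr⟩ hc⟩
    · exact ⟨0, fun j r hr => absurd ⟨r, j, hr⟩ h⟩
  obtain ⟨c, hc⟩ := h1
  refine ⟨c, fun j => ?_⟩
  have h2 := PF.pure (hc j)
  rwa [leadingCoeff, le_antisymm (F_deg hd y j) (le_natDegree_of_ne_zero (hy j))] at h2

theorem dir [CharZero k] [IsAlgClosed k] (hd : ∀ l, (φ l).natDegree ≤ m (bp β l)) (H : One φ β)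
    (h2 : 2 ≤ ∑ j, m j) {y : ι → k} (hy : ∀ j, (F φ β y j).coeff (m j) ≠ 0) {c : k}
    (hc : ∀ j, F φ β y j = C ((F φ β y j).coeff (m j)) * (X + C (-c)) ^ m j) (i : ι) :
    ∃ a, φ (.inl i) = C a * (X + C (-c)) ^ m (β i) := by
  classical
  set κ := (F φ β y (β i)).coeff (m (β i)) with hκ
  set a := (φ (.inl i)).coeff (m (β i)) with ha
  have k0 : κ ≠ 0 := hy _
  have step : ∀ t, t ≠ -κ / a → ∃ d, F φ β y (β i) + C t * φ (.inl i) =
      C (κ + t * a) * (X + C (-d)) ^ m (β i) ∧ ∀ j, j ≠ β i → 0 < m j → c = d := fun t ht => by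
    have g1 : κ + t * a ≠ 0 := fun h => by
      have a0 : a ≠ 0 := fun h1 => k0 (by simpa [h1] using h)
      exact ht (by field_simp; linear_combination h)
    have g2 : ∀ j, (F φ β (y + Pi.single i t) j).coeff (m j) ≠ 0 := fun j => by
      rw [F_add]
      split_ifs with h
      · subst h
        rwa [coeff_add, coeff_C_mul]
      · rw [add_zero]; exact hy j
    obtain ⟨d, hd'⟩ := pw hd H g2
    refine ⟨d, ?_, fun j hj hm => ?_⟩
    · have := hd' (β i)
      rwa [F_add, if_pos rfl, coeff_add, coeff_C_mul] at this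
    · have e1 := hd' j
      rw [F_add, if_neg hj.symm, add_zero] at e1
      have e2 := congrArg (eval c) ((hc j).symm.trans e1)
      simp only [eval_mul, eval_C, eval_pow, eval_add, eval_X, add_neg_cancel,
        zero_pow hm.ne', mul_zero] at e2
      have e3 := (mul_eq_zero.1 e2.symm).resolve_left (hy j)
      exact add_neg_eq_zero.1 (pow_eq_zero_iff hm.ne' |>.1 e3)
  have fin : ∀ t, t ≠ 0 → F φ β y (β i) + C t * φ (.inl i) =
      C (κ + t * a) * (X + C (-c)) ^ m (β i) → φ (.inl i) = C a * (X + C (-c)) ^ m (β i) :=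
    fun t ht h => mul_left_cancel₀ (C_ne_zero.2 ht) (by
      have e := hc (β i)
      rw [← hκ] at e
      rw [map_add, map_mul] at h
      linear_combination h - e)
  obtain ⟨t1, h1⟩ := Infinite.exists_notMem_finset ({0, -κ / a} : Finset k)
  obtain ⟨t2, h3⟩ := Infinite.exists_notMem_finset ({0, -κ / a, t1} : Finset k)
  simp only [Finset.mem_insert, Finset.mem_singleton, not_or] at h1 h3
  obtain ⟨d1, p1, q1⟩ := step t1 h1.2
  obtain ⟨d2, p2, -⟩ := step t2 h3.2.1
  refine ⟨a, ?_⟩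
  by_cases hj : ∃ j, j ≠ β i ∧ 0 < m j
  · obtain ⟨j, j1, j2⟩ := hj
    exact fin t1 h1.1 (q1 j j1 j2 ▸ p1)
  · rw [Finset.sum_eq_single (β i) (fun j _ h => by_contra fun h' =>
      hj ⟨j, h, Nat.pos_of_ne_zero h'⟩) (by simp)] at h2
    obtain ⟨n, hn⟩ := Nat.exists_eq_add_of_le' h2
    have e := hc (β i)
    rw [← hκ] at e
    have h4 := three (n := n) (a := (t2 - t1) * κ) (b := -t2 * (κ + t1 * a))
      (c := t1 * (κ + t2 * a)) (c0 := c) (c1 := d1) (c2 := d2)
      (mul_ne_zero (sub_ne_zero.2 h3.2.2) k0) (by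
        rw [← hn, map_mul (C : k →+* k[X]) (t2 - t1), map_mul (C : k →+* k[X]) (-t2),
          map_mul (C : k →+* k[X]) t1 (κ + t2 * a), map_sub, map_neg (C : k →+* k[X]) t2]
        linear_combination -(C t2 - C t1) * e + C t2 * p1 - C t1 * p2)
    rcases h4 with h4 | h4
    · exact fin t1 h1.1 (h4 ▸ p1)
    · exact fin t2 h3.1 (h4 ▸ p2)

theorem main [CharZero k] [IsAlgClosed k] (hd : ∀ l, (φ l).natDegree ≤ m (bp β l))
    (hs : ∀ j, ∃ l, bp β l = j ∧ (φ l).coeff (m j) ≠ 0)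
    (hn : ∃ l, 0 < m (bp β l) ∧ (φ l).coeff (m (bp β l)) ≠ 0 ∧ (φ l).coeff (m (bp β l) - 1) = 0)
    (hl : ∃ l t, t < m (bp β l) ∧ (φ l).coeff t ≠ 0) (h2 : 2 ≤ ∑ j, m j) : ¬One φ β := by
  intro H
  obtain ⟨y, hy⟩ := ex_top hs
  obtain ⟨c, hc⟩ := pw hd H hy
  choose a ha using dir hd H h2 hy hc
  have all : ∀ l, ∃ a, φ l = C a * (X + C (-c)) ^ m (bp β l) := by
    rintro (i | j)
    · exact ⟨a i, ha i⟩
    · refine ⟨(F φ β y j).coeff (m j) - ∑ i with β i = j, y i * a i, ?_⟩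
      have e : ∑ i with β i = j, C (y i) * φ (.inl i) =
          C (∑ i with β i = j, y i * a i) * (X + C (-c)) ^ m j := by
        rw [map_sum, Finset.sum_mul]
        refine Finset.sum_congr rfl fun i hi => ?_
        rw [ha i, (Finset.mem_filter.1 hi).2, map_mul, mul_assoc]
      have e1 : F φ β y j = φ (.inr j) + _ := congrArg (φ (.inr j) + ·) e
      change φ (.inr j) = _ * (X + C (-c)) ^ m j
      rw [map_sub]
      linear_combination hc j - e1
  obtain ⟨l, l1, l2, l3⟩ := hn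
  obtain ⟨b, hb⟩ := all l
  rw [hb, coeff_C_mul, coeff_X_add_C_pow] at l2 l3
  have h8 : ((m (bp β l)).choose (m (bp β l) - 1) : k) ≠ 0 :=
    Nat.cast_ne_zero.2 (Nat.choose_pos (by omega)).ne'
  have h9 : -c = 0 := pow_eq_zero_iff (by omega) |>.1 ((mul_eq_zero.1
    ((mul_eq_zero.1 l3).resolve_left (left_ne_zero_of_mul l2))).resolve_right h8)
  obtain ⟨l', t, t1, t2⟩ := hl
  obtain ⟨b', hb'⟩ := all l'
  rw [hb', h9, map_zero, add_zero, coeff_C_mul, coeff_X_pow, if_neg t1.ne, mul_zero] at t2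
  exact t2 rfl

theorem ini_bm {p q : ℕ} (hp : 0 < p) (N : ρ → ℕ) (g : ι ⊕ ρ → P2 k) (y : ι → k) (j : ρ) :
    ini p q (N j) 0 1 (bm g β y j) = F (fun l => ini p q (N (bp β l)) 0 1 (g l)) β y j := by
  have e : F (fun l => ini p q (N (bp β l)) 0 1 (g l)) β y j = ini p q (N j) 0 1 (g (.inr j)) +
      ∑ i with β i = j, C (y i) * ini p q (N j) 0 1 (g (.inl i)) := by
    refine congrArg₂ (· + ·) rfl (Finset.sum_congr rfl fun i hi => ?_)
    rw [← (Finset.mem_filter.1 hi).2]
    rfl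
  rw [e]
  ext t
  rw [coeff_add, finsetSum_coeff]
  by_cases h : ∃ x, p * x + q * t = N j
  · obtain ⟨x, hx⟩ := h
    simp only [PF.coeff_ini hp hx, bm, coeff_C_mul, MvPolynomial.coeff_add,
      MvPolynomial.coeff_sum, MvPolynomial.coeff_C_mul]
  · simp only [PF.coeff_zero fun x hx => h ⟨x, hx⟩, coeff_C_mul, mul_zero, Finset.sum_const_zero,
      add_zero]

end QE

open PF in
theorem two3_ok [CharZero k] [IsAlgClosed k] : S_two3 k ι ρ := by
  classical
  rintro p q g β a m hp hpq h ⟨i, i1, i2, i3⟩ ⟨i', v, v1, v2, v3⟩ h2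
  have top : ∀ j l, (ini p q (nv p q a m j) 0 1 (g l)).coeff (m j) =
      MvPolynomial.coeff (ex (a j) (m j)) (g l) := fun j l =>
    coeff_ini (N := nv p q a m j) (q := q) (t := m j) (x := a j) hp rfl
  have c2 : (ini p q (nv p q a m (bp β i)) 0 1 (g i)).coeff (m (bp β i) - 1) = 0 := by
    obtain ⟨n, hn⟩ := Nat.exists_eq_add_of_lt i1
    rw [zero_add] at hn
    by_cases h1 : p = 1
    · rw [coeff_ini (x := a (bp β i) + q) hp (by rw [nv, h1, hn, Nat.add_sub_cancel]; ring)]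
      exact i3 h1
    · refine coeff_zero fun x hx => h1 (hpq.eq_one_of_dvd ?_)
      rw [nv, hn, Nat.add_sub_cancel, mul_add, mul_one] at hx
      have h2 : p * x = p * a (bp β i) + q := by omega
      exact (Nat.dvd_add_right (dvd_mul_right _ _)).1 (h2 ▸ dvd_mul_right p x)
  have key := QE.main (φ := fun l => ini p q (nv p q a m (bp β l)) 0 1 (g l)) (β := β) (m := m)
    (deg_g h) (fun j => by
      obtain ⟨l, l1, l2⟩ := h.1 j
      exact ⟨l, l1, by rw [l1, top]; exact l2⟩)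
    ⟨i, i1, by rw [top]; exact i2, c2⟩
    ⟨i', v 1, v3, by rw [coeff_ini (x := v 0) hp v2, ex_eta]; exact MvPolynomial.mem_support_iff.1 v1⟩
    h2
  by_contra hno
  refine key fun y hy c c' hc hc' => by_contra fun hne => hno ⟨y, {c, c'}, fun j => ?_,
    (Finset.card_pair hne).ge, fun z hz => ?_⟩
  · rw [QE.ini_bm hp]; exact hy j
  · simp only [QE.ini_bm hp]
    rcases Finset.mem_insert.1 hz with rfl | hz
    · exact hc
    · rw [Finset.mem_singleton.1 hz]; exact hc'

end Pool.Agent.P.MP_b91a16_ag.Id.Ln
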