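import Pool.Agent.P.MP_b91a16_ag.Ln.Stmt

/-! Faces of height one, and the form `dW/(W - c)`. -/

set_option linter.unusedSectionVars false

namespace Pool.Agent.P.MP_b91a16_ag.Id.Ln

variable {k ι ρ : Type} [Field k] [Fintype ι] [Fintype ρ] [DecidableEq ρ]

open Polynomial in
theorem QF.not_ex [CharZero k] {P Q : k[X]} {c : k} (hQ : Q ≠ 0)
    (h : (X - C c) * (derivative P * Q - P * derivative Q) - P * Q = (X - C c) * Q ^ 2) :
    False := by
  have hL := X_sub_C_ne_zero c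
  have hP : P ≠ 0 := by
    rintro rfl
    exact mul_ne_zero hL (pow_ne_zero 2 hQ) (by rw [← h]; simp)
  obtain ⟨P1, e1, e2⟩ := exists_eq_pow_rootMultiplicity_mul_and_not_dvd P hP c
  obtain ⟨Q1, f1, f2⟩ := exists_eq_pow_rootMultiplicity_mul_and_not_dvd Q hQ c
  generalize rootMultiplicity c P = x at e1
  generalize rootMultiplicity c Q = y at f1
  have e3 : P1.eval c ≠ 0 := fun h => e2 (dvd_iff_isRoot.2 h)
  have f3 : Q1.eval c ≠ 0 := fun h => f2 (dvd_iff_isRoot.2 h)
  have e4 := PJ.lin_der c x P1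
  have f4 := PJ.lin_der c y Q1
  rw [← e1] at e4
  rw [← f1] at f4
  have h1 : (X - C c) ^ x * (X - C c) ^ y * ((C (x : k) - C (y : k) - 1) * P1 * Q1 +
      (X - C c) * (derivative P1 * Q1 - P1 * derivative Q1)) =
      (X - C c) * ((X - C c) ^ y * Q1) ^ 2 := by
    have h2 : (X - C c) * derivative P * Q - P * ((X - C c) * derivative Q) - P * Q =
        (X - C c) * Q ^ 2 := by linear_combination h
    rw [e4, f4, e1, f1] at h2
    linear_combination h2
  rcases le_or_gt x y with h2 | h2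
  · obtain ⟨n, rfl⟩ := Nat.exists_eq_add_of_le h2
    have h3 := congrArg (eval c) (mul_left_cancel₀ (mul_ne_zero (pow_ne_zero x hL)
      (pow_ne_zero (x + n) hL)) (h1.trans (by ring : _ = (X - C c) ^ x * (X - C c) ^ (x + n) *
        ((X - C c) * (X - C c) ^ n * Q1 ^ 2))))
    simp only [eval_add, eval_mul, eval_sub, eval_X, eval_C, sub_self, zero_mul, add_zero,
      eval_one, Nat.cast_add] at h3
    exact mul_ne_zero (mul_ne_zero (Nat.cast_add_one_ne_zero n) e3) f3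
      (by linear_combination -h3)
  · obtain ⟨n, rfl⟩ := Nat.exists_eq_add_of_lt h2
    have h3 := congrArg (eval c) (mul_left_cancel₀ (pow_ne_zero (2 * y + 1) hL)
      (b := (X - C c) ^ n * (C (n : k) * P1 * Q1 +
        (X - C c) * (derivative P1 * Q1 - P1 * derivative Q1))) (c := Q1 ^ 2) (by
        simp only [Nat.cast_add, Nat.cast_one, map_add, map_one] at h1
        linear_combination h1))
    simp only [eval_add, eval_mul, eval_sub, eval_X, eval_C, sub_self, zero_mul, add_zero,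
      eval_pow] at h3
    refine pow_ne_zero 2 f3 (h3 ▸ ?_)
    rcases n with _ | n <;> simp

open Polynomial in
theorem p2_ok [CharZero k] : S_p2 k := by
  classical
  intro Λ _ φ s l₀ h1 h2 h3
  obtain ⟨κ, hκ, b, e⟩ := natDegree_eq_one.1 h1
  have h4 : ∏ l ∈ Finset.univ.erase l₀, φ l ≠ 0 := Finset.prod_ne_zero_iff.2 fun l hl => by
    obtain ⟨c, h4, h5⟩ := h3 l (Finset.ne_of_mem_erase hl)
    rw [h5]
    exact C_ne_zero.2 h4
  have h5 : derivative (φ l₀) = C κ := by rw [← e]; simp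
  have h6 : ∑ l, C (s l : k) * derivative (φ l) * ∏ l' ∈ Finset.univ.erase l, φ l' =
      -C κ * ∏ l ∈ Finset.univ.erase l₀, φ l := by
    rw [Finset.sum_eq_single_of_mem l₀ (Finset.mem_univ _) fun l _ hl => ?_, h2, h5]
    · simp
    · obtain ⟨c, -, h5⟩ := h3 l hl
      rw [h5, derivative_C, mul_zero, zero_mul]
  have h7 := (Finset.mul_prod_erase _ φ (Finset.mem_univ l₀)).symm
  have h8 : φ l₀ ≠ 0 := fun h => by simp [h] at h1
  refine ⟨?_, fun c t ht => ?_⟩
  · rintro ⟨P, Q, hQ, h⟩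
    have h9 : φ l₀ = C κ * (X - C (-b / κ)) := by
      rw [← e, mul_sub, ← C_mul, mul_div_cancel₀ _ hκ, C_neg, sub_neg_eq_add]
    refine QF.not_ex (P := P) (c := -b / κ) hQ
      (mul_left_cancel₀ (mul_ne_zero (C_ne_zero.2 hκ) h4) ?_)
    rw [h6, h7, h9] at h
    linear_combination h
  · obtain ⟨n, rfl⟩ := Nat.exists_eq_add_one_of_ne_zero ht.ne'
    refine ⟨C (-c / ((n + 1) * κ)) * φ l₀, φ l₀ ^ (n + 1), pow_ne_zero _ h8, ?_⟩
    have h9 : C c = -(C (-c / ((n + 1) * κ)) * (C ((n : k) + 1) * C κ)) := by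
      rw [← C_mul, ← C_mul, div_mul_cancel₀ _ (mul_ne_zero (Nat.cast_add_one_ne_zero n) hκ),
        C_neg, neg_neg]
    rw [h6, h7, derivative_C_mul, derivative_pow_succ, h5]
    linear_combination (-φ l₀ ^ (2 * n + 3) * ∏ l ∈ Finset.univ.erase l₀, φ l) * h9

open MvPolynomial

namespace QF

open PF

variable {p q N : ℕ} {g : ι ⊕ ρ → P2 k} {β : ι → ρ} {a m : ρ → ℕ}

theorem ini_bm (hp : 0 < p) (y : ι → k) (j : ρ) : ini p q N 0 1 (bm g β y j) =
    ini p q N 0 1 (g (.inr j)) +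
      ∑ i with β i = j, Polynomial.C (y i) * ini p q N 0 1 (g (.inl i)) := by
  ext t
  simp only [Polynomial.coeff_add, Polynomial.finsetSum_coeff, Polynomial.coeff_C_mul]
  by_cases h : ∃ x, p * x + q * t = N
  · obtain ⟨x, hx⟩ := h
    simp only [coeff_ini hp hx, bm, coeff_add, coeff_sum, coeff_C_mul]
  · simp only [PF.coeff_zero fun x hx => h ⟨x, hx⟩, mul_zero, Finset.sum_const_zero, add_zero]

theorem ini_lc (hp : 0 < p) (y : ι → k) : ini p q N 0 1 (lc g y) =
    ∑ i, Polynomial.C (y i) * ini p q N 0 1 (g (.inl i)) := by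
  ext t
  simp only [Polynomial.finsetSum_coeff, Polynomial.coeff_C_mul, lc, coeff_mb hp]

theorem sum_single [DecidableEq ι] (s : Finset ι) {i : ι} (h : i ∈ s) (c : k)
    (ψ : ι → Polynomial k) :
    ∑ i' ∈ s, Polynomial.C ((Pi.single i c : ι → k) i') * ψ i' = Polynomial.C c * ψ i := by
  rw [Finset.sum_eq_single_of_mem i h fun i' _ h => by simp [h], Pi.single_eq_same]

theorem glue {loc : Prop} (hl : loc → Subsingleton ρ) (hp : 0 < p) (h : Nd p q g (bp β) a m)
    {j : ρ} (hm : ∀ j' ≠ j, m j' = 0) (y₀ : ι → k) (h0 : loc → y₀ = 0) :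
    ∃ y, (loc → y = 0) ∧ bm g β y j = bm g β y₀ j ∧
      ∀ j' ≠ j, ∃ c ≠ 0, ini p q (nv p q a m j') 0 1 (bm g β y j') = Polynomial.C c := by
  classical
  have h1 : ∀ j', ∃ y : ι → k, (j' = j → y = y₀) ∧ (j' ≠ j → ∃ c ≠ 0,
      ini p q (nv p q a m j') 0 1 (bm g β y j') = Polynomial.C c) := fun j' => by
    by_cases e : j' = j
    · exact ⟨y₀, fun _ => rfl, fun h => (h e).elim⟩
    have h2 : ∀ l, bp β l = j' → ini p q (nv p q a m j') 0 1 (g l) =
        Polynomial.C (coeff (ex (a j') (m j')) (g l)) := by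
      rintro l rfl
      have h3 := deg_g h l
      rw [hm _ e] at h3
      rw [Polynomial.eq_C_of_natDegree_le_zero h3, coeff_ini (x := a (bp β l)) hp (by
        rw [nv, hm _ e]), hm _ e]
    by_cases h3 : coeff (ex (a j') (m j')) (g (.inr j')) = 0
    · obtain ⟨l | l, h5, h4⟩ := h.1 j'
      · refine ⟨Pi.single l 1, fun h => (e h).elim, fun _ => ⟨_, h4, ?_⟩⟩
        rw [ini_bm hp, sum_single _ (by simpa using h5), h2 (.inr j') rfl, h3, h2 _ h5]
        simp
      · obtain rfl : l = j' := h5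
        exact (h4 h3).elim
    · refine ⟨0, fun h => (e h).elim, fun _ => ⟨_, h3, ?_⟩⟩
      rw [ini_bm hp, h2 (.inr j') rfl]
      simp
  choose Y h1 h2 using h1
  have h3 : ∀ j', bm g β (fun i => Y (β i) i) j' = bm g β (Y j') j' := fun j' =>
    congrArg (g (.inr j') + ·) (Finset.sum_congr rfl fun i hi => by
      simp only [(Finset.mem_filter.1 hi).2])
  refine ⟨fun i => Y (β i) i, fun e => funext fun i => ?_, by rw [h3, h1 j rfl],
    fun j' e => by rw [h3]; exact h2 j' e⟩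
  rw [h1 _ ((hl e).elim _ _), h0 e]

end QF

open QF PF

theorem one3_ok : S_one3 k ι ρ := by
  classical
  rintro loc J p q g β a m l₀ ⟨c1, c2⟩ hp hpq h ⟨p1, p2, p3, p4⟩ h0 ⟨l, v, v1, v2, v3⟩ hs hF
  have hm : ∀ j' ≠ bp β l₀, m j' = 0 := fun j' e => by
    have h1 := Finset.sum_le_sum_of_subset (f := m) (Finset.subset_univ {j', bp β l₀})
    rw [Finset.sum_pair e] at h1
    omega
  have hm1 : m (bp β l₀) = 1 := by
    have h1 := Finset.single_le_sum (f := m) (fun _ _ => Nat.zero_le _) (Finset.mem_univ (bp β l₀))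
    omega
  have hl : bp β l = bp β l₀ := by_contra fun e => by have := hm _ e; omega
  rw [hl] at v2 v3
  have v4 : v 1 = 0 := by omega
  rw [wt, nv, hm1, v4] at v2
  obtain rfl : p = 1 := hpq.eq_one_of_dvd
    ((Nat.dvd_add_right (dvd_mul_right p (a (bp β l₀)))).1 ⟨v 0, by omega⟩)
  have v5 : coeff (ex (a (bp β l₀) + q) 0) (g l) ≠ 0 := by
    rw [show a (bp β l₀) + q = v 0 by omega, ← v4, ex_eta]
    exact mem_support_iff.1 v1
  replace h0 := h0 rfl
  rw [hm1] at h0 p2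
  have hφ : ∀ l, bp β l = bp β l₀ → ini 1 q (nv 1 q a m (bp β l₀)) 0 1 (g l) =
      Polynomial.C (coeff (ex (a (bp β l₀)) 1) (g l)) * Polynomial.X +
        Polynomial.C (coeff (ex (a (bp β l₀) + q) 0) (g l)) := fun l e => by
    have h1 := deg_g h l
    rw [e, hm1] at h1
    rw [Polynomial.eq_X_add_C_of_natDegree_le_one h1, coeff_ini (x := a (bp β l₀)) hp (by
      rw [nv, hm1]), coeff_ini (x := a (bp β l₀) + q) hp (by rw [nv, hm1]; omega)]
  obtain i₀ | j := l₀
  swap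
  · refine (hF ⟨j, ?_, funext fun j' => ?_, p2, fun e i hi => ?_⟩).elim
    · obtain i | j' := l
      · exact (show β i = j from hl) ▸ c2 i fun e => v5 (by rw [e]; rfl)
      · exact (v5 ((show j' = j from hl) ▸ h0)).elim
    · by_cases e : j' = j
      · rw [e, Pi.single_eq_same]; exact hm1
      · rw [Pi.single_eq_of_ne e]; exact hm _ e
    · exact (show m j = 1 from hm1) ▸ p3 j rfl e i hi
  simp only [Sum.elim_inl] at *
  have a1 : ∀ c i, (Pi.single i₀ c : ι → k) i ≠ 0 → β i = β i₀ := fun c i h => by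
    rw [by_contra fun e : ¬ i = i₀ => h (Pi.single_eq_of_ne e _)]
  have a2 := hφ (.inl i₀) rfl
  rw [h0, map_zero, add_zero] at a2
  have a3 : (ini 1 q (nv 1 q a m (β i₀)) 0 1 (lc g (Pi.single i₀ 1))).natDegree = 1 := by
    rw [ini_lc hp, sum_single _ (Finset.mem_univ _), a2, map_one, one_mul,
      Polynomial.natDegree_C_mul_X _ p2]
  have a4 : ∀ l, bp β l = β i₀ → ini 1 q (nv 1 q a m (β i₀)) 0 1 (g l) +
      Polynomial.C (-coeff (ex (a (β i₀)) 1) (g l) / coeff (ex (a (β i₀)) 1) (g (.inl i₀))) *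
        ini 1 q (nv 1 q a m (β i₀)) 0 1 (g (.inl i₀)) =
      Polynomial.C (coeff (ex (a (β i₀) + q) 0) (g l)) := fun l e => by
    rw [a2, hφ l e, ← mul_assoc, ← map_mul, div_mul_cancel₀ _ p2, map_neg]
    ring
  have a5 := fun e => hm1 ▸ p4 i₀ rfl e
  by_cases e : coeff (ex (a (β i₀) + q) 0) (g (.inr (β i₀))) = 0
  · obtain ⟨y, y1, y2, y3⟩ := glue (fun e => (c1 e).1) hp h hm 0 fun _ => rfl
    obtain i | j := l
    swap
    · exact (v5 ((show j = β i₀ from hl) ▸ e)).elim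
    refine .inr ⟨y, Pi.single i₀ 1, Pi.single i 1 + Pi.single i₀ (-coeff (ex (a (β i₀)) 1)
      (g (.inl i)) / coeff (ex (a (β i₀)) 1) (g (.inl i₀))), fun e' => ⟨y1 e', ?_⟩, a1 1,
      fun i' hi => ?_, a3, ⟨_, v5, Eq.trans ?_ (a4 _ hl)⟩, y3⟩
    · rw [y2, ini_bm hp, hφ (.inr _) rfl, e, a5 e']
      simp
    · by_cases e1 : i' = i
      · rw [e1]; exact hl
      · exact a1 _ _ (by rwa [Pi.add_apply, Pi.single_eq_of_ne e1, zero_add] at hi)
    · simp only [ini_lc hp, Pi.add_apply, map_add, add_mul, Finset.sum_add_distrib,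
        sum_single _ (Finset.mem_univ _), map_one, one_mul]
  · obtain ⟨y, y1, y2, y3⟩ := glue (fun e => (c1 e).1) hp h hm (Pi.single i₀
      (-coeff (ex (a (β i₀)) 1) (g (.inr (β i₀))) / coeff (ex (a (β i₀)) 1) (g (.inl i₀))))
      fun e' => by rw [a5 e']; simp
    refine .inl ⟨y, Pi.single i₀ 1, y1, a1 1, a3, fun j' => ?_⟩
    by_cases e1 : j' = β i₀
    · exact ⟨_, e, by rw [e1, y2, ini_bm hp, sum_single _ (by simp), a4 (.inr _) rfl]⟩
    · exact y3 j' e1

end Pool.Agent.P.MP_b91a16_ag.Id.Ln
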