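import Pool.Agent.P.MP_b91a16_ag.Ln.Stmt

/-! Package G: semicontinuity of the number of roots, and pencils of coprime polynomials. -/

open Polynomial

namespace Pool.Agent.P.MP_b91a16_ag.Id.Ln

namespace QG

variable {k : Type} [Field k]

/-- A linear functional of `Φ (t)` is a polynomial in `t`. -/
theorem poly (Φ : Polynomial (Polynomial k)) (f : Polynomial k →ₗ[k] k) :
    ∃ p : Polynomial k, ∀ t : k, p.eval t = f (Φ.eval (C t)) := by
  refine ⟨∑ n ∈ Φ.support, monomial n (f (Φ.coeff n)), fun t => ?_⟩
  rw [eval_finsetSum, Polynomial.eval_eq_sum (p := Φ), Polynomial.sum_def, map_sum]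
  refine Finset.sum_congr rfl fun n _ => ?_
  rw [eval_monomial, ← C_pow, mul_comm (Φ.coeff n), ← smul_eq_C_mul, map_smul, smul_eq_mul,
    mul_comm]

/-- Independence at `t = 1` gives independence for all but finitely many `t`. -/
theorem gen {I : Type} [Fintype I] (Φ : Polynomial (Polynomial k))
    (L : I → Polynomial k →ₗ[k] Polynomial k)
    (h : ∀ g : I → k, ∑ i, g i • L i (Φ.eval 1) = 0 → g = 0) :
    {t : k | ¬∀ g : I → k, ∑ i, g i • L i (Φ.eval (C t)) = 0 → g = 0}.Finite := by
  classical
  obtain ⟨G, hG⟩ := (Fintype.linearCombination k fun i => L i (Φ.eval 1)).exists_leftInverse_of_injective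
    (LinearMap.ker_eq_bot'.2 fun g hg => h g (by rwa [Fintype.linearCombination_apply] at hg))
  choose M hM using fun i j : I => poly Φ ((LinearMap.proj j).comp (G.comp (L i)))
  have hdet : ∀ t : k, (Matrix.of M).det.eval t =
      (Matrix.of fun i j => G (L i (Φ.eval (C t))) j).det := by
    intro t
    rw [← coe_evalRingHom, RingHom.map_det]
    congr 1
    ext i j
    simpa using hM i j t
  have h1 : (Matrix.of M).det ≠ 0 := by
    intro h0
    have h2 := hdet 1
    have h3 : (Matrix.of fun i j => G (L i (Φ.eval (C 1))) j) = 1 := by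
      ext i j
      have h4 := LinearMap.congr_fun hG (Pi.single i 1)
      rw [LinearMap.comp_apply, Fintype.linearCombination_apply_single, one_smul] at h4
      rw [Matrix.of_apply, C_1, h4, LinearMap.id_apply, Matrix.one_apply, Pi.single_apply]
      simp only [eq_comm]
    rw [h0, h3] at h2
    simp at h2
  refine ((Matrix.of M).det.roots.toFinset.finite_toSet).subset fun t ht => ?_
  simp only [Finset.mem_coe, Multiset.mem_toFinset, mem_roots h1, IsRoot.def]
  by_contra hne
  refine ht fun g hg => ?_
  rw [hdet] at hne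
  refine Matrix.eq_zero_of_vecMul_eq_zero hne ?_
  funext j
  have h5 := congrArg (fun P => G P j) hg
  simpa [Matrix.vecMul, dotProduct, map_sum] using h5

theorem van [CharZero k] {P A B : Polynomial k} (hP : P ≠ 0) (h : A * derivative P + B * P = 0)
    {c : k} (hc : P.IsRoot c) : A.eval c = 0 := by
  obtain ⟨Q, hQ, hd⟩ := exists_eq_pow_rootMultiplicity_mul_and_not_dvd P hP c
  obtain ⟨n, hn⟩ : ∃ n, P.rootMultiplicity c = n + 1 :=
    Nat.exists_eq_succ_of_ne_zero ((rootMultiplicity_pos hP).2 hc).ne'
  rw [hn] at hQ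
  have hx : (X - C c : Polynomial k) ^ n ≠ 0 := pow_ne_zero _ (X_sub_C_ne_zero c)
  have h1 : (X - C c) ^ n * (A * (C ((n : k) + 1) * Q + (X - C c) * derivative Q) +
      B * ((X - C c) * Q)) = 0 := by
    rw [← h]
    conv_rhs => rw [hQ]
    rw [derivative_mul, derivative_X_sub_C_pow]
    simp only [Nat.add_sub_cancel, Nat.cast_add, Nat.cast_one]
    ring
  have h2 := congrArg (eval c) ((mul_eq_zero.1 h1).resolve_left hx)
  have h3 : Q.eval c ≠ 0 := fun h0 => hd (dvd_iff_isRoot.2 h0)
  have h4 : (n : k) + 1 ≠ 0 := Nat.cast_add_one_ne_zero n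
  simpa [h3, h4] using h2

/-- The maps `P ↦ X ^ i * P'` and `P ↦ X ^ i * P`. -/
noncomputable def LL (k : Type) [Field k] (z : ℕ) :
    Fin z ⊕ Fin z → Polynomial k →ₗ[k] Polynomial k :=
  Sum.elim (fun i => (LinearMap.mulLeft k (X ^ (i : ℕ))).comp derivative)
    fun i => LinearMap.mulLeft k (X ^ (i : ℕ))

theorem sumLL (z : ℕ) (g : Fin z ⊕ Fin z → k) (P : Polynomial k) :
    ∑ i, g i • LL k z i P = (∑ i : Fin z, C (g (.inl i)) * X ^ (i : ℕ)) * derivative P +
      (∑ i : Fin z, C (g (.inr i)) * X ^ (i : ℕ)) * P := by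
  simp [LL, Fintype.sum_sum_type, Finset.sum_mul, smul_eq_C_mul, mul_assoc]

theorem cz {z : ℕ} (g : Fin z → k) (h : ∑ i : Fin z, C (g i) * X ^ (i : ℕ) = 0) (i : Fin z) :
    g i = 0 := by
  have h1 := congrArg (fun P => coeff P i) h
  simp only [finsetSum_coeff, coeff_C_mul_X_pow, coeff_zero, Fin.val_inj] at h1
  simpa using h1

theorem rep {z : ℕ} {A : Polynomial k} (h : A.natDegree < z) :
    ∑ i : Fin z, C (A.coeff i) * X ^ (i : ℕ) = A := by
  rw [Fin.sum_univ_eq_sum_range (fun i => C (A.coeff i) * X ^ i) z]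
  exact (A.as_sum_range_C_mul_X_pow' h).symm

theorem ind1 [CharZero k] {P : Polynomial k} (hP : P ≠ 0) {z : ℕ} (Z : Finset k) (hz : z ≤ Z.card)
    (hZ : ∀ c ∈ Z, P.IsRoot c) (g : Fin z ⊕ Fin z → k) (hg : ∑ i, g i • LL k z i P = 0) :
    g = 0 := by
  rw [sumLL] at hg
  have hA := eq_zero_of_degree_lt_of_eval_finset_eq_zero Z
    ((degree_sum_fin_lt fun i => g (.inl i)).trans_le (by exact_mod_cast hz))
    fun c hc => van hP hg (hZ c hc)
  rw [hA, zero_mul, zero_add] at hg
  have hB := (mul_eq_zero.1 hg).resolve_right hP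
  funext i
  rcases i with i | i
  · exact cz _ hA i
  · exact cz _ hB i

open UniqueFactorizationMonoid EuclideanDomain in
theorem ind2 [CharZero k] [IsAlgClosed k] {P : Polynomial k} (hP : P ≠ 0) {z : ℕ}
    (h : ∀ g : Fin z ⊕ Fin z → k, ∑ i, g i • LL k z i P = 0 → g = 0) :
    ∃ Z : Finset k, z ≤ Z.card ∧ ∀ c ∈ Z, P.IsRoot c := by
  classical
  have hr : radical P ≠ 0 := radical_ne_zero
  refine ⟨(radical P).roots.toFinset, ?_, fun c hc => ?_⟩
  · have hs : (radical P).Separable := PerfectField.separable_iff_squarefree.2 squarefree_radical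
    rw [Multiset.toFinset_card_of_nodup (nodup_roots hs), IsAlgClosed.card_roots_eq_natDegree]
    by_contra hlt
    rw [not_le] at hlt
    obtain ⟨B, hB⟩ := divRadical_dvd_derivative P
    have h1 : radical P * derivative P = P * B := by
      rw [hB, ← mul_assoc, radical_mul_divRadical]
    have hBd : (-B).natDegree < z := by
      rw [natDegree_neg]
      by_cases hB0 : B = 0
      · rw [hB0, natDegree_zero]; omega
      · have h2 := congrArg natDegree h1
        have h3 := natDegree_mul_le (p := radical P) (q := derivative P)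
        have h4 := natDegree_derivative_le P
        rw [natDegree_mul hP hB0] at h2
        omega
    have h5 := h (Sum.elim (fun i => (radical P).coeff i) fun i => (-B).coeff i) (by
      rw [sumLL]
      simp only [Sum.elim_inl, Sum.elim_inr]
      rw [rep hlt, rep hBd, h1]
      ring)
    apply hr
    rw [← rep hlt]
    refine Finset.sum_eq_zero fun i _ => ?_
    have h6 : (radical P).coeff i = 0 := congrFun h5 (.inl i)
    rw [h6, C_0, zero_mul]
  · rw [Multiset.mem_toFinset, mem_roots hr] at hc
    exact hc.dvd radical_dvd_self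

end QG

variable {k : Type} [Field k]

theorem sc_ok [CharZero k] [IsAlgClosed k] : S_sc k := by
  rintro Φ z h0 ⟨Z, hz, hZ⟩
  have h1 := QG.gen Φ (fun _ : Unit => LinearMap.id) (fun g hg => by
    funext i
    simpa [h0] using hg)
  have h2 := QG.gen Φ (QG.LL k z) (QG.ind1 h0 Z hz hZ)
  refine (h1.union h2).subset fun t ht => ?_
  by_contra hn
  simp only [Set.mem_union, Set.mem_ofPred_eq, not_or, not_not] at hn
  have h3 : Φ.eval (C t) ≠ 0 := fun h => by
    have h4 := congrFun (hn.1 (fun _ => 1) (by simp [h])) ()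
    simp at h4
  exact ht ⟨h3, QG.ind2 h3 hn.2⟩

theorem bert_ok [CharZero k] [IsAlgClosed k] : S_bert k := by
  classical
  intro A B hco hdeg hB T
  rcases Nat.eq_zero_or_pos A.natDegree with hd | hd
  · refine Set.finite_empty.subset fun t ht => ht ⟨∅, ?_, ?_, ?_⟩
    · rw [hd, Finset.card_empty]
    · exact Finset.disjoint_empty_left _
    · simp
  have hA : A ≠ 0 := fun h => by simp [h] at hd
  have hW : derivative A * B - A * derivative B ≠ 0 := by
    intro h
    have h1 : A ∣ derivative A :=
      hco.dvd_of_dvd_mul_right ⟨derivative B, sub_eq_zero.1 h⟩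
    have h2 : derivative A ≠ 0 := fun h3 => by
      have := derivative_eq_zero.1 h3
      omega
    have h3 := natDegree_le_of_dvd h1 h2
    have h4 := natDegree_derivative_lt hd.ne'
    omega
  refine (insert (-A.leadingCoeff / B.coeff A.natDegree)
    (((derivative A * B - A * derivative B).roots.toFinset ∪ T).image
      fun c => -A.eval c / B.eval c)).finite_toSet.subset fun t ht => ?_
  by_contra hn
  simp only [Finset.coe_insert, Finset.coe_image, Set.mem_insert_iff, Set.mem_image,
    Finset.mem_coe, Finset.mem_union, Multiset.mem_toFinset, mem_roots hW, not_or, not_exists,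
    not_and] at hn
  obtain ⟨hl, hn⟩ := hn
  have hc : (A + C t * B).coeff A.natDegree ≠ 0 := by
    rw [coeff_add, coeff_C_mul, coeff_natDegree]
    intro h
    by_cases hb : B.coeff A.natDegree = 0
    · rw [hb, mul_zero, add_zero, leadingCoeff_eq_zero] at h
      exact hA h
    · apply hl
      field_simp
      linear_combination h
  have hP : A + C t * B ≠ 0 := fun h => by simp [h] at hc
  have hdP : (A + C t * B).natDegree = A.natDegree :=
    le_antisymm ((natDegree_add_le _ _).trans
      (max_le le_rfl ((natDegree_C_mul_le _ _).trans hdeg))) (le_natDegree_of_ne_zero hc)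
  have hroot : ∀ c, (A + C t * B).eval c = 0 → -A.eval c / B.eval c = t := by
    intro c h
    rw [eval_add, eval_mul, eval_C] at h
    have hb : B.eval c ≠ 0 := fun hb => by
      rcases aeval_ne_zero_of_isCoprime hco c with h1 | h1
      · apply h1
        rw [hb, mul_zero, add_zero] at h
        simpa using h
      · exact h1 (by simpa using hb)
    field_simp
    linear_combination -h
  have hs : (A + C t * B).Separable := by
    rw [separable_def, isCoprime_iff_aeval_ne_zero_of_isAlgClosed k k]
    intro c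
    by_contra h
    simp only [coe_aeval_eq_eval, not_or, not_not] at h
    refine hn c (Or.inl ?_) (hroot c h.1)
    obtain ⟨h1, h2⟩ := h
    simp only [derivative_add, derivative_C_mul, eval_add, eval_mul, eval_C] at h1 h2
    simp only [IsRoot.def, eval_sub, eval_mul]
    linear_combination B.eval c * h2 - (derivative B).eval c * h1
  refine ht ⟨(A + C t * B).roots.toFinset, ?_, ?_, fun c h => ?_⟩
  · rw [Multiset.toFinset_card_of_nodup (nodup_roots hs), IsAlgClosed.card_roots_eq_natDegree, hdP]
  · rw [Finset.disjoint_left]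
    intro c h h'
    rw [Multiset.mem_toFinset, mem_roots hP] at h
    exact hn c (Or.inr h') (hroot c h)
  · rwa [Multiset.mem_toFinset, mem_roots hP] at h

end Pool.Agent.P.MP_b91a16_ag.Id.Ln
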