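import Pool.Agent.P.MP_b91a16_ag.Ln.Stmt

/-! Classification of linear systems of binary forms with few roots. -/

set_option linter.unusedSectionVars false

open Polynomial

namespace Pool.Agent.P.MP_b91a16_ag.Id.Ln

variable {k ι ρ : Type} [Field k] [Fintype ι] [Fintype ρ] [DecidableEq ρ]

namespace QH

theorem pure' [IsAlgClosed k] {φ : k[X]} {c : k} (h : ∀ r, φ.IsRoot r → r = c) :
    φ = C φ.leadingCoeff * (X - C c) ^ φ.natDegree := by
  have h1 := PF.pure h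
  rwa [map_neg, ← sub_eq_add_neg] at h1

theorem ex_root [IsAlgClosed k] {φ : k[X]} (h : φ.natDegree ≠ 0) : ∃ r, φ.IsRoot r :=
  IsAlgClosed.exists_root φ fun e => h (natDegree_eq_zero_iff_degree_le_zero.2 e.le)

theorem mult_of_dvd {P A B : k[X]} (hA : A ≠ 0) (h1 : P ∣ A) (h2 : P ∣ B)
    (h3 : A.natDegree ≤ P.natDegree) (h4 : B.natDegree ≤ P.natDegree) :
    ∃ κ, B = C κ * A := by
  obtain ⟨a, rfl⟩ := h1
  obtain ⟨b, rfl⟩ := h2
  have hP : P ≠ 0 := left_ne_zero_of_mul hA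
  have ha : a ≠ 0 := right_ne_zero_of_mul hA
  by_cases hb : b = 0
  · exact ⟨0, by simp [hb]⟩
  rw [natDegree_mul hP ha] at h3
  rw [natDegree_mul hP hb] at h4
  obtain ⟨x, rfl⟩ := natDegree_eq_zero.1 (show a.natDegree = 0 by omega)
  obtain ⟨z, rfl⟩ := natDegree_eq_zero.1 (show b.natDegree = 0 by omega)
  have hx : x ≠ 0 := fun e => ha (by simp [e])
  refine ⟨z / x, ?_⟩
  rw [mul_left_comm, ← C_mul, div_mul_cancel₀ _ hx]

theorem root_of_pow {A : k[X]} {c : k} {n : ℕ} (hn : n ≠ 0) (h : (X - C c) ^ n ∣ A) :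
    A.IsRoot c :=
  dvd_iff_isRoot.1 ((dvd_pow_self _ hn).trans h)

/-- a second root of both members of a pencil -/
theorem mult_of_root {A B : k[X]} {c c' : k} {n : ℕ} (hA : A ≠ 0) (hc : c ≠ c')
    (h1 : (X - C c) ^ n ∣ A) (h2 : (X - C c) ^ n ∣ B) (h3 : A.IsRoot c') (h4 : B.IsRoot c')
    (h5 : A.natDegree ≤ n + 1) (h6 : B.natDegree ≤ n + 1) : ∃ κ, B = C κ * A := by
  have hco : IsCoprime ((X - C c) ^ n) (X - C c' : k[X]) :=
    (isCoprime_X_sub_C_of_isUnit_sub (sub_ne_zero.2 hc).isUnit).pow_left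
  have hd : ((X - C c) ^ n * (X - C c') : k[X]).natDegree = n + 1 := by
    rw [natDegree_mul (pow_ne_zero _ (X_sub_C_ne_zero c)) (X_sub_C_ne_zero c'), natDegree_pow,
      natDegree_X_sub_C, natDegree_X_sub_C, mul_one]
  exact mult_of_dvd hA (hco.mul_dvd h1 (dvd_iff_isRoot.2 h3)) (hco.mul_dvd h2 (dvd_iff_isRoot.2 h4))
    (hd ▸ h5) (hd ▸ h6)

theorem pencil (hb : S_bert k) {A B : k[X]} (hA : A ≠ 0) (hd : B.natDegree ≤ A.natDegree)
    [Infinite k] (hm : ∀ κ, B ≠ C κ * A) : ∃ (D : k[X]) (d : ℕ), D ∣ A ∧ D ∣ B ∧ 0 < d ∧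
      D.natDegree + d = A.natDegree ∧ ∀ S : Finset k, ∃ (t : k) (Z : Finset k),
        A + C t * B ≠ 0 ∧ Z.card = d ∧ Disjoint Z S ∧ ∀ c ∈ Z, (A + C t * B).IsRoot c := by
  classical
  obtain ⟨A', B', D, hco, rfl, rfl⟩ := UniqueFactorizationMonoid.exists_reduced_factors A hA B
  have hD : D ≠ 0 := left_ne_zero_of_mul hA
  have hA' : A' ≠ 0 := right_ne_zero_of_mul hA
  have hB' : B' ≠ 0 := fun e => hm 0 (by simp [e])
  have h1 : B'.natDegree ≤ A'.natDegree := by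
    rw [natDegree_mul hD hA', natDegree_mul hD hB'] at hd
    omega
  have h2 : 0 < A'.natDegree := by
    refine Nat.pos_of_ne_zero fun e => ?_
    obtain ⟨κ, hκ⟩ := mult_of_dvd hA (dvd_mul_right D A') (dvd_mul_right D B')
      (by rw [natDegree_mul hD hA']; omega) (by rw [natDegree_mul hD hB']; omega)
    exact hm κ hκ
  refine ⟨D, A'.natDegree, dvd_mul_right _ _, dvd_mul_right _ _, h2,
    (natDegree_mul hD hA').symm, fun S => ?_⟩
  obtain ⟨t, ht⟩ := (hb A' B' hco.isCoprime h1 hB' S).exists_notMem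
  obtain ⟨Z, z1, z2, z3⟩ := not_not.1 ht
  have h3 : D * A' + C t * (D * B') = D * (A' + C t * B') := by ring
  refine ⟨t, Z, ?_, z1, z2, fun c hc => ?_⟩
  · rw [h3]
    refine mul_ne_zero hD fun e => ?_
    have h4 : B' ∣ A' := ⟨-C t, by linear_combination e⟩
    have h5 := natDegree_eq_zero_of_isUnit (hco h4 dvd_rfl)
    have h6 : A' = -(C t * B') := by linear_combination e
    have h7 : (C t * B').natDegree ≤ B'.natDegree := natDegree_C_mul_le _ _
    rw [h6, natDegree_neg] at h2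
    omega
  · rw [h3]
    exact (z3 c hc).dvd (dvd_mul_left _ _)

/-- first alternative -/
def C1 (F : (ι → k) → ρ → k[X]) : Prop :=
  ∃ (y' : ι → k) (Z : Finset k), (∀ j, F y' j ≠ 0) ∧ 3 ≤ Z.card ∧ ∀ c ∈ Z, ∃ j, (F y' j).IsRoot c

/-- `B` is a direction of the block `j` -/
def Dir (F : (ι → k) → ρ → k[X]) (N : ρ → ℕ) (j : ρ) (B : k[X]) : Prop :=
  B.natDegree ≤ N j ∧ ∃ v : ι → k, ∀ (t : k) (y : ι → k),
    F (y + t • v) j = F y j + C t * B ∧ ∀ j', j' ≠ j → F (y + t • v) j' = F y j'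

variable {F : (ι → k) → ρ → k[X]} {N : ρ → ℕ} {y : ι → k}

theorem Dir.add {j : ρ} {B B' : k[X]} (h : Dir F N j B) (h' : Dir F N j B') :
    Dir F N j (B + B') := by
  obtain ⟨d, v, hv⟩ := h
  obtain ⟨d', v', hv'⟩ := h'
  refine ⟨(natDegree_add_le _ _).trans (max_le d d'), v + v', fun t y => ?_⟩
  rw [smul_add, ← add_assoc]
  refine ⟨?_, fun j' hj => ?_⟩
  · rw [(hv' t _).1, (hv t _).1]; ring
  · rw [(hv' t _).2 j' hj, (hv t _).2 j' hj]

theorem three [DecidableEq k] {a b c : k} (h1 : a ≠ b) (h2 : a ≠ c) (h3 : b ≠ c) :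
    3 ≤ ({a, b, c} : Finset k).card :=
  (Finset.card_eq_three.2 ⟨a, b, c, h1, h2, h3, rfl⟩).ge

/-- one moving direction -/
theorem struct [IsAlgClosed k] (hb : S_bert k) (hA : ∀ j, F y j ≠ 0)
    (hd : ∀ j, (F y j).natDegree = N j) (h1 : ¬C1 F) {j : ρ} {B : k[X]} (hD : Dir F N j B)
    (hm : ∀ κ, B ≠ C κ * F y j) : N = Pi.single j 2 ∨ ∃ c, 0 < N j ∧
      (X - C c) ^ (N j - 1) ∣ F y j ∧ (X - C c) ^ (N j - 1) ∣ B ∧
      ∀ j', j' ≠ j → ∃ κ, F y j' = C κ * (X - C c) ^ N j' := by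
  classical
  obtain ⟨dB, v, hv⟩ := hD
  obtain ⟨D, d, d1, d2, d3, d4, hp⟩ := pencil hb (hA j) (hd j ▸ dB) hm
  have hD0 : D ≠ 0 := ne_zero_of_dvd_ne_zero (hA j) d1
  obtain ⟨S, hS⟩ : ∃ S : Finset k, ∀ c, c ∈ S ↔ D.IsRoot c ∨ ∃ j', j' ≠ j ∧ (F y j').IsRoot c :=
    ⟨D.roots.toFinset ∪ (Finset.univ.filter (· ≠ j)).biUnion fun j' => (F y j').roots.toFinset,
      fun c => by simp [hD0, hA]⟩
  obtain ⟨t, Z, z0, z1, z2, z3⟩ := hp S
  have h2 : ¬3 ≤ (Z ∪ S).card := fun h => h1 ⟨y + t • v, Z ∪ S, fun j' => by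
      by_cases e : j' = j
      · rw [e, (hv t y).1]; exact z0
      · rw [(hv t y).2 j' e]; exact hA j', h, fun c hc => by
      rcases Finset.mem_union.1 hc with hc | hc
      · exact ⟨j, by rw [(hv t y).1]; exact z3 c hc⟩
      · rcases (hS c).1 hc with hc | ⟨j', e, hc⟩
        · exact ⟨j, by rw [(hv t y).1]; exact hc.dvd (dvd_add d1 (d2.mul_left _))⟩
        · exact ⟨j', by rw [(hv t y).2 j' e]; exact hc⟩⟩
  rw [Finset.card_union_of_disjoint z2, z1] at h2
  rw [hd j] at d4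
  by_cases e : d = 1
  · obtain ⟨c, hc⟩ := Finset.card_le_one_iff_subset_singleton.1 (show S.card ≤ 1 by omega)
    have h3 : ∀ r, r ∈ S → r = c := fun r hr => Finset.mem_singleton.1 (hc hr)
    have h4 : (X - C c) ^ (N j - 1) ∣ D := by
      have h5 := pure' fun r hr => h3 r ((hS r).2 (Or.inl hr))
      rw [show D.natDegree = N j - 1 by omega] at h5
      exact ⟨C D.leadingCoeff, h5.trans (mul_comm _ _)⟩
    refine Or.inr ⟨c, by omega, h4.trans d1, h4.trans d2, fun j' hj => ⟨(F y j').leadingCoeff, ?_⟩⟩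
    rw [← hd j']
    exact pure' fun r hr => h3 r ((hS r).2 (Or.inr ⟨j', hj, hr⟩))
  · have h3 : S = ∅ := Finset.card_eq_zero.1 (by omega)
    have h4 : ∀ c, ¬(D.IsRoot c ∨ ∃ j', j' ≠ j ∧ (F y j').IsRoot c) := fun c hc => by
      simpa [h3] using (hS c).2 hc
    have h5 : D.natDegree = 0 := by
      by_contra h
      obtain ⟨r, hr⟩ := ex_root h
      exact h4 r (Or.inl hr)
    refine Or.inl (funext fun j' => ?_)
    by_cases e' : j' = j
    · rw [e', Pi.single_eq_same]; omega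
    · rw [Pi.single_eq_of_ne e', ← hd j']
      by_contra h
      obtain ⟨r, hr⟩ := ex_root h
      exact h4 r (Or.inr ⟨j', e', hr⟩)

/-- two moving directions and a fixed root -/
theorem two [IsAlgClosed k] (hb : S_bert k) (hA : ∀ j, F y j ≠ 0)
    (hd : ∀ j, (F y j).natDegree = N j) {j j' j'' : ρ} {B B' : k[X]} (hj : j ≠ j')
    (hD : Dir F N j B) (hm : ∀ κ, B ≠ C κ * F y j) (hD' : Dir F N j' B')
    (hm' : ∀ κ, B' ≠ C κ * F y j') {r : k} (hr : (F y j'').IsRoot r) (h1 : j'' = j → B.IsRoot r)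
    (h2 : j'' = j' → B'.IsRoot r) : C1 F := by
  classical
  obtain ⟨dB, v, hv⟩ := hD
  obtain ⟨dB', v', hv'⟩ := hD'
  obtain ⟨D, d, -, -, d3, -, hp⟩ := pencil hb (hA j) (hd j ▸ dB) hm
  obtain ⟨D', d', -, -, d3', -, hp'⟩ := pencil hb (hA j') (hd j' ▸ dB') hm'
  obtain ⟨t, Z, z0, z1, z2, z3⟩ := hp {r}
  obtain ⟨z, hz⟩ := Finset.card_pos.1 (z1 ▸ d3)
  obtain ⟨t', Z', z0', z1', z2', z3'⟩ := hp' {r, z}
  obtain ⟨z', hz'⟩ := Finset.card_pos.1 (z1' ▸ d3')
  have n1 := Finset.disjoint_left.1 z2 hz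
  have n2 := Finset.disjoint_left.1 z2' hz'
  simp only [Finset.mem_insert, Finset.mem_singleton, not_or] at n1 n2
  have e1 : F (y + t • v + t' • v') j = F y j + C t * B := by
    rw [(hv' t' _).2 j hj, (hv t y).1]
  have e2 : F (y + t • v + t' • v') j' = F y j' + C t' * B' := by
    rw [(hv' t' _).1, (hv t y).2 j' hj.symm]
  have e3 : ∀ i, i ≠ j → i ≠ j' → F (y + t • v + t' • v') i = F y i := fun i a b => by
    rw [(hv' t' _).2 i b, (hv t y).2 i a]
  refine ⟨y + t • v + t' • v', {r, z, z'}, fun i => ?_,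
    three (Ne.symm n1) (Ne.symm n2.1) (Ne.symm n2.2), fun c hc => ?_⟩
  · by_cases a : i = j
    · rw [a, e1]; exact z0
    · by_cases b : i = j'
      · rw [b, e2]; exact z0'
      · rw [e3 i a b]; exact hA i
  · simp only [Finset.mem_insert, Finset.mem_singleton] at hc
    rcases hc with rfl | rfl | rfl
    · refine ⟨j'', ?_⟩
      by_cases a : j'' = j
      · have := h1 a
        subst a
        rw [e1]
        simp [IsRoot.def.1 hr, IsRoot.def.1 this]
      · by_cases b : j'' = j'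
        · have := h2 b
          subst b
          rw [e2]
          simp [IsRoot.def.1 hr, IsRoot.def.1 this]
        · rw [e3 j'' a b]; exact hr
    · exact ⟨j, e1 ▸ z3 c hz⟩
    · exact ⟨j', e2 ▸ z3' c hz'⟩

/-- two moving directions in one block have the same base point -/
theorem same [IsAlgClosed k] (hb : S_bert k) (hA : ∀ j, F y j ≠ 0)
    (hd : ∀ j, (F y j).natDegree = N j) (h1 : ¬C1 F) {j : ρ} (h3 : N ≠ Pi.single j 2)
    {B B' : k[X]} (hD : Dir F N j B) (hm : ∀ κ, B ≠ C κ * F y j) (hD' : Dir F N j B') {c : k}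
    (a1 : (X - C c) ^ (N j - 1) ∣ F y j) (a2 : (X - C c) ^ (N j - 1) ∣ B) :
    (X - C c) ^ (N j - 1) ∣ B' := by
  classical
  by_cases hn : N j - 1 = 0
  · simp [hn]
  by_cases hm' : ∃ κ, B' = C κ * F y j
  · obtain ⟨κ, rfl⟩ := hm'
    exact a1.mul_left _
  obtain ⟨c', -, b1, b2, -⟩ :=
    (struct hb hA hd h1 hD' fun κ e => hm' ⟨κ, e⟩).resolve_left h3
  by_cases hc : c = c'
  · exact hc ▸ b2
  have r1 := root_of_pow hn a1
  have r2 := root_of_pow hn a2
  have r3 := root_of_pow hn b1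
  have r4 := root_of_pow hn b2
  have dA : (F y j).natDegree ≤ N j - 1 + 1 := by rw [hd j]; omega
  have n1 : ¬B.IsRoot c' := fun h => by
    obtain ⟨κ, hκ⟩ := mult_of_root (hA j) hc a1 a2 r3 h dA (hD.1.trans (by omega))
    exact hm κ hκ
  have n2 : ¬B'.IsRoot c := fun h =>
    hm' (mult_of_root (hA j) (Ne.symm hc) b1 b2 r1 h dA (hD'.1.trans (by omega)))
  have n3 : ¬(B + B').IsRoot c := fun h => n2 (by simpa [IsRoot.def.1 r2] using h)
  have n4 : ¬(B + B').IsRoot c' := fun h => n1 (by simpa [IsRoot.def.1 r4] using h)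
  obtain ⟨c'', -, e1, e2, -⟩ := (struct hb hA hd h1 (hD.add hD') fun κ e =>
    n3 (by rw [e]; exact r1.dvd (dvd_mul_left _ _))).resolve_left h3
  have r5 := root_of_pow hn e1
  have r6 := root_of_pow hn e2
  refine absurd ⟨y, {c, c', c''}, hA, three hc (fun e => n3 (e ▸ r6)) (fun e => n4 (e ▸ r6)),
    fun z hz => ⟨j, ?_⟩⟩ h1
  simp only [Finset.mem_insert, Finset.mem_singleton] at hz
  rcases hz with rfl | rfl | rfl <;> assumption

end QH

open QH in
theorem cls_ok [CharZero k] [IsAlgClosed k] (hb : S_bert k) : S_cls k ι ρ := by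
  classical
  intro φ β N y F hF hφ hc
  have hA : ∀ j, F y j ≠ 0 := fun j e => hc j (by simp [e])
  have hd : ∀ j, (F y j).natDegree = N j := fun j => by
    refine le_antisymm ?_ (le_natDegree_of_ne_zero (hc j))
    rw [hF]
    refine (natDegree_add_le _ _).trans (max_le (hφ (.inr j)) ?_)
    refine natDegree_sum_le_of_forall_le _ _ fun i hi => (natDegree_C_mul_le _ _).trans ?_
    exact (Finset.mem_filter.1 hi).2 ▸ hφ (.inl i)
  have hD : ∀ i, Dir F N (β i) (φ (.inl i)) := fun i => by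
    refine ⟨hφ (.inl i), Pi.single i 1, fun t y' => ?_⟩
    have h0 : ∀ j, F (y' + t • (Pi.single i 1 : ι → k)) j =
        F y' j + if β i = j then C t * φ (.inl i) else 0 := fun j => by
      simp only [hF, Pi.add_apply, map_add, add_mul, Finset.sum_add_distrib, add_assoc]
      congr 2
      rw [Finset.sum_filter, Finset.sum_eq_single i]
      · simp
      · intro i' _ hi
        simp [Pi.single_eq_of_ne hi]
      · simp
    exact ⟨by rw [h0, if_pos rfl], fun j' hj => by rw [h0, if_neg (Ne.symm hj), add_zero]⟩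
  have hr : ∀ j (P : k[X]), P ∣ F y j → (∀ i, β i = j → P ∣ φ (.inl i)) →
      ∀ l, bp β l = j → P ∣ φ l := by
    rintro j P h1 h2 (i | j') hl
    · exact h2 i hl
    · obtain rfl : j' = j := hl
      rw [hF] at h1
      exact (dvd_add_left (Finset.dvd_sum fun i hi =>
        (h2 i (Finset.mem_filter.1 hi).2).mul_left _)).1 h1
  have hs : ∀ j, (∀ i, β i = j → ∃ κ, φ (.inl i) = C κ * F y (β i)) →
      ∀ l, bp β l = j → ∃ κ, φ l = C κ * F y j := fun j h l hl =>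
    mult_of_dvd (hA j) dvd_rfl (hr j _ dvd_rfl (fun i hi => by
      obtain ⟨κ, hκ⟩ := h i hi
      rw [hκ, hi]
      exact dvd_mul_left _ _) l hl) le_rfl (by rw [hd j, ← hl]; exact hφ l)
  by_cases h1 : C1 F
  · exact Or.inl h1
  refine Or.inr ?_
  by_cases hM : ∃ i, ∀ κ, φ (.inl i) ≠ C κ * F y (β i)
  · refine Or.inr ?_
    obtain ⟨i, hi⟩ := hM
    by_cases h3 : N = Pi.single (β i) 2
    · exact Or.inl ⟨i, fun e => hi 0 (by simp [e]), h3⟩
    obtain ⟨c, c0, c1, c2, c3⟩ := (struct hb hA hd h1 (hD i) hi).resolve_left h3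
    by_cases hM' : ∃ i', β i' ≠ β i ∧ ∀ κ, φ (.inl i') ≠ C κ * F y (β i')
    · obtain ⟨i', hne, hi'⟩ := hM'
      by_cases h3' : N = Pi.single (β i') 2
      · exact Or.inl ⟨i', fun e => hi' 0 (by simp [e]), h3'⟩
      obtain ⟨c', c0', c1', c2', -⟩ := (struct hb hA hd h1 (hD i') hi').resolve_left h3'
      have ht := fun (j : ρ) (r : k) (a : (F y j).IsRoot r) b b' =>
        h1 (two hb hA hd hne.symm (hD i) hi (hD i') hi' a b b')
      refine Or.inr (Or.inl ⟨i, i', hne.symm, funext fun j => ?_, hi, hi'⟩)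
      rw [Pi.add_apply]
      by_cases a : j = β i
      · rw [a, Pi.single_eq_same, Pi.single_eq_of_ne hne.symm]
        by_contra h
        have hn : N (β i) - 1 ≠ 0 := by omega
        exact ht _ c (root_of_pow hn c1) (fun _ => root_of_pow hn c2) fun e => absurd e hne.symm
      · by_cases b : j = β i'
        · rw [b, Pi.single_eq_same, Pi.single_eq_of_ne hne]
          by_contra h
          have hn : N (β i') - 1 ≠ 0 := by omega
          exact ht _ c' (root_of_pow hn c1') (fun e => absurd e hne) fun _ => root_of_pow hn c2'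
        · rw [Pi.single_eq_of_ne a, Pi.single_eq_of_ne b, add_zero, ← hd j]
          by_contra h
          obtain ⟨r, hr⟩ := ex_root h
          exact ht j r hr (fun e => absurd e a) fun e => absurd e b
    · refine Or.inr (Or.inr ⟨i, c, c0, hi, hr _ _ c1 fun i' e =>
        same hb hA hd h1 h3 (hD i) hi (e ▸ hD i') c1 c2, fun l hl => ?_⟩)
      obtain ⟨κ, hκ⟩ := hs (bp β l) (fun i' e => by
        by_contra h
        exact hM' ⟨i', e ▸ hl, fun κ e' => h ⟨κ, e'⟩⟩) l rfl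
      obtain ⟨κ', hκ'⟩ := c3 _ hl
      exact ⟨κ * κ', by rw [hκ, hκ', C_mul, mul_assoc]⟩
  · refine Or.inl ?_
    obtain ⟨Z, hZ⟩ : ∃ Z : Finset k, ∀ c, c ∈ Z ↔ ∃ j, (F y j).IsRoot c :=
      ⟨Finset.univ.biUnion fun j => (F y j).roots.toFinset, fun c => by simp [hA]⟩
    have h2 : ¬3 ≤ Z.card := fun h => h1 ⟨y, Z, hA, h, fun c hc => (hZ c).1 hc⟩
    obtain ⟨c₁, c₂, hne, h4⟩ := PG.two_pts Z (by omega)
    have h5 : ∀ j, ∃ x x' : ℕ, x + x' = N j ∧
        F y j = C (F y j).leadingCoeff * ((X - C c₁) ^ x * (X - C c₂) ^ x') := fun j => by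
      have hsp := IsAlgClosed.splits (F y j)
      obtain ⟨x, x', e1, e2⟩ := PG.prod_two (fun c => X - C c) c₁ c₂ (F y j).roots fun c hc' =>
        h4 c ((hZ c).2 ⟨j, (mem_roots (hA j)).1 hc'⟩)
      refine ⟨x, x', by rw [e1, ← hsp.natDegree_eq_card_roots, hd], ?_⟩
      rw [← e2]
      exact hsp.eq_prod_roots
    choose x x' e1 e2 using h5
    refine ⟨c₁, c₂, x, x', hne, e1, fun l => ?_⟩
    obtain ⟨κ, hκ⟩ := hs (bp β l) (fun i _ => by
      by_contra h
      exact hM ⟨i, fun κ e' => h ⟨κ, e'⟩⟩) l rfl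
    refine ⟨κ * (F y (bp β l)).leadingCoeff, ?_⟩
    rw [hκ, C_mul, mul_assoc, mul_assoc, ← e2]

end Pool.Agent.P.MP_b91a16_ag.Id.Ln
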