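import Pool.Agent.P.MP_b91a16_ag.Ln.Stmt

/-! Degree at most one in all but two variables: the tangent forms at the origin. -/

set_option linter.unusedSectionVars false

open MvPolynomial

namespace Pool.Agent.P.MP_b91a16_ag.Id.Ln

noncomputable section

variable {k ι ρ : Type} [Field k] [Fintype ι] [Fintype ρ] [DecidableEq ρ]

namespace QI

open PG

/-- The form of degree `N`, at `X = 1`. -/
def io (N : ℕ) : P2 k →ₗ[k] Polynomial k := (dh (k := k)).toLinearMap ∘ₗ homogeneousComponent N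

theorem ini_io (N : ℕ) (G : P2 k) : ini 1 1 N 0 1 G = io N G := ini_eq N G

theorem io_C_mul (N : ℕ) (c : k) (G : P2 k) : io N (C c * G) = Polynomial.C c * io N G := by
  rw [← smul_eq_C_mul, map_smul, Polynomial.smul_eq_C_mul]

theorem coeff_io {N : ℕ} (G : P2 k) {v : Fin 2 →₀ ℕ} (h : v 0 + v 1 = N) :
    coeff v G = (io N G).coeff (v 1) := by
  rw [← ini_io, PF.coeff_ini (x := v 0) one_pos (by omega), ex_eta]

theorem coeff_io' {N x t : ℕ} (G : P2 k) (h : x + t = N) :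
    coeff (ex x t) G = (io N G).coeff t := by
  rw [coeff_io G (v := ex x t) (by simpa using h), ex_one]

theorem io_deg (N : ℕ) (G : P2 k) : (io N G).natDegree ≤ N := by
  refine Polynomial.natDegree_le_iff_coeff_eq_zero.2 fun t ht => ?_
  rw [← ini_io]
  exact PF.coeff_zero fun x => by omega

theorem lin_hom (A : Matrix (Fin 2) (Fin 2) k) (i : Fin 2) : (lin A i).IsHomogeneous 1 :=
  IsHomogeneous.sum _ _ _ fun _ _ => isHomogeneous_C_mul_X _ _

theorem hc_lin (A : Matrix (Fin 2) (Fin 2) k) (N : ℕ) (G : P2 k) :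
    homogeneousComponent N (aeval (lin A) G) = aeval (lin A) (homogeneousComponent N G) := by
  ext v
  rw [coeff_homogeneousComponent]
  split_ifs with e
  · rw [coeff_lin, ← deg2, e]
  · refine (((homogeneousComponent_isHomogeneous N G).aeval _ (lin_hom A)).coeff_eq_zero ?_).symm
    rwa [one_mul]

theorem lo_lin {τ : Type} {g : τ → P2 k} {β : τ → ρ} {N : ρ → ℕ} (h : LoN 1 1 g β N)
    (A : Matrix (Fin 2) (Fin 2) k) : LoN 1 1 (pb (lin A) g) β N := by
  intro i v hv
  have h3 := mem_support_iff.1 hv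
  rw [pb, coeff_lin] at h3
  by_contra hc
  rw [homogeneousComponent_eq_zero' _ _ fun w hw e => ?_, map_zero, coeff_zero] at h3
  · exact h3 rfl
  · have := h i w hw
    rw [wt11, ← deg2, e] at this
    exact hc (by rwa [wt11])

theorem pb_lin {τ : Type} [Fintype τ] (A B : Matrix (Fin 2) (Fin 2) k) (g : τ → P2 k) :
    pb (lin A) (pb (lin B) g) = pb (lin (B * A)) g := by
  have : pb (lin A) (lin B) = lin (B * A) := _root_.funext fun j => lin_lin A B j
  rw [pb_pb, this]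

theorem top (c : k) (N : ℕ) (G : P2 k) :
    (io N (aeval (lin !![0, 1; 1, c]) G)).coeff N = (io N G).eval c := by
  have hH := homogeneousComponent_isHomogeneous N G
  change (dh (homogeneousComponent N (aeval (lin !![0, 1; 1, c]) G))).coeff N =
    (dh (homogeneousComponent N G)).eval c
  rw [hc_lin]
  generalize homogeneousComponent N G = H at hH
  conv_lhs => rw [H.as_sum]
  conv_rhs => rw [H.as_sum]
  simp only [map_sum, Polynomial.finsetSum_coeff, Polynomial.eval_finsetSum]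
  refine Finset.sum_congr rfl fun v hv => ?_
  have h1 : v 1 + v 0 = N := by
    by_contra e
    exact mem_support_iff.1 hv (hH.coeff_eq_zero (by rw [deg2]; omega))
  have h2 : ((1 + Polynomial.C c * Polynomial.X) ^ v 1).coeff (v 1) = c ^ v 1 := by
    have := Polynomial.coeff_pow_of_natDegree_le (p := 1 + Polynomial.C c * Polynomial.X) (n := 1)
      (m := v 1) (by compute_degree)
    simpa [Polynomial.coeff_one] using this
  rw [dh_mon, Polynomial.eval_monomial, ← h2,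
    ← Polynomial.coeff_X_pow_mul ((1 + Polynomial.C c * Polynomial.X) ^ v 1) (v 0),
    ← Polynomial.coeff_C_mul, h1]
  congr 1
  conv_lhs => rw [← ex_eta v, monomial_ex, ex_eta]
  simp [dh, lin, Fin.sum_univ_two, mul_assoc]

/-! ### Linear forms -/

def dt (p q : Polynomial k) : k := p.coeff 0 * q.coeff 1 - p.coeff 1 * q.coeff 0

theorem dt_span {p q r : Polynomial k} (hp : p.natDegree ≤ 1) (hq : q.natDegree ≤ 1)
    (hr : r.natDegree ≤ 1) (h : dt p q ≠ 0) :
    r = Polynomial.C (dt r q / dt p q) * p + Polynomial.C (dt p r / dt p q) * q := by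
  ext (_ | _ | t)
  · simp only [Polynomial.coeff_add, Polynomial.coeff_C_mul]
    field_simp
    simp only [dt]
    ring
  · simp only [Polynomial.coeff_add, Polynomial.coeff_C_mul]
    field_simp
    simp only [dt, zero_add]
    ring
  · simp only [Polynomial.coeff_add, Polynomial.coeff_C_mul]
    rw [Polynomial.coeff_eq_zero_of_natDegree_lt (p := p) (by omega),
      Polynomial.coeff_eq_zero_of_natDegree_lt (p := q) (by omega),
      Polynomial.coeff_eq_zero_of_natDegree_lt (p := r) (by omega)]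
    simp

theorem dt_add (p q r : Polynomial k) : dt (p + q) r = dt p r + dt q r := by
  simp only [dt, Polynomial.coeff_add]
  ring

theorem dt_C (c : k) (p q : Polynomial k) : dt (Polynomial.C c * p) q = c * dt p q := by
  simp only [dt, Polynomial.coeff_C_mul]
  ring

theorem dt_comm (p q : Polynomial k) : dt p q = -dt q p := by
  simp only [dt]
  ring

theorem dt_self (p : Polynomial k) : dt p p = 0 := by
  simp only [dt]
  ring

theorem dt_sum (s : Finset ι) (y : ι → k) (L : ι → Polynomial k) (q : Polynomial k) :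
    dt (∑ i ∈ s, Polynomial.C (y i) * L i) q = ∑ i ∈ s, y i * dt (L i) q := by
  classical
  induction s using Finset.induction_on with
  | empty => simp [dt]
  | insert i s hi ih => rw [Finset.sum_insert hi, Finset.sum_insert hi, dt_add, dt_C, ih]

theorem dt_tri (p q r s : Polynomial k) : dt p q * dt r s = dt p r * dt q s - dt p s * dt q r := by
  simp only [dt]
  ring

/-- a nonzero form has a partner -/
theorem dt_partner {p : Polynomial k} (hp : p.natDegree ≤ 1) (h : p ≠ 0) :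
    ∃ q : Polynomial k, q.natDegree ≤ 1 ∧ dt p q ≠ 0 := by
  by_cases h0 : p.coeff 0 = 0
  · refine ⟨1, by simp, fun e => h ?_⟩
    have h1 : p.coeff 1 = 0 := by simpa [dt, h0] using e
    rw [Polynomial.eq_X_add_C_of_natDegree_le_one hp, h0, h1]
    simp
  · exact ⟨Polynomial.X, by simp, by simpa [dt] using h0⟩

theorem dt_mult {p r : Polynomial k} (hp : p.natDegree ≤ 1) (hr : r.natDegree ≤ 1) (h : p ≠ 0)
    (e : dt p r = 0) : ∃ κ, r = Polynomial.C κ * p := by
  obtain ⟨q, hq, h1⟩ := dt_partner hp h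
  exact ⟨_, by simpa [e] using dt_span hp hq hr h1⟩

/-- `A` sends the linear forms `p`, `q` to `X`, `Y`. -/
def Fr (A : Matrix (Fin 2) (Fin 2) k) (p q : Polynomial k) : Prop := A.det ≠ 0 ∧
  (∀ (G : P2 k) (N x y : ℕ) (κ : k), x + y = N → io N G = Polynomial.C κ * p ^ x * q ^ y →
    io N (aeval (lin A) G) = Polynomial.C κ * Polynomial.X ^ y) ∧
  ∀ (G : P2 k) (N n : ℕ) (u v : k), N = n + 1 →
    io N G = p ^ n * (Polynomial.C u * p + Polynomial.C v * q) →
    io N (aeval (lin A) G) = Polynomial.C u + Polynomial.C v * Polynomial.X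

theorem exists_fr {p q : Polynomial k} (hp : p.natDegree ≤ 1) (hq : q.natDegree ≤ 1)
    (h : dt p q ≠ 0) : ∃ A, Fr A p q := by
  obtain ⟨B, hB⟩ : ∃ B : Matrix (Fin 2) (Fin 2) k,
    B = !![p.coeff 0, p.coeff 1; q.coeff 0, q.coeff 1] := ⟨_, rfl⟩
  have hd : IsUnit B.det := by
    rw [hB, Matrix.det_fin_two_of]
    exact Ne.isUnit h
  have h0 : dh (lin B 0) = p := by
    conv_rhs => rw [Polynomial.eq_X_add_C_of_natDegree_le_one hp]
    simp [dh, lin, hB, Fin.sum_univ_two, add_comm]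
  have h1 : dh (lin B 1) = q := by
    conv_rhs => rw [Polynomial.eq_X_add_C_of_natDegree_le_one hq]
    simp [dh, lin, hB, Fin.sum_univ_two, add_comm]
  have key : ∀ (G P : P2 k) (N : ℕ), P.IsHomogeneous N → io N G = dh (aeval (lin B) P) →
      io N (aeval (lin B⁻¹) G) = dh P := by
    intro G P N hP e
    change dh (homogeneousComponent N _) = _
    have h2 := hP.aeval _ (lin_hom B)
    rw [one_mul] at h2
    rw [hc_lin, dh_inj (homogeneousComponent_isHomogeneous N G) h2 e, aeval_aeval]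
    simp only [lin_lin, Matrix.mul_nonsing_inv B hd, lin_one, aeval_X_left_apply]
  have hX : ∀ j : Fin 2, (X j : P2 k).IsHomogeneous 1 := fun j => isHomogeneous_X _ _
  refine ⟨B⁻¹, (Matrix.isUnit_nonsing_inv_det B hd).ne_zero, fun G N x y κ hN e => ?_,
    fun G N n u v hN e => ?_⟩
  · rw [key G (C κ * X 0 ^ x * X 1 ^ y) N (by
      simpa only [one_mul, hN] using (((hX 0).pow x).C_mul κ).mul ((hX 1).pow y))
      (by rw [e, ← h0, ← h1]; simp [dh])]
    simp [dh]
  · rw [key G (X 0 ^ n * (C u * X 0 + C v * X 1)) N (by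
      simpa only [one_mul, hN] using ((hX 0).pow n).mul (((hX 0).C_mul u).add ((hX 1).C_mul v)))
      (by rw [e, ← h0, ← h1]; simp [dh])]
    simp [dh]

/-! ### The forms of the generators -/

variable {loc : Prop} {J : Set ρ} {g : ι ⊕ ρ → P2 k} {β : ι → ρ} {N : ρ → ℕ}
  {A : Matrix (Fin 2) (Fin 2) k} {p q : Polynomial k}

def ph (g : ι ⊕ ρ → P2 k) (β : ι → ρ) (N : ρ → ℕ) (l : ι ⊕ ρ) : Polynomial k :=
  io (N (bp β l)) (g l)

def FF (g : ι ⊕ ρ → P2 k) (β : ι → ρ) (N : ρ → ℕ) (y : ι → k) (j : ρ) : Polynomial k :=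
  io (N j) (bm g β y j)

theorem FF_eq (y : ι → k) (j : ρ) : FF g β N y j =
    ph g β N (.inr j) + ∑ i with β i = j, Polynomial.C (y i) * ph g β N (.inl i) := by
  rw [FF, bm, map_add, map_sum]
  congr 1
  refine Finset.sum_congr rfl fun i hi => ?_
  rw [io_C_mul, ← (Finset.mem_filter.1 hi).2]
  rfl

theorem FF_zero (j : ρ) : FF g β N 0 j = ph g β N (.inr j) := by simp [FF_eq]

theorem FF_add [DecidableEq ι] (y : ι → k) (i : ι) (s : k) (j : ρ) :
    FF g β N (y + Pi.single i s) j =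
      FF g β N y j + if β i = j then Polynomial.C s * ph g β N (.inl i) else 0 := by
  simp only [FF_eq, Pi.add_apply, map_add, add_mul, Finset.sum_add_distrib, add_assoc]
  congr 2
  rw [Finset.sum_filter, Finset.sum_eq_single i (fun i' _ hi => by simp [Pi.single_eq_of_ne hi])
    (by simp)]
  simp

theorem lc_two [DecidableEq ι] (i i' : ι) (u v : k) :
    lc g (Pi.single i u + Pi.single i' v) = C u * g (.inl i) + C v * g (.inl i') := by
  have h : ∀ (i : ι) (u : k), ∑ i', C ((Pi.single i u : ι → k) i') * g (.inl i') =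
      C u * g (.inl i) := fun i u => by
    rw [Finset.sum_eq_single i (fun i' _ hi => by simp [Pi.single_eq_of_ne hi]) (by simp)]
    simp
  simp only [lc, Pi.add_apply, map_add, add_mul, Finset.sum_add_distrib, h]

theorem two_supp [DecidableEq ι] {i i' : ι} {j : ρ} (hi : β i = j) (hi' : β i' = j) (u v : k)
    (i'' : ι) (h : (Pi.single i u + Pi.single i' v : ι → k) i'' ≠ 0) : β i'' = j := by
  by_contra e
  refine h ?_
  rw [Pi.add_apply, Pi.single_eq_of_ne (fun e' => e (by rw [e', hi])),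
    Pi.single_eq_of_ne (fun e' => e (by rw [e', hi'])), add_zero]

theorem aeval_lc (π : Fin 2 → P2 k) (lam : ι → k) : lc (pb π g) lam = aeval π (lc g lam) := by
  simp [lc, pb]

theorem aeval_bm (π : Fin 2 → P2 k) (y : ι → k) (j : ρ) :
    bm (pb π g) β y j = aeval π (bm g β y j) := by
  simp [bm, pb]

theorem some_ne {y : ι → k} {j : ρ} (h : FF g β N y j ≠ 0) :
    ∃ l, bp β l = j ∧ ph g β N l ≠ 0 := by
  by_contra hc
  push Not at hc
  refine h ?_
  rw [FF_eq, hc (.inr j) rfl, zero_add]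
  exact Finset.sum_eq_zero fun i hi => by rw [hc (.inl i) (Finset.mem_filter.1 hi).2, mul_zero]

theorem first (hlo : LoN 1 1 g (bp β) N) (hne : ∀ j, ∃ l, bp β l = j ∧ ph g β N l ≠ 0)
    (hA : Fr A p q) (x x' : ρ → ℕ) (hx : ∀ j, x j + x' j = N j)
    (h : ∀ l, ∃ κ, ph g β N l = Polynomial.C κ * p ^ x (bp β l) * q ^ x' (bp β l)) :
    Has (pb (lin A) g) (bp β) x x' ∧ ∀ l, ∀ v ∈ (pb (lin A) g l).support,
      v ≠ ex (x (bp β l)) (x' (bp β l)) → x (bp β l) + x' (bp β l) < v 0 + v 1 := by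
  refine ⟨fun j => ?_, fun l v hv hne => ?_⟩
  · obtain ⟨l, rfl, h0⟩ := hne j
    obtain ⟨κ, e⟩ := h l
    refine ⟨l, rfl, ?_⟩
    rw [coeff_io' _ (hx _), pb, hA.2.1 _ _ _ _ κ (hx _) e, Polynomial.coeff_C_mul_X_pow, if_pos rfl]
    rintro rfl
    exact h0 (by rw [e]; simp)
  · have h1 := lo_lin hlo A l v hv
    rw [wt11, ← hx] at h1
    refine h1.lt_of_ne fun e' => mem_support_iff.1 hv ?_
    obtain ⟨κ, e⟩ := h l
    rw [coeff_io _ (e'.symm.trans (hx _)), pb, hA.2.1 _ _ _ _ κ (hx _) e,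
      Polynomial.coeff_C_mul_X_pow, if_neg fun e'' => hne ?_]
    rw [← ex_eta v, e'', show v 0 = x (bp β l) by omega]

theorem el0_of (hlo : LoN 1 1 g (bp β) N) (hne : ∀ j, ∃ l, bp β l = j ∧ ph g β N l ≠ 0)
    (hA : Fr A p q) {j : ρ} {n : ℕ} (hn : N j = n + 1) (h0 : ph g β N (.inr j) = p ^ n * q)
    (h1 : ∀ i, β i = j → ∃ u v, (¬loc → v = 0) ∧
      ph g β N (.inl i) = p ^ n * (Polynomial.C u * p + Polynomial.C v * q))
    (h2 : ∀ l, bp β l ≠ j → ∃ κ, ph g β N l = Polynomial.C κ * p ^ N (bp β l)) :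
    ∃ a, El0 loc (pb (lin A) g) β a j := by
  obtain ⟨a, haj, ha'⟩ : ∃ a : ρ → ℕ, a j = n ∧ ∀ j' ≠ j, a j' = N j' :=
    ⟨Function.update N j n, by simp, fun j' h => by simp [h]⟩
  have e0 : io (N j) (pb (lin A) g (.inr j)) = Polynomial.X := by
    exact (hA.2.2 (g (.inr j)) (N j) n 0 1 hn (h0.trans (by simp))).trans (by simp)
  have e1 : ∀ i, β i = j → ∃ u v, (¬loc → v = 0) ∧
      io (N j) (pb (lin A) g (.inl i)) = Polynomial.C u + Polynomial.C v * Polynomial.X := by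
    intro i hi
    obtain ⟨u, v, hv, e⟩ := h1 i hi
    exact ⟨u, v, hv, hA.2.2 _ _ n u v hn (by rw [← e, ← hi]; rfl)⟩
  have e2 : ∀ l, bp β l ≠ j → ∃ κ, ph g β N l = Polynomial.C κ * p ^ N (bp β l) ∧
      io (N (bp β l)) (pb (lin A) g l) = Polynomial.C κ := by
    intro l hl
    obtain ⟨κ, e⟩ := h2 l hl
    exact ⟨κ, e, (hA.2.1 (g l) _ (N (bp β l)) 0 κ rfl (e.trans (by simp))).trans (by simp)⟩
  have c0 : coeff (ex (a j) 1) (pb (lin A) g (.inr j)) ≠ 0 := by
    rw [coeff_io' _ (show a j + 1 = N j by omega), e0]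
    simp
  refine ⟨a, c0, fun j' => ?_, fun hl i hi => ?_, fun l v hv hv' => ?_⟩
  · by_cases e : j' = j
    · subst e
      exact ⟨.inr j', rfl, by rwa [Pi.single_eq_same]⟩
    · obtain ⟨l, rfl, h3⟩ := hne j'
      obtain ⟨κ, e3, e4⟩ := e2 l e
      refine ⟨l, rfl, ?_⟩
      rw [Pi.single_eq_of_ne e, coeff_io' _ (show a (bp β l) + 0 = N (bp β l) from ha' _ e), e4,
        Polynomial.coeff_C_zero]
      rintro rfl
      exact h3 (by rw [e3]; simp)
  · obtain ⟨u, v, hv, e⟩ := e1 i hi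
    rw [coeff_io' _ (show a j + 1 = N j by omega), e, hv hl]
    simp
  · have h3 := lo_lin hlo A l v hv
    have h4 := mem_support_iff.1 hv
    rw [wt11] at h3
    by_cases e : bp β l = j
    · rw [e, Pi.single_eq_same] at hv' ⊢
      rw [e] at h3
      rcases h3.lt_or_eq with h5 | h5
      · exact Or.inl (by omega)
      have h6 : v 1 ≠ 1 := fun e' => hv' (by rw [← ex_eta v, e', show v 0 = a j by omega])
      rw [coeff_io _ h5.symm] at h4
      rcases l with i | j'
      · obtain ⟨u, w, -, e'⟩ := e1 i e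
        refine Or.inr ⟨i, rfl, e, ?_⟩
        have h7 : v 1 = 0 := by
          by_contra h7
          rw [e'] at h4
          exact h4 (by simp [Polynomial.coeff_C, Polynomial.coeff_X, h7, h6.symm])
        rw [← ex_eta v, h7, show v 0 = a j + 1 by omega]
      · obtain rfl : j' = j := e
        rw [e0, Polynomial.coeff_X, if_neg h6.symm] at h4
        exact absurd rfl h4
    · rw [Pi.single_eq_of_ne e] at hv' ⊢
      refine Or.inl ?_
      rw [add_zero, ha' _ e]
      refine h3.lt_of_ne fun h5 => h4 ?_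
      obtain ⟨κ, -, e4⟩ := e2 l e
      rw [coeff_io _ h5.symm, e4, Polynomial.coeff_C, if_neg fun e' => hv' ?_]
      rw [← ex_eta v, e', ha' _ e, show v 0 = N (bp β l) by omega]

theorem base_of (hA : Fr A p q) {y : ι → k} {j : ρ}
    (h : ∃ c ≠ 0, FF g β N y j = Polynomial.C c * p ^ N j) :
    ∃ c ≠ 0, ini 1 1 (N j) 0 1 (bm (pb (lin A) g) β y j) = Polynomial.C c := by
  obtain ⟨c, hc, e⟩ := h
  refine ⟨c, hc, ?_⟩
  rw [ini_io, aeval_bm]
  exact (hA.2.1 (bm g β y j) _ (N j) 0 c rfl (e.trans (by simp))).trans (by simp)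

theorem certB_of (hA : Fr A p q) {i : ι} {n : ℕ} (hn : N (β i) = n + 1) {y : ι → k}
    (hy : loc → y = 0) (h1 : ph g β N (.inl i) = p ^ n * q)
    (h2 : ∀ j, ∃ c ≠ 0, FF g β N y j = Polynomial.C c * p ^ N j) :
    CertB loc 1 1 N (pb (lin A) g) β (β i) := by
  classical
  refine ⟨y, Pi.single i 1 + Pi.single i 0, hy, two_supp rfl rfl _ _, ?_, fun j => base_of hA (h2 j)⟩
  rw [ini_io, aeval_lc, hA.2.2 _ _ n 0 1 hn (by
    rw [lc_two, map_one, one_mul, map_zero, zero_mul, add_zero]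
    exact h1.trans (by simp))]
  simp

theorem certC_of (hA : Fr A p q) {i i' : ι} {j : ρ} (hi : β i = j) (hi' : β i' = j) {n : ℕ}
    (hn : N j = n + 1) {y : ι → k} (hy : loc → y = 0 ∧ ph g β N (.inr j) = 0)
    {L L' : Polynomial k} (hp : p.natDegree ≤ 1) (hq : q.natDegree ≤ 1) (hL : L.natDegree ≤ 1)
    (hL' : L'.natDegree ≤ 1) (hd : dt L L' ≠ 0) (h1 : ph g β N (.inl i) = p ^ n * L)
    (h1' : ph g β N (.inl i') = p ^ n * L')
    (h2 : ∀ j' ≠ j, ∃ c ≠ 0, FF g β N y j' = Polynomial.C c * p ^ N j') :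
    CertC loc 1 1 N (pb (lin A) g) β j := by
  classical
  have key : ∀ u v : k, io (N j) (lc g (Pi.single i u + Pi.single i' v)) =
      p ^ n * (Polynomial.C u * L + Polynomial.C v * L') := fun u v => by
    have e1 : io (N j) (g (.inl i)) = p ^ n * L := by rw [← h1, ← hi]; rfl
    have e2 : io (N j) (g (.inl i')) = p ^ n * L' := by rw [← h1', ← hi']; rfl
    rw [lc_two, map_add, io_C_mul, io_C_mul, e1, e2]
    ring
  refine ⟨y, Pi.single i (dt q L' / dt L L') + Pi.single i' (dt L q / dt L L'),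
    Pi.single i (dt p L' / dt L L') + Pi.single i' (dt L p / dt L L'), fun h => ⟨(hy h).1, ?_⟩,
    two_supp hi hi' _ _, two_supp hi hi' _ _, ?_, ⟨1, one_ne_zero, ?_⟩,
    fun j' h => base_of hA (h2 j' h)⟩
  · rw [ini_io, aeval_bm, hA.2.2 _ _ n 0 0 hn (by
      rw [(hy h).1, ← FF, FF_zero, (hy h).2]; simp)]
    simp
  · rw [ini_io, aeval_lc, hA.2.2 _ _ n 0 1 hn (by rw [key, ← dt_span hL hL' hq hd]; simp)]
    simp
  · rw [ini_io, aeval_lc, hA.2.2 _ _ n 1 0 hn (by rw [key, ← dt_span hL hL' hp hd]; simp)]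
    simp

/-! ### The case analysis -/

/-- The conclusion, for the vector `N` of the least degrees. -/
def Cc (loc : Prop) (J : Set ρ) (f : ι ⊕ ρ → P2 k) (β : ι → ρ) (N : ρ → ℕ) : Prop :=
  (∃ (A : Matrix (Fin 2) (Fin 2) k) (a m : ρ → ℕ), A.det ≠ 0 ∧ Has (pb (lin A) f) (bp β) a m ∧
    ∀ l, ∀ v ∈ (pb (lin A) f l).support, v ≠ ex (a (bp β l)) (m (bp β l)) →
      a (bp β l) + m (bp β l) < v 0 + v 1) ∨
  (∃ (A : Matrix (Fin 2) (Fin 2) k) (a : ρ → ℕ), ∃ j ∈ J, A.det ≠ 0 ∧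
    El0 loc (pb (lin A) f) β a j) ∨
  N ≠ 0 ∧ ((∃ j ∈ J, N = Pi.single j 2) ∨ ∃ A : Matrix (Fin 2) (Fin 2) k, A.det ≠ 0 ∧
    (CertA 1 1 N (pb (lin A) f) β 3 ∨ ∃ j,
      CertB loc 1 1 N (pb (lin A) f) β j ∧ N ≠ Pi.single j 1 ∨ CertC loc 1 1 N (pb (lin A) f) β j))

theorem Cc.of_lin (hA : A.det ≠ 0) (h : Cc loc J (pb (lin A) g) β N) : Cc loc J g β N := by
  have hd : ∀ B : Matrix (Fin 2) (Fin 2) k, B.det ≠ 0 → (A * B).det ≠ 0 := fun B hB => by
    rw [Matrix.det_mul]
    exact mul_ne_zero hA hB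
  simp only [Cc, pb_lin] at h
  rcases h with ⟨B, a, m, hB, h⟩ | ⟨B, a, j, hj, hB, h⟩ | ⟨hN, h | ⟨B, hB, h⟩⟩
  · exact Or.inl ⟨_, a, m, hd B hB, h⟩
  · exact Or.inr (Or.inl ⟨_, a, j, hj, hd B hB, h⟩)
  · exact Or.inr (Or.inr ⟨hN, Or.inl h⟩)
  · exact Or.inr (Or.inr ⟨hN, Or.inr ⟨_, hd B hB, h⟩⟩)

theorem ph_deg (l : ι ⊕ ρ) : (ph g β N l).natDegree ≤ N (bp β l) := io_deg _ _

theorem FF_deg (y : ι → k) (j : ρ) : (FF g β N y j).natDegree ≤ N j := io_deg _ _

theorem const_of {y : ι → k} {j : ρ} (h0 : FF g β N y j ≠ 0) (h : N j = 0) :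
    ∃ c ≠ 0, FF g β N y j = Polynomial.C c * p ^ N j := by
  have e := Polynomial.eq_C_of_natDegree_le_zero ((FF_deg (g := g) (β := β) y j).trans h.le)
  refine ⟨(FF g β N y j).coeff 0, fun e' => h0 (by rw [e, e', map_zero]), ?_⟩
  rw [h, pow_zero, mul_one]
  exact e

theorem case4 (hc : Ctx loc J g β) {y : ι → k} (h0 : ∀ j, FF g β N y j ≠ 0) {i i' : ι}
    (hne : β i ≠ β i') (hN : N = Pi.single (β i) 1 + Pi.single (β i') 1)
    (h1 : ∀ κ : k, ph g β N (.inl i) ≠ Polynomial.C κ * FF g β N y (β i))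
    (h2 : ∀ κ : k, ph g β N (.inl i') ≠ Polynomial.C κ * FF g β N y (β i')) :
    Cc loc J g β N := by
  classical
  have hl : ¬loc := fun h => hne ((hc.1 h).1.elim _ _)
  have n1 : N (β i) = 1 := by simp [hN, hne]
  have n2 : N (β i') = 1 := by simp [hN, hne.symm]
  have d1 := (FF_deg (g := g) (β := β) y (β i)).trans n1.le
  have d2 := (FF_deg (g := g) (β := β) y (β i')).trans n2.le
  have d3 : (ph g β N (.inl i)).natDegree ≤ 1 := (ph_deg _).trans n1.le
  have d4 : (ph g β N (.inl i')).natDegree ≤ 1 := (ph_deg _).trans n2.le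
  have e1 : dt (FF g β N y (β i)) (ph g β N (.inl i)) ≠ 0 := fun e =>
    (dt_mult d1 d3 (h0 _) e).elim h1
  have e2 : dt (FF g β N y (β i')) (ph g β N (.inl i')) ≠ 0 := fun e =>
    (dt_mult d2 d4 (h0 _) e).elim h2
  obtain ⟨s, hs⟩ : ∃ s : k, dt (FF g β N y (β i) + Polynomial.C s * ph g β N (.inl i))
      (ph g β N (.inl i')) ≠ 0 := by
    by_contra hc
    push Not at hc
    have a0 := hc 0
    have a1 := hc 1
    rw [dt_add, dt_C] at a0 a1
    have := dt_tri (FF g β N y (β i)) (ph g β N (.inl i)) (FF g β N y (β i')) (ph g β N (.inl i'))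
    rw [show dt (FF g β N y (β i)) (ph g β N (.inl i')) = 0 by linear_combination a0,
      show dt (ph g β N (.inl i)) (ph g β N (.inl i')) = 0 by linear_combination a1 - a0] at this
    exact mul_ne_zero e1 e2 (by simpa using this)
  obtain ⟨p, hp⟩ : ∃ p, p = FF g β N y (β i) + Polynomial.C s * ph g β N (.inl i) := ⟨_, rfl⟩
  rw [← hp] at hs
  have d5 : p.natDegree ≤ 1 := hp ▸ (Polynomial.natDegree_add_le _ _).trans
    (max_le d1 ((Polynomial.natDegree_C_mul_le _ _).trans d3))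
  have e3 : dt p (ph g β N (.inl i)) ≠ 0 := by
    rwa [hp, dt_add, dt_C, dt_self, mul_zero, add_zero]
  obtain ⟨A, hA⟩ := exists_fr d5 d3 e3
  refine Or.inr (Or.inr ⟨fun e => by simp [e] at n1, Or.inr ⟨A, hA.1, Or.inr ⟨β i, Or.inl
    ⟨certB_of hA (n := 0) n1 (y := y + Pi.single i s + Pi.single i'
      (-(dt p (FF g β N y (β i')) / dt p (ph g β N (.inl i'))))) (fun h => absurd h hl) (by simp)
      fun j => ?_, fun e => ?_⟩⟩⟩⟩)
  · rw [FF_add, FF_add]
    by_cases a1 : β i = j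
    · subst a1
      exact ⟨1, one_ne_zero, by simp [hne.symm, n1, hp]⟩
    by_cases a2 : β i' = j
    · subst a2
      refine ⟨_, div_ne_zero e2 hs, ?_⟩
      rw [if_neg a1, if_pos rfl, n2, map_neg]
      linear_combination dt_span d5 d4 d2 hs
    · rw [if_neg a1, if_neg a2, add_zero, add_zero]
      exact const_of (h0 j) (by simp [hN, Ne.symm a1, Ne.symm a2])
  · rw [e, Pi.single_eq_of_ne hne.symm] at n2
    exact zero_ne_one n2

theorem case5 (hc : Ctx loc J g β) (hlo : LoN 1 1 g (bp β) N) {y : ι → k}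
    (h0 : ∀ j, FF g β N y j ≠ 0) {i : ι} {c : k} (hN : 0 < N (β i))
    (h1 : ∀ κ : k, ph g β N (.inl i) ≠ Polynomial.C κ * FF g β N y (β i))
    (h2 : ∀ l, bp β l = β i → (Polynomial.X - Polynomial.C c) ^ (N (β i) - 1) ∣ ph g β N l)
    (h3 : ∀ l, bp β l ≠ β i → ∃ κ : k,
      ph g β N l = Polynomial.C κ * (Polynomial.X - Polynomial.C c) ^ N (bp β l)) :
    Cc loc J g β N := by
  classical
  obtain ⟨n, hn⟩ : ∃ n, N (β i) = n + 1 := ⟨N (β i) - 1, by omega⟩
  obtain ⟨p, hp⟩ : ∃ p, p = Polynomial.X - Polynomial.C c := ⟨_, rfl⟩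
  have dp : p.natDegree = 1 := hp ▸ Polynomial.natDegree_X_sub_C c
  have p0 : p ≠ 0 := hp ▸ Polynomial.X_sub_C_ne_zero c
  rw [← hp] at h2 h3
  rw [hn, Nat.add_sub_cancel] at h2
  have hJ : β i ∈ J := hc.2 i fun e => h1 0 (by simp [ph, e])
  have hne : ∀ j, ∃ l, bp β l = j ∧ ph g β N l ≠ 0 := fun j => some_ne (h0 j)
  have hN0 : N ≠ 0 := fun e => by simp [e] at hN
  obtain ⟨L, hL⟩ : ∃ L : ι ⊕ ρ → Polynomial k, ∀ l, (L l).natDegree ≤ 1 ∧
      (bp β l = β i → ph g β N l = p ^ n * L l) := by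
    have : ∀ l, ∃ r : Polynomial k, r.natDegree ≤ 1 ∧
        (bp β l = β i → ph g β N l = p ^ n * r) := by
      intro l
      by_cases e : bp β l = β i
      · obtain ⟨r, hr⟩ := h2 l e
        refine ⟨r, ?_, fun _ => hr⟩
        by_cases r0 : r = 0
        · simp [r0]
        have := ph_deg (g := g) (β := β) (N := N) l
        rw [hr, Polynomial.natDegree_mul (pow_ne_zero _ p0) r0, Polynomial.natDegree_pow, dp, e,
          hn] at this
        omega
      · exact ⟨0, by simp, fun e' => absurd e' e⟩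
    choose L h4 using this
    exact ⟨L, h4⟩
  obtain ⟨M, hM⟩ : ∃ M, M = L (.inr (β i)) + ∑ i' with β i' = β i,
    Polynomial.C (y i') * L (.inl i') := ⟨_, rfl⟩
  have dM : M.natDegree ≤ 1 := hM ▸ (Polynomial.natDegree_add_le _ _).trans (max_le (hL _).1
    (Polynomial.natDegree_sum_le_of_forall_le _ _ fun i' _ =>
      (Polynomial.natDegree_C_mul_le _ _).trans (hL _).1))
  have eM : FF g β N y (β i) = p ^ n * M := by
    rw [FF_eq, hM, mul_add, Finset.mul_sum, (hL (.inr (β i))).2 rfl]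
    congr 1
    refine Finset.sum_congr rfl fun i' hi => ?_
    rw [(hL (.inl i')).2 (Finset.mem_filter.1 hi).2]
    ring
  have M0 : M ≠ 0 := fun e => h0 (β i) (by rw [eM, e, mul_zero])
  have e1 : dt M (L (.inl i)) ≠ 0 := fun e => by
    obtain ⟨κ, e'⟩ := dt_mult dM (hL _).1 M0 e
    exact h1 κ (by rw [(hL (.inl i)).2 rfl, e', eM]; ring)
  have hM' : ∀ r, (∀ i', β i' = β i → dt (L (.inl i')) r = 0) → dt M r = dt (L (.inr (β i))) r := by
    intro r hr
    rw [hM, dt_add, dt_sum, Finset.sum_eq_zero fun i' hi => by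
      rw [hr i' (Finset.mem_filter.1 hi).2, mul_zero], add_zero]
  have oth : ∀ j ≠ β i, ∃ c ≠ 0, FF g β N y j = Polynomial.C c * p ^ N j := by
    intro j hj
    have : ∃ c, FF g β N y j = Polynomial.C c * p ^ N j := by
      choose! κ hκ using h3
      refine ⟨κ (.inr j) + ∑ i' with β i' = j, y i' * κ (.inl i'), ?_⟩
      rw [FF_eq, map_add, map_sum, add_mul, Finset.sum_mul, hκ (.inr j) hj]
      congr 1
      refine Finset.sum_congr rfl fun i' hi => ?_
      have e := (Finset.mem_filter.1 hi).2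
      rw [hκ (.inl i') (by rw [← e] at hj; exact hj), map_mul, mul_assoc, ← e]
      rfl
    obtain ⟨c, e⟩ := this
    exact ⟨c, fun e' => h0 j (by rw [e, e']; simp), e⟩
  -- elimination of `Y` in the frame `(r, L₀)`
  have el : ∀ r : Polynomial k, r.natDegree ≤ 1 → dt r (L (.inr (β i))) ≠ 0 → r ^ n = p ^ n →
      (∀ j ≠ β i, r ^ N j = p ^ N j) → (¬loc → ∀ i', β i' = β i → dt r (L (.inl i')) = 0) →
      Cc loc J g β N := by
    intro r dr hd a1 a2 a3
    obtain ⟨A, hA⟩ := exists_fr dr (hL _).1 hd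
    obtain ⟨a, ha⟩ := el0_of (loc := loc) hlo hne hA hn (by rw [a1]; exact (hL _).2 rfl)
      (fun i' hi => ⟨dt (L (.inl i')) (L (.inr (β i))) / dt r (L (.inr (β i))),
        dt r (L (.inl i')) / dt r (L (.inr (β i))), fun h => by rw [a3 h i' hi, zero_div], by
        rw [← dt_span dr (hL _).1 (hL (.inl i')).1 hd, a1]
        exact (hL _).2 hi⟩)
      fun l hl => by rw [a2 _ hl]; exact h3 l hl
    exact Or.inr (Or.inl ⟨A, a, β i, hJ, hA.1, ha⟩)
  -- two independent directions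
  have two : ∀ i₁ i₂, β i₁ = β i → β i₂ = β i → dt (L (.inl i₁)) (L (.inl i₂)) ≠ 0 →
      (loc → L (.inr (β i)) = 0) → Cc loc J g β N := by
    intro i₁ i₂ b1 b2 hd a1
    obtain ⟨r, dr, hr⟩ := dt_partner dp.le p0
    obtain ⟨A, hA⟩ := exists_fr dp.le dr hr
    refine Or.inr (Or.inr ⟨hN0, Or.inr ⟨A, hA.1, Or.inr ⟨β i, Or.inr (certC_of hA b1 b2 hn
      (y := if loc then 0 else y) (fun h => ⟨if_pos h, ?_⟩) dp.le dr (hL _).1 (hL _).1 hd
      ((hL _).2 b1) ((hL _).2 b2) fun j hj => ?_)⟩⟩⟩)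
    · rw [(hL (.inr (β i))).2 rfl, a1 h, mul_zero]
    · rw [if_neg fun h => hj ((hc.1 h).1.elim _ _)]
      exact oth j hj
  by_cases a1 : ∀ i', β i' = β i → dt p (L (.inl i')) = 0
  · refine el p dp.le (fun e => ?_) rfl (fun _ _ => rfl) fun _ => a1
    obtain ⟨κ, e'⟩ := dt_mult dp.le (hL _).1 p0 (a1 i rfl)
    refine e1 ?_
    rw [e', dt_comm, dt_C, dt_comm p, hM' p fun i' hi => by rw [dt_comm, a1 i' hi, neg_zero],
      dt_comm _ p, e]
    simp
  push Not at a1
  obtain ⟨i', b1, a1⟩ := a1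
  have v0 : L (.inl i') ≠ 0 := fun e => a1 (by simp [e, dt])
  obtain ⟨A, hA⟩ := exists_fr dp.le (hL _).1 a1
  have cB : ∀ y' : ι → k, (loc → y' = 0) → N ≠ Pi.single (β i) 1 →
      (∀ j, ∃ c ≠ 0, FF g β N y' j = Polynomial.C c * p ^ N j) → Cc loc J g β N := by
    intro y' c1 c2 c3
    exact Or.inr (Or.inr ⟨hN0, Or.inr ⟨A, hA.1, Or.inr ⟨β i', Or.inl
      ⟨certB_of hA (b1 ▸ hn) c1 ((hL _).2 b1) c3, b1 ▸ c2⟩⟩⟩⟩)
  by_cases hl : loc
  · have hs := (hc.1 hl).1
    by_cases a2 : L (.inr (β i)) = 0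
    · by_contra hcc
      refine e1 ?_
      rw [hM' _ fun i₁ b2 => by_contra fun e => hcc (two i₁ i b2 rfl e fun _ => a2), a2]
      simp [dt]
    by_cases a3 : dt p (L (.inr (β i))) = 0
    · by_cases n0 : n = 0
      · obtain ⟨r, dr, hr⟩ := dt_partner (hL _).1 a2
        exact el r dr (by rwa [dt_comm, neg_ne_zero]) (by simp [n0])
          (fun j hj => absurd (hs.elim _ _) hj) fun h => absurd hl h
      · obtain ⟨κ, e⟩ := dt_mult dp.le (hL _).1 p0 a3
        refine cB 0 (fun _ => rfl) (fun e' => ?_) fun j => ⟨κ, fun e' => a2 (by simp [e, e']), ?_⟩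
        · rw [e', Pi.single_eq_same] at hn
          omega
        · obtain rfl : j = β i := hs.elim _ _
          rw [FF_zero, (hL (.inr (β i))).2 rfl, e, hn]
          ring
    · exact el p dp.le a3 rfl (fun _ _ => rfl) fun h => absurd hl h
  by_cases a2 : ∀ i₂, β i₂ = β i → dt (L (.inl i')) (L (.inl i₂)) = 0
  swap
  · push Not at a2
    obtain ⟨i₂, b2, a2⟩ := a2
    exact two i' i₂ b1 b2 a2 fun h => absurd h hl
  have a3 : dt M (L (.inl i')) ≠ 0 := fun e => by
    obtain ⟨κ, e'⟩ := dt_mult (hL _).1 (hL _).1 v0 (a2 i rfl)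
    exact e1 (by rw [e', dt_comm, dt_C, dt_comm, e]; simp)
  by_cases a4 : N = Pi.single (β i) 1
  · have n0 : n = 0 := by
      rw [a4, Pi.single_eq_same] at hn
      omega
    refine el _ (hL (.inl i')).1 ?_ (by simp [n0]) (fun j hj => by simp [a4, hj]) fun _ => a2
    rwa [dt_comm, neg_ne_zero, ← hM' _ fun i₂ b2 => by rw [dt_comm, a2 i₂ b2, neg_zero]]
  · refine cB (y + Pi.single i' (-(dt p M / dt p (L (.inl i'))))) (fun h => absurd h hl) a4
      fun j => ?_
    rw [FF_add]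
    by_cases e : β i' = j
    · subst e
      refine ⟨_, div_ne_zero a3 a1, ?_⟩
      rw [if_pos rfl, (hL (.inl i')).2 b1, b1, eM, hn, map_neg]
      linear_combination p ^ n * dt_span dp.le (hL (.inl i')).1 dM a1
    · rw [if_neg e, add_zero]
      exact oth j fun e' => e (b1.trans e'.symm)

theorem core (h : S_cls k ι ρ) (hc : Ctx loc J g β) (hlo : LoN 1 1 g (bp β) N) {y : ι → k}
    (hy : ∀ j, (FF g β N y j).coeff (N j) ≠ 0) : Cc loc J g β N := by
  have h0 : ∀ j, FF g β N y j ≠ 0 := fun j e => hy j (by rw [e, Polynomial.coeff_zero])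
  rcases h (ph g β N) β N y (FF g β N) FF_eq ph_deg hy with ⟨y', Z, h1, h2, h3⟩ |
    ⟨c₁, c₂, x, x', h1, h2, h3⟩ | ⟨i, h1, h2⟩ | ⟨i, i', h1, h2, h3, h4⟩ | ⟨i, c, h1, h2, h3, h4⟩
  · refine Or.inr (Or.inr ⟨fun e => ?_, Or.inr ⟨1, by simp, Or.inl ?_⟩⟩)
    · obtain ⟨c, hc⟩ := Finset.card_pos.1 (by omega : 0 < Z.card)
      obtain ⟨j, hr⟩ := h3 c hc
      have a1 := Polynomial.natDegree_pos_iff_degree_pos.2
        (Polynomial.degree_pos_of_root (h1 j) hr)
      have a2 := FF_deg (g := g) (β := β) (N := N) y' j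
      rw [congrFun e j, Pi.zero_apply] at a2
      omega
    · have : pb (lin 1) g = g := _root_.funext fun l => by
        rw [pb, show lin (1 : Matrix (Fin 2) (Fin 2) k) = X from _root_.funext lin_one,
          aeval_X_left_apply]
      rw [this]
      exact ⟨y', Z, by simpa only [ini_io, FF] using h1, h2, by simpa only [ini_io, FF] using h3⟩
  · obtain ⟨A, hA⟩ := exists_fr (Polynomial.natDegree_X_sub_C c₁).le
      (Polynomial.natDegree_X_sub_C c₂).le (by
        simpa [dt, Polynomial.coeff_X, neg_add_eq_zero] using h1)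
    exact Or.inl ⟨A, x, x', hA.1, first hlo (fun j => some_ne (h0 j)) hA x x' h2 h3⟩
  · refine Or.inr (Or.inr ⟨fun e => ?_, Or.inl ⟨β i, hc.2 i fun e => h1 (by simp [ph, e]), h2⟩⟩)
    have := congrFun (h2.symm.trans e) (β i)
    simp at this
  · exact case4 hc h0 h1 h2 h3 h4
  · exact case5 hc hlo h0 h1 h2 h3 h4

theorem exists_y (hne : ∀ j, ∃ l, bp β l = j ∧ ph g β N l ≠ 0) :
    ∃ y : ι → k, ∀ j, FF g β N y j ≠ 0 := by
  classical
  choose σ h1 h2 using hne
  refine ⟨fun i => if ph g β N (.inr (β i)) = 0 ∧ σ (β i) = .inl i then 1 else 0, fun j => ?_⟩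
  rw [FF_eq]
  by_cases e : ph g β N (.inr j) = 0
  · have a1 := h1 j
    have a2 := h2 j
    rcases e' : σ j with i | j'
    · rw [e'] at a1 a2
      obtain rfl : β i = j := a1
      rw [e, zero_add, Finset.sum_eq_single i (fun i' hi hne => by
        rw [(Finset.mem_filter.1 hi).2, e', if_neg fun h => hne (Sum.inl.inj h.2).symm]
        simp) (by simp), if_pos ⟨e, e'⟩]
      simpa using a2
    · rw [e'] at a1 a2
      obtain rfl : j' = j := a1
      exact absurd e a2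
  · rwa [Finset.sum_eq_zero fun i hi => by
      rw [(Finset.mem_filter.1 hi).2, if_neg fun h => e h.1]; simp, add_zero]

end QI

open QI in
theorem r3_ok [CharZero k] (h : S_cls k ι ρ) : S_r3 k ι ρ := by
  classical
  intro loc J f β hc hf
  obtain ⟨a, m, hD⟩ := PG.exists_nd f (bp β) hf
  have hlo : LoN 1 1 f (bp β) (nv 1 1 a m) := hD.2.1
  obtain ⟨y, hy⟩ := exists_y (g := f) (β := β) (N := nv 1 1 a m) fun j => by
    obtain ⟨l, rfl, h1⟩ := hD.1 j
    refine ⟨l, rfl, fun e => h1 ?_⟩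
    rw [coeff_io' (N := nv 1 1 a m (bp β l)) _ (by simp [nv]), ← ph, e, Polynomial.coeff_zero]
  obtain ⟨c, hc'⟩ := Infinite.exists_notMem_finset
    (∏ j, QI.FF f β (nv 1 1 a m) y j).roots.toFinset
  have hA : (!![0, 1; 1, c] : Matrix (Fin 2) (Fin 2) k).det ≠ 0 := by simp
  have key : Cc loc J f β (nv 1 1 a m) := by
    refine Cc.of_lin hA (QI.core h ⟨hc.1, fun i hi => hc.2 i fun e => hi (by simp [pb, e])⟩
      (lo_lin hlo _) (y := y) fun j e => hc' ?_)
    rw [QI.FF, aeval_bm, top] at e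
    rw [Multiset.mem_toFinset, Polynomial.mem_roots (Finset.prod_ne_zero_iff.2 fun j _ => hy j),
      Polynomial.IsRoot, Polynomial.eval_prod]
    exact Finset.prod_eq_zero (Finset.mem_univ j) e
  rcases key with h1 | h1 | ⟨hN, h1 | ⟨A, h1, h2⟩⟩
  · exact Or.inl h1
  · exact Or.inr (Or.inl h1)
  · exact Or.inr (Or.inr ⟨a, m, hD, hN, Or.inl h1⟩)
  · exact Or.inr (Or.inr ⟨a, m, hD, hN, Or.inr ⟨A, h1, lo_lin hlo A, h2⟩⟩)

end

end Pool.Agent.P.MP_b91a16_ag.Id.Ln
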