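import Pool.Agent.P.MP_b91a16_ag.Ln.Stmt

/-! Degree at most one in all but two variables: the root coming from a formal branch. -/

open MvPolynomial

namespace Pool.Agent.P.MP_b91a16_ag.Id.Ln

noncomputable section

variable {k ι ρ : Type} [Field k] [Fintype ι] [Fintype ρ] [DecidableEq ρ]

namespace QK

open PL

theorem core [CharZero k] {A : Type} [CommRing A] [IsDomain A] [Algebra k A] {y : A}
    (hy : Prime y) (E : Fin 2 → Derivation k A A) (J : A) (hJ : ¬y ∣ J) (Ψ : P2 k →ₐ[k] A)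
    (hE : ∀ i j, E i (Ψ (X j)) = if i = j then J else 0) {Λ : Type} [Fintype Λ] (f : ι → P2 k)
    (β : ι → ρ) (m : ρ → ℕ) (hm : m ≠ 0) (h1 : ∀ i, y ^ m (β i) ∣ Ψ (f i)) (v : Λ → P2 k)
    (blk : Λ → ρ) (h2 : ∀ l, ∃ u, ¬y ∣ u ∧ Ψ (v l) = y ^ m (blk l) * u) (h : P2 k)
    (hh : ¬y ∣ Ψ h) (s : Λ → ℚ) (hs : ∑ l, s l * m (blk l) + 1 = 0) (w : ρ → P2 k)
    (T : Set (Λ → ℕ)) (hT0 : ∀ α, α ∉ T) (Q : Prop) (c : k)
    (hT : TwAt f β v blk s w T Q h c) : c = 0 := by
  classical
  let K := FractionRing A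
  have : CharZero K := charZero_of_injective_algebraMap (algebraMap k K).injective
  choose D' hD' using fun i => exists_der (k := k) (K := K) (E i)
  choose u hu hfu using h2
  choose g hg using h1
  let a := algebraMap A K
  let πK : P2 k →ₐ[k] K := (IsScalarTower.toAlgHom k A K).comp Ψ
  have hπ : ∀ P, πK P = a (Ψ P) := fun _ => rfl
  let D : Fin 2 → Derivation k K K := fun i => (a J)⁻¹ • D' i
  have hDO : ∀ i z, InO y z → InO y (D i z) := fun i z hz =>
    (InO.inv hJ).mul hy (hz.der hy (hD' i))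
  have hk : ∀ c : k, InO y (algebraMap k K c) := fun c => by
    rw [IsScalarTower.algebraMap_apply k A K]
    exact InO.alg hy _
  let V : Submodule k K :=
    { carrier := {z | ∃ w, InO y w ∧ z = a y * w}
      add_mem' := by
        rintro _ _ ⟨w, hw, rfl⟩ ⟨w', hw', rfl⟩
        exact ⟨w + w', hw.add hy hw', by ring⟩
      zero_mem' := ⟨a 0, InO.alg hy 0, by simp⟩
      smul_mem' := by
        rintro c _ ⟨w, hw, rfl⟩
        exact ⟨algebraMap k K c * w, (hk c).mul hy hw, by rw [Algebra.smul_def]; ring⟩ }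
  have hY : a y ≠ 0 := fun h0 =>
    hy.ne_zero ((map_eq_zero_iff _ (IsFractionRing.injective A K)).1 h0)
  have hU : ∀ l, a (u l) ≠ 0 := fun l => alg_ne (hu l)
  have hml : ∀ l, πK (v l) = a y ^ m (blk l) * a (u l) := by
    intro l
    rw [hπ, hfu, map_mul, map_pow]
  have key := hT K πK D V ?_ ?_ ?_ (fun α hα => (hT0 α hα).elim) ?_ ?_
  · by_contra hne
    have h3 := V.smul_mem c⁻¹ key
    rw [smul_smul, inv_mul_cancel₀ hne, one_smul] at h3
    obtain ⟨w, ⟨P, B, hB, e1⟩, e2⟩ := h3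
    have h4 : a (Ψ h * B) = a (y * P) := by
      rw [map_mul, map_mul, ← hπ, e2, mul_assoc, e1]
    have h5 : y ∣ Ψ h * B := ⟨P, IsFractionRing.injective A K h4⟩
    exact (hy.dvd_or_dvd h5).elim hh hB
  · intro i j
    change (a J)⁻¹ • D' i (a (Ψ (X j))) = _
    rw [hD', hE]
    split_ifs
    · exact inv_mul_cancel₀ (alg_ne hJ)
    · simp
  · intro l
    rw [hml]
    exact mul_ne_zero (pow_ne_zero _ hY) (hU l)
  · intro _ α γ hγ
    have e1 : ∑ i, m (β i) * γ i = ∑ l, m (blk l) * α l + ∑ j, m j := by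
      rw [← Finset.sum_fiberwise Finset.univ β, ← Finset.sum_fiberwise Finset.univ blk,
        ← Finset.sum_add_distrib]
      refine Finset.sum_congr rfl fun j _ => ?_
      have e2 : ∑ i with β i = j, m (β i) * γ i = m j * ∑ i with β i = j, γ i := by
        rw [Finset.mul_sum]
        exact Finset.sum_congr rfl fun i hi => by rw [(Finset.mem_filter.1 hi).2]
      have e3 : ∑ l with blk l = j, m (blk l) * α l = m j * ∑ l with blk l = j, α l := by
        rw [Finset.mul_sum]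
        exact Finset.sum_congr rfl fun i hi => by rw [(Finset.mem_filter.1 hi).2]
      rw [e2, e3, hγ j, Nat.mul_succ]
    obtain ⟨t, ht⟩ : ∃ t, ∑ l, m l = t + 1 := by
      refine Nat.exists_eq_succ_of_ne_zero fun h0 => hm ?_
      funext j
      exact Finset.sum_eq_zero_iff.1 h0 j (Finset.mem_univ _)
    have hB : ¬y ∣ ∏ l, u l ^ α l := by
      intro hd
      obtain ⟨l, -, hl⟩ := (hy.dvd_finsetProd_iff _).1 hd
      exact hu l (hy.dvd_of_dvd_pow hl)
    refine ⟨a (y ^ t * ∏ i, g i ^ γ i) * (a (∏ l, u l ^ α l))⁻¹,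
      (InO.alg hy _).mul hy (InO.inv hB), ?_⟩
    have e2 : ∏ i, πK (f i) ^ γ i = a y ^ (∑ i, m (β i) * γ i) * a (∏ i, g i ^ γ i) := by
      rw [← Finset.prod_pow_eq_pow_sum, map_prod, ← Finset.prod_mul_distrib]
      refine Finset.prod_congr rfl fun i _ => ?_
      rw [hπ, hg, map_mul, map_pow, map_pow, mul_pow, pow_mul]
    have e3 : ∏ l, πK (v l) ^ α l =
        a y ^ (∑ l, m (blk l) * α l) * a (∏ l, u l ^ α l) := by
      rw [← Finset.prod_pow_eq_pow_sum, map_prod, ← Finset.prod_mul_distrib]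
      refine Finset.prod_congr rfl fun l _ => ?_
      rw [hml, map_pow, mul_pow, pow_mul]
    have hB' : a (∏ l, u l ^ α l) ≠ 0 := alg_ne hB
    rw [e2, e3, e1, ht, map_mul, map_pow, div_eq_iff (mul_ne_zero (pow_ne_zero _ hY) hB')]
    have e4 := inv_mul_cancel₀ hB'
    linear_combination (-(a y ^ (∑ l, m (blk l) * α l + (t + 1)) * a (∏ i, g i ^ γ i))) * e4
  · rintro _ ⟨w, hw, rfl⟩ j
    exact ⟨πK (X j) * w, (InO.alg hy _).mul hy hw, by ring⟩
  · rintro _ ⟨w, hw, rfl⟩ i
    have hsK : ∑ l, (s l : K) * (m (blk l) : K) + 1 = 0 := by exact_mod_cast hs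
    let o : K := ∑ l, (s l : K) * (D i (a (u l)) * (a (u l))⁻¹)
    have ho : InO y o := by
      refine InO.sum hy _ _ fun l _ => InO.mul hy ?_ ((hDO i _ (InO.alg hy _)).mul hy
        (InO.inv (hu l)))
      rw [← map_ratCast (algebraMap k K)]
      exact hk _
    have e1 : ∑ l, (s l : K) * (D i (πK (v l)) / πK (v l)) = -(D i (a y) / a y) + o := by
      have e2 : -(D i (a y) / a y) =
          (∑ l, (s l : K) * (m (blk l) : K)) * (D i (a y) / a y) := by
        linear_combination (-(D i (a y) / a y)) * hsK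
      rw [e2, Finset.sum_mul, ← Finset.sum_add_distrib]
      refine Finset.sum_congr rfl fun l _ => ?_
      rw [hml, der_pow _ hY (hU l), div_eq_mul_inv (D i (a (u l)))]
      ring
    refine ⟨D i w + o * w, (hDO i w hw).add hy (ho.mul hy hw), ?_⟩
    rw [e1, Derivation.leibniz, smul_eq_mul, smul_eq_mul, div_eq_mul_inv]
    have e4 := inv_mul_cancel₀ hY
    linear_combination (-(D i (a y) * w)) * e4

omit [Fintype ρ] in
theorem map_bm (φ : PowerSeries k) (π : Fin 2 → P2 k) (f : ι ⊕ ρ → P2 k) (β : ι → ρ)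
    (y : ι → k) (j : ρ) :
    Φs φ (aeval π (bm f β y j)) =
      Φs φ (pb π f (.inr j)) + ∑ i with β i = j, y i • Φs φ (pb π f (.inl i)) := by
  simp only [bm, pb, ← smul_eq_C_mul, map_add, map_sum, map_smul]

theorem fin_line {M : Type} [AddCommGroup M] [Module k M] (c₀ c₁ : M) (h : c₀ ≠ 0 ∨ c₁ ≠ 0) :
    {t : k | c₀ + t • c₁ = 0}.Finite := by
  refine Set.Subsingleton.finite fun t ht t' ht' => ?_
  have ht1 : c₀ + t • c₁ = 0 := ht
  have ht2 : c₀ + t' • c₁ = 0 := ht'
  have h1 : c₁ ≠ 0 := by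
    rintro rfl
    rw [smul_zero, add_zero] at ht1
    exact h.elim (fun h => h ht1) fun h => h rfl
  exact smul_left_injective k h1 (add_left_cancel (ht1.trans ht2.symm))

end QK

open PL in
theorem br3_ok [CharZero k] : S_br3 k ι ρ := by
  intro Λ _ f β π n m φ u blk s w T Q h c hπ hφ hm h1 h2 hs hT0 hh hT
  obtain ⟨h0, u', hu, hJ⟩ := hπ
  refine QK.core (A := Polynomial (PowerSeries k)) Polynomial.prime_X
    ![Φs φ (pderiv 1 (π 1)) • dd φ 0 - Φs φ (pderiv 0 (π 1)) • dd φ 1,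
      Φs φ (pderiv 0 (π 0)) • dd φ 1 - Φs φ (pderiv 1 (π 0)) • dd φ 0]
    (Φs φ (Jac π)) ?_ ((Φs φ).comp (aeval π)) ?_ f β m hm h1 u blk ?_ h (not_dvd hφ h0 hh) s hs
    w T hT0 Q c hT
  · rw [hJ, map_mul, map_pow]
    intro hd
    rcases Polynomial.prime_X.dvd_or_dvd hd with h3 | h3
    · have h4 := Polynomial.X_dvd_iff.1 (Polynomial.prime_X.dvd_of_dvd_pow h3)
      simp [Φs] at h4
    · refine not_dvd hφ (θ := X) (fun i => constantCoeff_X k i) hu ?_
      rwa [aeval_X_left_apply]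
  · intro i j
    fin_cases i <;> fin_cases j <;> simp [dd_Φ, Jac] <;> ring
  · intro l
    obtain ⟨⟨w', hw⟩, h3⟩ := h2 l
    refine ⟨w', fun hd => h3 ?_, hw⟩
    have := Polynomial.coeff_X_pow_mul w' (m (blk l)) 0
    rw [zero_add] at this
    rw [hw, this, Polynomial.X_dvd_iff.1 hd]

theorem rBr_ok [CharZero k] : S_rBr k ι ρ := by
  classical
  intro loc J f β π n m φ hπ hφ hm h1 h2
  refine ⟨one_pos, hm, fun b Gd hGd htw _ s _ hs => ?_⟩
  choose idx hidx hco using h2
  let y₀ : ι → k := fun i => if idx (β i) = .inl i then 1 else 0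
  let c₀ : ρ → PowerSeries k := fun j => (Φs φ (pb π f (.inr j))).coeff (m j)
  let c₁ : ρ → PowerSeries k := fun j =>
    ∑ i with β i = j, y₀ i • (Φs φ (pb π f (.inl i))).coeff (m j)
  have hc : ∀ j, c₀ j ≠ 0 ∨ c₁ j ≠ 0 := by
    intro j
    have e1 := hidx j
    have e2 := hco j
    rcases e : idx j with i | j'
    · right
      rw [e] at e1 e2
      have e3 : β i = j := e1
      have e4 : c₁ j = (Φs φ (pb π f (.inl i))).coeff (m j) := by
        refine (Finset.sum_eq_single i (fun i' hi' hne => ?_) fun hi => ?_).trans ?_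
        · have e5 : idx (β i') ≠ .inl i' := by
            rw [(Finset.mem_filter.1 hi').2, e]
            exact fun e6 => hne (Sum.inl_injective e6).symm
          simp only [y₀, if_neg e5, zero_smul]
        · exact (hi (Finset.mem_filter.2 ⟨Finset.mem_univ _, e3⟩)).elim
        · have e5 : idx (β i) = .inl i := by rw [e3, e]
          simp only [y₀, if_pos e5, one_smul]
      rwa [e4]
    · left
      rw [e] at e1 e2
      have e3 : j' = j := e1
      rwa [e3] at e2
  have hfin : ({t : k | t • y₀ ∉ Gd} ∪ ⋃ j, {t : k | c₀ j + t • c₁ j = 0}).Finite :=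
    (hGd.2.1 y₀).union (Set.finite_iUnion fun j => QK.fin_line _ _ (hc j))
  obtain ⟨t, ht⟩ := hfin.exists_notMem
  simp only [Set.mem_union, Set.mem_ofPred_eq, Set.mem_iUnion, not_or, not_not, not_exists] at ht
  obtain ⟨h, hh, hT⟩ := htw _ ht.1
  have hT' := hT Empty ρ Empty.elim Empty.elim id (Sum.elim Empty.elim s) Function.injective_id
    (fun l => l.elim) fun l => l.elim
  have eb : (bs (Sum.elim (Empty.elim : Empty → ρ) id) (Sum.elim Empty.elim s) : ρ → k) =
      fun j => (s j : k) := by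
    funext j
    rw [bs, Finset.sum_filter, Fintype.sum_sum_type]
    simp
  rw [← eb]
  refine br3_ok _ f (bp β) π n m φ _ _ _ _ _ _ h _ hπ hφ hm h1 ?_ ?_ ?_ hh hT'
  · rintro (l | j)
    · exact l.elim
    · show _ ∣ Φs φ (aeval π (bm f β (t • y₀) j)) ∧
        (Φs φ (aeval π (bm f β (t • y₀) j))).coeff (m j) ≠ 0
      rw [QK.map_bm]
      refine ⟨dvd_add (h1 (.inr j)) (Finset.dvd_sum fun i hi => ?_), fun e => ht.2 j ?_⟩
      · have e1 : Polynomial.X ^ m (β i) ∣ Φs φ (pb π f (.inl i)) := h1 (.inl i)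
        rw [(Finset.mem_filter.1 hi).2] at e1
        rw [Algebra.smul_def]
        exact e1.mul_left _
      · rw [← e, Polynomial.coeff_add, Polynomial.finsetSum_coeff, Finset.smul_sum]
        congr 1
        refine Finset.sum_congr rfl fun i _ => ?_
        rw [Polynomial.coeff_smul, Pi.smul_apply, smul_smul, smul_eq_mul]
  · rw [Fintype.sum_sum_type, ← hs]
    simp [mul_comm]
  · rintro α ⟨-, h3, h4⟩
    refine h3 (funext ?_)
    rintro (l | l)
    · exact l.elim
    · exact h4 l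

end

end Pool.Agent.P.MP_b91a16_ag.Id.Ln
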