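import Pool.Agent.P.MP_b91a16_ag.Ln.Stmt

/-! A node with enough roots at some base point gives an admissible pair. -/

open MvPolynomial

namespace Pool.Agent.P.MP_b91a16_ag.Id.Ln

noncomputable section

variable {k ι ρ : Type} [Field k] [Fintype ι] [Fintype ρ] [DecidableEq ρ]

namespace QL

theorem ini_sub (p q N u w : ℕ) {G : P2 k} {S : Finset (Fin 2 →₀ ℕ)} (h : G.support ⊆ S) :
    ini p q N u w G =
      ∑ v ∈ S.filter fun v => wt p q v = N, Polynomial.monomial (wt u w v) (coeff v G) :=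
  Finset.sum_subset (Finset.filter_subset_filter _ h) fun v hv hv' => by
    rw [Finset.mem_filter] at hv hv'
    rw [notMem_support_iff.1 fun h => hv' ⟨h, hv.2⟩, map_zero]

theorem ini_add (p q N u w : ℕ) (G H : P2 k) :
    ini p q N u w (G + H) = ini p q N u w G + ini p q N u w H := by
  rw [ini_sub p q N u w support_add, ini_sub p q N u w (S := G.support ∪ H.support)
    Finset.subset_union_left, ini_sub p q N u w (S := G.support ∪ H.support)
    Finset.subset_union_right, ← Finset.sum_add_distrib]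
  simp only [coeff_add, map_add]

theorem ini_mul (p q N u w : ℕ) (c : k) (G : P2 k) :
    ini p q N u w (C c * G) = Polynomial.C c * ini p q N u w G := by
  rw [ini_sub p q N u w (S := G.support) fun v hv => by
    rw [mem_support_iff, coeff_C_mul] at hv
    exact mem_support_iff.2 (right_ne_zero_of_mul hv), ini, Finset.mul_sum]
  simp only [coeff_C_mul, Polynomial.C_mul_monomial]

omit [Fintype ι] in
theorem ini_sum (p q N u w : ℕ) (S : Finset ι) (G : ι → P2 k) :
    ini p q N u w (∑ i ∈ S, G i) = ∑ i ∈ S, ini p q N u w (G i) := by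
  classical
  induction S using Finset.induction_on with
  | empty => simp [ini]
  | insert a S ha ih => rw [Finset.sum_insert ha, Finset.sum_insert ha, ini_add, ih]

omit [Fintype ρ] in
theorem ini_bm (p q N u w : ℕ) (g : ι ⊕ ρ → P2 k) (β : ι → ρ) (y : ι → k) (j : ρ) :
    ini p q N u w (bm g β y j) = ini p q N u w (g (.inr j)) +
      ∑ i with β i = j, Polynomial.C (y i) * ini p q N u w (g (.inl i)) := by
  simp only [bm, ini_add, ini_sum, ini_mul]

omit [Fintype ρ] in
theorem aeval_bm (π : Fin 2 → P2 k) (f : ι ⊕ ρ → P2 k) (β : ι → ρ) (y : ι → k) (j : ρ) :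
    aeval π (bm f β y j) = bm (pb π f) β y j := by
  simp [bm, pb]

omit [Fintype ρ] in
theorem bm_lo {p q : ℕ} {g : ι ⊕ ρ → P2 k} {β : ι → ρ} {N : ρ → ℕ} (h : LoN p q g (bp β) N)
    (y : ι → k) (j : ρ) : ∀ v ∈ (bm g β y j).support, N j ≤ wt p q v := by
  intro v hv
  rw [mem_support_iff, bm, coeff_add, coeff_sum] at hv
  by_cases h0 : coeff v (g (.inr j)) = 0
  · rw [h0, zero_add] at hv
    obtain ⟨i, hi, hi'⟩ := Finset.exists_ne_zero_of_sum_ne_zero hv
    rw [coeff_C_mul] at hi'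
    rw [← (Finset.mem_filter.1 hi).2]
    exact h (.inl i) v (mem_support_iff.2 (right_ne_zero_of_mul hi'))
  · exact h (.inr j) v (mem_support_iff.2 h0)

theorem bm_deg {p q : ℕ} {g : ι ⊕ ρ → P2 k} {β : ι → ρ} {N m : ρ → ℕ}
    (h : ∀ l, (ini p q (N (bp β l)) 0 1 (g l)).natDegree ≤ m (bp β l)) (y : ι → k) (j : ρ) :
    (ini p q (N j) 0 1 (bm g β y j)).natDegree ≤ m j := by
  rw [ini_bm]
  refine Polynomial.natDegree_add_le_of_degree_le (h (.inr j))
    (Polynomial.natDegree_sum_le_of_forall_le _ _ fun i hi => ?_)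
  rw [← (Finset.mem_filter.1 hi).2]
  exact (Polynomial.natDegree_C_mul_le _ _).trans (h (.inl i))

/-- the base point can be moved into the good set -/
theorem move [CharZero k] (hsc : S_sc k) {p q z : ℕ} {N : ρ → ℕ} {g : ι ⊕ ρ → P2 k} {β : ι → ρ}
    (h : CertA p q N g β z) {loc : Prop} {Gd : Set (ι → k)} (hG : GdOK loc Gd) :
    ∃ y ∈ Gd, ∃ Z : Finset k, (∀ j, ini p q (N j) 0 1 (bm g β y j) ≠ 0) ∧ z ≤ Z.card ∧
      ∀ c ∈ Z, ∃ j, (ini p q (N j) 0 1 (bm g β y j)).IsRoot c := by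
  obtain ⟨y, Z, h1, h2, h3⟩ := h
  obtain ⟨Φ, hΦ⟩ : ∃ Φ : Polynomial (Polynomial k), ∀ t : k,
      Φ.eval (Polynomial.C t) = ∏ j, ini p q (N j) 0 1 (bm g β (t • y) j) := by
    refine ⟨∏ j, (Polynomial.C (ini p q (N j) 0 1 (g (.inr j))) + Polynomial.X * Polynomial.C
      (∑ i with β i = j, Polynomial.C (y i) * ini p q (N j) 0 1 (g (.inl i)))), fun t => ?_⟩
    rw [Polynomial.eval_prod]
    refine Finset.prod_congr rfl fun j _ => ?_
    rw [Polynomial.eval_add, Polynomial.eval_mul, Polynomial.eval_C, Polynomial.eval_C,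
      Polynomial.eval_X, ini_bm, Finset.mul_sum]
    simp only [Pi.smul_apply, smul_eq_mul, map_mul, mul_assoc]
  have e1 := hΦ 1
  rw [map_one, one_smul] at e1
  obtain ⟨t, ht⟩ := ((hsc Φ z (e1 ▸ Finset.prod_ne_zero_iff.2 fun j _ => h1 j)
    ⟨Z, h2, fun c hc => by
      obtain ⟨j, hj⟩ := h3 c hc
      rw [e1, Polynomial.isRoot_prod]
      exact ⟨j, Finset.mem_univ j, hj⟩⟩).union (hG.2.1 y)).exists_notMem
  simp only [Set.mem_union, Set.mem_ofPred_eq, not_or, not_not, hΦ] at ht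
  obtain ⟨⟨h4, Z', h5, h6⟩, h7⟩ := ht
  refine ⟨_, h7, Z', fun j => Finset.prod_ne_zero_iff.1 h4 j (Finset.mem_univ j), h5,
    fun c hc => ?_⟩
  obtain ⟨j, -, hj⟩ := (Polynomial.isRoot_prod _ _ _).1 (h6 c hc)
  exact ⟨j, hj⟩

theorem bs_eq (s : ρ → ℚ) : (bs (Sum.elim Empty.elim id : Empty ⊕ ρ → ρ)
    (Sum.elim Empty.elim s) : ρ → k) = fun j => (s j : k) := by
  funext j
  simp [bs, Finset.sum_filter]

end QL

open QL in
theorem rA_ok [CharZero k] [IsAlgClosed k] (hres : S_res3 k (ι ⊕ ρ) ρ) (hsc : S_sc k) :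
    S_rA k ι ρ := by
  intro loc J f β π n p q z N m hch hp hq hlo hN hdeg hA hw
  refine ⟨by positivity, hN, fun b Gd hG htw _ s hs hsum => ?_⟩
  by_contra hb
  obtain ⟨y, hy, Z, hφ, hz, hZ⟩ := move hsc hA hG
  obtain ⟨h, hh, htw⟩ := htw y hy
  obtain ⟨h1, κ, hκ, h2⟩ := chTh_ok π n p q hch hp hq
  have e0 : ∀ G, aeval (pb (tor k p q 0 1) π) G = aeval (tor k p q 0 1) (aeval π G) :=
    fun G => (aeval_aeval _ _ _).symm
  have hsum' : ∑ j, s j * N j + (p * (n + 1) + q) = 0 := by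
    rw [← Finset.sum_congr rfl fun j _ => mul_comm _ (s j)]
    exact_mod_cast hsum
  have hin : ∀ j, Ini (aeval (pb (tor k p q 0 1) π) (bm f β y j)) (N j)
      (ini p q (N j) 0 1 (bm (pb π f) β y j)) := fun j => by
    rw [e0, aeval_bm]
    exact ini_ok _ p q _ 0 1 (bm_lo hlo y j)
  have hex := hres (Empty ⊕ ρ) f (bp β) _ _ κ N _ _
    (Sum.elim Empty.elim fun j => ini p q (N j) 0 1 (bm (pb π f) β y j)) _ _ _ _ _ h _ h1 hκ h2 hN
    (fun i => by
      obtain ⟨r, hr⟩ := ini_ok (pb π f i) p q (N (bp β i)) 0 1 (hlo i)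
      exact ⟨_, (e0 _).trans hr⟩)
    (by
      rintro (l | j)
      · exact l.elim
      · exact ⟨hφ j, hin j⟩) hin
    (fun α hα => (hα.2.1 (funext fun l => by
      rcases l with l | j
      · exact l.elim
      · exact hα.2.2 j)).elim)
    (by
      rw [Nat.cast_pred (by positivity), ← hsum']
      simp) hh
    (htw Empty ρ Empty.elim Empty.elim id (Sum.elim Empty.elim s) Function.injective_id
      (fun l => l.elim) fun l => l.elim) (by rwa [bs_eq])
  have hle : -∑ j, s j * (ini p q (N j) 0 1 (bm (pb π f) β y j)).natDegree ≤ ∑ j, -s j * m j := by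
    simp only [neg_mul, Finset.sum_neg_distrib, neg_le_neg_iff]
    exact Finset.sum_le_sum fun j _ =>
      mul_le_mul_of_nonpos_left (by exact_mod_cast bm_deg hdeg y j) (hs j).le
  have h3 := hw (fun j => -s j) (fun j => neg_pos.2 (hs j)) (by
    simp only [neg_mul, Finset.sum_neg_distrib]
    linarith)
  have h8 := p1_ok _ _ _ Z
    (by
      rintro (l | j)
      · exact l.elim
      · exact hφ j)
    (by
      rintro (l | j)
      · exact l.elim
      · exact hs j)
    (fun c hc => (hZ c hc).elim fun j hj => ⟨.inr j, hj⟩) hex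
  simp only [Fintype.sum_sum_type, Finset.univ_eq_empty, Finset.sum_empty, zero_add,
    Sum.elim_inr] at h8
  rcases h8 with h4 | ⟨h4, h5⟩
  · omega
  · rcases h3 with ⟨h6, -⟩ | ⟨h6, h7⟩
    · linarith
    · have : (3 : ℚ) ≤ Z.card := by exact_mod_cast h7.trans hz
      linarith

end

end Pool.Agent.P.MP_b91a16_ag.Id.Ln
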