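import Pool.Agent.P.MP_b91a16_ag.Ln.Stmt

/-! Degree at most one in all but two variables: a moving simple root gives an admissible pair. -/

open MvPolynomial

namespace Pool.Agent.P.MP_b91a16_ag.Id.Ln

noncomputable section

variable {k ι ρ : Type} [Field k] [Fintype ι] [Fintype ρ] [DecidableEq ρ]

namespace QM

omit [Fintype ρ] [DecidableEq ρ] in
theorem aeval_lc (π : Fin 2 → P2 k) (f : ι ⊕ ρ → P2 k) (lam : ι → k) :
    aeval π (lc f lam) = lc (pb π f) lam := by
  simp [lc, pb]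

omit [Fintype ρ] in
theorem aeval_bm (π : Fin 2 → P2 k) (f : ι ⊕ ρ → P2 k) (β : ι → ρ) (y : ι → k) (j : ρ) :
    aeval π (bm f β y j) = bm (pb π f) β y j := by
  simp [bm, pb]

omit [Fintype ρ] [DecidableEq ρ] in
theorem lc_lo {p q : ℕ} {g : ι ⊕ ρ → P2 k} {β : ι → ρ} {N : ρ → ℕ} (h : LoN p q g (bp β) N)
    {lam : ι → k} {j : ρ} (hl : ∀ i, lam i ≠ 0 → β i = j) :
    ∀ v ∈ (lc g lam).support, N j ≤ wt p q v := by
  intro v hv
  rw [mem_support_iff, lc, coeff_sum] at hv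
  obtain ⟨i, -, hi⟩ := Finset.exists_ne_zero_of_sum_ne_zero hv
  rw [coeff_C_mul] at hi
  rw [← hl i (left_ne_zero_of_mul hi)]
  exact h (.inl i) v (mem_support_iff.2 (right_ne_zero_of_mul hi))

omit [Fintype ρ] in
theorem bm_lo {p q : ℕ} {g : ι ⊕ ρ → P2 k} {β : ι → ρ} {N : ρ → ℕ} (h : LoN p q g (bp β) N)
    (y : ι → k) (j : ρ) : ∀ v ∈ (bm g β y j).support, N j ≤ wt p q v := by
  intro v hv
  by_cases h0 : coeff v (g (.inr j)) = 0
  · rw [mem_support_iff, bm, coeff_add, h0, zero_add, coeff_sum] at hv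
    obtain ⟨i, hj, hi⟩ := Finset.exists_ne_zero_of_sum_ne_zero hv
    rw [coeff_C_mul] at hi
    rw [← (Finset.mem_filter.1 hj).2]
    exact h (.inl i) v (mem_support_iff.2 (right_ne_zero_of_mul hi))
  · exact h (.inr j) v (mem_support_iff.2 h0)

/-- the initial forms of the members -/
def fm {Λ₀ Λ₁ : Type} (p q : ℕ) (N : ρ → ℕ) (g : ι ⊕ ρ → P2 k) (β : ι → ρ) (y : ι → k)
    (blk : Λ₀ → ρ) (lam : Λ₀ → ι → k) (act : Λ₁ → ρ) : Λ₀ ⊕ Λ₁ → Polynomial k :=
  Sum.elim (fun l => ini p q (N (blk l)) 0 1 (lc g (lam l)))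
    fun l => ini p q (N (act l)) 0 1 (bm g β y (act l))

theorem core [CharZero k] (hres : S_res3 k (ι ⊕ ρ) ρ) (hp2 : S_p2 k) {loc : Prop}
    {f : ι ⊕ ρ → P2 k} {β : ι → ρ} {π : Fin 2 → P2 k} {n p q : ℕ} {N : ρ → ℕ} (hch : Ch π n)
    (hp : 0 < p) (hq : 0 < q) (hlo : LoN p q (pb π f) (bp β) N) (hN : N ≠ 0)
    {b : MvPolynomial ρ k} {y : ι → k} {h : P2 k} (hh : constantCoeff h ≠ 0)
    (htw : Tw3 loc f β y h b) {s : ρ → ℚ}
    (hsum : ∑ j, (N j : ℚ) * s j + ((p * (n + 1) + q : ℕ) : ℚ) = 0)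
    {Λ₀ Λ₁ : Type} [Fintype Λ₀] [Fintype Λ₁] (blk : Λ₀ → ρ) (lam : Λ₀ → ι → k) (act : Λ₁ → ρ)
    (σ : Λ₀ ⊕ Λ₁ → ℚ) (hinj : Function.Injective act) (hlam : ∀ l i, lam l i ≠ 0 → β i = blk l)
    (hne : ∀ l l₁, blk l = act l₁ → ∀ n : ℕ, σ (.inr l₁) ≠ -(n + 1))
    (hbs : ∀ j, ∑ l with Sum.elim blk act l = j, σ l = s j) (l₀ : Λ₀ ⊕ Λ₁)
    (h1 : (fm p q N (pb π f) β y blk lam act l₀).natDegree = 1) (h2 : σ l₀ = -1)
    (h3 : ∀ l ≠ l₀, ∃ c ≠ 0, fm p q N (pb π f) β y blk lam act l = Polynomial.C c)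
    (hT : ∀ α : Λ₀ ⊕ Λ₁ → ℕ, loc → α ≠ 0 → (∀ l₁, α (.inr l₁) = 0) →
      ExR (fm p q N (pb π f) β y blk lam act) σ
        (∏ j, ini p q (N j) 0 1 (bm (pb π f) β y j) ^ ∑ l with Sum.elim blk act l = j, α l)
        (∏ l, fm p q N (pb π f) β y blk lam act l ^ α l)) :
    eval (fun j => (s j : k)) b = 0 := by
  by_contra hb
  obtain ⟨t1, κ, hκ, t2⟩ := chTh_ok (k := k) π n p q hch hp hq
  have e0 : ∀ G, aeval (pb (tor k p q 0 1) π) G = aeval (tor k p q 0 1) (aeval π G) :=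
    fun G => (aeval_aeval _ _ _).symm
  have eb : (bs (Sum.elim blk act) σ : ρ → k) = fun j => (s j : k) := by
    funext j
    rw [bs, hbs]
  have hw : ∀ j, Ini (aeval (pb (tor k p q 0 1) π) (bm f β y j)) (N j)
      (ini p q (N j) 0 1 (bm (pb π f) β y j)) := fun j => by
    rw [e0, aeval_bm]
    exact ini_ok _ p q _ 0 1 (bm_lo hlo y j)
  refine (hp2 _ _ σ l₀ h1 h2 h3).1 (hres _ f (bp β) _ _ κ N _ (Sum.elim blk act) _ σ _ _ _ _ h _
    t1 hκ t2 hN (fun i => ?_) (fun l => ⟨?_, ?_⟩) hw (fun α hα => hT α hα.1 hα.2.1 hα.2.2) ?_ hh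
    (htw Λ₀ Λ₁ blk lam act σ hinj hlam hne) (by rwa [eb]))
  · obtain ⟨r, hr⟩ := ini_ok (pb π f i) p q (N (bp β i)) 0 1 (hlo i)
    exact ⟨_, (e0 _).trans hr⟩
  · by_cases hl : l = l₀
    · rw [hl]
      intro h0
      rw [h0, Polynomial.natDegree_zero] at h1
      exact zero_ne_one h1
    · obtain ⟨c, hc, e⟩ := h3 l hl
      rw [e]
      exact Polynomial.C_ne_zero.2 hc
  · rcases l with l | l
    · show Ini (aeval _ (lc f (lam l))) (N (blk l)) (ini p q _ 0 1 (lc (pb π f) (lam l)))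
      rw [e0, aeval_lc]
      exact ini_ok _ p q _ 0 1 (lc_lo hlo (hlam l))
    · exact hw (act l)
  · have e1 : ∑ l, σ l * (N (Sum.elim blk act l) : ℚ) = ∑ j, (N j : ℚ) * s j := by
      rw [← Finset.sum_fiberwise Finset.univ (Sum.elim blk act)]
      refine Finset.sum_congr rfl fun j _ => ?_
      rw [← hbs j, Finset.mul_sum]
      refine Finset.sum_congr rfl fun l hl => ?_
      rw [(Finset.mem_filter.1 hl).2, mul_comm]
    rw [e1, ← hsum, Nat.cast_pred (by positivity)]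
    ring

omit [Fintype ι] [Fintype ρ] [DecidableEq ρ] in
theorem exR_zero {Λ : Type} [Fintype Λ] (φ : Λ → Polynomial k) (s : Λ → ℚ) (B : Polynomial k) :
    ExR φ s 0 B := ⟨0, 1, one_ne_zero, by simp⟩

end QM

open QM in
theorem rB_ok [CharZero k] (hres : S_res3 k (ι ⊕ ρ) ρ) (hp2 : S_p2 k) : S_rB k ι ρ := by
  intro loc J f β π n p q N j _ hch hp hq hlo hN hcert
  refine ⟨by positivity, hN, fun b Gd hGd htw _ s hs hsum => ?_⟩
  have hy : ∀ y : ι → k, (loc → y = 0) → y ∈ Gd := fun y h => by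
    by_cases hl : loc
    · rw [h hl]; exact hGd.1
    · exact hGd.2.2 hl y
  rcases hcert with ⟨⟨y, lam, c0, c1, c2, c3⟩, hw⟩ | ⟨y, lam, lam', c0, c1, c1', c2, c3, c4⟩
  · obtain ⟨h, hh, ht⟩ := htw y (hy y c0)
    have h2 := hw (fun j => -s j) (fun j => neg_pos.2 (hs j)) (by
      simp only [neg_mul, Finset.sum_neg_distrib]
      rw [Finset.sum_congr rfl fun j _ => mul_comm (s j) _]
      push_cast at hsum
      linarith)
    have h3 : ∀ l ≠ (Sum.inl () : Unit ⊕ ρ), ∃ c ≠ 0,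
        fm p q N (pb π f) β y (fun _ => j) (fun _ => lam) id l = Polynomial.C c := by
      rintro (l | l) hl
      · exact (hl rfl).elim
      · exact c3 l
    refine QM.core hres hp2 hch hp hq hlo hN hh ht hsum (fun _ : Unit => j) (fun _ => lam) id
      (Sum.elim (fun _ => -1) fun j' => if j' = j then s j + 1 else s j') Function.injective_id
      (fun _ => c1) ?_ ?_ (.inl ()) c2 rfl h3 ?_
    · rintro _ _ rfl m e
      simp only [Sum.elim_inr, if_true] at e
      have : (0 : ℚ) ≤ m := Nat.cast_nonneg m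
      linarith
    · intro j'
      rw [Finset.sum_filter, Fintype.sum_sum_type]
      by_cases e : j' = j
      · subst e
        simp
      · simp [e, Ne.symm e]
    · intro α _ h0 hα
      have hpos : 0 < α (.inl ()) := Nat.pos_of_ne_zero fun e => h0 (by
        funext l
        rcases l with l | l
        · exact e
        · exact hα l)
      choose c hc using c3
      have := (hp2 _ _ (Sum.elim (fun _ => -1) fun j' => if j' = j then s j + 1 else s j')
        (.inl ()) c2 rfl h3).2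
        (∏ j', c j' ^ ∑ l with Sum.elim (fun _ : Unit => j) id l = j', α l) _ hpos
      convert this using 1
      · rw [map_prod]
        exact Finset.prod_congr rfl fun j' _ => by rw [(hc j').2, map_pow]
      · rw [Fintype.prod_sum_type]
        simp [hα]
  · obtain ⟨h, hh, ht⟩ := htw y (hy y fun hl => (c0 hl).1)
    refine QM.core hres hp2 hch hp hq hlo hN hh ht hsum (fun _ : Bool => j)
      (fun b => if b then lam else lam') (Subtype.val : {j' // j' ≠ j} → ρ)
      (Sum.elim (fun b => if b then -1 else s j + 1) fun j' => s j') Subtype.val_injective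
      ?_ ?_ ?_ (.inl true) c2 rfl ?_ ?_
    · rintro (_ | _)
      · exact c1'
      · exact c1
    · exact fun _ l₁ e => (l₁.2 e.symm).elim
    · intro j'
      rw [Finset.sum_filter, Fintype.sum_sum_type]
      simp only [Sum.elim_inl, Sum.elim_inr]
      by_cases e : j' = j
      · subst e
        rw [Finset.sum_eq_zero (s := Finset.univ) (ι := {j'' // j'' ≠ j'})
          fun l _ => if_neg l.2]
        simp
      · rw [Finset.sum_eq_single (⟨j', e⟩ : {j'' // j'' ≠ j})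
          (fun l _ hl => if_neg fun e' => hl (Subtype.ext e'))
          (fun h => (h (Finset.mem_univ _)).elim)]
        simp [Ne.symm e]
    · rintro ((_ | _) | l) hl
      · exact c3
      · exact (hl rfl).elim
      · exact c4 l l.2
    · intro α hl h0 hα
      obtain ⟨l, hl0⟩ := Function.ne_iff.1 h0
      rcases l with l | l
      · rw [Finset.prod_eq_zero (Finset.mem_univ j)]
        · exact exR_zero _ _ _
        · rw [(c0 hl).2]
          refine zero_pow fun e => hl0 ?_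
          exact Finset.sum_eq_zero_iff.1 e (.inl l) (by simp)
      · exact (hl0 (hα l)).elim

end

end Pool.Agent.P.MP_b91a16_ag.Id.Ln
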