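import Pool.Agent.P.MP_b91a16_ag.Ln.Stmt

/-! Package N: the Bernstein-Sato equation of the polynomials `gL` in twisted form. -/

set_option linter.unusedSectionVars false

open MvPolynomial

namespace Pool.Agent.P.MP_b91a16_ag.Id.Ln

noncomputable section

namespace QN

open PM

section Blocks

variable {K σ τ ρ : Type} [Field K] [Fintype σ] [DecidableEq σ] [Fintype τ] [Fintype ρ]
  [DecidableEq ρ]

/-- The degree in block `j`. -/
def bsum (bl : σ → ρ) (μ : σ → ℕ) (j : ρ) : ℕ := ∑ v with bl v = j, μ v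

theorem bsum_add (bl : σ → ρ) (μ ν : σ → ℕ) (j : ρ) :
    bsum bl (μ + ν) j = bsum bl μ j + bsum bl ν j := by
  simp [bsum, Finset.sum_add_distrib]

theorem bsum_zero (bl : σ → ρ) (j : ρ) : bsum bl 0 j = 0 := by simp [bsum]

theorem bsum_single (bl : σ → ρ) (v : σ) (j : ρ) :
    bsum bl (Pi.single v 1) j = (Pi.single (bl v) 1 : ρ → ℕ) j := by
  simp [bsum, Pi.single_apply, eq_comm]

theorem bsum_elim (bl : σ → ρ) (bl' : τ → ρ) (μ : σ ⊕ τ → ℕ) (j : ρ) :
    ∑ v with Sum.elim bl bl' v = j, μ v =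
      bsum bl (fun v => μ (.inl v)) j + ∑ v with bl' v = j, μ (.inr v) := by
  simp only [bsum, Finset.sum_filter, Fintype.sum_sum_type]
  rfl

theorem bsum_eq_zero {bl : σ → ρ} {j : ρ} (h : ∀ v, bl v ≠ j) (μ : σ → ℕ) : bsum bl μ j = 0 := by
  simp [bsum, h]

theorem prod_split {M : Type} [CommMonoid M] {F : ρ → M} (G : ρ → M) (j : ρ)
    (h : ∀ i, i ≠ j → F i = G i) : ∏ i, F i = F j * ∏ i ∈ Finset.univ.erase j, G i := by
  rw [← Finset.mul_prod_erase _ _ (Finset.mem_univ j)]
  congr 1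
  exact Finset.prod_congr rfl fun i hi => h i (Finset.ne_of_mem_erase hi)

theorem T_prod (bl : σ → ρ) (w : ρ → K) (cf : σ → K) (μ : σ → ℕ) (n : ρ → ℕ) :
    T μ (∏ j, (C (w j) + ∑ v with bl v = j, C (cf v) * X v) ^ n j) =
      (∏ j, ((n j).descFactorial (bsum bl μ j) : K) * w j ^ (n j - bsum bl μ j)) *
        ∏ v, cf v ^ μ v := by
  obtain ⟨N, hN⟩ : ∃ N, ∑ v, μ v = N := ⟨_, rfl⟩
  induction N generalizing μ n with
  | zero =>
    obtain rfl : μ = 0 := funext fun v => Finset.sum_eq_zero_iff.1 hN v (Finset.mem_univ v)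
    have h : (Finsupp.equivFunOnFinite.symm (0 : σ → ℕ)) = 0 := by ext; simp
    rw [T, h, ← constantCoeff_eq]
    simp [bsum]
  | succ N ih =>
    obtain ⟨v, hv⟩ : ∃ v, μ v ≠ 0 := by
      by_contra h
      push Not at h
      simp [h] at hN
    have h1 := sum_sub hv
    obtain ⟨ν, rfl⟩ : ∃ ν : σ → ℕ, μ = ν + Pi.single v 1 := ⟨_, (sub_add hv).symm⟩
    rw [add_tsub_cancel_right] at h1
    set A : ρ → MvPolynomial σ K := fun j => C (w j) + ∑ v with bl v = j, C (cf v) * X v with hA
    have hd : ∀ j, pderiv v (A j) = if bl v = j then C (cf v) else 0 := fun j => by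
      simp [hA, pderiv_X, Pi.single_apply]
    have h0 : pderiv v (∏ j ∈ Finset.univ.erase (bl v), A j ^ n j) = 0 :=
      Finset.prod_induction _ (fun x => pderiv v x = 0)
        (fun a b ha hb => by rw [Derivation.leibniz, ha, hb, smul_zero, smul_zero, add_zero])
        (by simp) fun j hj => by
          rw [Derivation.leibniz_pow, hd, if_neg (Finset.ne_of_mem_erase hj).symm]
          simp
    have h2 : pderiv v (∏ j, A j ^ n j) = C (n (bl v) * cf v) *
        ∏ j, A j ^ (n - Pi.single (bl v) 1 : ρ → ℕ) j := by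
      rw [prod_split (fun j => A j ^ n j) (bl v) fun _ _ => rfl,
        prod_split (fun j => A j ^ n j) (bl v) fun j hj => by simp [hj], Derivation.leibniz, h0,
        Derivation.leibniz_pow, hd, if_pos rfl]
      simp
      ring
    rw [← T_pderiv, h2, T_C, ih ν _ (by omega), prod_split (fun j =>
      ((n j).descFactorial (bsum bl ν j) : K) * w j ^ (n j - bsum bl ν j)) (bl v)
      fun j hj => by simp [hj]]
    symm
    rw [prod_split (fun j => ((n j).descFactorial (bsum bl ν j) : K) * w j ^ (n j - bsum bl ν j))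
      (bl v) fun j hj => by simp [bsum_add, bsum_single, hj]]
    simp only [bsum_add, bsum_single, Pi.single_eq_same, Pi.sub_apply, Pi.add_apply, pow_add,
      Finset.prod_mul_distrib]
    have h3 : ∏ x, cf x ^ (Pi.single v 1 : σ → ℕ) x = cf v := by
      simp [Pi.single_apply]
    rw [h3]
    rcases n (bl v) with _ | m
    · simp
    · rw [Nat.succ_descFactorial_succ, Nat.add_sub_cancel, Nat.add_sub_add_right]
      push_cast
      ring

theorem desc_asc (b J : ℕ) :
    ((b + J).descFactorial J : K) = ∏ t ∈ Finset.range J, ((b : K) + t + 1) := by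
  induction J with
  | zero => simp
  | succ J ih =>
    rw [← add_assoc, Nat.succ_descFactorial_succ, Finset.prod_range_succ, ← ih]
    push_cast
    ring

theorem desc_cast (b J : ℕ) :
    (b.descFactorial J : K) = ∏ t ∈ Finset.range J, ((b : K) - t) := by
  induction J with
  | zero => simp
  | succ J ih =>
    rw [Nat.descFactorial_succ, Finset.prod_range_succ, ← ih]
    rcases le_or_gt J b with h | h
    · rw [Nat.cast_mul, Nat.cast_sub h, mul_comm]
    · simp [Nat.descFactorial_eq_zero_iff_lt.2 h]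

theorem block (A p b c : ℕ) (w : K) (hw : A < c → b ≠ 0 → w ≠ 0) :
    (∏ t ∈ Finset.range (c - A), ((b : K) - t)) * (w ^ (A - c) / w ^ (c - A)) *
        (((A + p + b).descFactorial (A + p) : K) * w ^ b) =
      (∏ t ∈ Finset.range (A - c), ((b : K) + t + 1)) *
        (((A + p + b).descFactorial (p + c) : K) * w ^ (A + p + b - (p + c))) := by
  rcases le_or_gt c A with h | h
  · obtain ⟨J, rfl⟩ := Nat.exists_eq_add_of_le h
    have h1 := Nat.descFactorial_mul_descFactorial (n := c + J + p + b) (k := p + c)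
      (m := c + J + p) (by omega)
    rw [show c + J + p + b - (p + c) = b + J by omega, show c + J + p - (p + c) = J by omega] at h1
    rw [show c - (c + J) = 0 by omega, show c + J - c = J by omega,
      show c + J + p + b - (p + c) = b + J by omega, ← h1, ← desc_asc]
    simp [pow_add]
    ring
  · obtain ⟨J, rfl⟩ := Nat.exists_eq_add_of_le h.le
    have h1 := Nat.descFactorial_mul_descFactorial (n := A + p + b) (k := A + p)
      (m := p + (A + J)) (by omega)
    rw [show A + p + b - (A + p) = b by omega, show p + (A + J) - (A + p) = J by omega] at h1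
    rw [show A - (A + J) = 0 by omega, show A + J - A = J by omega,
      show A + p + b - (p + (A + J)) = b - J by omega, ← h1, ← desc_cast]
    rcases le_or_gt J b with h2 | h2
    · obtain ⟨d, rfl⟩ := Nat.exists_eq_add_of_le h2
      have := hw h (by omega)
      rw [Nat.add_sub_cancel_left]
      simp [pow_add]
      field_simp
    · simp [Nat.descFactorial_eq_zero_iff_lt.2 h2]

theorem comb {F Z E q S : ρ → K} {x u v : K} (hu : u ≠ 0)
    (h : ∀ j, F j * Z j * E j = q j * S j) :
    (∏ j, F j) * ((∏ j, Z j) * (x / u)) * ((∏ j, E j) * (u * v)) =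
      (∏ j, q j) * ((∏ j, S j) * (v * x)) := by
  have := Finset.prod_congr rfl fun j (_ : j ∈ Finset.univ) => h j
  simp only [Finset.prod_mul_distrib] at this
  field_simp
  linear_combination x * v * this

theorem prod_single (w : σ → K) (v : σ) : ∏ x, w x ^ (Pi.single v 1 : σ → ℕ) x = w v := by
  simp [Pi.single_apply]

end Blocks

section Poly

variable {k K Λ : Type} [Field k] [Field K] [Algebra k K] [Fintype Λ] [DecidableEq Λ]

/-- Polynomial functions of rational points. -/
def Poly (F : (Λ → ℚ) → K) : Prop :=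
  ∃ Q : MvPolynomial Λ K, ∀ x, F x = eval (fun l => (x l : K)) Q

variable {F F' : (Λ → ℚ) → K}

theorem Poly.const (z : K) : Poly fun _ : Λ → ℚ => z := ⟨C z, by simp⟩

theorem Poly.coord (l : Λ) : Poly fun x : Λ → ℚ => (x l : K) := ⟨X l, by simp⟩

theorem Poly.add (h : Poly F) (h' : Poly F') : Poly fun x => F x + F' x := by
  obtain ⟨Q, h⟩ := h
  obtain ⟨Q', h'⟩ := h'
  exact ⟨Q + Q', by simp [h, h']⟩

theorem Poly.mul (h : Poly F) (h' : Poly F') : Poly fun x => F x * F' x := by
  obtain ⟨Q, h⟩ := h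
  obtain ⟨Q', h'⟩ := h'
  exact ⟨Q * Q', by simp [h, h']⟩

theorem Poly.sub (h : Poly F) (h' : Poly F') : Poly fun x => F x - F' x := by
  obtain ⟨Q, h⟩ := h
  obtain ⟨Q', h'⟩ := h'
  exact ⟨Q - Q', by simp [h, h']⟩

theorem Poly.sum {α : Type} (t : Finset α) {G : α → (Λ → ℚ) → K} (h : ∀ i, Poly (G i)) :
    Poly fun x => ∑ i ∈ t, G i x := by
  choose Q hQ using h
  exact ⟨∑ i ∈ t, Q i, by simp [hQ]⟩

theorem Poly.prod {α : Type} (t : Finset α) {G : α → (Λ → ℚ) → K} (h : ∀ i, Poly (G i)) :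
    Poly fun x => ∏ i ∈ t, G i x := by
  choose Q hQ using h
  exact ⟨∏ i ∈ t, Q i, by simp [hQ]⟩

theorem Poly.der (h : Poly F) (D : Derivation k K K) : Poly fun x => D (F x) := by
  obtain ⟨Q, h⟩ := h
  obtain ⟨Q', h3⟩ := ex_der D Q
  exact ⟨Q', fun x => by
    beta_reduce
    rw [h, h3 _ fun l => by rw [← map_ratCast (algebraMap k K), D.map_algebraMap]]⟩

theorem Poly.zero [CharZero K] (h : Poly F) (h0 : ∀ a : Λ → ℕ, F (fun l => a l) = 0)
    (x : Λ → ℚ) : F x = 0 := by
  obtain ⟨Q, h⟩ := h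
  have h6 : Q = 0 := by
    refine funext_set (fun _ => Set.range (Nat.cast : ℕ → K))
      (fun _ => Set.infinite_range_of_injective Nat.cast_injective) fun x hx => ?_
    choose a ha using fun l => hx l trivial
    obtain rfl : (fun l => (a l : K)) = x := funext ha
    simpa [h] using h0 a
  simp [h, h6]

theorem Poly.ev {ρ : Type} [Fintype ρ] [DecidableEq ρ] [CharZero K] (B : Λ → ρ)
    (c : MvPolynomial ρ k) : Poly fun x : Λ → ℚ => algebraMap k K (eval (bs B x) c) := by
  induction c using MvPolynomial.induction_on with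
  | C c => simpa using Poly.const _
  | add p q hp hq => simpa using hp.add hq
  | mul_X p j hp => simpa [bs] using hp.mul (Poly.sum _ fun l => Poly.coord l)

end Poly

section Sub

variable {k ρ Λ₀ K : Type} [Field k] [Fintype ρ] [DecidableEq ρ] [Fintype Λ₀] [DecidableEq Λ₀]
  [Field K] [Algebra k K] {r : ℕ} (π : P2 k →ₐ[k] K) (lam : Λ₀ → Fin r → k) (y : Fin r → k)

/-- The translation by `y`. -/
def tr : MvPolynomial (Fin (2 + r)) k →ₐ[k] MvPolynomial (Fin (2 + r)) k :=
  aeval (Fin.append (fun j => X (Fin.castAdd r j)) fun i => C (y i) + X (Fin.natAdd 2 i))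

theorem tr_x (j : Fin 2) : tr y (X (Fin.castAdd r j)) = X (Fin.castAdd r j) := by simp [tr]

theorem tr_y (i : Fin r) : tr y (X (Fin.natAdd 2 i)) = C (y i) + X (Fin.natAdd 2 i) := by
  simp [tr]

theorem tr_rename (P : P2 k) : tr y (rename (Fin.castAdd r) P) = rename (Fin.castAdd r) P := by
  induction P using MvPolynomial.induction_on with
  | C c => rw [rename_C, algHom_C, algebraMap_eq]
  | add p q hp hq => simp only [map_add, hp, hq]
  | mul_X p j hp => simp only [map_mul, hp, rename_X, tr_x]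

theorem tr_d (v : Fin (2 + r)) (F : MvPolynomial (Fin (2 + r)) k) :
    tr y (pderiv v F) = pderiv v (tr y F) := by
  induction F using MvPolynomial.induction_on with
  | C c => simp
  | add p q hp hq => simp only [map_add, hp, hq]
  | mul_X p n hp =>
    simp only [map_mul, Derivation.leibniz, smul_eq_mul, map_add, hp]
    congr 2
    induction n using Fin.addCases with
    | left j => rw [tr_x, pderiv_X, Pi.single_apply]; split_ifs <;> simp
    | right i =>
      rw [tr_y, map_add, pderiv_C, zero_add, pderiv_X, Pi.single_apply]; split_ifs <;> simp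

/-- Directional derivatives at the base point `y`. -/
def Sy (μ : Λ₀ ⊕ Fin r → ℕ) (F : MvPolynomial (Fin (2 + r)) k) : K := S π lam μ (tr y F)

variable (μ : Λ₀ ⊕ Fin r → ℕ) (F F' : MvPolynomial (Fin (2 + r)) k)

theorem Sy_add : Sy π lam y μ (F + F') = Sy π lam y μ F + Sy π lam y μ F' := by
  rw [Sy, map_add, S_add, Sy, Sy]

theorem Sy_zero : Sy π lam y μ 0 = 0 := by rw [Sy, map_zero, S_zero]

theorem Sy_C (c : k) : Sy π lam y μ (C c * F) = algebraMap k K c * Sy π lam y μ F := by
  rw [Sy, map_mul, algHom_C, algebraMap_eq, S_C, Sy]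

theorem Sy_x (j : Fin 2) :
    Sy π lam y μ (X (Fin.castAdd r j) * F) = π (X j) * Sy π lam y μ F := by
  rw [Sy, map_mul, tr_x, S_x, Sy]

theorem Sy_y (i : Fin r) : Sy π lam y μ (X (Fin.natAdd 2 i) * F) =
    algebraMap k K (y i) * Sy π lam y μ F +
    (∑ l, algebraMap k K (lam l i) * (μ (.inl l) * Sy π lam y (μ - Pi.single (.inl l) 1) F) +
      μ (.inr i) * Sy π lam y (μ - Pi.single (.inr i) 1) F) := by
  rw [Sy, map_mul, tr_y, add_mul, S_add, S_C, S_y]
  rfl

theorem Sy_dy (i : Fin r) :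
    Sy π lam y μ (pderiv (Fin.natAdd 2 i) F) = Sy π lam y (μ + Pi.single (.inr i) 1) F := by
  rw [Sy, tr_d, S_dy, Sy]

theorem Sy_dx (D : Derivation k K K) (j : Fin 2)
    (hD : ∀ j', D (π (X j')) = if j = j' then 1 else 0) :
    Sy π lam y μ (pderiv (Fin.castAdd r j) F) = D (Sy π lam y μ F) := by
  rw [Sy, tr_d, S_dx _ _ _ _ D j hD, Sy]

theorem Th_gL (f : Fin r ⊕ ρ → P2 k) (β : Fin r → ρ) (blk : Λ₀ → ρ)
    (hl : ∀ l i, lam l i ≠ 0 → β i = blk l) (j : ρ) :
    PM.Th π lam (tr y (gL f β j)) = C (π (bm f β y j)) + ∑ v with Sum.elim blk β v = j,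
      C (Sum.elim (fun l => π (lc f (lam l))) (fun i => π (f (.inl i))) v) * X v := by
  have h : ∀ l, (∑ i, if β i = j then C (algebraMap k K (lam l i)) * X (Sum.inl l) *
      C (π (f (.inl i))) else 0 : MvPolynomial (Λ₀ ⊕ Fin r) K) =
      if blk l = j then C (π (lc f (lam l))) * X (.inl l) else 0 := fun l => by
    split_ifs with e
    · simp only [lc, map_sum, map_mul, algHom_C, Finset.sum_mul]
      refine Finset.sum_congr rfl fun i _ => ?_
      by_cases h0 : lam l i = 0
      · simp [h0]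
      · rw [if_pos ((hl l i h0).trans e)]
        ring
    · refine Finset.sum_eq_zero fun i _ => ?_
      by_cases h0 : lam l i = 0
      · simp [h0]
      · rw [if_neg fun e' => e ((hl l i h0).symm.trans e')]
  simp only [gL, bm, map_add, map_sum, tr_rename, Th_rename,
    Finset.sum_filter, Fintype.sum_sum_type, Sum.elim_inl, Sum.elim_inr, ← h]
  rw [add_assoc, Finset.sum_comm, ← Finset.sum_add_distrib, ← Finset.sum_add_distrib]
  congr 1
  refine Finset.sum_congr rfl fun i _ => ?_
  split_ifs with e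
  · simp only [map_mul, tr_rename, tr_y, map_add, Th_rename, Th_y, algHom_C, add_mul,
      Finset.sum_mul, MvPolynomial.algebraMap_apply]
    ring
  · simp

theorem Sy_pow (f : Fin r ⊕ ρ → P2 k) (β : Fin r → ρ) (blk : Λ₀ → ρ)
    (hl : ∀ l i, lam l i ≠ 0 → β i = blk l) (a : Λ₀ → ℕ) (c : Fin r → ℕ) (n : ρ → ℕ) :
    Sy π lam y (Sum.elim a c) (∏ j, gL f β j ^ n j) =
      (∏ j, ((n j).descFactorial (bsum blk a j + bsum β c j) : K) *
        π (bm f β y j) ^ (n j - (bsum blk a j + bsum β c j))) *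
        ((∏ l, π (lc f (lam l)) ^ a l) * ∏ i, π (f (.inl i)) ^ c i) := by
  classical
  simp only [Sy, S, map_prod, map_pow, Th_gL π lam y f β blk hl]
  rw [T_prod, Fintype.prod_sum_type]
  simp only [bsum.eq_1 (Sum.elim blk β), bsum_elim]
  rfl

end Sub

section Rel

variable {k Λ₀ Λ₁ K : Type} [Field k] [Fintype Λ₀] [DecidableEq Λ₀] [Fintype Λ₁]
  [DecidableEq Λ₁] [Field K] [Algebra k K] [CharZero K]
  (E : (Λ₀ ⊕ Λ₁ → ℕ) → K) (s : Λ₀ ⊕ Λ₁ → ℚ) (V : Submodule k K)

/-- The quotient `Y / E` is interpolated by a rational function with value `z` modulo `V`. -/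
def Rel (α : Λ₀ → ℕ) (Y : (Λ₀ ⊕ Λ₁ → ℕ) → (Λ₀ → ℕ) → K) (z : K) : Prop :=
  ∃ (q : (Λ₀ ⊕ Λ₁ → ℚ) → k) (F : (Λ₀ ⊕ Λ₁ → ℚ) → K), (Poly fun x => algebraMap k K (q x)) ∧
    Poly F ∧ q s ≠ 0 ∧ F s - algebraMap k K (q s) * z ∈ V ∧
    ∀ a a', (fun l => a (.inl l)) = α + a' →
      F (fun l => a l) * E a = algebraMap k K (q fun l => a l) * Y a a'

variable {E s V} {α : Λ₀ → ℕ} {Y Y' : (Λ₀ ⊕ Λ₁ → ℕ) → (Λ₀ → ℕ) → K} {z z' : K}

theorem Rel.zero : Rel E s V α (fun _ _ => 0) 0 :=
  ⟨fun _ => 1, fun _ => 0, Poly.const _, Poly.const _, one_ne_zero, by simp, by simp⟩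

theorem Rel.add (h : Rel E s V α Y z) (h' : Rel E s V α Y' z') :
    Rel E s V α (fun a a' => Y a a' + Y' a a') (z + z') := by
  obtain ⟨q, F, h1, h2, h3, h4, h5⟩ := h
  obtain ⟨q', F', h1', h2', h3', h4', h5'⟩ := h'
  refine ⟨fun x => q x * q' x, fun x => algebraMap k K (q' x) * F x + algebraMap k K (q x) * F' x,
    by simpa using h1.mul h1', (h1'.mul h2).add (h1.mul h2'), mul_ne_zero h3 h3', ?_,
    fun a a' e => ?_⟩
  · convert add_mem (alg_mem (q' s) h4) (alg_mem (q s) h4') using 1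
    rw [map_mul]
    ring
  · simp only [map_mul]
    linear_combination algebraMap k K (q' fun l => a l) * h5 a a' e +
      algebraMap k K (q fun l => a l) * h5' a a' e

theorem Rel.sum {ι : Type} (t : Finset ι) {G : ι → (Λ₀ ⊕ Λ₁ → ℕ) → (Λ₀ → ℕ) → K}
    (h : ∀ i, Rel E s V α (G i) 0) : Rel E s V α (fun a a' => ∑ i ∈ t, G i a a') 0 := by
  classical
  induction t using Finset.induction_on with
  | empty => simpa using Rel.zero
  | insert i t hi ih => simpa only [Finset.sum_insert hi, add_zero] using (h i).add ih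

theorem Rel.mulk (h : Rel E s V α Y z) (p : (Λ₀ ⊕ Λ₁ → ℚ) → k)
    (hp : Poly fun x => algebraMap k K (p x)) :
    Rel E s V α (fun a a' => algebraMap k K (p fun l => a l) * Y a a')
      (algebraMap k K (p s) * z) := by
  obtain ⟨q, F, h1, h2, h3, h4, h5⟩ := h
  refine ⟨q, fun x => algebraMap k K (p x) * F x, h1, hp.mul h2, h3, ?_, fun a a' e => ?_⟩
  · convert alg_mem (p s) h4 using 1
    ring
  · linear_combination algebraMap k K (p fun l => a l) * h5 a a' e

theorem Rel.mulc (h : Rel E s V α Y z) (c : k) :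
    Rel E s V α (fun a a' => algebraMap k K c * Y a a') (algebraMap k K c * z) :=
  h.mulk (fun _ => c) (Poly.const _)

theorem Rel.mulK (h : Rel E s V α Y z) (u : K) (hu : ∀ z ∈ V, u * z ∈ V) :
    Rel E s V α (fun a a' => u * Y a a') (u * z) := by
  obtain ⟨q, F, h1, h2, h3, h4, h5⟩ := h
  refine ⟨q, fun x => u * F x, h1, (Poly.const _).mul h2, h3, ?_, fun a a' e => ?_⟩
  · convert hu _ h4 using 1
    ring
  · linear_combination u * h5 a a' e

theorem Rel.shift (l : Λ₀) (h : Rel E s V (α + Pi.single l 1) Y 0) :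
    Rel E s V α (fun a a' => a' l * Y a (a' - Pi.single l 1)) 0 := by
  obtain ⟨q, F, h1, h2, h3, h4, h5⟩ := h
  refine ⟨q, fun x => ((x (.inl l) : K) - α l) * F x, h1,
    ((Poly.coord _).sub (Poly.const _)).mul h2, h3, ?_, fun a a' e => ?_⟩
  · have := rat_mem (s (.inl l) - α l) h4
    simpa using this
  · have e1 : ((a (.inl l) : ℚ) : K) - α l = a' l := by simp [congrFun e l]
    beta_reduce
    rw [e1]
    by_cases hb : a' l = 0
    · simp [hb]
    · linear_combination (a' l : K) * h5 a (a' - Pi.single l 1)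
        (by rw [e, add_assoc, add_comm (Pi.single l 1), sub_add hb])

theorem Rel.der (h : Rel E s V α Y 0) (D : Derivation k K K) (d : Λ₀ ⊕ Λ₁ → K)
    (hE : ∀ a, D (E a) = (∑ l, (a l : K) * d l) * E a)
    (hV : ∀ z ∈ V, D z + (∑ l, (s l : K) * d l) * z ∈ V) :
    Rel E s V α (fun a a' => D (Y a a')) 0 := by
  obtain ⟨q, F, h1, h2, h3, h4, h5⟩ := h
  refine ⟨q, fun x => D (F x) + (∑ l, (x l : K) * d l) * F x, h1, (h2.der D).add
    ((Poly.sum _ fun l => (Poly.coord l).mul (Poly.const _)).mul h2), h3, ?_, fun a a' e => ?_⟩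
  · simpa using hV _ (by simpa using h4)
  · have := congrArg D (h5 a a' e)
    rw [D.leibniz, D.leibniz, D.map_algebraMap, hE] at this
    simp only [smul_eq_mul, Rat.cast_natCast] at this ⊢
    linear_combination this

theorem Rel.uniq (hE : ∀ a, E a ≠ 0) (h : Rel E s V 0 Y z) (h' : Rel E s V 0 Y z') :
    z - z' ∈ V := by
  obtain ⟨q, F, h1, h2, h3, h4, h5⟩ := h
  obtain ⟨q', F', h1', h2', h3', h4', h5'⟩ := h'
  have h6 := ((h1'.mul h2).sub (h1.mul h2')).zero (fun a => mul_right_cancel₀ (hE a) (by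
    linear_combination algebraMap k K (q' fun l => a l) * h5 a _ (zero_add _).symm -
      algebraMap k K (q fun l => a l) * h5' a _ (zero_add _).symm)) s
  have h7 := alg_mem (q s * q' s)⁻¹ (sub_mem (alg_mem (q s) h4') (alg_mem (q' s) h4))
  have h8 : algebraMap k K (q s) ≠ 0 := by simpa using h3
  have h9 : algebraMap k K (q' s) ≠ 0 := by simpa using h3'
  convert h7 using 1
  rw [map_inv₀, map_mul, eq_inv_mul_iff_mul_eq₀ (mul_ne_zero h8 h9)]
  linear_combination h6

end Rel

section Main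

variable {k ρ Λ₀ Λ₁ K : Type} [Field k] [Fintype ρ] [DecidableEq ρ] [Fintype Λ₀] [DecidableEq Λ₀]
  [Fintype Λ₁] [DecidableEq Λ₁] [Field K] [Algebra k K] [CharZero k] [CharZero K] {r : ℕ}
  (π : P2 k →ₐ[k] K) (lam : Λ₀ → Fin r → k) (y : Fin r → k) (f : Fin r ⊕ ρ → P2 k)
  (β : Fin r → ρ) (blk : Λ₀ → ρ) (act : Λ₁ → ρ)

/-- The members with an exponent. -/
abbrev uu : Λ₀ ⊕ Λ₁ → P2 k := Sum.elim (fun l => lc f (lam l)) fun l₁ => bm f β y (act l₁)

/-- The value of the derivative of the product at a lattice point. -/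
def Ee (a : Λ₀ ⊕ Λ₁ → ℕ) : K :=
  ((∏ j, (bsum (Sum.elim blk act) a j).descFactorial (bsum blk (fun l => a (.inl l)) j) : ℕ) : K) *
    ∏ l, π (uu lam y f β act l) ^ a l

theorem prod_fib (w : ρ → K) (b : Λ₁ → ℕ) : ∏ l, w (act l) ^ b l = ∏ j, w j ^ bsum act b j := by
  rw [← Finset.prod_fiberwise Finset.univ act]
  refine Finset.prod_congr rfl fun j _ => ?_
  rw [bsum, ← Finset.prod_pow_eq_pow_sum]
  exact Finset.prod_congr rfl fun l hl => by rw [(Finset.mem_filter.1 hl).2]

theorem nn_eq {a : Λ₀ ⊕ Λ₁ → ℕ} {α a' : Λ₀ → ℕ} (e : (fun l => a (.inl l)) = α + a') (j : ρ) :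
    bsum (Sum.elim blk act) a j =
      bsum blk α j + bsum blk a' j + bsum act (fun l => a (.inr l)) j := by
  rw [bsum, bsum_elim, e, bsum_add]
  rfl

theorem Ee_eq {a : Λ₀ ⊕ Λ₁ → ℕ} {α a' : Λ₀ → ℕ} (e : (fun l => a (.inl l)) = α + a') :
    Ee π lam y f β blk act a = (∏ j, ((bsum blk α j + bsum blk a' j +
      bsum act (fun l => a (.inr l)) j).descFactorial (bsum blk α j + bsum blk a' j) : K) *
      π (bm f β y j) ^ bsum act (fun l => a (.inr l)) j) *
      ((∏ l, π (lc f (lam l)) ^ α l) * ∏ l, π (lc f (lam l)) ^ a' l) := by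
  rw [Ee, Fintype.prod_sum_type, Finset.prod_mul_distrib, ← prod_fib act fun j => π (bm f β y j),
    ← Finset.prod_mul_distrib, e]
  simp only [nn_eq blk act e, bsum_add, congrFun e, Pi.add_apply, pow_add, Sum.elim_inl,
    Sum.elim_inr, Finset.prod_mul_distrib]
  push_cast
  ring

/-- The exponent of the base member of block `j`. -/
def bq (x : Λ₀ ⊕ Λ₁ → ℚ) (j : ρ) : ℚ := ∑ l with act l = j, x (.inr l)

theorem bq_nat (a : Λ₀ ⊕ Λ₁ → ℕ) (j : ρ) :
    bq act (fun l => (a l : ℚ)) j = bsum act (fun l => a (.inr l)) j := by simp [bq, bsum]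

theorem bq_poly (j : ρ) : Poly fun x : Λ₀ ⊕ Λ₁ → ℚ => (bq act x j : K) := by
  simpa [bq] using Poly.sum _ fun l => Poly.coord (K := K) (Sum.inr l : Λ₀ ⊕ Λ₁)

theorem bs_nat (a : Λ₀ ⊕ Λ₁ → ℕ) :
    (bs (Sum.elim blk act) fun l => (a l : ℚ)) = fun j => (bsum (Sum.elim blk act) a j : k) := by
  ext j
  simp [bs, bsum]

variable {π lam y f β blk act} {s : Λ₀ ⊕ Λ₁ → ℚ} {V : Submodule k K}

theorem bq_ne (hi : Function.Injective act)
    (hs : ∀ l l₁, blk l = act l₁ → ∀ n : ℕ, s (.inr l₁) ≠ -(n + 1)) {j : ρ}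
    (h : (∃ l₁, act l₁ = j) → ∃ l, blk l = j) (t : ℕ) : (bq act s j : k) + t + 1 ≠ 0 := by
  suffices bq act s j + t + 1 ≠ 0 by exact_mod_cast this
  by_cases e : ∃ l₁, act l₁ = j
  · obtain ⟨l, hl⟩ := h e
    obtain ⟨l₁, rfl⟩ := e
    have := hs l l₁ hl t
    simp only [bq, hi.eq_iff, Finset.filter_eq', Finset.mem_univ, if_true, Finset.sum_singleton]
    intro h0
    exact this (by linarith)
  · push Not at e
    simp only [bq, e, Finset.filter_false, Finset.sum_empty]
    positivity

theorem expand (α : Λ₀ ⊕ Λ₁ → ℕ) (d : K)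
    (h1 : ∀ γ : Fin r ⊕ ρ → ℕ, (∀ j, ∑ i with bp β i = j, γ i =
      ∑ l with Sum.elim blk act l = j, α l + 1) → (∏ i, π (f i) ^ γ i) / d ∈ V)
    (M : ρ → ℕ) (γ : Fin r ⊕ ρ → ℕ)
    (h : ∀ j, bsum (bp β) γ j + M j = bsum (Sum.elim blk act) α j + 1) :
    (∏ j, π (bm f β y j) ^ M j) * ((∏ i, π (f i) ^ γ i) / d) ∈ V := by
  classical
  obtain ⟨N, hN⟩ : ∃ N, ∑ v, M v = N := ⟨_, rfl⟩
  induction N generalizing M γ with
  | zero =>
    obtain rfl : M = 0 := funext fun v => Finset.sum_eq_zero_iff.1 hN v (Finset.mem_univ v)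
    simpa using h1 γ h
  | succ N ih =>
    obtain ⟨j, hj⟩ : ∃ v, M v ≠ 0 := by
      by_contra h
      push Not at h
      simp [h] at hN
    have h2 := sum_sub hj
    obtain ⟨M, rfl⟩ : ∃ ν : ρ → ℕ, M = ν + Pi.single j 1 := ⟨_, (sub_add hj).symm⟩
    rw [add_tsub_cancel_right] at h2
    have h3 : ∀ v, bp β v = j → (∏ j, π (bm f β y j) ^ M j) *
        (π (f v) * (∏ i, π (f i) ^ γ i) / d) ∈ V := fun v hv => by
      have := ih M (γ + Pi.single v 1) (fun j' => by
        rw [← h j', bsum_add, bsum_single, hv, Pi.add_apply]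
        ring) (by omega)
      simpa only [Pi.add_apply, pow_add, Finset.prod_mul_distrib, prod_single,
        mul_comm (π (f v))] using this
    convert add_mem (h3 (.inr j) rfl) (sum_mem (t := Finset.univ.filter fun i => β i = j)
      fun i hi => alg_mem (y i) (h3 (.inl i) (Finset.mem_filter.1 hi).2)) using 1
    simp only [Pi.add_apply, pow_add, Finset.prod_mul_distrib, prod_single]
    generalize ∏ j, π (bm f β y j) ^ M j = P
    simp only [bm, map_add, map_sum, map_mul, algHom_C, add_mul, mul_add, Finset.sum_mul,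
      Finset.mul_sum]
    congr 1
    · ring
    · exact Finset.sum_congr rfl fun i _ => by ring

theorem base1 (hi : Function.Injective act) (hl : ∀ l i, lam l i ≠ 0 → β i = blk l)
    (hs : ∀ l l₁, blk l = act l₁ → ∀ n : ℕ, s (.inr l₁) ≠ -(n + 1))
    (hu : ∀ l, π (uu lam y f β act l) ≠ 0)
    (h1 : (∀ j, (∀ l₁, act l₁ ≠ j) → (bs (Sum.elim blk act) s : ρ → k) j ≠ -1) →
      ∀ (α : Λ₀ ⊕ Λ₁ → ℕ) (γ : Fin r ⊕ ρ → ℕ), (∀ j, ∑ i with bp β i = j, γ i =
        ∑ l with Sum.elim blk act l = j, α l + 1) →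
      (∏ i, π (f i) ^ γ i) / ∏ l, π (uu lam y f β act l) ^ α l ∈ V)
    (α : Λ₀ → ℕ) (c : Fin r → ℕ) :
    Rel (Ee π lam y f β blk act) s V α (fun a a' => Sy π lam y (Sum.elim a' c)
      (∏ j, gL f β j ^ (bsum (Sum.elim blk act) a j + 1))) 0 := by
  classical
  let sp : ρ → Prop := fun j => (∀ l, blk l ≠ j) ∧ bsum β c j = 0 ∧ ∃ l₁, act l₁ = j
  let Jp : ρ → ℕ := fun j => bsum blk α j + 1 - bsum β c j
  let Jm : ρ → ℕ := fun j => bsum β c j - (bsum blk α j + 1)
  have hu0 : ∏ l, π (lc f (lam l)) ^ α l ≠ 0 :=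
    Finset.prod_ne_zero_iff.2 fun l _ => pow_ne_zero _ (hu (.inl l))
  refine ⟨fun x => ∏ j, if sp j then 1 else ∏ t ∈ Finset.range (Jp j), ((bq act x j : k) + t + 1),
    fun x => (∏ j, if sp j then 1 else (algebraMap k K (bs (Sum.elim blk act) x j) + 1) *
      ∏ t ∈ Finset.range (Jm j), ((bq act x j : K) - t)) *
      ((∏ j, π (bm f β y j) ^ Jp j / π (bm f β y j) ^ Jm j) *
        ((∏ i, π (f (.inl i)) ^ c i) / ∏ l, π (lc f (lam l)) ^ α l)), ?_, ?_, ?_, ?_, ?_⟩
  · simp only [map_prod]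
    refine Poly.prod _ fun j => ?_
    split_ifs
    · exact Poly.const _
    · simpa using Poly.prod _ fun t : ℕ =>
        ((bq_poly act j).add (Poly.const (t : K))).add (Poly.const 1)
  · refine (Poly.prod _ fun j => ?_).mul (Poly.const _)
    split_ifs
    · exact Poly.const _
    · refine (Poly.add ?_ (Poly.const 1)).mul (Poly.prod _ fun t : ℕ =>
        (bq_poly act j).sub (Poly.const (t : K)))
      simpa using Poly.ev (k := k) (K := K) (Sum.elim blk act) (X j)
  · refine Finset.prod_ne_zero_iff.2 fun j _ => ?_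
    split_ifs with h
    · exact one_ne_zero
    · refine Finset.prod_ne_zero_iff.2 fun t ht => bq_ne hi hs (fun e => ?_) t
      by_contra h2
      push Not at h2
      have h3 := bsum_eq_zero h2 α
      have h4 : bsum β c j ≠ 0 := fun h4 => h ⟨h2, h4, e⟩
      have := Finset.mem_range.1 ht
      simp only [Jp] at this
      omega
  · rw [mul_zero, sub_zero]
    by_cases hQ : ∀ j, (∀ l₁, act l₁ ≠ j) →
        (bs (Sum.elim blk act) s : ρ → k) j ≠ -1 ∧ Jm j = 0
    · have h2 : ∀ j, bsum act (fun l => Jm (act l)) j = Jm j := fun j => by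
        by_cases e : ∃ l₁, act l₁ = j
        · obtain ⟨l₁, rfl⟩ := e
          simp [bsum, hi.eq_iff, Finset.filter_eq']
        · push Not at e
          rw [bsum_eq_zero e, (hQ j e).2]
      have h3 := expand (y := y) (Sum.elim α fun l => Jm (act l)) _
        (h1 (fun j e => (hQ j e).1) _) Jp (Sum.elim c 0) fun j => by
          rw [bsum, bsum_elim, bsum.eq_1 (Sum.elim blk act), bsum_elim]
          have := h2 j
          simp only [bsum, Sum.elim_inl, Sum.elim_inr, Pi.zero_apply, Finset.sum_const_zero,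
            Jp, Jm] at this ⊢
          omega
      have h4 : ∃ d : k, (∏ j, if sp j then 1 else (algebraMap k K (bs (Sum.elim blk act) s j)
          + 1) * ∏ t ∈ Finset.range (Jm j), ((bq act s j : K) - t)) = algebraMap k K d :=
        ⟨∏ j, if sp j then 1 else (bs (Sum.elim blk act) s j + 1) *
          ∏ t ∈ Finset.range (Jm j), ((bq act s j : k) - t), by simp [apply_ite]⟩
      obtain ⟨d, h4⟩ := h4
      beta_reduce
      rw [h4]
      convert alg_mem d h3 using 2
      simp only [Fintype.prod_sum_type, Sum.elim_inl, Sum.elim_inr, Pi.zero_apply, pow_zero,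
        Finset.prod_const_one, mul_one, prod_fib act fun j => π (bm f β y j), h2,
        Finset.prod_div_distrib]
      ring
    · push Not at hQ
      obtain ⟨j, h2, h3⟩ := hQ
      beta_reduce
      rw [Finset.prod_eq_zero (Finset.mem_univ j), zero_mul]
      · exact zero_mem _
      rw [if_neg fun h : sp j => h.2.2.elim h2]
      by_cases e : (bs (Sum.elim blk act) s : ρ → k) j = -1
      · simp [e]
      · rw [Finset.prod_eq_zero (Finset.mem_range.2 (Nat.pos_of_ne_zero (h3 e))), mul_zero]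
        simp [bq, h2]
  · intro a a' e
    beta_reduce
    rw [Ee_eq π lam y f β blk act e, Sy_pow π lam y f β blk hl, map_prod]
    refine comb hu0 fun j => ?_
    rw [bs_nat, bq_nat, nn_eq blk act e]
    split_ifs with h
    · simp [Jp, Jm, bsum_eq_zero h.1, h.2.1, pow_succ']
    · have := block (bsum blk α j + 1) (bsum blk a' j) (bsum act (fun l => a (.inr l)) j)
        (bsum β c j) (π (bm f β y j)) fun _ h0 h5 =>
          h0 (bsum_eq_zero (fun l₁ e' => hu (.inr l₁) (by rw [← h5, ← e']; rfl)) _)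
      rw [add_right_comm _ 1, add_right_comm _ 1, Nat.succ_descFactorial_succ] at this
      simp only [map_prod, map_add, map_natCast, map_one, Rat.cast_natCast, Jp, Jm,
        nn_eq blk act e]
      rw [← this]
      push_cast
      ring

theorem base0 {loc : Prop} (hi : Function.Injective act)
    (hl : ∀ l i, lam l i ≠ 0 → β i = blk l)
    (hs : ∀ l l₁, blk l = act l₁ → ∀ n : ℕ, s (.inr l₁) ≠ -(n + 1))
    (hu : ∀ l, π (uu lam y f β act l) ≠ 0)
    (hT : ∀ α : Λ₀ ⊕ Λ₁ → ℕ, (loc ∧ α ≠ 0 ∧ ∀ l₁, α (.inr l₁) = 0) →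
      (∏ j, π (bm f β y j) ^ ∑ l with Sum.elim blk act l = j, α l) /
        ∏ l, π (uu lam y f β act l) ^ α l ∈ V)
    (α : Λ₀ → ℕ) (hα : α ≠ 0 → loc) :
    Rel (Ee π lam y f β blk act) s V α (fun a a' => Sy π lam y (Sum.elim a' 0)
      (∏ j, gL f β j ^ bsum (Sum.elim blk act) a j)) (if α = 0 then 1 else 0) := by
  classical
  have hu0 : ∏ l, π (lc f (lam l)) ^ α l ≠ 0 :=
    Finset.prod_ne_zero_iff.2 fun l _ => pow_ne_zero _ (hu (.inl l))
  refine ⟨fun x => ∏ j, ∏ t ∈ Finset.range (bsum blk α j), ((bq act x j : k) + t + 1),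
    fun _ => (∏ _j : ρ, 1) * ((∏ j, π (bm f β y j) ^ bsum blk α j) *
      (1 / ∏ l, π (lc f (lam l)) ^ α l)), ?_, Poly.const _, ?_, ?_, ?_⟩
  · simpa using Poly.prod _ fun j => Poly.prod _ fun t : ℕ =>
      ((bq_poly act j).add (Poly.const (t : K))).add (Poly.const 1)
  · refine Finset.prod_ne_zero_iff.2 fun j _ => Finset.prod_ne_zero_iff.2 fun t ht =>
      bq_ne hi hs (fun _ => ?_) t
    by_contra h2
    push Not at h2
    simp [bsum_eq_zero h2 α] at ht
  · split_ifs with h
    · simp [h, bsum_zero]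
    · have := hT (Sum.elim α 0) ⟨hα h, fun e => h (funext fun l => congrFun e (.inl l)),
        fun _ => rfl⟩
      simpa [bsum_elim, div_eq_mul_inv] using this
  · intro a a' e
    beta_reduce
    rw [Ee_eq π lam y f β blk act e, Sy_pow π lam y f β blk hl, map_prod]
    simp only [Pi.zero_apply, pow_zero, Finset.prod_const_one (s := (Finset.univ : Finset (Fin r)))]
    refine comb hu0 fun j => ?_
    have := block (bsum blk α j) (bsum blk a' j) (bsum act (fun l => a (.inr l)) j) 0
      (π (bm f β y j)) fun h => absurd h (Nat.not_lt_zero _)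
    simpa [bq_nat, nn_eq blk act e, bsum_zero] using this

theorem left {loc : Prop} (hc : loc) (hi : Function.Injective act)
    (hl : ∀ l i, lam l i ≠ 0 → β i = blk l)
    (hs : ∀ l l₁, blk l = act l₁ → ∀ n : ℕ, s (.inr l₁) ≠ -(n + 1))
    (hu : ∀ l, π (uu lam y f β act l) ≠ 0)
    (hT : ∀ α : Λ₀ ⊕ Λ₁ → ℕ, (loc ∧ α ≠ 0 ∧ ∀ l₁, α (.inr l₁) = 0) →
      (∏ j, π (bm f β y j) ^ ∑ l with Sum.elim blk act l = j, α l) /
        ∏ l, π (uu lam y f β act l) ^ α l ∈ V)
    (h2 : ∀ z ∈ V, ∀ j, π (X j) * z ∈ V) (H : MvPolynomial (Fin (2 + r)) k) (α : Λ₀ → ℕ) :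
    Rel (Ee π lam y f β blk act) s V α (fun a a' => Sy π lam y (Sum.elim a' 0)
      (H * ∏ j, gL f β j ^ bsum (Sum.elim blk act) a j)) (if α = 0 then π (rs y H) else 0) := by
  induction H using MvPolynomial.induction_on generalizing α with
  | C c => simpa [Sy_C, rs] using (base0 hi hl hs hu hT α fun _ => hc).mulc c
  | add p q hp hq =>
    have := (hp α).add (hq α)
    simp only [add_mul, Sy_add, rs, map_add] at this ⊢
    split_ifs at this ⊢ <;> simpa using this
  | mul_X p m hp =>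
    rw [mul_comm p (X m)]
    simp only [mul_assoc]
    induction m using Fin.addCases with
    | left j =>
      have h5 : π (rs y (X (Fin.castAdd r j) * p)) = π (X j) * π (rs y p) := by simp [rs]
      simpa only [Sy_x, h5, mul_ite, mul_zero] using
        (hp α).mulK (π (X j)) fun z hz => h2 z hz j
    | right i =>
      have h3 : ∀ l, Rel (Ee π lam y f β blk act) s V (α + Pi.single l 1) (fun a a' =>
          Sy π lam y (Sum.elim a' 0) (p * ∏ j, gL f β j ^ bsum (Sum.elim blk act) a j)) 0 :=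
        fun l => by
          have := hp (α + Pi.single l 1)
          rwa [if_neg fun e => by simpa using congrFun e l] at this
      have h4 := ((hp α).mulc (y i)).add (Rel.sum Finset.univ fun l => by
        simpa only [mul_zero] using ((h3 l).shift l).mulc (lam l i))
      have h5 : π (rs y (X (Fin.natAdd 2 i) * p)) = algebraMap k K (y i) * π (rs y p) := by
        simp [rs]
      simpa only [Sy_y, h5, elim_l, Sum.elim_inl, Sum.elim_inr, Pi.zero_apply, Nat.cast_zero,
        zero_mul, add_zero, mul_ite, mul_zero] using h4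

/-- All derivatives of the family `G` are interpolated with value in `V`. -/
def Good (π : P2 k →ₐ[k] K) (lam : Λ₀ → Fin r → k) (y : Fin r → k) (E : (Λ₀ ⊕ Λ₁ → ℕ) → K)
    (s : Λ₀ ⊕ Λ₁ → ℚ) (V : Submodule k K)
    (G : (Λ₀ ⊕ Λ₁ → ℕ) → MvPolynomial (Fin (2 + r)) k) : Prop :=
  ∀ α c, Rel E s V α (fun a a' => Sy π lam y (Sum.elim a' c) (G a)) 0

variable {E : (Λ₀ ⊕ Λ₁ → ℕ) → K} {G G' : (Λ₀ ⊕ Λ₁ → ℕ) → MvPolynomial (Fin (2 + r)) k}

theorem Good.add (h : Good π lam y E s V G) (h' : Good π lam y E s V G') :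
    Good π lam y E s V fun a => G a + G' a := fun α c => by
  simpa only [Sy_add, add_zero] using (h α c).add (h' α c)

theorem Good.smul (h : Good π lam y E s V G) (p : (Λ₀ ⊕ Λ₁ → ℚ) → k)
    (hp : Poly fun x => algebraMap k K (p x)) :
    Good π lam y E s V fun a => p (fun l => a l) • G a := fun α c => by
  simpa only [smul_eq_C_mul, Sy_C, mul_zero] using (h α c).mulk p hp

theorem Good.muly (h : Good π lam y E s V G) (i : Fin r) :
    Good π lam y E s V fun a => X (Fin.natAdd 2 i) * G a := fun α c => by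
  have h1 := ((h α c).mulc (y i)).add ((Rel.sum Finset.univ fun l => by
    simpa only [mul_zero] using ((h (α + Pi.single l 1) c).shift l).mulc (lam l i)).add
      ((h α (c - Pi.single i 1)).mulc (c i)))
  simpa only [Sy_y, elim_l, elim_r, Sum.elim_inl, Sum.elim_inr, mul_zero, add_zero,
    map_natCast] using h1

end Main

end QN

open QN PM in
theorem tw3_ok {k ρ : Type} [Field k] [CharZero k] [Fintype ρ] [DecidableEq ρ] : S_tw3 k ρ := by
  classical
  rintro loc r f β H b ⟨d, c, P, hP, e⟩ hH y Λ₀ Λ₁ _ _ blk lam act s hi hl hs K _ _ π D V hD hu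
    h1 hT h2 h3
  have : CharZero K := charZero_of_injective_algebraMap (algebraMap k K).injective
  have key : ∀ P ∈ weyl k (2 + r), ∀ G, Good π lam y (Ee π lam y f β blk act) s V G →
      Good π lam y (Ee π lam y f β blk act) s V fun m => P (G m) := fun P hP => by
    induction hP using Algebra.adjoin_induction with
    | mem P hP =>
      intro G hG
      rcases hP with ⟨j, rfl⟩ | ⟨j, rfl⟩ <;> induction j using Fin.addCases
      · exact fun α c => by simpa [Sy_x] using (hG α c).mulK _ fun z hz => h2 z hz _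
      · exact hG.muly _
      · rename_i j
        refine fun α c => ?_
        have := (hG α c).der (D j) _ (fun a => by
          rw [Ee, Derivation.leibniz, der_prod _ _ hu, Derivation.map_natCast]
          simp only [smul_eq_mul]
          ring) fun z hz => h3 z hz j
        simp only [← Sy_dx _ _ _ _ _ (D j) j (hD j)] at this
        exact this
      · rename_i i
        refine fun α c => ?_
        have := hG α (c + Pi.single i 1)
        simp only [← elim_r', ← Sy_dy] at this
        exact this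
    | algebraMap c => exact fun G hG => hG.smul (fun _ => c) (QN.Poly.const _)
    | add P Q _ _ hP hQ => exact fun G hG => (hP G hG).add (hQ G hG)
    | mul P Q _ _ hP hQ => exact fun G hG => hP _ (hQ G hG)
  have hs' : ∀ t : Finset (Fin d), Good π lam y (Ee π lam y f β blk act) s V fun a =>
      ∑ i ∈ t, eval (bs (Sum.elim blk act) fun l => a l) (c i) •
        P i (∏ j, gL f β j ^ (bsum (Sum.elim blk act) a j + 1)) := fun t => by
    induction t using Finset.induction_on with
    | empty => exact fun α c => by simpa [Sy_zero] using Rel.zero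
    | insert i t hi' ih =>
      simpa only [Finset.sum_insert hi'] using
        ((key _ (hP i) _ (base1 hi hl hs hu h1)).smul _ (QN.Poly.ev _ (c i))).add ih
  have h4 := hs' Finset.univ 0 0
  simp only [bs_nat, e] at h4
  simp only [smul_eq_C_mul, Sy_C] at h4
  have h5 : Rel (Ee π lam y f β blk act) s V 0 (fun a a' => Sy π lam y (Sum.elim a' 0)
      (H * ∏ j, gL f β j ^ bsum (Sum.elim blk act) a j)) (π (rs y H)) := by
    by_cases hc : loc
    · simpa using left hc hi hl hs hu hT h2 H 0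
    · simpa [hH hc, rs] using base0 hi hl hs hu hT 0 fun h => absurd rfl h
  have h6 := h5.mulk _ (QN.Poly.ev (Sum.elim blk act) b)
  simp only [bs_nat] at h6
  have hE : ∀ a, Ee π lam y f β blk act a ≠ 0 := fun a => by
    refine mul_ne_zero (Nat.cast_ne_zero.2 (Finset.prod_ne_zero_iff.2 fun j _ => ?_))
      (Finset.prod_ne_zero_iff.2 fun l _ => pow_ne_zero _ (hu l))
    rw [Ne, Nat.descFactorial_eq_zero_iff_lt, bsum, bsum_elim]
    omega
  simpa [Algebra.smul_def] using h6.uniq hE h4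

end

end Pool.Agent.P.MP_b91a16_ag.Id.Ln
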