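import Pool.Agent.P.MP_b91a16_ag.Ln.Stmt

/-! Package O: the volume of `Tot` in terms of the orders of the ideal. -/

set_option linter.unusedSectionVars false

open MvPolynomial

namespace Pool.Agent.P.MP_b91a16_ag.Id.Ln

noncomputable section

namespace QO

variable {k ι : Type} [Field k] [Fintype ι] (g : ι ⊕ Unit → P2 k)

/-- The polynomial along the arc. -/
def GT {R : Type} [CommRing R] [Algebra k R] (γ : Fin 2 ⊕ ι → PowerSeries R) : PowerSeries R :=
  aeval (fun j => γ (.inl j)) (g (.inr ())) + ∑ i, PowerSeries.X * γ (.inr i) *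
    aeval (fun j => γ (.inl j)) (g (.inl i))

def cG (p : ℕ) : MvPolynomial ((Fin 2 ⊕ ι) × ℕ) k :=
  PowerSeries.coeff p (GT g (ser (X : (Fin 2 ⊕ ι) × ℕ → MvPolynomial ((Fin 2 ⊕ ι) × ℕ) k)))

def cD (G : P2 k) (p : ℕ) : MvPolynomial ((Fin 2 ⊕ ι) × ℕ) k :=
  PowerSeries.coeff p (aeval (fun j : Fin 2 =>
    ser (X : (Fin 2 ⊕ ι) × ℕ → MvPolynomial ((Fin 2 ⊕ ι) × ℕ) k) (.inl j)) G)

theorem map_in {K : Type} [CommRing K] [Algebra k K] (x : (Fin 2 ⊕ ι) × ℕ → K) (G : P2 k) :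
    PowerSeries.mapAlgHom (aeval x : MvPolynomial ((Fin 2 ⊕ ι) × ℕ) k →ₐ[k] K)
      (aeval (fun j : Fin 2 =>
        ser (X : (Fin 2 ⊕ ι) × ℕ → MvPolynomial ((Fin 2 ⊕ ι) × ℕ) k) (.inl j)) G) =
      aeval (fun j : Fin 2 => ser x (.inl j)) G := by
  classical
  exact algHom_aeval _ _ _ (fun j => map_ser x (.inl j)) G

theorem aeval_cD {K : Type} [CommRing K] [Algebra k K] (x : (Fin 2 ⊕ ι) × ℕ → K) (G : P2 k)
    (p : ℕ) : aeval x (cD G p) =
      PowerSeries.coeff p (aeval (fun j : Fin 2 => ser x (.inl j)) G) := by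
  rw [← map_in x G, PowerSeries.mapAlgHom_apply, PowerSeries.coeff_map]
  rfl

theorem aeval_cG {K : Type} [CommRing K] [Algebra k K] (x : (Fin 2 ⊕ ι) × ℕ → K) (p : ℕ) :
    aeval x (cG g p) = PowerSeries.coeff p (GT g (ser x)) := by
  classical
  have h : GT g (ser x) =
      PowerSeries.mapAlgHom (aeval x : MvPolynomial ((Fin 2 ⊕ ι) × ℕ) k →ₐ[k] K)
        (GT g (ser X)) := by
    have hX : PowerSeries.mapAlgHom (aeval x : MvPolynomial ((Fin 2 ⊕ ι) × ℕ) k →ₐ[k] K)
        PowerSeries.X = PowerSeries.X := by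
      rw [PowerSeries.mapAlgHom_apply, PowerSeries.map_X]
    simp only [GT, map_add, map_sum, map_mul, map_in, map_ser, hX]
  rw [h, PowerSeries.mapAlgHom_apply, PowerSeries.coeff_map]
  rfl

def emb (ι : Type) : Fin 2 × ℕ ↪ (Fin 2 ⊕ ι) × ℕ :=
  (Function.Embedding.inl).prodMap (Function.Embedding.refl ℕ)

theorem ser_emb {K : Type} [CommRing K] (x : (Fin 2 ⊕ ι) × ℕ → K) :
    ser (x ∘ emb ι) = fun j : Fin 2 => ser x (.inl j) := rfl

variable [DecidableEq ι]

theorem update_in {K : Type} [CommRing K] (x : (Fin 2 ⊕ ι) × ℕ → K) (i : ι) (l : ℕ) (t : K) :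
    (fun j : Fin 2 => ser (Function.update x (.inr i, l) t) (.inl j)) =
      fun j : Fin 2 => ser x (.inl j) := by
  funext j
  rw [ser_update, Function.update_of_ne (by simp)]

theorem GT_update {K : Type} [CommRing K] [Algebra k K] (x : (Fin 2 ⊕ ι) × ℕ → K) (i : ι)
    (l : ℕ) (t : K) : GT g (ser (Function.update x (.inr i, l) t)) =
      GT g (ser x) + PowerSeries.X ^ (l + 1) *
        (PowerSeries.C (t - x (.inr i, l)) *
          aeval (fun j : Fin 2 => ser x (.inl j)) (g (.inl i))) := by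
  rw [GT, GT, update_in, ← Finset.add_sum_erase _ _ (Finset.mem_univ i),
    ← Finset.add_sum_erase _ _ (Finset.mem_univ i)]
  have h : ∑ j ∈ Finset.univ.erase i, PowerSeries.X * ser (Function.update x (.inr i, l) t) (.inr j) *
      aeval (fun j : Fin 2 => ser x (.inl j)) (g (.inl j)) =
      ∑ j ∈ Finset.univ.erase i, PowerSeries.X * ser x (.inr j) *
      aeval (fun j : Fin 2 => ser x (.inl j)) (g (.inl j)) := by
    refine Finset.sum_congr rfl fun j hj => ?_
    rw [ser_update, Function.update_of_ne fun h =>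
      Finset.ne_of_mem_erase hj (Sum.inr_injective h)]
  rw [h, ser_update, Function.update_self]
  ring

omit [DecidableEq ι] in
theorem th_iff (s : Bool) (e : ℕ) (K : Type) [Field K] [Algebra k K]
    (γ : Fin 2 → PowerSeries K) :
    Th (ΞL k ι s) g (bp fun _ => ()) (Finsupp.single () e) K γ ↔
      ((∀ l, PowerSeries.X ^ e ∣ aeval γ (g l)) ∧
        ∃ l, PowerSeries.coeff e (aeval γ (g l)) ≠ 0) ∧
      PowerSeries.coeff e (aeval γ (g (.inr ()))) = if s then 1 else 0 := by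
  have hb : ∀ l : ι ⊕ Unit, bp (fun _ : ι => ()) l = () := fun _ => rfl
  simp only [Th, Ord, ΞL, Unique.forall_iff, hb, Finsupp.single_eq_same, true_and, dvd_succ_iff]
  refine and_congr_left' (and_congr_right fun H => exists_congr fun i => by simp [H i])

omit [DecidableEq ι] in
theorem dvd_GT {K : Type} [CommRing K] [Algebra k K] {γ : Fin 2 ⊕ ι → PowerSeries K} {e : ℕ}
    (h : ∀ l, PowerSeries.X ^ e ∣ aeval (fun j => γ (.inl j)) (g l)) :
    PowerSeries.X ^ (e + 1) ∣ GT g γ - aeval (fun j => γ (.inl j)) (g (.inr ())) := by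
  rw [GT, add_sub_cancel_left, pow_succ']
  exact Finset.dvd_sum fun i _ => mul_dvd_mul (Dvd.intro _ rfl) (h _)

omit [DecidableEq ι] in
theorem coeff_GT {K : Type} [Field K] [Algebra k K] {γ : Fin 2 ⊕ ι → PowerSeries K} {e : ℕ}
    (h : ∀ l, PowerSeries.X ^ e ∣ aeval (fun j => γ (.inl j)) (g l)) :
    PowerSeries.X ^ e ∣ GT g γ ∧ PowerSeries.coeff e (GT g γ) =
      PowerSeries.coeff e (aeval (fun j => γ (.inl j)) (g (.inr ()))) := by
  obtain ⟨h1, h2⟩ := dvd_succ_iff.1 (dvd_GT g h)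
  rw [map_sub, sub_eq_zero] at h2
  exact ⟨by simpa using dvd_add h1 (h (.inr ())), h2⟩

variable (Ψ : AP k (Fin 2))

/-- The ideal has order `e`, the coefficient of the term without `y` vanishes, and the polynomial
has order at least `l`. -/
def PL (e l : ℕ) : Pred k ((Fin 2 ⊕ ι) × ℕ) := fun K _ _ x =>
  An Ψ (Th (ΞL k ι false) g (bp fun _ => ()) (Finsupp.single () e)) K
    (fun j => ser x (.inl j)) ∧ PowerSeries.X ^ l ∣ GT g (ser x)

theorem step {e n : ℕ} {v : Mot k} (h : HasVol (PL g Ψ e (e + 1 + n)) v) (d : k) :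
    HasVol (k := k) (fun K _ _ x => PL g Ψ e (e + 1 + n) K x ∧
      PowerSeries.coeff (e + 1 + n) (GT g (ser x)) = algebraMap k K d) (Linv k * v) := by
  refine (h.elim_multi Finset.univ (fun i => (.inr i, n))
    (cG g (e + 1 + n) - C d) (fun i => cD (g (.inl i)) e)
    (fun K _ _ x t i _ j _ => ?_) (fun K _ _ x t i _ => ?_) (fun K _ _ x t i _ hx => ⟨?_, ?_⟩)
    fun K _ _ x hx => ?_).congr fun K _ _ x => ?_
  · rw [aeval_cD, aeval_cD, update_in]
  · rw [aeval_cD, map_sub, map_sub, aeval_cG, aeval_cG, GT_update, map_add,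
      show e + 1 + n = e + (n + 1) by ring, PowerSeries.coeff_X_pow_mul, PowerSeries.coeff_C_mul,
      aeval_C, aeval_C]
    ring
  · rw [update_in]
    exact hx.1
  · rw [GT_update]
    refine dvd_add hx.2 ?_
    rw [show e + 1 + n = n + 1 + e by ring, pow_add]
    exact mul_dvd_mul_left _ ((((th_iff g _ _ _ _).1 hx.1.2).1.1 _).mul_left _)
  · obtain ⟨⟨-, l, hl⟩, h0⟩ := (th_iff g _ _ _ _).1 hx.1.2
    rcases l with i | ⟨⟩
    · exact ⟨i, Finset.mem_univ i, by rwa [aeval_cD]⟩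
    · exact absurd (by simpa using h0) hl
  · rw [map_sub, aeval_cG, aeval_C, sub_eq_zero]

theorem vol_P {e : ℕ} {v : Mot k}
    (h : AV (An Ψ (Th (ΞL k ι false) g (bp fun _ => ()) (Finsupp.single () e))) v) (n : ℕ) :
    HasVol (PL g Ψ e (e + 1 + n)) (Linv k ^ n * v) := by
  induction n with
  | zero =>
    rw [pow_zero, one_mul]
    refine (HasVol.comap h (emb ι)).congr fun K _ _ x => ⟨fun H => ⟨H, ?_⟩, fun H => H.1⟩
    obtain ⟨⟨h1, -⟩, h0⟩ := (th_iff g _ _ _ _).1 H.2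
    obtain ⟨h2, h3⟩ := coeff_GT g (γ := ser x) h1
    exact dvd_succ_iff.2 ⟨h2, h3.trans h0⟩
  | succ n ih =>
    rw [pow_succ', mul_assoc]
    refine (step g Ψ ih 0).congr fun K _ _ x => ?_
    rw [map_zero, PL, PL, ← add_assoc, dvd_succ_iff (m := e + 1 + n), and_assoc]

omit [DecidableEq ι] in
theorem tot_iff (e : ℕ) (K : Type) [Field K] [Algebra k K] (γ : Fin 2 ⊕ ι → PowerSeries K) :
    Tot Ψ g e K γ ↔ Ψ K (fun j => γ (.inl j)) ∧ PowerSeries.X ^ e ∣ GT g γ ∧
      PowerSeries.coeff e (GT g γ) = 1 := by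
  change _ ∧ PowerSeries.X ^ (e + 1) ∣ GT g γ - PowerSeries.X ^ e ↔ _
  rw [dvd_succ_iff, map_sub, PowerSeries.coeff_X_pow_self, sub_eq_zero, dvd_sub_left dvd_rfl]

end QO

open QO in
theorem tot_ok {k ι : Type} [Field k] [Fintype ι] : S_tot k ι := by
  classical
  intro g Ψ z hz e
  have hA := HasVol.comap (hz true e) (emb ι)
  have aux : ∀ (K : Type) [Field K] [Algebra k K] (γ : Fin 2 → PowerSeries K) s s' a b,
      Th (ΞL k ι s) g (bp fun _ => ()) (Finsupp.single () a) K γ →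
      Th (ΞL k ι s') g (bp fun _ => ()) (Finsupp.single () b) K γ → b ≤ a :=
    fun K _ _ γ s s' a b ha hb => by
      obtain ⟨i, hi⟩ := ((th_iff g _ _ _ _).1 ha).1.2
      by_contra hlt
      exact hi (PowerSeries.X_pow_dvd_iff.1 (((th_iff g _ _ _ _).1 hb).1.1 i) a (by omega))
  have hB := hasVol_sum (Finset.range e) (fun e' K _ _ x => PL g Ψ e' e K x ∧
    PowerSeries.coeff e (GT g (ser x)) = algebraMap k K 1)
    (fun e' => Linv k ^ (e - e') * z false e') (fun e' he => by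
      have h1 := step g Ψ (vol_P g Ψ (hz false e') (e - e' - 1)) 1
      have he := Finset.mem_range.1 he
      rwa [show e' + 1 + (e - e' - 1) = e by omega, ← mul_assoc, ← pow_succ',
        show e - e' - 1 + 1 = e - e' by omega] at h1)
    (fun K _ _ x a _ b _ ha hb =>
      le_antisymm (aux K _ _ _ b a hb.1.1.2 ha.1.1.2) (aux K _ _ _ a b ha.1.1.2 hb.1.1.2))
  refine (hA.union hB fun K _ _ x h1 ⟨a, ha, h2⟩ => ?_).congr fun K _ _ x => ?_
  · have := aux K _ _ _ a e h2.1.1.2 h1.2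
    have := Finset.mem_range.1 ha
    omega
  · rw [tot_iff]
    refine ⟨?_, fun ⟨H0, H1, H2⟩ => ?_⟩
    · rintro (H | ⟨a, -, H⟩)
      · obtain ⟨⟨h1, -⟩, h0⟩ := (th_iff g _ _ _ _).1 H.2
        obtain ⟨h2, h3⟩ := coeff_GT g (γ := ser x) h1
        exact ⟨H.1, h2, h3.trans h0⟩
      · exact ⟨H.1.1.1, H.1.2, by simpa using H.2⟩
    · by_cases h1 : ∀ l, PowerSeries.X ^ e ∣ aeval (fun j => ser x (.inl j)) (g l)
      · have h3 := (coeff_GT g (γ := ser x) h1).2
        rw [H2] at h3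
        refine .inl ⟨H0, (th_iff g _ _ _ _).2 ⟨⟨h1, .inr (), ?_⟩, ?_⟩⟩
        · rw [ser_emb, ← h3]
          exact one_ne_zero
        · rw [ser_emb, ← h3]
          rfl
      · have he : e ≠ 0 := by
          rintro rfl
          exact h1 fun l => by simp
        have hex : ∃ a, ¬∀ l, PowerSeries.X ^ (a + 1) ∣ aeval (fun j => ser x (.inl j)) (g l) :=
          ⟨e - 1, by rwa [show e - 1 + 1 = e by omega]⟩
        have h2 : ∀ l, PowerSeries.X ^ Nat.find hex ∣ aeval (fun j => ser x (.inl j)) (g l) := by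
          rcases h3 : Nat.find hex with _ | n
          · simp
          · exact not_not.1 (Nat.find_min hex (by omega))
        have h4 : Nat.find hex ≤ e - 1 :=
          Nat.find_min' hex (by rwa [show e - 1 + 1 = e by omega])
        obtain ⟨i, hi⟩ := not_forall.1 (Nat.find_spec hex)
        refine .inr ⟨Nat.find hex, Finset.mem_range.2 (by omega), ⟨⟨H0, (th_iff g _ _ _ _).2
          ⟨⟨h2, i, fun h3 => hi (dvd_succ_iff.2 ⟨h2 i, h3⟩)⟩, ?_⟩⟩, H1⟩, by simpa using H2⟩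
        rw [← (coeff_GT g (γ := ser x) h2).2]
        exact PowerSeries.X_pow_dvd_iff.1 H1 _ (by omega)

end

end Pool.Agent.P.MP_b91a16_ag.Id.Ln
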