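import Pool.Agent.P.MP_b91a16_ag.Ln.Stmt

/-! Polynomials of degree at most one in all but two variables: elimination of `Y`. -/

set_option linter.unusedSectionVars false

open MvPolynomial

namespace Pool.Agent.P.MP_b91a16_ag.Id.Ln

noncomputable section

variable {k ι : Type} [Field k] [Fintype ι]

namespace QP

theorem pow_diff {R : Type} [CommRing R] {t y δ : R} {J l : ℕ} (hy : t ^ J ∣ y) (hδ : t ^ l ∣ δ)
    (h : J ≤ l) (n : ℕ) : t ^ (l + n * J) ∣ (y + δ) ^ (n + 1) - y ^ (n + 1) := by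
  obtain ⟨y', rfl⟩ := hy
  obtain ⟨δ', rfl⟩ := hδ
  obtain ⟨d, rfl⟩ := Nat.exists_eq_add_of_le h
  obtain ⟨w, hw⟩ := sub_dvd_pow_sub_pow (y' + t ^ d * δ') y' (n + 1)
  refine ⟨δ' * w, ?_⟩
  rw [show t ^ J * y' + t ^ (J + d) * δ' = t ^ J * (y' + t ^ d * δ') by ring, mul_pow, mul_pow,
    ← mul_sub, hw]
  ring

theorem aeval_mono {R : Type} [CommRing R] [Algebra k R] (γ : Fin 2 → R) (v : Fin 2 →₀ ℕ)
    (c : k) : aeval γ (monomial v c : P2 k) = algebraMap k R c * γ 0 ^ v 0 * γ 1 ^ v 1 := by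
  have h : (monomial v c : P2 k) = C c * X 0 ^ v 0 * X 1 ^ v 1 := by
    rw [← monomial_ex, ex_eta]
  rw [h]
  simp only [map_mul, map_pow, aeval_C, aeval_X]

theorem base {R : Type} [CommRing R] [Algebra k R] {t : R} {γ : Fin 2 → R} {i J n : ℕ}
    (h0 : t ^ i ∣ γ 0) (h1 : t ^ J ∣ γ 1) (G : P2 k)
    (hG : ∀ v ∈ G.support, n ≤ v 0 * i + v 1 * J) : t ^ n ∣ aeval γ G := by
  rw [G.as_sum, map_sum]
  refine Finset.dvd_sum fun v hv => (pow_dvd_pow t (hG v hv)).trans ?_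
  rw [aeval_mono, mul_assoc, pow_add, mul_comm (v 0), mul_comm (v 1), pow_mul, pow_mul]
  exact (mul_dvd_mul (pow_dvd_pow_of_dvd h0 _) (pow_dvd_pow_of_dvd h1 _)).mul_left _

theorem diff {R : Type} [CommRing R] [Algebra k R] {t δ : R} {γ γ' : Fin 2 → R} {i J l n : ℕ}
    (h0 : t ^ i ∣ γ 0) (h1 : t ^ J ∣ γ 1) (hδ : t ^ l ∣ δ) (hl : J ≤ l) (e0 : γ' 0 = γ 0)
    (e1 : γ' 1 = γ 1 + δ) (G : P2 k)
    (hG : ∀ v ∈ G.support, 0 < v 1 → n + J ≤ v 0 * i + v 1 * J) :
    t ^ (n + l) ∣ aeval γ' G - aeval γ G := by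
  rw [G.as_sum, map_sum, map_sum, ← Finset.sum_sub_distrib]
  refine Finset.dvd_sum fun v hv => ?_
  rw [aeval_mono, aeval_mono, e0, e1, ← mul_sub]
  rcases Nat.eq_zero_or_pos (v 1) with h | h
  · simp [h]
  · have h2 := hG v hv h
    obtain ⟨m, hm⟩ : ∃ m, v 1 = m + 1 := ⟨v 1 - 1, by omega⟩
    rw [hm] at h2 ⊢
    have h3 : n + l ≤ i * v 0 + (l + m * J) := by nlinarith
    refine (pow_dvd_pow t h3).trans ?_
    rw [pow_add, pow_mul, mul_assoc]
    exact (mul_dvd_mul (pow_dvd_pow_of_dvd h0 _) (pow_diff h1 hδ hl m)).mul_left _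

/-- The polynomial along the arc. -/
def GT (g : ι ⊕ Unit → P2 k) {R : Type} [CommRing R] [Algebra k R]
    (γ : Fin 2 ⊕ ι → PowerSeries R) : PowerSeries R :=
  aeval (fun j => γ (.inl j)) (g (.inr ())) +
    ∑ i, PowerSeries.X * γ (.inr i) * aeval (fun j => γ (.inl j)) (g (.inl i))

/-- The coefficients of the polynomial along the generic arc. -/
def EG (g : ι ⊕ Unit → P2 k) (p : ℕ) : MvPolynomial ((Fin 2 ⊕ ι) × ℕ) k :=
  PowerSeries.coeff p (GT g (ser (X : (Fin 2 ⊕ ι) × ℕ → MvPolynomial ((Fin 2 ⊕ ι) × ℕ) k)))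

variable [DecidableEq ι]

theorem aeval_EG (g : ι ⊕ Unit → P2 k) (p : ℕ) {K : Type} [CommRing K] [Algebra k K]
    (x : (Fin 2 ⊕ ι) × ℕ → K) : aeval x (EG g p) = PowerSeries.coeff p (GT g (ser x)) := by
  have h : ∀ G : P2 k, PowerSeries.mapAlgHom (aeval x : MvPolynomial _ k →ₐ[k] K)
      (aeval (fun j => ser X (Sum.inl j)) G) = aeval (fun j => ser x (Sum.inl j)) G :=
    fun G => algHom_aeval _ _ _ (fun j => map_ser x _) G
  have hX : PowerSeries.mapAlgHom (aeval x : MvPolynomial ((Fin 2 ⊕ ι) × ℕ) k →ₐ[k] K)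
      PowerSeries.X = PowerSeries.X := by
    simp [PowerSeries.mapAlgHom_apply]
  have e : GT g (ser x) = PowerSeries.mapAlgHom (aeval x : MvPolynomial _ k →ₐ[k] K)
      (GT g (ser X)) := by
    simp only [GT, map_add, map_sum, map_mul, h, hX, map_ser]
  rw [e, EG, PowerSeries.mapAlgHom_apply, PowerSeries.coeff_map]
  rfl

/-- The data used from the elimination state. -/
structure Dat (g : ι ⊕ Unit → P2 k) (a i J : ℕ) : Prop where
  ne : coeff (ex a 1) (g (.inr ())) ≠ 0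
  le : ∀ l, ∀ v ∈ (g l).support, a * i + J ≤ v 0 * i + v 1 * J
  lt : ∀ v ∈ (g (.inr ())).support, 0 < v 1 → v ≠ ex a 1 → a * i + J < v 0 * i + v 1 * J

variable {g : ι ⊕ Unit → P2 k} {a i J : ℕ} {K : Type} [Field K] [Algebra k K]

theorem dvd_GT (h : Dat g a i J) {γ : Fin 2 ⊕ ι → PowerSeries K}
    (h0 : PowerSeries.X ^ i ∣ γ (.inl 0)) (h1 : PowerSeries.X ^ J ∣ γ (.inl 1)) :
    PowerSeries.X ^ (a * i + J) ∣ GT g γ :=
  dvd_add (base (γ := fun j => γ (.inl j)) h0 h1 _ (h.le _)) (Finset.dvd_sum fun _ _ =>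
    (base (γ := fun j => γ (.inl j)) h0 h1 _ (h.le _)).mul_left _)

theorem GT_diff (h : Dat g a i J) {γ : Fin 2 ⊕ ι → PowerSeries K}
    (h0 : PowerSeries.X ^ i ∣ γ (.inl 0)) (h1 : PowerSeries.X ^ J ∣ γ (.inl 1)) {l : ℕ}
    (hl : J ≤ l) {δ : PowerSeries K} (hδ : PowerSeries.X ^ l ∣ δ) :
    PowerSeries.X ^ (a * i + l + 1) ∣ GT g (Function.update γ (.inl 1) (γ (.inl 1) + δ)) - GT g γ -
      algebraMap k _ (coeff (ex a 1) (g (.inr ()))) * γ (.inl 0) ^ a * δ := by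
  set γ' := Function.update γ (.inl 1) (γ (.inl 1) + δ) with hγ'
  have e0 : γ' (.inl 0) = γ (.inl 0) := Function.update_of_ne (by simp) _ _
  have e1 : γ' (.inl 1) = γ (.inl 1) + δ := Function.update_self _ _ _
  have e2 : ∀ j, γ' (.inr j) = γ (.inr j) := fun j => Function.update_of_ne (by simp) _ _
  have d0 := diff (γ := fun j => γ (.inl j)) (γ' := fun j => γ' (.inl j)) (n := a * i + 1)
    h0 h1 hδ hl e0 e1 (g (.inr ()) - monomial (ex a 1) (coeff (ex a 1) (g (.inr ()))))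
    fun v hv hv1 => by
      rw [mem_support_iff, coeff_sub, coeff_monomial] at hv
      have h2 : v ≠ ex a 1 := by
        rintro rfl
        simp at hv
      rw [if_neg h2.symm, sub_zero] at hv
      have := h.lt v (mem_support_iff.2 hv) hv1 h2
      omega
  have d1 : PowerSeries.X ^ (a * i + l + 1) ∣ ∑ j, PowerSeries.X * γ (.inr j) *
      (aeval (fun j => γ' (.inl j)) (g (.inl j)) - aeval (fun j => γ (.inl j)) (g (.inl j))) :=
    Finset.dvd_sum fun j _ => by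
      rw [pow_succ', mul_assoc]
      exact mul_dvd_mul_left _ ((diff (γ := fun j => γ (.inl j)) (γ' := fun j => γ' (.inl j))
        h0 h1 hδ hl e0 e1 _ fun v hv _ => h.le _ v hv).mul_left _)
  rw [map_sub, map_sub, aeval_mono, aeval_mono, show a * i + 1 + l = a * i + l + 1 by ring] at d0
  simp only [ex_zero, ex_one, pow_one, e0, e1] at d0
  convert dvd_add d0 d1 using 1
  simp only [GT, e2, mul_sub, Finset.sum_sub_distrib]
  ring

/-- The base set of arcs. -/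
def Bs (i J : ℕ) (γ : Fin 2 ⊕ ι → PowerSeries K) : Prop :=
  (γ (.inl 0)).order = i ∧ (J : ℕ∞) ≤ (γ (.inl 1)).order

theorem update (h : Dat g a i J) {x : (Fin 2 ⊕ ι) × ℕ → K} (hx : Bs i J (ser x)) {l : ℕ}
    (hl : J ≤ l) : ∃ κ : K, κ ≠ 0 ∧ ∀ t : K, Bs i J (ser (Function.update x (.inl 1, l) t)) ∧
      PowerSeries.X ^ (a * i + l) ∣
        GT g (ser (Function.update x (.inl 1, l) t)) - GT g (ser x) ∧
      PowerSeries.coeff (a * i + l) (GT g (ser (Function.update x (.inl 1, l) t))) =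
        PowerSeries.coeff (a * i + l) (GT g (ser x)) + κ * (t - x (.inl 1, l)) := by
  have h0 : PowerSeries.X ^ i ∣ ser x (.inl 0) := dvd_iff_le_order.2 hx.1.ge
  have h1 : PowerSeries.X ^ J ∣ ser x (.inl 1) := dvd_iff_le_order.2 hx.2
  obtain ⟨u, hu⟩ := id h0
  have hu0 : PowerSeries.constantCoeff u ≠ 0 := by
    have := (PowerSeries.order_eq_nat.1 hx.1).1
    rwa [hu, PowerSeries.coeff_X_pow_mul', if_pos le_rfl, Nat.sub_self,
      PowerSeries.coeff_zero_eq_constantCoeff_apply] at this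
  refine ⟨algebraMap k K (coeff (ex a 1) (g (.inr ()))) * PowerSeries.constantCoeff u ^ a,
    mul_ne_zero ((map_ne_zero _).2 h.ne) (pow_ne_zero _ hu0), fun t => ?_⟩
  rw [ser_update]
  have hδ : PowerSeries.X ^ l ∣ PowerSeries.X ^ l * PowerSeries.C (t - x (.inl 1, l)) :=
    Dvd.intro _ rfl
  have hd := GT_diff h h0 h1 hl hδ
  have e : algebraMap k _ (coeff (ex a 1) (g (.inr ()))) * ser x (.inl 0) ^ a *
      (PowerSeries.X ^ l * PowerSeries.C (t - x (.inl 1, l))) = PowerSeries.X ^ (a * i + l) *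
        (PowerSeries.C (algebraMap k K (coeff (ex a 1) (g (.inr ())))) * u ^ a *
          PowerSeries.C (t - x (.inl 1, l))) := by
    rw [hu, alg_ps]
    ring
  rw [e, dvd_succ_iff] at hd
  refine ⟨⟨?_, ?_⟩, ?_, ?_⟩
  · rw [Function.update_of_ne (by simp)]
    exact hx.1
  · rw [Function.update_self]
    exact dvd_iff_le_order.1 (dvd_add h1 ((pow_dvd_pow _ hl).trans hδ))
  · exact (dvd_sub_left (Dvd.intro _ rfl)).1 hd.1
  · have h2 := hd.2
    rw [map_sub, map_sub, PowerSeries.coeff_X_pow_mul', if_pos le_rfl, Nat.sub_self,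
      PowerSeries.coeff_zero_eq_constantCoeff_apply, map_mul, map_mul, map_pow,
      PowerSeries.constantCoeff_C, PowerSeries.constantCoeff_C] at h2
    linear_combination h2

theorem step (h : Dat g a i J) {l : ℕ} (hl : J ≤ l) {v : Mot k}
    (hv : AV (k := k) (fun _ _ _ γ => Bs i J γ ∧ PowerSeries.X ^ (a * i + l) ∣ GT g γ) v)
    (d : k) : AV (k := k) (fun K _ _ γ => (Bs i J γ ∧ PowerSeries.X ^ (a * i + l) ∣ GT g γ) ∧
      PowerSeries.coeff (a * i + l) (GT g γ) = algebraMap k K d) (Linv k * v) := by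
  refine (HasVol.elim hv (.inl 1, l) (EG g (a * i + l) - C d) (fun K _ _ x c hx => ?_)
    fun K _ _ x hx => ?_).congr fun K _ _ x => ?_
  · obtain ⟨κ, -, h2⟩ := update h hx.1 hl
    exact ⟨(h2 c).1, by simpa using dvd_add (h2 c).2.1 hx.2⟩
  · obtain ⟨κ, h1, h2⟩ := update h hx.1 hl
    simp only [map_sub, aeval_EG, aeval_C, fun t => (h2 t).2.2]
    refine ⟨x (.inl 1, l) +
      (algebraMap k K d - PowerSeries.coeff (a * i + l) (GT g (ser x))) / κ, ?_, fun t ht => ?_⟩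
    · field_simp
      ring
    · field_simp
      linear_combination ht
  · simp only [map_sub, aeval_EG, aeval_C, sub_eq_zero]

theorem av_base (i J : ℕ) : AV (k := k) (τ := Fin 2 ⊕ ι) (fun _ _ _ γ => Bs i J γ)
    ((1 - Linv k) * Linv k ^ (i + J)) :=
  HasVol.comap (av_ord_le (k := k) i J)
    (Function.Embedding.inl.prodMap (Function.Embedding.refl ℕ))

theorem av_level (h : Dat g a i J) {l : ℕ} (hl : J ≤ l) :
    AV (k := k) (fun _ _ _ γ => Bs i J γ ∧ PowerSeries.X ^ (a * i + l) ∣ GT g γ)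
      ((1 - Linv k) * Linv k ^ (i + l)) := by
  induction l, hl using Nat.le_induction with
  | base =>
    exact (av_base i J).congr fun K _ _ γ => ⟨fun hγ =>
      ⟨hγ, dvd_GT h (dvd_iff_le_order.2 hγ.1.ge) (dvd_iff_le_order.2 hγ.2)⟩, fun hγ => hγ.1⟩
  | succ l hl ih =>
    have h1 := step h hl ih 0
    rw [show Linv k * ((1 - Linv k) * Linv k ^ (i + l)) = (1 - Linv k) * Linv k ^ (i + (l + 1)) by
      ring] at h1
    refine h1.congr fun K _ _ γ => ?_
    rw [← add_assoc, dvd_succ_iff, map_zero, and_assoc]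

end QP

open QP

theorem elim_ok : S_elim k ι := by
  classical
  intro g a Jf i e hE hi
  obtain ⟨h1, -, -, h2⟩ := hE
  obtain ⟨-, h3, -⟩ := h2 i hi
  have h : Dat g a i (Jf i) := ⟨h1, fun l v hv => (h3 l rfl v hv).1,
    fun v hv hv1 hne => (h3 _ rfl v hv).2 hv1 (Or.inl ⟨rfl, hne⟩)⟩
  have key : ∀ (K : Type) [Field K] [Algebra k K] (γ : Fin 2 ⊕ ι → PowerSeries K),
      Tot (fun _ _ _ γ => (γ 0).order = i ∧ (Jf i : ℕ∞) ≤ (γ 1).order) g e K γ ↔
        (Bs i (Jf i) γ ∧ PowerSeries.X ^ e ∣ GT g γ) ∧ PowerSeries.coeff e (GT g γ) = 1 := by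
    intro K _ _ γ
    change Bs i (Jf i) γ ∧ PowerSeries.X ^ (e + 1) ∣ GT g γ - PowerSeries.X ^ e ↔ _
    rw [dvd_succ_iff, map_sub, PowerSeries.coeff_X_pow_self, sub_eq_zero, dvd_sub_left dvd_rfl,
      and_assoc]
  split_ifs with he
  · obtain ⟨l, rfl⟩ : ∃ l, e = a * i + l := ⟨e - a * i, by omega⟩
    have hl : Jf i ≤ l := by omega
    have h4 := step h hl (av_level h hl) 1
    rw [show Linv k * ((1 - Linv k) * Linv k ^ (i + l)) =
      (1 - Linv k) * Linv k ^ (i + (a * i + l - a * i) + 1) by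
        rw [Nat.add_sub_cancel_left]; ring] at h4
    exact h4.congr fun K _ _ γ => by rw [key, map_one]
  · refine av_false fun K _ _ γ hγ => ?_
    obtain ⟨⟨h4, -⟩, h5⟩ := (key K γ).1 hγ
    have h6 := dvd_GT h (dvd_iff_le_order.2 h4.1.ge) (dvd_iff_le_order.2 h4.2)
    rw [PowerSeries.X_pow_dvd_iff.1 h6 e (by omega)] at h5
    exact zero_ne_one h5

end

end Pool.Agent.P.MP_b91a16_ag.Id.Ln
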