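import Pool.Agent.P.MP_b91a16_ag.Ln.Stmt

/-! Package Q: elimination of `Y` for one polynomial, and the zeta function. -/

set_option linter.unusedSectionVars false

open MvPolynomial

namespace Pool.Agent.P.MP_b91a16_ag.Id.Ln

noncomputable section

variable {k ι : Type} [Field k] [Fintype ι]

namespace QQ

/-- The volume of the total space, from the two series. -/
def T (Z : Bool → PowerSeries (Mot k)) (e : ℕ) : Mot k :=
  PowerSeries.coeff e (Z true) +
    ∑ e' ∈ Finset.range e, Linv k ^ (e - e') * PowerSeries.coeff e' (Z false)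

/-- The weighted sum as a one-variable series. -/
def SW (Z : Bool → PowerSeries (Mot k)) : PowerSeries (Mot k) :=
  Z true - PowerSeries.X * (PowerSeries.C (Linv k) * Z true) +
    PowerSeries.X * (PowerSeries.C (Linv k) * Z false)

theorem sum_W (Z : Bool → MvPowerSeries Unit (Mot k)) : ∑ s, WL k s * Z s = SW Z := by
  rw [Fintype.sum_bool]
  change (1 - PowerSeries.C (Linv k) * PowerSeries.X) * (Z true : PowerSeries (Mot k)) +
    PowerSeries.C (Linv k) * PowerSeries.X * (Z false : PowerSeries (Mot k)) = _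
  rw [SW]
  ring

theorem SW_zero (Z : Bool → PowerSeries (Mot k)) : PowerSeries.coeff 0 (SW Z) = T Z 0 := by
  simp only [SW, T, map_add, map_sub, PowerSeries.coeff_zero_X_mul, Finset.sum_range_zero, sub_zero]

theorem SW_succ (Z : Bool → PowerSeries (Mot k)) (e : ℕ) :
    PowerSeries.coeff (e + 1) (SW Z) = T Z (e + 1) - Linv k * T Z e := by
  simp only [SW, T, map_add, map_sub, PowerSeries.coeff_succ_X_mul, PowerSeries.coeff_C_mul]
  rw [Finset.sum_range_succ, mul_add, Finset.mul_sum, show e + 1 - e = 1 by omega, pow_one]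
  have h : ∑ e' ∈ Finset.range e, Linv k ^ (e + 1 - e') * PowerSeries.coeff e' (Z false) =
      ∑ e' ∈ Finset.range e, Linv k * (Linv k ^ (e - e') * PowerSeries.coeff e' (Z false)) :=
    Finset.sum_congr rfl fun e' he => by
      have he := Finset.mem_range.1 he
      rw [← mul_assoc, ← pow_succ', show e - e' + 1 = e + 1 - e' by omega]
  rw [h]
  ring

/-- The value of the slice `ord X = i`. -/
def val (k : Type) [Field k] (a : ℕ) (Jf : ℕ → ℕ) (i e : ℕ) : Mot k :=
  if 0 < i then (if a * i + Jf i ≤ e then (1 - Linv k) * Linv k ^ (i + (e - a * i) + 1) else 0)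
  else 0

theorem key (h1 : S_tot k ι) (h2 : S_elim k ι) (g : ι ⊕ Unit → P2 k) (a : ℕ) (Jf : ℕ → ℕ) (n : ℕ)
    (Z : Bool → MvPowerSeries Unit (Mot k)) (hE : El True g (fun _ => ()) (fun _ => a) () Jf)
    (hZ : Gen2 (ΞL k ι) (Reg k Jf) g (bp fun _ => ()) n Z) (e : ℕ) :
    ∃ M, ∀ M', M ≤ M' →
      T Z e = ∑ i ∈ Finset.range M', Linv k ^ (n * i) * val k a Jf i e := by
  classical
  choose M w _ hw hs using fun s e => (hZ s (Finsupp.single () e)).large
  have hv : ∀ i, w true e i + ∑ e' ∈ Finset.range e, Linv k ^ (e - e') * w false e' i =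
      val k a Jf i e := fun i => by
    rw [val]
    split_ifs with hi hi'
    · have := h2 g a Jf i e hE hi
      rw [if_pos hi'] at this
      refine (h1 g _ (fun s e => w s e i) (fun s e => (hw s e i).congr fun K _ _ γ => ?_) e).unique
        this
      refine ⟨fun ⟨⟨⟨i', _, h3, h4⟩, h5⟩, h6⟩ => ?_, fun ⟨⟨h3, h4⟩, h5⟩ => ⟨⟨⟨i, hi, h3, h4⟩, h5⟩, h3⟩⟩
      obtain rfl : i' = i := by exact_mod_cast h3.symm.trans h6
      exact ⟨⟨h3, h4⟩, h5⟩
    · have := h2 g a Jf i e hE hi
      rw [if_neg hi'] at this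
      refine (h1 g _ (fun s e => w s e i) (fun s e => (hw s e i).congr fun K _ _ γ => ?_) e).unique
        this
      refine ⟨fun ⟨⟨⟨i', _, h3, h4⟩, h5⟩, h6⟩ => ?_, fun ⟨⟨h3, h4⟩, h5⟩ => ⟨⟨⟨i, hi, h3, h4⟩, h5⟩, h3⟩⟩
      obtain rfl : i' = i := by exact_mod_cast h3.symm.trans h6
      exact ⟨⟨h3, h4⟩, h5⟩
    · have h0 : ∀ s e, w s e i = 0 := fun s e => (hw s e i).unique (av_false fun K _ _ γ h => by
        obtain ⟨⟨⟨i', h3, h4, -⟩, -⟩, h6⟩ := h
        obtain rfl : i' = i := by exact_mod_cast h4.symm.trans h6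
        exact hi h3)
      simp [h0]
  refine ⟨M true e + ∑ e' ∈ Finset.range e, M false e', fun M' hM => ?_⟩
  have e1 : PowerSeries.coeff e (Z true) =
      ∑ i ∈ Finset.range M', Linv k ^ (n * i) * w true e i := hs true e M' (by omega)
  have e2 : ∀ e' ∈ Finset.range e, PowerSeries.coeff e' (Z false) =
      ∑ i ∈ Finset.range M', Linv k ^ (n * i) * w false e' i := fun e' he =>
    hs false e' M' (by
      have := Finset.single_le_sum (f := fun e' => M false e') (fun _ _ => Nat.zero_le _) he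
      omega)
  have e3 : ∑ e' ∈ Finset.range e, Linv k ^ (e - e') * PowerSeries.coeff e' (Z false) =
      ∑ e' ∈ Finset.range e, ∑ i ∈ Finset.range M',
        Linv k ^ (e - e') * (Linv k ^ (n * i) * w false e' i) :=
    Finset.sum_congr rfl fun e' he => by rw [e2 e' he, Finset.mul_sum]
  rw [T, e1, e3, Finset.sum_comm, ← Finset.sum_add_distrib]
  refine Finset.sum_congr rfl fun i _ => ?_
  rw [← hv i, mul_add, Finset.mul_sum]
  congr 1
  exact Finset.sum_congr rfl fun e' _ => by ring

variable {r : ℕ}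

/-- The shifts: one for the plane coordinates, none for the others. -/
def sf (r : ℕ) : Fin 2 ⊕ Fin r → ℕ := Sum.elim (fun _ => 1) fun _ => 0

def emb (r : ℕ) : Fin (2 + r) × ℕ ↪ (Fin 2 ⊕ Fin r) × ℕ :=
  (finSumFinEquiv.symm.toEmbedding.prodMap (Function.Embedding.refl ℕ)).trans (shiftEmb (sf r))

theorem emb_left (j : Fin 2) (l : ℕ) : emb r (Fin.castAdd r j, l) = (.inl j, l + 1) := by
  simp [emb, shiftEmb, sf]

theorem emb_right (i : Fin r) (l : ℕ) : emb r (Fin.natAdd 2 i, l) = (.inr i, l) := by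
  simp [emb, shiftEmb, sf]

theorem av_Tot (f : Fin r ⊕ Unit → P2 k) (m : ℕ) :
    AV (Tot (Cone k 1 0 0 1) f m) (Linv k ^ 2 * vol (gL f (fun _ => ()) ()) m 1) := by
  have h1 := ((hasVol_vol (gL f (fun _ => ()) ()) m 1).comap (emb r)).and_forall_zero
    (lowSet (sf r)) fun p hp K _ _ x c hx => by
      have : Function.update x p c ∘ emb r = x ∘ emb r := by
        funext q
        refine Function.update_of_ne ?_ _ _
        rintro rfl
        rw [mem_lowSet] at hp
        simp [emb, shiftEmb] at hp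
      rwa [this]
  rw [card_lowSet, show ∑ j, sf r j = 2 by simp [sf]] at h1
  refine h1.congr fun K _ _ x => ?_
  have h2 : Cone k 1 0 0 1 K (fun j => ser x (.inl j)) ↔ ∀ p ∈ lowSet (sf r), x p = 0 := by
    simp only [Cone, Nat.cast_zero, Nat.cast_one, zero_mul, one_mul, mem_lowSet, Prod.forall,
      Sum.forall, sf, Sum.elim_inl, Sum.elim_inr, Fin.forall_fin_two, Nat.lt_one_iff, forall_eq,
      pos_iff_ne_zero, PowerSeries.order_ne_zero_iff_constCoeff_eq_zero]
    simp [ser, and_comm]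
  change _ ↔ Cone k 1 0 0 1 K (fun j => ser x (.inl j)) ∧ _
  rw [h2, and_comm]
  refine and_congr_right fun H => ?_
  have h3 : arc (x ∘ emb r) ∘ Fin.castAdd r = fun j => ser x (.inl j) := by
    funext j
    ext p
    rcases p with _ | p
    · simpa [arc, ser] using (H (.inl j, 0) (by simp [mem_lowSet, sf])).symm
    · rw [Function.comp_apply, coeff_arc, Function.comp_apply, emb_left]
      simp [ser]
  have h4 : ∀ i, arc (x ∘ emb r) (Fin.natAdd 2 i) = PowerSeries.X * ser x (.inr i) := fun i => by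
    rw [arc]
    congr 1
    ext p
    simp [ser, emb_right]
  rw [CP, map_one, map_one, one_mul]
  simp only [gL, map_add, map_sum, map_mul, aeval_X, aeval_rename, h3, h4, Finset.filter_true]

end QQ

theorem fakeL_ok (h1 : S_tot k ι) (h2 : S_elim k ι) : S_fakeL k ι := by
  intro g g' a j Jf n Z Z' _ hE hE' _ hZ hZ'
  have hT : ∀ e, QQ.T Z e = QQ.T Z' e := fun e => by
    obtain ⟨M, hM⟩ := QQ.key h1 h2 g (a ()) Jf n Z hE hZ e
    obtain ⟨M', hM'⟩ := QQ.key h1 h2 g' (a ()) Jf n Z' hE' hZ' e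
    rw [hM (M + M') (by omega), hM' (M + M') (by omega)]
  rw [QQ.sum_W, QQ.sum_W]
  refine PowerSeries.ext fun e => ?_
  rcases e with _ | e
  · rw [QQ.SW_zero, QQ.SW_zero, hT]
  · rw [QQ.SW_succ, QQ.SW_succ, hT, hT]

theorem finL_ok (h1 : ∀ r, S_tot k (Fin r)) : S_finL k := by
  intro r f Z h0 hZ
  have hT := h1 r f (Cone k 1 0 0 1) (fun s e => PowerSeries.coeff e (Z s))
    fun s e => hZ s (Finsupp.single () e)
  have hL := L_mul_Linv (k := k)
  have hz : ∀ m, PowerSeries.coeff m (zeta (gL f (fun _ => ()) ())) =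
      algebraMap (K0 k) (Mot k) (cls k (Polynomial k)) ^ 2 * QQ.T Z m := fun m => by
    rcases m with _ | m
    · have h3 : QQ.T Z 0 = 0 := (hT 0).unique (av_false fun K _ _ γ h => by
        obtain ⟨h4, h5⟩ := h
        simp only [Cone, Nat.cast_zero, Nat.cast_one, zero_mul, one_mul, pos_iff_ne_zero,
          PowerSeries.order_ne_zero_iff_constCoeff_eq_zero] at h4
        have h6 := dvd_aeval_sub_const (t := PowerSeries.X) (γ := fun j => γ (.inl j))
          (Fin.forall_fin_two.2 ⟨PowerSeries.X_dvd_iff.2 h4.2, PowerSeries.X_dvd_iff.2 h4.1⟩)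
          (f (.inr ()))
        rw [h0, map_zero, sub_zero] at h6
        rw [zero_add, pow_one, pow_zero] at h5
        have h7 : PowerSeries.X ∣ ∑ i, PowerSeries.X * γ (.inr i) *
            aeval (fun j => γ (.inl j)) (f (.inl i)) :=
          Finset.dvd_sum fun i _ => (Dvd.intro _ rfl).mul_right _
        have h8 := dvd_sub (dvd_add h6 h7) h5
        rw [sub_sub_cancel, PowerSeries.X_dvd_iff, map_one] at h8
        exact one_ne_zero h8)
      rw [h3, mul_zero, zeta, series, PowerSeries.coeff_mk, if_pos rfl]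
    · have h3 : QQ.T Z (m + 1) = _ := (hT (m + 1)).unique (QQ.av_Tot f (m + 1))
      rw [h3, coeff_zeta_vol, ← mul_assoc, ← mul_pow, hL, one_pow, one_mul]
  rw [QQ.sum_W, pow_one, pow_one, mul_sub, mul_one, mul_left_comm, mul_comm _ PowerSeries.X]
  refine PowerSeries.ext fun m => ?_
  rw [map_sub, PowerSeries.coeff_C_mul, PowerSeries.coeff_C_mul]
  rcases m with _ | m
  · rw [PowerSeries.coeff_zero_X_mul, mul_zero, sub_zero, QQ.SW_zero, hz]
  · rw [PowerSeries.coeff_succ_X_mul, QQ.SW_succ, hz, hz]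
    ring

end

end Pool.Agent.P.MP_b91a16_ag.Id.Ln
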