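import Pool.Agent.P.MP_b91a16_ag.Ln.Fin
import Pool.Agent.P.MP_b91a16_ag.Ln.Pull
import Pool.Agent.P.MP_b91a16_ag.Ln.QA
import Pool.Agent.P.MP_b91a16_ag.Ln.QB
import Pool.Agent.P.MP_b91a16_ag.Ln.QC
import Pool.Agent.P.MP_b91a16_ag.Ln.QD
import Pool.Agent.P.MP_b91a16_ag.Ln.QE
import Pool.Agent.P.MP_b91a16_ag.Ln.QF
import Pool.Agent.P.MP_b91a16_ag.Ln.QG
import Pool.Agent.P.MP_b91a16_ag.Ln.QH
import Pool.Agent.P.MP_b91a16_ag.Ln.QI
import Pool.Agent.P.MP_b91a16_ag.Ln.QJ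
import Pool.Agent.P.MP_b91a16_ag.Ln.QK
import Pool.Agent.P.MP_b91a16_ag.Ln.QL
import Pool.Agent.P.MP_b91a16_ag.Ln.QM
import Pool.Agent.P.MP_b91a16_ag.Ln.QN
import Pool.Agent.P.MP_b91a16_ag.Ln.QO
import Pool.Agent.P.MP_b91a16_ag.Ln.QP
import Pool.Agent.P.MP_b91a16_ag.Ln.QQ

/-! Polynomials of degree at most one in all but two variables: assembly. -/

open MvPolynomial

namespace Pool.Agent.P.MP_b91a16_ag.Id.Ln

noncomputable section

variable {k : Type} [Field k] [CharZero k] [IsAlgClosed k]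

theorem hyp3 {ι ρ σ : Type} [Fintype ι] [Fintype ρ] [DecidableEq ρ] [Fintype σ] {loc : Prop}
    {J : Set ρ} {β : ι → ρ} {Ξ : σ → Pred k (ι ⊕ ρ)} {W : σ → MvPowerSeries ρ (Mot k)}
    {Al : (ι ⊕ ρ → P2 k) → Set (ℕ × (ρ → ℕ))}
    (h1 : ∀ s, Con (Ξ s)) (h2 : ∀ A s, W s ∈ PR k A) (h3 : S_fake k ι ρ loc J β Ξ W)
    (h4 : R_rBr β Al) (h5 : R_rA β Al) (h6 : R_rB loc J β Al)
    (h7 : ∀ f, ∀ j ∈ J, ∀ t : ℕ, 0 < t → (t, (Pi.single j t : ρ → ℕ)) ∈ Al f) :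
    Hyp3 k ι ρ loc J β Ξ W Al :=
  ⟨h1, h2, thCone_ok, thTerm_ok, thGen_ok, exTh_ok, cone3_ok, strip3_ok, gr3_ok, el_ok, el0_ok,
    elVt_ok, reg_ok, exReg_ok exTh_ok, two3_ok, one3_ok, r3_ok (cls_ok bert_ok), h4, h5, h6, h7, h3⟩

theorem main {r : ℕ} (f₀ : P2 k) (f : Fin r → P2 k) (a : Fin (2 + r) → k) (c : k) (hc : c ≠ 0)
    {g : MvPolynomial (Fin (2 + r)) k}
    (hg : g = rename (Fin.castAdd r) f₀ + ∑ i, X (Fin.natAdd 2 i) * rename (Fin.castAdd r) (f i))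
    (h0 : g ≠ 0) (ha : eval a g = 0) :
    ∃ S : Finset (ℕ × ℕ), zeta (C c * aeval (fun j => X j + C (a j)) g) ∈ poleRing k S ∧
      ∀ p ∈ S, 0 < p.1 ∧ 0 < p.2 ∧
        ∀ b, LocalBernsteinEq (C c * aeval (fun j => X j + C (a j)) g) b →
          b.eval (-(p.1 : k) / p.2) = 0 := by
  let T : P2 k →ₐ[k] P2 k := aeval fun j => X j + C (a (Fin.castAdd r j))
  have hT : ∀ p, rename (Fin.castAdd r) (T p) =
      aeval (fun j => X j + C (a j)) (rename (Fin.castAdd r) p) := fun p => by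
    rw [aeval_rename]
    exact algHom_aeval _ _ _ (fun j => by simp) p
  let F : Fin r ⊕ Unit → P2 k := Sum.elim (fun i => C c * T (f i))
    fun _ => C c * (T f₀ + ∑ i, C (a (Fin.natAdd 2 i)) * T (f i))
  have e : C c * aeval (fun j => X j + C (a j)) g = gL F (fun _ => ()) () := by
    simp [gL, F, hg, hT, mul_add, add_mul, Finset.mul_sum, Finset.sum_add_distrib, mul_left_comm,
      add_comm, add_left_comm]
  have h1 : constantCoeff (gL F (fun _ => ()) ()) = 0 := by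
    have : constantCoeff (aeval (fun j => X j + C (a j)) g : MvPolynomial _ k) = aeval a g := by
      rw [← algHom_aeval (aeval (0 : Fin (2 + r) → k)) (fun j => X j + C (a j)) a (by simp) g]
      simp
    rw [← e, map_mul, this, aeval_eq_eval, ha, mul_zero]
  rw [e]
  refine main_of (hyp3 con_ΞL wm_WL (fakeL_ok tot_ok elim_ok) (fun f => rBr_ok _ _ f _)
    (fun f => rA_ok res3_ok sc_ok _ _ f _) (fun f => rB_ok res3_ok p2_ok _ _ f _)
    fun _ _ hj _ ht => neg_mem hj ht) tw3_ok (finL_ok fun _ => tot_ok) F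
    (e ▸ mul_ne_zero (C_ne_zero.2 hc) fun h => h0 ?_) (by simpa [gL] using h1)
  have := congrArg (aeval fun j => (X j - C (a j) : MvPolynomial (Fin (2 + r)) k)) h
  rwa [algHom_aeval _ _ X (by simp) g, aeval_X_left_apply, map_zero] at this

end

end Pool.Agent.P.MP_b91a16_ag.Id.Ln
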