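import Pool.Agent.P.MP_b91a16_ag.Ln.Stmt

/-! Degree at most one in all but two variables: the residue along the exceptional line. -/

set_option linter.unusedSectionVars false

open MvPolynomial

namespace Pool.Agent.P.MP_b91a16_ag.Id.Ln

noncomputable section

namespace QJ

open PI

theorem W4 {k L K : Type} [Field k] [Field L] [Algebra k L] [Field K] [Algebra (PowerSeries L) K]
    [Algebra k K] [IsScalarTower k (PowerSeries L) K] {d : Derivation k L L} {g : L} {n : ℕ}
    {a : PowerSeries L} {c : L} (h : PowerSeries.constantCoeff a = d c + g * c) :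
    algebraMap (PowerSeries L) K (PowerSeries.X ^ n * a) ∈ WW K d g n :=
  ⟨0, _, c, by rw [pow_zero, one_mul], by simp [PowerSeries.coeff_X_pow_mul', h]⟩

variable {k L Λ : Type} [Field k] [Field L] [Algebra k L] [Algebra (Polynomial k) L]
  [IsFractionRing (Polynomial k) L] [IsScalarTower k (Polynomial k) L] [Fintype Λ]

theorem of_exR [CharZero k] {d : Derivation k L L}
    (hd : ∀ p : Polynomial k, d (algebraMap _ L p) = algebraMap _ L p.derivative)
    {φ : Λ → Polynomial k} {s : Λ → ℚ} (hφ : ∀ l, φ l ≠ 0) {A B : Polynomial k}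
    (h : ExR φ s A B) : ∃ c : L, algebraMap _ L B * (d c + (∑ l, (s l : L) *
      (d (algebraMap _ L (φ l)) / algebraMap _ L (φ l))) * c) = algebraMap _ L A := by
  classical
  have hi := IsFractionRing.injective (Polynomial k) L
  obtain ⟨P, Q, hQ, e⟩ := h
  have hQ' := (map_ne_zero_iff _ hi).2 hQ
  have hp := (map_ne_zero_iff _ hi).2 (Finset.prod_ne_zero_iff.2 fun l (_ : l ∈ Finset.univ) => hφ l)
  have h2 : algebraMap _ L (∑ l, Polynomial.C (s l : k) * (φ l).derivative *
      ∏ l' ∈ Finset.univ.erase l, φ l') = (∑ l, (s l : L) * (d (algebraMap _ L (φ l)) /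
      algebraMap _ L (φ l))) * algebraMap _ L (∏ l, φ l) := by
    rw [map_sum, Finset.sum_mul]
    refine Finset.sum_congr rfl fun l _ => ?_
    have := (map_ne_zero_iff _ hi).2 (hφ l)
    rw [← Finset.mul_prod_erase _ _ (Finset.mem_univ l), map_mul, map_mul, map_mul, hd,
      Polynomial.C_eq_algebraMap, ← IsScalarTower.algebraMap_apply, map_ratCast]
    field_simp
  refine ⟨algebraMap _ L P / algebraMap _ L Q, ?_⟩
  have h1 := congrArg (algebraMap _ L) e
  rw [map_mul, map_add, map_mul, map_mul, map_mul, h2, map_mul, map_mul _ A] at h1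
  rw [d.leibniz_div, hd, hd]
  generalize ∑ l, (s l : L) * (d (algebraMap _ L (φ l)) / algebraMap _ L (φ l)) = g at h1 ⊢
  generalize algebraMap _ L (∏ l, φ l) = p at h1 hp
  simp only [map_mul, map_sub, map_pow, smul_eq_mul] at h1 ⊢
  field_simp
  refine mul_left_cancel₀ hp ?_
  linear_combination h1

theorem main (L K : Type) [Field L] [Algebra k L] [Algebra (Polynomial k) L]
    [IsFractionRing (Polynomial k) L] [IsScalarTower k (Polynomial k) L] [Field K]
    [Algebra (PowerSeries L) K] [IsFractionRing (PowerSeries L) K] [Algebra k K]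
    [IsScalarTower k (PowerSeries L) K] {ι ρ : Type} [Fintype ι] [Fintype ρ] [DecidableEq ρ]
    [CharZero k] : S_res3 k ι ρ := by
  intro Λ _ f β θ n κ N u blk φ s w χ T Q h b hθ hκ hJ hN hf hφ hχ hT hs hh hTw hb
  have : CharZero L := charZero_of_injective_algebraMap (algebraMap k L).injective
  have : CharZero K := charZero_of_injective_algebraMap (algebraMap k K).injective
  have hiL := IsFractionRing.injective (Polynomial k) L
  have hiK := IsFractionRing.injective (PowerSeries L) K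
  obtain ⟨d, hd⟩ := exists_der (k := k) (K := L) Polynomial.derivative'
  obtain ⟨D0, hD0⟩ := exists_der (k := k) (K := K) ((PowerSeries.derivative L).restrictScalars k)
  obtain ⟨D1, hD1⟩ := exists_der (k := k) (K := K) (cw d)
  replace hd : ∀ p : Polynomial k, d (algebraMap _ L p) = algebraMap _ L p.derivative := hd
  replace hD0 : ∀ a, D0 (algebraMap (PowerSeries L) K a) =
    algebraMap (PowerSeries L) K (PowerSeries.derivative L a) := hD0
  obtain ⟨ψ, hψ⟩ : ∃ ψ : P2 k →ₐ[k] K, ∀ P, ψ P = algebraMap (PowerSeries L) K (ps L P) :=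
    ⟨(IsScalarTower.toAlgHom k (PowerSeries L) K).comp (ps L), fun _ => rfl⟩
  have p0 := der_pi D0 ψ 0 (Fin.forall_fin_two.2 ⟨by simp [hψ, hD0, ps_zero],
    by simp [hψ, hD0, ps_one]⟩)
  have p1 := der_pi D1 ψ 1 (Fin.forall_fin_two.2 ⟨by simp [hψ, hD1, ps_zero, cw_X],
    by simp [hψ, hD1, ps_one, cw_C, hd]⟩)
  have hU : algebraMap (PowerSeries L) K PowerSeries.X ≠ 0 :=
    (map_ne_zero_iff _ hiK).2 PowerSeries.X_ne_zero
  have hne : ∀ a : PowerSeries L, PowerSeries.constantCoeff a ≠ 0 →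
      algebraMap (PowerSeries L) K a ≠ 0 := fun a ha =>
    (map_ne_zero_iff _ hiK).2 fun e => ha (by rw [e, map_zero])
  have hφ' : ∀ l, algebraMap (Polynomial k) L (φ l) ≠ 0 := fun l =>
    (map_ne_zero_iff _ hiL).2 (hφ l).1
  have hr : ∀ l, ∃ r, ps L (aeval θ (u l)) = PowerSeries.X ^ N (blk l) *
      (PowerSeries.C (algebraMap _ L (φ l)) * (1 + PowerSeries.X * r)) := fun l => by
    obtain ⟨r, e⟩ := ps_ini (L := L) (hφ l).2
    refine ⟨PowerSeries.C (algebraMap _ L (φ l))⁻¹ * r, ?_⟩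
    rw [e, mul_add (PowerSeries.C _), mul_one, mul_left_comm (PowerSeries.C _), ← mul_assoc
      (PowerSeries.C _), ← map_mul, mul_inv_cancel₀ (hφ' l), map_one, one_mul]
  choose r hr using hr
  choose e dn a₁ a₂ e1 e2 e3 e4 using fun l => root (r l) (s l)
  obtain ⟨π, hπ⟩ : ∃ π : P2 k →ₐ[k] K, ∀ P, π P = ψ (aeval θ P) := ⟨ψ.comp (aeval θ), fun _ => rfl⟩
  have c1 := fun l => hne (PowerSeries.C (algebraMap _ L (φ l))) (by simpa using (hφ l).1)
  have c2 := fun l => hne (1 + PowerSeries.X * r l) (by simp)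
  have c3 := fun l => hne (e l) (by simp [e1])
  have hu : ∀ l, π (u l) = algebraMap (PowerSeries L) K PowerSeries.X ^ N (blk l) *
      (algebraMap (PowerSeries L) K (PowerSeries.C (algebraMap _ L (φ l))) *
        algebraMap (PowerSeries L) K (1 + PowerSeries.X * r l)) := fun l => by
    rw [hπ, hψ, hr, map_mul, map_mul, map_pow]
  obtain ⟨E, hE⟩ : ∃ E, E = algebraMap (PowerSeries L) K (∏ l, e l) := ⟨_, rfl⟩
  have hE0 : E ≠ 0 := hE ▸ hne _ (by simp [e1])
  have key : ∀ (D : Derivation k K K) (z : K),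
      E * (D z + (∑ l, (s l : K) * (D (π (u l)) / π (u l))) * z) = D (E * z) +
        (-((n + 1) * (D (algebraMap (PowerSeries L) K PowerSeries.X) /
          algebraMap (PowerSeries L) K PowerSeries.X)) + ∑ l, (s l : K) *
          (D (algebraMap (PowerSeries L) K (PowerSeries.C (algebraMap _ L (φ l)))) /
            algebraMap (PowerSeries L) K (PowerSeries.C (algebraMap _ L (φ l))))) * (E * z) := by
    intro D z
    have h1 : D E / E = ∑ l, (s l : K) * (D (algebraMap (PowerSeries L) K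
        (1 + PowerSeries.X * r l)) / algebraMap (PowerSeries L) K (1 + PowerSeries.X * r l)) := by
      rw [hE, map_prod, ld_prod D _ c3]
      exact Finset.sum_congr rfl fun l _ => ld_root D (c3 l) (c2 l) (e2 l) (e3 l) (by
        rw [← map_pow, ← map_pow, ← map_pow, ← map_mul, e4])
    have h2 : (n + 1 : K) = -∑ l, (s l : K) * N (blk l) := by
      rw [eq_neg_iff_add_eq_zero, add_comm]
      exact_mod_cast congrArg (Rat.cast : ℚ → K) hs
    rw [Finset.sum_congr rfl fun l _ => by
      rw [hu, ld_mul D (pow_ne_zero _ hU) (mul_ne_zero (c1 l) (c2 l)), ld_pow D hU,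
        ld_mul D (c1 l) (c2 l), mul_add, mul_add, ← mul_assoc], Finset.sum_add_distrib,
      Finset.sum_add_distrib, ← h1, ← Finset.sum_mul, h2, D.leibniz, smul_eq_mul, smul_eq_mul]
    generalize ∑ l, (s l : K) * N (blk l) = x
    generalize ∑ l, (s l : K) * (D (algebraMap (PowerSeries L) K
      (PowerSeries.C (algebraMap _ L (φ l)))) / algebraMap (PowerSeries L) K
        (PowerSeries.C (algebraMap _ L (φ l)))) = y
    field_simp
    ring
  obtain ⟨W, hW⟩ : ∃ W, W = WW K d (∑ l, (s l : L) * (d (algebraMap _ L (φ l)) /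
    algebraMap _ L (φ l))) n := ⟨_, rfl⟩
  have w0 : ∀ z, E * (D0 z + (∑ l, (s l : K) * (D0 (π (u l)) / π (u l))) * z) ∈
      W := fun z => by
    rw [key, hW]
    convert W0 hD0 (E * z) using 1
    simp [hD0, sub_eq_add_neg, mul_assoc]
  have w1 : ∀ z, E * (D1 z + (∑ l, (s l : K) * (D1 (π (u l)) / π (u l))) * z) ∈
      W := fun z => by
    rw [key, hW]
    convert W1 hD1 (E * z) using 3
    obtain ⟨j, hj⟩ : ∃ j : L →+* K, ∀ c, algebraMap (PowerSeries L) K (PowerSeries.C c) = j c :=
      ⟨(algebraMap (PowerSeries L) K).comp PowerSeries.C, fun _ => rfl⟩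
    simp only [hD1, cw_X, cw_C, map_zero, zero_div, mul_zero, neg_zero, zero_add]
    simp only [hj, map_sum, map_mul, map_ratCast, map_div₀]
  obtain ⟨rJ, hJ⟩ := ps_ini (L := L) hJ
  have hκ' : algebraMap (Polynomial k) L (Polynomial.C κ) = algebraMap k L κ :=
    (IsScalarTower.algebraMap_apply k (Polynomial k) L κ).symm
  have J0 : ψ (Jac θ) ≠ 0 := by
    rw [hψ, hJ, map_mul, map_pow]
    exact mul_ne_zero (pow_ne_zero _ hU) (hne _ (by simpa using hκ))
  obtain ⟨D, hD, hDW⟩ : ∃ D : Fin 2 → Derivation k K K,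
      (∀ i j, D i (π (X j)) = if i = j then 1 else 0) ∧ ∀ i z, E * ψ (Jac θ) *
        (D i z + (∑ l, (s l : K) * (D i (π (u l)) / π (u l))) * z) ∈ W := by
    refine ⟨![(ψ (Jac θ))⁻¹ • (ψ (pderiv 1 (θ 1)) • D0 + -ψ (pderiv 0 (θ 1)) • D1),
      (ψ (Jac θ))⁻¹ • (-ψ (pderiv 1 (θ 0)) • D0 + ψ (pderiv 0 (θ 0)) • D1)], ?_,
      Fin.forall_fin_two.2 ⟨flux J0 w0 w1 (a := ψ (pderiv 1 (θ 1))) (b := -ψ (pderiv 0 (θ 1)))
        (by rw [map_neg, p0, p1, pderiv_swap, add_neg_cancel]) fun _ => rfl,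
      flux J0 w0 w1 (a := -ψ (pderiv 1 (θ 0))) (b := ψ (pderiv 0 (θ 0)))
        (by rw [map_neg, p0, p1, pderiv_swap, neg_add_cancel]) fun _ => rfl⟩⟩
    have J1 : ψ (Jac θ) = ψ (pderiv 0 (θ 0)) * ψ (pderiv 1 (θ 1)) -
        ψ (pderiv 1 (θ 0)) * ψ (pderiv 0 (θ 1)) := by rw [Jac, map_sub, map_mul, map_mul]
    simp only [Fin.forall_fin_two, hπ, aeval_X, Matrix.cons_val_zero, Matrix.cons_val_one,
      Derivation.smul_apply, Derivation.add_apply, p0, p1, smul_eq_mul, if_true, zero_ne_one,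
      one_ne_zero, if_false, inv_mul_eq_one₀ J0]
    exact ⟨⟨by rw [J1]; ring, by ring⟩, by ring, by rw [J1]; ring⟩
  let V : Submodule k K :=
    { carrier := {z | ∀ P, E * ψ (Jac θ) * (π P * z) ∈ W}
      zero_mem' := fun P => by simp
      add_mem' := fun h h' P => by simpa only [mul_add] using add_mem (h P) (h' P)
      smul_mem' := fun c z h P => by simpa only [mul_smul_comm] using W.smul_mem c (h P) }
  have hv : ∀ α : Λ → ℕ, ∃ v, (∏ l, (PowerSeries.C (algebraMap _ L (φ l)) *
      (1 + PowerSeries.X * r l)) ^ α l) * v = 1 := fun α =>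
    (PowerSeries.isUnit_iff_constantCoeff.2 (by
      simpa using Finset.prod_ne_zero_iff.2 fun l _ => pow_ne_zero _ (hφ' l))).exists_right_inv
  have h6 : ∀ α : Λ → ℕ, ∏ l, π (u l) ^ α l = algebraMap (PowerSeries L) K
      (PowerSeries.X ^ (∑ l, N (blk l) * α l) * ∏ l, (PowerSeries.C (algebraMap _ L (φ l)) *
        (1 + PowerSeries.X * r l)) ^ α l) := fun α => by
    rw [← Finset.prod_pow_eq_pow_sum, ← Finset.prod_mul_distrib, map_prod]
    exact Finset.prod_congr rfl fun l _ => by
      rw [hπ, hψ, hr, pow_mul, ← mul_pow, map_pow]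
  have h8 : ∀ α : Λ → ℕ, ∑ l, N (blk l) * α l = ∑ j, N j * ∑ l with blk l = j, α l := fun α => by
    rw [← Finset.sum_fiberwise Finset.univ blk]
    refine Finset.sum_congr rfl fun j _ => ?_
    rw [Finset.mul_sum]
    exact Finset.sum_congr rfl fun l hl => by rw [(Finset.mem_filter.1 hl).2]
  have fin := hTw K π D V hD
    (fun l => hu l ▸ mul_ne_zero (pow_ne_zero _ hU) (mul_ne_zero (c1 l) (c2 l))) ?_ ?_
    (fun z hz j P => by
      rw [← mul_assoc (π P), ← map_mul]
      exact hz (P * X j)) (fun z hz i P => ?_) 1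
  · obtain ⟨rh, e5⟩ := dvd_aeval_sub_const (γ := fun j => ps L (θ j)) (t := PowerSeries.X)
      (fun j => ps_zero (k := k) (L := L) ▸ map_dvd _ (hθ j)) h
    rw [← algHom_aeval (ps L) θ _ (fun _ => rfl) h, sub_eq_iff_eq_add'] at e5
    rw [map_one, one_mul, hπ, hψ, hψ, hJ, hE, e5, Algebra.smul_def,
      IsScalarTower.algebraMap_apply k (PowerSeries L) K, ← map_mul, ← map_mul, ← map_mul,
      mul_left_comm (∏ l, e l), mul_assoc (PowerSeries.X ^ n), hW] at fin
    obtain ⟨c, hc⟩ := W3 fin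
    refine exact_of hd (fun l => (hφ l).1) (mul_ne_zero hκ (mul_ne_zero hb hh)) (c := c) ?_
    rw [← hc]
    simp [e1, alg_ps, hκ']
  · intro _ α γ hαγ P
    choose a ha using fun i => map_dvd (ps L) (hf i)
    obtain ⟨j, hj⟩ := Function.ne_iff.1 hN
    obtain ⟨t, ht⟩ : ∃ t, ∑ i, N (β i) * γ i = ∑ l, N (blk l) * α l + (1 + t) := by
      have h1 : ∑ i, N (β i) * γ i = ∑ l, N (blk l) * α l + ∑ j, N j := by
        rw [← Finset.sum_fiberwise Finset.univ β, ← Finset.sum_fiberwise Finset.univ blk,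
          ← Finset.sum_add_distrib]
        refine Finset.sum_congr rfl fun j _ => ?_
        rw [Finset.sum_congr rfl fun i hi => by rw [(Finset.mem_filter.1 hi).2],
          Finset.sum_congr (s₁ := Finset.filter (blk · = j) _) rfl fun i hi => by
            rw [(Finset.mem_filter.1 hi).2], ← Finset.mul_sum, ← Finset.mul_sum, hαγ, mul_add,
          mul_one]
      have h2 := Finset.single_le_sum (f := N) (fun _ _ => Nat.zero_le _) (Finset.mem_univ j)
      have h3 : N j ≠ 0 := hj
      exact ⟨∑ j, N j - 1, by omega⟩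
    obtain ⟨v, hv⟩ := hv α
    have h4 : (∏ i, π (f i) ^ γ i) / ∏ l, π (u l) ^ α l = algebraMap (PowerSeries L) K
        (PowerSeries.X ^ (1 + t) * (∏ i, a i ^ γ i) * v) := by
      rw [div_eq_iff (Finset.prod_ne_zero_iff.2 fun l _ => pow_ne_zero _
        (hu l ▸ mul_ne_zero (pow_ne_zero _ hU) (mul_ne_zero (c1 l) (c2 l))))]
      have h5 : ∏ i, π (f i) ^ γ i = algebraMap (PowerSeries L) K
          (PowerSeries.X ^ (∑ i, N (β i) * γ i) * ∏ i, a i ^ γ i) := by
        rw [← Finset.prod_pow_eq_pow_sum, ← Finset.prod_mul_distrib, map_prod]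
        exact Finset.prod_congr rfl fun i _ => by
          rw [hπ, hψ, ha, map_pow (ps L), ps_zero, pow_mul, ← mul_pow, map_pow]
      rw [h5, h6, ← map_mul, ht]
      congr 1
      linear_combination -(PowerSeries.X ^ (∑ l, N (blk l) * α l + (1 + t)) * ∏ i, a i ^ γ i) * hv
    rw [h4, hπ, hψ, hψ, hJ, hE, ← map_mul, ← map_mul, ← map_mul, hW]
    have h7 := W2 (K := K) (d := d) (g := ∑ l, (s l : L) * (d (algebraMap _ L (φ l)) /
      algebraMap _ L (φ l))) (n := n) ((∏ l, e l) * (PowerSeries.C (algebraMap _ L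
      (Polynomial.C κ)) + PowerSeries.X * rJ) * ps L (aeval θ P) * PowerSeries.X ^ t *
      (∏ i, a i ^ γ i) * v)
    convert h7 using 2
    ring
  · intro α hα P
    choose a ha using fun j => ps_ini (L := L) (hχ j)
    obtain ⟨v, hv⟩ := hv α
    obtain ⟨c, hc⟩ := of_exR hd (fun l => (hφ l).1) (hT α hα)
    obtain ⟨rh, e5⟩ := dvd_aeval_sub_const (γ := fun j => ps L (θ j)) (t := PowerSeries.X)
      (fun j => ps_zero (k := k) (L := L) ▸ map_dvd _ (hθ j)) P
    rw [← algHom_aeval (ps L) θ _ (fun _ => rfl) P, sub_eq_iff_eq_add'] at e5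
    have h4 : (∏ j, π (w j) ^ ∑ l with blk l = j, α l) / ∏ l, π (u l) ^ α l =
        algebraMap (PowerSeries L) K ((∏ j, (PowerSeries.C (algebraMap _ L (χ j)) +
          PowerSeries.X * a j) ^ ∑ l with blk l = j, α l) * v) := by
      rw [div_eq_iff (Finset.prod_ne_zero_iff.2 fun l _ => pow_ne_zero _
        (hu l ▸ mul_ne_zero (pow_ne_zero _ hU) (mul_ne_zero (c1 l) (c2 l))))]
      have h5 : ∏ j, π (w j) ^ ∑ l with blk l = j, α l = algebraMap (PowerSeries L) K
          (PowerSeries.X ^ (∑ j, N j * ∑ l with blk l = j, α l) *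
            ∏ j, (PowerSeries.C (algebraMap _ L (χ j)) + PowerSeries.X * a j) ^
              ∑ l with blk l = j, α l) := by
        rw [← Finset.prod_pow_eq_pow_sum, ← Finset.prod_mul_distrib, map_prod]
        exact Finset.prod_congr rfl fun j _ => by
          rw [hπ, hψ, ha, pow_mul, ← mul_pow, map_pow]
      rw [h5, h6, ← map_mul, h8]
      congr 1
      linear_combination -(PowerSeries.X ^ (∑ j, N j * ∑ l with blk l = j, α l) *
        ∏ j, (PowerSeries.C (algebraMap _ L (χ j)) + PowerSeries.X * a j) ^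
          ∑ l with blk l = j, α l) * hv
    rw [h4, hπ, hψ, hψ, hJ, hE, e5, ← map_mul, ← map_mul, ← map_mul, mul_left_comm (∏ l, e l),
      mul_assoc (PowerSeries.X ^ n), hW]
    refine W4 (c := (κ * constantCoeff P) • c) ?_
    have h9 := congrArg PowerSeries.constantCoeff hv
    rw [d.map_smul, mul_smul_comm, ← smul_add, Algebra.smul_def]
    simp only [map_mul, map_prod, map_pow, map_add, map_one, PowerSeries.constantCoeff_C,
      PowerSeries.constantCoeff_X, zero_mul, add_zero, mul_one, e1, Finset.prod_const_one, one_mul,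
      alg_ps, hκ'] at h9 hc ⊢
    rw [← hc]
    generalize d c + _ = x
    linear_combination algebraMap k L κ * algebraMap k L (constantCoeff P) * x * h9
  · have h1 := der_pi (D i) π i (fun j => by
      rw [hD, pderiv_X, Pi.single_apply]
      split_ifs <;> simp_all) P
    convert sub_mem (hDW i (π P * z)) (hz (pderiv i P)) using 1
    rw [Derivation.leibniz, h1, smul_eq_mul, smul_eq_mul]
    ring

end QJ

theorem res3_ok {k ι ρ : Type} [Field k] [Fintype ι] [Fintype ρ] [DecidableEq ρ] [CharZero k] :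
    S_res3 k ι ρ :=
  QJ.main (FractionRing (Polynomial k)) (FractionRing (PowerSeries (FractionRing (Polynomial k))))

end

end Pool.Agent.P.MP_b91a16_ag.Id.Ln
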