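import Pool.Agent.P.MP_b91a16_ag.Ln.Defs

/-! Polynomials of degree at most one in all but two variables: statements (interface file). -/

open MvPolynomial

namespace Pool.Agent.P.MP_b91a16_ag.Id.Ln

noncomputable section

variable (k ι ρ : Type) [Field k] [Fintype ι] [Fintype ρ] [DecidableEq ρ]

/-! ### Package A -/

def S_thCone : Prop := ∀ (Ξ : Pred k ι) (p q p' q' : ℕ) (g : ι → P2 k) (β : ι → ρ) (a m : ρ → ℕ)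
  (e : ρ →₀ ℕ), Has g β a m → Lo p q g β a m → Lo p' q' g β a m → 0 < p' → q * p' < p * q' →
  ∀ (K : Type) [Field K] [Algebra k K] γ, Cone k p q p' q' K γ →
    (Th Ξ g β e K γ ↔ Th Ξ (vt g β a m) β e K γ)

def S_thTerm : Prop := ∀ (Ξ : Pred k ι) (p q D : ℕ) (g : ι → P2 k) (β : ι → ρ) (a m : ρ → ℕ)
  (e : ρ →₀ ℕ), Has g β a m → Lo p q g β a m → 0 < p →
  (∀ i, ∀ v ∈ (g i).support, v 1 < m (β i) → D ≤ v 0) → (∀ j, e j < D) →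
  ∀ (K : Type) [Field K] [Algebra k K] γ, Cone k p q 0 1 K γ →
    (Th Ξ g β e K γ ↔ Th Ξ (vt g β a m) β e K γ)

def S_thGen : Prop := ∀ (Ξ : Pred k ι) (g : ι → P2 k) (β : ι → ρ) (a m : ρ → ℕ) (e : ρ →₀ ℕ),
  Has g β a m → ∀ (K : Type) [Field K] [Algebra k K] (γ : Fin 2 → PowerSeries K),
    (∀ i, ∀ v ∈ (g i).support, v ≠ ex (a (β i)) (m (β i)) →
      (a (β i) : ℕ∞) * (γ 0).order + (m (β i) : ℕ∞) * (γ 1).order <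
        (v 0 : ℕ∞) * (γ 0).order + (v 1 : ℕ∞) * (γ 1).order ∨
      (e (β i) : ℕ∞) < (v 0 : ℕ∞) * (γ 0).order + (v 1 : ℕ∞) * (γ 1).order) →
    (Th Ξ g β e K γ ↔ Th Ξ (vt g β a m) β e K γ)

def S_exTh : Prop := ∀ (Ξ : Pred k ι) (g : ι → P2 k) (β : ι → ρ) (e : ρ →₀ ℕ) (Ψ : AP k (Fin 2))
  (v : Mot k), Con Ξ → AV Ψ v → ∃ v', AV (An Ψ (Th Ξ g β e)) v'

/-! ### Package B -/

def S_cone3 : Prop := ∀ (Ξ : Pred k ι) (A : Set (ℕ × (ρ → ℕ))) (n p q p' q' : ℕ) (g : ι → P2 k)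
  (β : ι → ρ) (a m : ρ → ℕ), Con Ξ → Has g β a m → q * p' < p * q' → nv p q a m ≠ 0 →
  nv p' q' a m ≠ 0 → (p * (n + 1) + q, nv p q a m) ∈ A → (p' * (n + 1) + q', nv p' q' a m) ∈ A →
  InR A (fun e => An (Cone k p q p' q') (Th Ξ (vt g β a m) β e)) n

/-! ### Package C -/

def S_strip3 : Prop := ∀ (Ξ : Pred k ι) (A : Set (ℕ × (ρ → ℕ))) (n p q : ℕ) (g : ι → P2 k)
  (β : ι → ρ) (a : ρ → ℕ), Con Ξ → Has g β a 0 → 0 < p → a ≠ 0 →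
  (p * (n + 1) + q, nv p q a 0) ∈ A →
  InR A (fun e => An (Cone k p q 0 1) (Th Ξ (vt g β a 0) β e)) n

def S_gr3 : Prop := ∀ (Ξ : Pred k ι) (A : Set (ℕ × (ρ → ℕ))) (n : ℕ) (N : ρ → ℕ) (G : ι → P2 k)
  (β : ι → ρ) (ψ : ι → Polynomial k) (C : Finset k), Con Ξ → N ≠ 0 → (n + 1, N) ∈ A →
  (∀ i, Ini (G i) (N (β i)) (ψ i)) →
  (∀ (e : ρ →₀ ℕ) (K : Type) [Field K] [Algebra k K] (γ : Fin 2 → PowerSeries K),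
    0 < (γ 0).order → (∀ c ∈ C, PowerSeries.constantCoeff (γ 1) ≠ algebraMap k K c) →
    (Ord G β e K γ ↔ Mon k N 0 e K γ)) →
  InR A (fun e => An (fun K _ _ γ => 0 < (γ 0).order ∧
    ∀ c ∈ C, PowerSeries.constantCoeff (γ 1) ≠ algebraMap k K c) (Th Ξ G β e)) n

/-! ### Package D -/

def S_el : Prop := ∀ (loc : Prop) (J : Set ρ) (p q : ℕ) (g : ι ⊕ ρ → P2 k) (β : ι → ρ) (a m : ρ → ℕ),
  0 < p → St p q g (bp β) a m → nv p q a m ≠ 0 → Fk loc J g β a m →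
  ∃ j ∈ J, m = Pi.single j 1 ∧ El loc g β a j fun i => q * i / p + 1

def S_el0 : Prop := ∀ (loc : Prop) (g : ι ⊕ ρ → P2 k) (β : ι → ρ) (a : ρ → ℕ) (j : ρ),
  El0 loc g β a j → El loc g β a j id ∧ Nd 1 1 g (bp β) a (Pi.single j 1)

def S_elVt : Prop := ∀ (loc : Prop) (g : ι ⊕ ρ → P2 k) (β : ι → ρ) (a : ρ → ℕ) (j : ρ) (Jf : ℕ → ℕ),
  El loc g β a j Jf → El loc (vt g (bp β) a (Pi.single j 1)) β a j Jf

def S_reg : Prop := ∀ (p q : ℕ) (g : ι → P2 k) (β : ι → ρ) (a m : ρ → ℕ) (e : ρ →₀ ℕ), 0 < p →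
  Lo p q g β a m → nv p q a m ≠ 0 → ∀ (K : Type) [Field K] [Algebra k K] γ, Ord g β e K γ →
    (Cone k p q 0 1 K γ ↔ Reg k (fun i => q * i / p + 1) K γ)

def S_exReg : Prop := ∀ (Ξ : Pred k (ι ⊕ ρ)) (loc : Prop) (g : ι ⊕ ρ → P2 k) (β : ι → ρ) (a : ρ → ℕ)
  (j : ρ) (Jf : ℕ → ℕ) (n : ℕ), Con Ξ → El loc g β a j Jf →
  ∃ Z, Gen (fun e => An (Reg k Jf) (Th Ξ g (bp β) e)) n Z

/-! ### Package E -/

def S_two3 : Prop := ∀ (p q : ℕ) (g : ι ⊕ ρ → P2 k) (β : ι → ρ) (a m : ρ → ℕ), 0 < p →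
  p.Coprime q → Nd p q g (bp β) a m → NF p q g (bp β) a m →
  (∃ l, ∃ v ∈ (g l).support, wt p q v = nv p q a m (bp β l) ∧ v 1 < m (bp β l)) →
  2 ≤ ∑ j, m j → CertA p q (nv p q a m) g β 2

/-! ### Package F -/

def S_one3 : Prop := ∀ (loc : Prop) (J : Set ρ) (p q : ℕ) (g : ι ⊕ ρ → P2 k) (β : ι → ρ)
  (a m : ρ → ℕ) (l₀ : ι ⊕ ρ), Ctx loc J g β → 0 < p → p.Coprime q → Nd p q g (bp β) a m →
  Pref loc g β a m l₀ → (p = 1 → coeff (ex (a (bp β l₀) + q) (m (bp β l₀) - 1)) (g l₀) = 0) →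
  (∃ l, ∃ v ∈ (g l).support, wt p q v = nv p q a m (bp β l) ∧ v 1 < m (bp β l)) →
  ∑ j, m j = 1 → ¬Fk loc J g β a m →
  CertB loc p q (nv p q a m) g β (bp β l₀) ∨ CertC loc p q (nv p q a m) g β (bp β l₀)

def S_p2 : Prop := ∀ (Λ : Type) [Fintype Λ] (φ : Λ → Polynomial k) (s : Λ → ℚ) (l₀ : Λ),
  (φ l₀).natDegree = 1 → s l₀ = -1 → (∀ l ≠ l₀, ∃ c ≠ 0, φ l = Polynomial.C c) →
  ¬Exact φ s ∧ ∀ (c : k) (t : ℕ), 0 < t → ExR φ s (Polynomial.C c) (φ l₀ ^ t)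

/-! ### Package G -/

def S_sc : Prop := ∀ (Φ : Polynomial (Polynomial k)) (z : ℕ), Φ.eval 1 ≠ 0 →
  (∃ Z : Finset k, z ≤ Z.card ∧ ∀ c ∈ Z, (Φ.eval 1).IsRoot c) →
  {t : k | ¬(Φ.eval (Polynomial.C t) ≠ 0 ∧
    ∃ Z : Finset k, z ≤ Z.card ∧ ∀ c ∈ Z, (Φ.eval (Polynomial.C t)).IsRoot c)}.Finite

def S_bert : Prop := ∀ A B : Polynomial k, IsCoprime A B → B.natDegree ≤ A.natDegree → B ≠ 0 →
  ∀ C : Finset k, {t : k | ¬∃ Z : Finset k, Z.card = A.natDegree ∧ Disjoint Z C ∧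
    ∀ c ∈ Z, (A + Polynomial.C t * B).IsRoot c}.Finite

/-! ### Package H -/

def S_cls : Prop := ∀ (φ : ι ⊕ ρ → Polynomial k) (β : ι → ρ) (N : ρ → ℕ) (y : ι → k)
  (F : (ι → k) → ρ → Polynomial k),
  (∀ y j, F y j = φ (.inr j) + ∑ i with β i = j, Polynomial.C (y i) * φ (.inl i)) →
  (∀ l, (φ l).natDegree ≤ N (bp β l)) → (∀ j, (F y j).coeff (N j) ≠ 0) →
  (∃ (y' : ι → k) (Z : Finset k), (∀ j, F y' j ≠ 0) ∧ 3 ≤ Z.card ∧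
    ∀ c ∈ Z, ∃ j, (F y' j).IsRoot c) ∨
  (∃ (c₁ c₂ : k) (x x' : ρ → ℕ), c₁ ≠ c₂ ∧ (∀ j, x j + x' j = N j) ∧ ∀ l, ∃ κ : k,
    φ l = Polynomial.C κ * (Polynomial.X - Polynomial.C c₁) ^ x (bp β l) *
      (Polynomial.X - Polynomial.C c₂) ^ x' (bp β l)) ∨
  (∃ i, φ (.inl i) ≠ 0 ∧ N = Pi.single (β i) 2) ∨
  (∃ i i', β i ≠ β i' ∧ N = Pi.single (β i) 1 + Pi.single (β i') 1 ∧
    (∀ κ : k, φ (.inl i) ≠ Polynomial.C κ * F y (β i)) ∧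
    ∀ κ : k, φ (.inl i') ≠ Polynomial.C κ * F y (β i')) ∨
  ∃ (i : ι) (c : k), 0 < N (β i) ∧ (∀ κ : k, φ (.inl i) ≠ Polynomial.C κ * F y (β i)) ∧
    (∀ l, bp β l = β i → (Polynomial.X - Polynomial.C c) ^ (N (β i) - 1) ∣ φ l) ∧
    ∀ l, bp β l ≠ β i → ∃ κ : k,
      φ l = Polynomial.C κ * (Polynomial.X - Polynomial.C c) ^ N (bp β l)

/-! ### Package I -/

def S_r3 : Prop := ∀ (loc : Prop) (J : Set ρ) (f : ι ⊕ ρ → P2 k) (β : ι → ρ), Ctx loc J f β →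
  (∀ j, ∃ l, bp β l = j ∧ f l ≠ 0) →
  (∃ (A : Matrix (Fin 2) (Fin 2) k) (a m : ρ → ℕ), A.det ≠ 0 ∧ Has (pb (lin A) f) (bp β) a m ∧
    ∀ l, ∀ v ∈ (pb (lin A) f l).support, v ≠ ex (a (bp β l)) (m (bp β l)) →
      a (bp β l) + m (bp β l) < v 0 + v 1) ∨
  (∃ (A : Matrix (Fin 2) (Fin 2) k) (a : ρ → ℕ), ∃ j ∈ J, A.det ≠ 0 ∧
    El0 loc (pb (lin A) f) β a j) ∨
  ∃ a m, Nd 1 1 f (bp β) a m ∧ nv 1 1 a m ≠ 0 ∧ ((∃ j ∈ J, nv 1 1 a m = Pi.single j 2) ∨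
    ∃ A : Matrix (Fin 2) (Fin 2) k, A.det ≠ 0 ∧ LoN 1 1 (pb (lin A) f) (bp β) (nv 1 1 a m) ∧
      (CertA 1 1 (nv 1 1 a m) (pb (lin A) f) β 3 ∨ ∃ j,
        CertB loc 1 1 (nv 1 1 a m) (pb (lin A) f) β j ∧ nv 1 1 a m ≠ Pi.single j 1 ∨
        CertC loc 1 1 (nv 1 1 a m) (pb (lin A) f) β j))

/-! ### Package J -/

def S_res3 : Prop := ∀ (Λ : Type) [Fintype Λ] (g : ι → P2 k) (β : ι → ρ) (θ : Fin 2 → P2 k) (n : ℕ)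
  (κ : k) (N : ρ → ℕ) (u : Λ → P2 k) (blk : Λ → ρ) (φ : Λ → Polynomial k) (s : Λ → ℚ)
  (w : ρ → P2 k) (ψ : ρ → Polynomial k) (T : Set (Λ → ℕ)) (Q : Prop) (h : P2 k) (c : k),
  (∀ i, X 0 ∣ θ i) → κ ≠ 0 → Ini (Jac θ) n (Polynomial.C κ) → N ≠ 0 →
  (∀ i, X 0 ^ N (β i) ∣ aeval θ (g i)) →
  (∀ l, φ l ≠ 0 ∧ Ini (aeval θ (u l)) (N (blk l)) (φ l)) →
  (∀ j, Ini (aeval θ (w j)) (N j) (ψ j)) →
  (∀ α ∈ T, ExR φ s (∏ j, ψ j ^ ∑ l with blk l = j, α l) (∏ l, φ l ^ α l)) →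
  ∑ l, s l * N (blk l) + (n + 1) = 0 → constantCoeff h ≠ 0 → TwAt g β u blk s w T Q h c →
  c ≠ 0 → Exact φ s

/-! ### Package K -/

def S_br3 : Prop := ∀ (Λ : Type) [Fintype Λ] (f : ι → P2 k) (β : ι → ρ) (π : Fin 2 → P2 k) (n : ℕ)
  (m : ρ → ℕ) (φ : PowerSeries k) (u : Λ → P2 k) (blk : Λ → ρ) (s : Λ → ℚ) (w : ρ → P2 k)
  (T : Set (Λ → ℕ)) (Q : Prop) (h : P2 k) (c : k), Ch π n → PowerSeries.constantCoeff φ = 0 →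
  m ≠ 0 → (∀ i, Polynomial.X ^ m (β i) ∣ Φs φ (pb π f i)) →
  (∀ l, Polynomial.X ^ m (blk l) ∣ Φs φ (aeval π (u l)) ∧
    (Φs φ (aeval π (u l))).coeff (m (blk l)) ≠ 0) →
  ∑ l, s l * m (blk l) + 1 = 0 → (∀ α, α ∉ T) → constantCoeff h ≠ 0 →
  TwAt f β u blk s w T Q h c → c = 0

def S_rBr : Prop := ∀ (loc : Prop) (J : Set ρ) (f : ι ⊕ ρ → P2 k) (β : ι → ρ) (π : Fin 2 → P2 k)
  (n : ℕ) (m : ρ → ℕ) (φ : PowerSeries k), Ch π n → PowerSeries.constantCoeff φ = 0 → m ≠ 0 →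
  (∀ l, Polynomial.X ^ m (bp β l) ∣ Φs φ (pb π f l)) →
  (∀ j, ∃ l, bp β l = j ∧ (Φs φ (pb π f l)).coeff (m j) ≠ 0) → (1, m) ∈ Alw3 loc J f β

/-! ### Package L -/

def S_rA : Prop := ∀ (loc : Prop) (J : Set ρ) (f : ι ⊕ ρ → P2 k) (β : ι → ρ) (π : Fin 2 → P2 k)
  (n p q z : ℕ) (N m : ρ → ℕ), Ch π n → 0 < p → 0 < q → LoN p q (pb π f) (bp β) N → N ≠ 0 →
  (∀ l, (ini p q (N (bp β l)) 0 1 (pb π f l)).natDegree ≤ m (bp β l)) →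
  CertA p q N (pb π f) β z →
  (∀ w : ρ → ℚ, (∀ j, 0 < w j) → ∑ j, w j * N j = p * (n + 1) + q →
    ∑ j, w j * m j < 2 ∧ 2 ≤ z ∨ ∑ j, w j * m j ≤ 2 ∧ 3 ≤ z) →
  (p * (n + 1) + q, N) ∈ Alw3 loc J f β

/-! ### Package M -/

def S_rB : Prop := ∀ (loc : Prop) (J : Set ρ) (f : ι ⊕ ρ → P2 k) (β : ι → ρ) (π : Fin 2 → P2 k)
  (n p q : ℕ) (N : ρ → ℕ) (j : ρ), Ctx loc J f β → Ch π n → 0 < p → 0 < q →
  LoN p q (pb π f) (bp β) N → N ≠ 0 →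
  (CertB loc p q N (pb π f) β j ∧ (∀ w : ρ → ℚ, (∀ j, 0 < w j) →
      ∑ j, w j * N j = p * (n + 1) + q → w j < 2) ∨ CertC loc p q N (pb π f) β j) →
  (p * (n + 1) + q, N) ∈ Alw3 loc J f β

/-! ### Package N -/

def S_tw3 : Prop := ∀ (loc : Prop) (r : ℕ) (f : Fin r ⊕ ρ → P2 k) (β : Fin r → ρ)
  (H : MvPolynomial (Fin (2 + r)) k) (b : MvPolynomial ρ k), BEq (gL f β) H b → (¬loc → H = 1) →
  ∀ y, Tw3 loc f β y (rs y H) b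

/-! ### Packages O, P, Q: elimination of `Y`, one polynomial -/

def S_fake {σ : Type} [Fintype σ] (loc : Prop) (J : Set ρ) (β : ι → ρ) (Ξ : σ → Pred k (ι ⊕ ρ))
    (W : σ → MvPowerSeries ρ (Mot k)) : Prop :=
  ∀ (g g' : ι ⊕ ρ → P2 k) (a : ρ → ℕ) (j : ρ) (Jf : ℕ → ℕ) (n : ℕ)
    (Z Z' : σ → MvPowerSeries ρ (Mot k)), j ∈ J → El loc g β a j Jf → El loc g' β a j Jf →
    vt g (bp β) a (Pi.single j 1) = vt g' (bp β) a (Pi.single j 1) →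
    Gen2 Ξ (Reg k Jf) g (bp β) n Z → Gen2 Ξ (Reg k Jf) g' (bp β) n Z' →
    ∑ s, W s * Z s = ∑ s, W s * Z' s

def S_tot : Prop := ∀ (g : ι ⊕ Unit → P2 k) (Ψ : AP k (Fin 2)) (z : Bool → ℕ → Mot k),
  (∀ s e, AV (An Ψ (Th (ΞL k ι s) g (bp fun _ => ()) (Finsupp.single () e))) (z s e)) →
  ∀ e, AV (Tot Ψ g e) (z true e + ∑ e' ∈ Finset.range e, Linv k ^ (e - e') * z false e')

def S_elim : Prop := ∀ (g : ι ⊕ Unit → P2 k) (a : ℕ) (Jf : ℕ → ℕ) (i e : ℕ),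
  El True g (fun _ => ()) (fun _ => a) () Jf → 0 < i →
  AV (Tot (fun _ _ _ γ => (γ 0).order = i ∧ (Jf i : ℕ∞) ≤ (γ 1).order) g e)
    (if a * i + Jf i ≤ e then (1 - Linv k) * Linv k ^ (i + (e - a * i) + 1) else 0)

def S_fakeL : Prop := S_fake k ι Unit True Set.univ (fun _ => ()) (ΞL k ι) (WL k)

def S_finL : Prop := ∀ (r : ℕ) (f : Fin r ⊕ Unit → P2 k) (Z : Bool → MvPowerSeries Unit (Mot k)),
  constantCoeff (f (.inr ())) = 0 →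
  (∀ s e, AV (An (Cone k 1 0 0 1) (Th (ΞL k (Fin r) s) f (bp fun _ => ()) e))
    (MvPowerSeries.coeff e (Z s))) →
  zeta (gL f (fun _ => ()) ()) * (1 - PowerSeries.C (Linv k ^ 1) * PowerSeries.X ^ 1) =
    PowerSeries.C (algebraMap (K0 k) (Mot k) (cls k (Polynomial k)) ^ 2) * ∑ s, WL k s * Z s

end

end Pool.Agent.P.MP_b91a16_ag.Id.Ln
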